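import Pool.Agent.TH905.VF.Abs
import Pool.Agent.W989.AC.MULT
import Pool.Agent.W131.AC.GROW

/-!
# The local heights of an ideal and of its multiplier ideal on a curve
-/

set_option autoImplicit false

namespace Pool.Agent.W5h9.GC

open NumberField IsDedekindDomain Height Pool.Agent.H691R3 Polynomial Pool.Agent.TH905.VF
open Pool.Agent.W223.AC (tt IntEl)
open Pool.Agent.TH905.VF.AC (lamF lamI lamF_nonneg lamI_nonneg)

/-- `max (0, - log sup)` -/
noncomputable def ml {s : ℕ} (c : Fin (s + 1) → ℝ) : ℝ := max 0 (-Real.log (⨆ l, c l))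

lemma ml_bound {m r q : ℕ} {u : Fin q → ℕ} (F : Fin (m + 1) → ℝ) (G : Fin (r + 1) → ℝ)
    (Y : ∀ j, Fin (u j + 1) → ℝ) (hF0 : 0 < F 0) (hG0 : 0 < G 0) (hY0 : ∀ j, 0 < Y j 0) {B : ℝ} (hB : 1 ≤ B)
    (h : F 0 < 1 → ∀ k (l : ∀ j, Fin (u j + 1)), G k * ∏ j, Y j (l j) ≤ B * ⨆ i, F i) :
    ml F - ml G ≤ ∑ j, ml (Y j) + Real.log B := by
  have hlogB : 0 ≤ Real.log B := Real.log_nonneg hB
  have hmlG : 0 ≤ ml G := le_max_left _ _
  have hmlY : ∀ j, 0 ≤ ml (Y j) := fun j => le_max_left _ _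
  have hsF : F 0 ≤ ⨆ i, F i := le_ciSup (Set.finite_range F).bddAbove 0
  by_cases hF : (⨆ i, F i) < 1
  · obtain ⟨k, hk⟩ := exists_eq_ciSup_of_finite (f := G)
    choose l hl using fun j => exists_eq_ciSup_of_finite (f := Y j)
    have h1 := h (lt_of_le_of_lt hsF hF) k l
    rw [hk] at h1
    simp only [hl] at h1
    have hsG : 0 < ⨆ i, G i := hG0.trans_le (le_ciSup (Set.finite_range G).bddAbove 0)
    have hsY : ∀ j, 0 < ⨆ i, Y j i := fun j => (hY0 j).trans_le (le_ciSup (Set.finite_range (Y j)).bddAbove 0)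
    have hsF0 : 0 < ⨆ i, F i := hF0.trans_le hsF
    have hP : 0 < ∏ j, ⨆ i, Y j i := Finset.prod_pos fun j _ => hsY j
    have h2 := Real.log_le_log (mul_pos hsG hP) h1
    rw [Real.log_mul hsG.ne' hP.ne', Real.log_mul (by linarith) hsF0.ne', Real.log_prod fun j _ => (hsY j).ne'] at h2
    have h3 : ml F = -Real.log (⨆ i, F i) := max_eq_right (by
      have := Real.log_nonpos hsF0.le hF.le
      linarith)
    have h4 : -Real.log (⨆ i, G i) ≤ ml G := le_max_right _ _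
    have h5 : ∑ j, -Real.log (⨆ i, Y j i) ≤ ∑ j, ml (Y j) := Finset.sum_le_sum fun j _ => le_max_right _ _
    rw [Finset.sum_neg_distrib] at h5
    rw [h3]
    linarith
  · push Not at hF
    have h3 : ml F = 0 := max_eq_left (by
      have := Real.log_nonneg hF
      linarith)
    have h5 : 0 ≤ ∑ j, ml (Y j) := Finset.sum_nonneg fun j _ => hmlY j
    rw [h3]
    linarith

lemma fv_sum_le {L : Type} [Field L] [NumberField L] (v : HeightOneSpectrum (𝓞 L)) {ι : Type} (s : Finset ι)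
    (x : ι → L) {B : ℝ} (hB : 0 ≤ B) (h : ∀ i ∈ s, fv v (x i) ≤ B) : fv v (∑ i ∈ s, x i) ≤ B := by
  classical
  induction s using Finset.induction_on with
  | empty => simpa using hB
  | insert i s hi ih =>
    rw [Finset.sum_insert hi]
    refine (fv_na v _ _).trans (max_le (h i (Finset.mem_insert_self _ _)) (ih fun j hj => h j (Finset.mem_insert_of_mem hj)))

lemma growth_family (A : Type) [CommRing A] [Algebra ℚ[X] A] [Module.Finite ℚ[X] A] {ι : Type} [Fintype ι] (c : ι → A) :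
    ∃ (M e : ℕ) (K₀ : ℝ), M ≠ 0 ∧ 1 ≤ K₀ ∧ ∀ (L : Type) [Field L] [NumberField L] (φ : A →+* L),
      (∀ i (v : HeightOneSpectrum (𝓞 L)), fv v (φ (c i)) * fv v (M : L) ≤ max (fv v (φ (tt A))) 1 ^ e) ∧
      ∀ i (w : InfinitePlace L), w (φ (c i)) ≤ K₀ * max (w (φ (tt A))) 1 ^ e := by
  classical
  choose n hn hint using fun i => Pool.Agent.W989.AC.MULT.t A (c i)
  choose e K hK hgrow using fun i => Pool.Agent.W131.AC.t A _ (hint i)
  refine ⟨∏ i, n i, ∑ i, e i, 1 + ∑ i, K i, Finset.prod_ne_zero_iff.2 fun i _ => hn i, ?_, ?_⟩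
  · have : 0 ≤ ∑ i, K i := Finset.sum_nonneg fun i _ => by linarith [hK i]
    linarith
  intro L _ _ φ
  refine ⟨fun i v => ?_, fun i w => ?_⟩
  · obtain ⟨k, hk⟩ := Finset.dvd_prod_of_mem n (Finset.mem_univ i)
    have h1 : fv v (φ ((n i : A) * c i)) ≤ max (fv v (φ (tt A))) 1 ^ e i := (hgrow i L φ).1 v
    have h2 : fv v (k : L) ≤ 1 := by
      have : fv v (((k : ℕ) : ℤ) : L) ≤ 1 := Pool.Agent.W125.CV.fv_int v (k : ℤ)
      simpa using this
    have h3 : fv v (φ (c i)) * fv v ((∏ i, n i : ℕ) : L) = fv v (φ ((n i : A) * c i)) * fv v (k : L) := by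
      rw [hk, Nat.cast_mul, map_mul (fv v), map_mul φ, map_natCast φ, map_mul (fv v)]
      ring
    rw [h3]
    have h4 : max (fv v (φ (tt A))) 1 ^ e i ≤ max (fv v (φ (tt A))) 1 ^ ∑ i, e i :=
      pow_le_pow_right₀ (le_max_right _ _) (Finset.single_le_sum (fun i _ => Nat.zero_le _) (Finset.mem_univ i))
    have h5 : 0 ≤ fv v (φ ((n i : A) * c i)) := (fv v).nonneg _
    have h6 : 0 ≤ fv v (k : L) := (fv v).nonneg _
    calc fv v (φ ((n i : A) * c i)) * fv v (k : L) ≤ fv v (φ ((n i : A) * c i)) * 1 := by gcongr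
      _ ≤ _ := by rw [mul_one]; exact h1.trans h4
  · have h1 : w (φ ((n i : A) * c i)) ≤ K i * max (w (φ (tt A))) 1 ^ e i := (hgrow i L φ).2 w
    have h2 : w (φ ((n i : A) * c i)) = n i * w (φ (c i)) := by
      rw [map_mul φ, map_natCast, map_mul]
      congr 1
      rw [← InfinitePlace.norm_embedding_eq w, map_natCast, Complex.norm_natCast]
    have h3 : (1 : ℝ) ≤ n i := by exact_mod_cast Nat.one_le_iff_ne_zero.2 (hn i)
    have h4 : max (w (φ (tt A))) 1 ^ e i ≤ max (w (φ (tt A))) 1 ^ ∑ i, e i :=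
      pow_le_pow_right₀ (le_max_right _ _) (Finset.single_le_sum (fun i _ => Nat.zero_le _) (Finset.mem_univ i))
    have h5 : K i ≤ 1 + ∑ i, K i := by
      have := Finset.single_le_sum (f := K) (fun i _ => by linarith [hK i]) (Finset.mem_univ i)
      linarith
    have h6 : 0 ≤ w (φ (c i)) := apply_nonneg _ _
    have h7 : 0 ≤ K i := by linarith [hK i]
    have h8 : (0 : ℝ) ≤ max (w (φ (tt A))) 1 := le_trans zero_le_one (le_max_right _ _)
    rw [h2] at h1
    calc w (φ (c i)) ≤ n i * w (φ (c i)) := le_mul_of_one_le_left h6 h3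
      _ ≤ K i * max (w (φ (tt A))) 1 ^ e i := h1
      _ ≤ _ := mul_le_mul h5 h4 (by positivity) (by linarith)

/-- the rational functions `t - a` -/
noncomputable def tma (A : Type) [CommRing A] [Algebra ℚ[X] A] (a : ℚ) : A := tt A - algebraMap ℚ[X] A (C a)

lemma φ_tma {A : Type} [CommRing A] [Algebra ℚ[X] A] {L : Type} [Field L] [NumberField L] (φ : A →+* L) (a : ℚ) :
    φ (tma A a) = φ (tt A) - (a : L) := by
  unfold tma
  rw [map_sub]
  congr 1
  exact eq_ratCast (φ.comp ((algebraMap ℚ[X] A).comp C)) a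

lemma exists_lt_one {q : ℕ} {x : Fin q → ℝ} {k : ℕ} (h : (∏ j, x j) ^ k < 1) : ∃ j, x j < 1 := by
  by_contra hc
  push Not at hc
  have h1 : 1 ≤ ∏ j, x j := by
    calc (1 : ℝ) = ∏ _j : Fin q, 1 := by simp
      _ ≤ _ := Finset.prod_le_prod (fun _ _ => zero_le_one) fun j _ => hc j
  have h2 : 1 ≤ (∏ j, x j) ^ k := one_le_pow₀ h1
  linarith

theorem ideal_bound (A : Type) [CommRing A] [Algebra ℚ[X] A] [Module.Finite ℚ[X] A] {m r q : ℕ} (a : Fin q → ℚ)
    {u : Fin q → ℕ} (f : Fin (m + 1) → A) (g : Fin (r + 1) → A) (y : ∀ j, Fin (u j + 1) → A) (k k' : ℕ)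
    (hf : f 0 = (∏ j, tma A (a j)) ^ k) (hg : g 0 = (∏ j, tma A (a j)) ^ k') (hy : ∀ j, y j 0 = tma A (a j))
    (hfg : ∀ i (l : ∀ j, Fin (u j + 1)), g i * ∏ j, y j (l j) ∈ Ideal.span (Set.range f)) :
    ∃ c : ℝ, ∀ (L : Type) [Field L] [NumberField L] (φ : A →+* L) (U : Finset (HeightOneSpectrum (𝓞 L))),
      (∀ j, φ (tma A (a j)) ≠ 0) →
      ∑ w : InfinitePlace L, (w.mult : ℝ) * (lamI f φ w - lamI g φ w) + ∑ w ∈ U, (lamF f φ w - lamF g φ w) ≤
        ∑ w : InfinitePlace L, (w.mult : ℝ) * ∑ j, lamI (y j) φ w + ∑ w ∈ U, ∑ j, lamF (y j) φ w +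
          Module.finrank ℚ L * c := by
  classical
  -- the coefficients
  have hc : ∀ x : Fin (r + 1) × (∀ j, Fin (u j + 1)), ∃ c : Fin (m + 1) → A,
      ∑ i, c i * f i = g x.1 * ∏ j, y j (x.2 j) := fun x =>
    Ideal.mem_span_range_iff_exists_fun.1 (hfg x.1 x.2)
  choose c hc using hc
  obtain ⟨M, e, K₀, hM, hK₀, hgr⟩ := growth_family A
    (fun x : (Fin (r + 1) × (∀ j, Fin (u j + 1))) × Fin (m + 1) => c x.1 x.2)
  set D : ℕ := ∏ j, (a j).den with hD
  have hD0 : D ≠ 0 := Finset.prod_ne_zero_iff.2 fun j _ => (a j).den_ne_zero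
  set B₀ : ℝ := 1 + ∑ j, |((a j : ℚ) : ℝ)| with hB₀
  have hB₀1 : 1 ≤ B₀ := by
    have : 0 ≤ ∑ j, |((a j : ℚ) : ℝ)| := Finset.sum_nonneg fun j _ => abs_nonneg _
    linarith
  set BI : ℝ := (m + 1) * (K₀ * (1 + B₀) ^ e) with hBI
  have hBI1 : 1 ≤ BI := by
    have h1 : (1 : ℝ) ≤ (m : ℝ) + 1 := by
      have : (0 : ℝ) ≤ m := Nat.cast_nonneg _
      linarith
    have h2 : 1 ≤ (1 + B₀) ^ e := one_le_pow₀ (by linarith)
    have h3 : 1 ≤ K₀ * (1 + B₀) ^ e := one_le_mul_of_one_le_of_one_le hK₀ h2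
    exact one_le_mul_of_one_le_of_one_le h1 h3
  refine ⟨Real.log BI + Real.log ((M * D ^ e : ℕ) : ℝ), ?_⟩
  intro L _ _ φ U hne
  obtain ⟨hgrF, hgrI⟩ := hgr L φ
  have hP0 : φ (∏ j, tma A (a j)) ≠ 0 := by
    rw [map_prod]
    exact Finset.prod_ne_zero_iff.2 fun j _ => hne j
  have hf0 : φ (f 0) ≠ 0 := by rw [hf, map_pow]; exact pow_ne_zero _ hP0
  have hg0 : φ (g 0) ≠ 0 := by rw [hg, map_pow]; exact pow_ne_zero _ hP0
  have hy0 : ∀ j, φ (y j 0) ≠ 0 := fun j => by rw [hy]; exact hne j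
  have hMD : ((M * D ^ e : ℕ) : L) ≠ 0 := by exact_mod_cast mul_ne_zero hM (pow_ne_zero _ hD0)
  -- the infinite places
  have hI : ∀ w : InfinitePlace L, lamI f φ w - lamI g φ w ≤ ∑ j, lamI (y j) φ w + Real.log BI := by
    intro w
    apply ml_bound (fun i => w (φ (f i))) (fun i => w (φ (g i))) (fun j i => w (φ (y j i)))
      (InfinitePlace.pos_iff.2 hf0) (InfinitePlace.pos_iff.2 hg0) (fun j => InfinitePlace.pos_iff.2 (hy0 j)) hBI1
    intro hlt i l
    rw [hf, map_pow, map_pow, map_prod, map_prod] at hlt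
    obtain ⟨j, hj⟩ := exists_lt_one hlt
    have hrat : w ((a j : ℚ) : L) = |((a j : ℚ) : ℝ)| := by
      rw [← InfinitePlace.norm_embedding_eq w, map_ratCast, Complex.norm_ratCast]
    have ht : max (w (φ (tt A))) 1 ≤ 1 + B₀ := by
      refine max_le ?_ (by linarith)
      have h1 : φ (tt A) = φ (tma A (a j)) + ((a j : ℚ) : L) := by rw [φ_tma]; ring
      rw [h1]
      refine (w.1.add_le _ _).trans ?_
      have h2 : w.1 ((a j : ℚ) : L) = |((a j : ℚ) : ℝ)| := hrat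
      have h3 : |((a j : ℚ) : ℝ)| ≤ ∑ j, |((a j : ℚ) : ℝ)| :=
        Finset.single_le_sum (f := fun j => |((a j : ℚ) : ℝ)|) (fun j _ => abs_nonneg _) (Finset.mem_univ j)
      have h4 : w.1 (φ (tma A (a j))) < 1 := hj
      linarith
    have h0 : (0 : ℝ) ≤ max (w (φ (tt A))) 1 := le_trans zero_le_one (le_max_right _ _)
    have hcw : ∀ i', w (φ (c (i, l) i')) ≤ K₀ * (1 + B₀) ^ e := fun i' =>
      (hgrI ((i, l), i') w).trans (by gcongr)
    have h1 : w (φ (g i)) * ∏ j, w (φ (y j (l j))) = w (φ (g i * ∏ j, y j (l j))) := by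
      rw [map_mul, map_mul, map_prod, map_prod]
    rw [h1, ← hc (i, l), map_sum]
    calc w (∑ i', φ (c (i, l) i' * f i')) ≤ ∑ i', w (φ (c (i, l) i' * f i')) := w.1.sum_le _ _
      _ ≤ ∑ _i' : Fin (m + 1), K₀ * (1 + B₀) ^ e * ⨆ i, w (φ (f i)) := by
          refine Finset.sum_le_sum fun i' _ => ?_
          rw [map_mul, map_mul]
          have h2 : w (φ (f i')) ≤ ⨆ i, w (φ (f i)) :=
            le_ciSup (f := fun i => w (φ (f i))) (Set.finite_range _).bddAbove i'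
          exact mul_le_mul (hcw i') h2 (apply_nonneg _ _) (by positivity)
      _ = BI * ⨆ i, w (φ (f i)) := by
          rw [Finset.sum_const, Finset.card_univ, Fintype.card_fin, nsmul_eq_mul, hBI]
          push_cast
          ring
  -- the finite places
  have hF : ∀ v : HeightOneSpectrum (𝓞 L), lamF f φ v - lamF g φ v ≤
      ∑ j, lamF (y j) φ v + -Real.log (fv v ((M * D ^ e : ℕ) : L)) := by
    intro v
    have hMDpos : 0 < fv v ((M * D ^ e : ℕ) : L) := (fv v).pos hMD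
    have hint : ∀ n : ℤ, fv v ((n : ℤ) : L) ≤ 1 := fun n => Pool.Agent.W125.CV.fv_int v n
    have hMD1 : fv v ((M * D ^ e : ℕ) : L) ≤ 1 := by
      have := hint ((M * D ^ e : ℕ) : ℤ)
      rwa [Int.cast_natCast] at this
    rw [← Real.log_inv]
    apply ml_bound (fun i => fv v (φ (f i))) (fun i => fv v (φ (g i))) (fun j i => fv v (φ (y j i)))
      ((fv v).pos hf0) ((fv v).pos hg0) (fun j => (fv v).pos (hy0 j)) ((one_le_inv₀ hMDpos).2 hMD1)
    intro hlt i l
    rw [hf, map_pow, map_pow, map_prod, map_prod] at hlt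
    obtain ⟨j, hj⟩ := exists_lt_one hlt
    have hDpos : 0 ≤ fv v ((D : ℕ) : L) := (fv v).nonneg _
    have hD1 : fv v ((D : ℕ) : L) ≤ 1 := by
      have := hint ((D : ℕ) : ℤ)
      rwa [Int.cast_natCast] at this
    have ht : max (fv v (φ (tt A))) 1 * fv v ((D : ℕ) : L) ≤ 1 := by
      obtain ⟨d, hd⟩ := Finset.dvd_prod_of_mem (fun j => (a j).den) (Finset.mem_univ j)
      have haD : fv v (((a j : ℚ) : L) * ((D : ℕ) : L)) ≤ 1 := by
        have h1 : ((a j : ℚ) : L) * ((D : ℕ) : L) = (((a j).num * d : ℤ) : L) := by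
          rw [hD, hd]
          have h2 : ((a j : ℚ) : L) * (((a j).den : ℕ) : L) = (((a j).num : ℤ) : L) := by
            have := Rat.mul_den_eq_num (a j)
            exact_mod_cast congrArg (fun x : ℚ => (x : L)) this
          push_cast
          rw [← mul_assoc, h2]
        rw [h1]
        exact hint _
      rw [max_mul_of_nonneg _ _ hDpos, one_mul]
      refine max_le ?_ hD1
      rw [← map_mul]
      have h1 : φ (tt A) * ((D : ℕ) : L) = φ (tma A (a j)) * ((D : ℕ) : L) + ((a j : ℚ) : L) * ((D : ℕ) : L) := by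
        rw [φ_tma]; ring
      rw [h1]
      refine (fv_na v _ _).trans (max_le ?_ haD)
      rw [map_mul]
      exact mul_le_one₀ hj.le hDpos hD1
    have hM0 : 0 ≤ fv v ((M : ℕ) : L) := (fv v).nonneg _
    have hcv : ∀ i', fv v (φ (c (i, l) i')) * fv v ((M * D ^ e : ℕ) : L) ≤ 1 := by
      intro i'
      have h1 := hgrF ((i, l), i') v
      simp only at h1
      rw [Nat.cast_mul, map_mul, Nat.cast_pow, map_pow, ← mul_assoc]
      calc fv v (φ (c (i, l) i')) * fv v ((M : ℕ) : L) * fv v ((D : ℕ) : L) ^ e ≤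
          max (fv v (φ (tt A))) 1 ^ e * fv v ((D : ℕ) : L) ^ e := by gcongr
        _ = (max (fv v (φ (tt A))) 1 * fv v ((D : ℕ) : L)) ^ e := by rw [mul_pow]
        _ ≤ 1 := pow_le_one₀ (mul_nonneg (le_trans zero_le_one (le_max_right _ _)) hDpos) ht
    have hcv' : ∀ i', fv v (φ (c (i, l) i')) ≤ (fv v ((M * D ^ e : ℕ) : L))⁻¹ := fun i' => by
      rw [← one_div, le_div_iff₀ hMDpos]
      exact hcv i'
    have h1 : fv v (φ (g i)) * ∏ j, fv v (φ (y j (l j))) = fv v (φ (g i * ∏ j, y j (l j))) := by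
      rw [map_mul φ, map_mul (fv v), map_prod φ, map_prod (fv v)]
    have hsup : 0 ≤ ⨆ i, fv v (φ (f i)) :=
      ((fv v).nonneg (φ (f 0))).trans (le_ciSup (f := fun i => fv v (φ (f i))) (Set.finite_range _).bddAbove 0)
    rw [h1, ← hc (i, l), map_sum φ]
    refine fv_sum_le v _ _ (by positivity) fun i' _ => ?_
    rw [map_mul φ, map_mul (fv v)]
    have h2 : fv v (φ (f i')) ≤ ⨆ i, fv v (φ (f i)) :=
      le_ciSup (f := fun i => fv v (φ (f i))) (Set.finite_range _).bddAbove i'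
    exact mul_le_mul (hcv' i') h2 ((fv v).nonneg _) (by positivity)
  -- the sum
  obtain ⟨T', hT'⟩ := exists_supp (L := L) (fun _ : Fin 1 => ((M * D ^ e : ℕ) : L)) fun _ => hMD
  have h1 := product_formula hMD (T' ∪ U) fun v hv => hT' v (fun h => hv (Finset.mem_union_left _ h)) 0
  have h2 : ∑ w : InfinitePlace L, (w.mult : ℝ) * Real.log (w.1 ((M * D ^ e : ℕ) : L)) =
      Module.finrank ℚ L * Real.log ((M * D ^ e : ℕ) : ℝ) := by
    have h3 : ∀ w : InfinitePlace L, w.1 ((M * D ^ e : ℕ) : L) = ((M * D ^ e : ℕ) : ℝ) := by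
      intro w
      have : w ((M * D ^ e : ℕ) : L) = ((M * D ^ e : ℕ) : ℝ) := by
        rw [← InfinitePlace.norm_embedding_eq w, map_natCast, Complex.norm_natCast]
      exact this
    simp only [h3]
    rw [← Finset.sum_mul]
    congr 1
    exact_mod_cast InfinitePlace.sum_mult_eq (K := L)
  have h3 : ∀ v : HeightOneSpectrum (𝓞 L), Real.log (fv v ((M * D ^ e : ℕ) : L)) ≤ 0 := by
    intro v
    refine Real.log_nonpos ((fv v).nonneg _) ?_
    have : fv v (((M * D ^ e : ℕ) : ℤ) : L) ≤ 1 := Pool.Agent.W125.CV.fv_int v _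
    rwa [Int.cast_natCast] at this
  have h4 : ∑ v ∈ T' ∪ U, Real.log (fv v ((M * D ^ e : ℕ) : L)) ≤ ∑ v ∈ U, Real.log (fv v ((M * D ^ e : ℕ) : L)) := by
    rw [← Finset.sum_sdiff (Finset.subset_union_right (s₁ := T') (s₂ := U))]
    have : ∑ v ∈ (T' ∪ U) \ U, Real.log (fv v ((M * D ^ e : ℕ) : L)) ≤ 0 := Finset.sum_nonpos fun v _ => h3 v
    linarith
  have h5 : ∑ w : InfinitePlace L, (w.mult : ℝ) * (lamI f φ w - lamI g φ w) ≤
      ∑ w : InfinitePlace L, (w.mult : ℝ) * ∑ j, lamI (y j) φ w + Module.finrank ℚ L * Real.log BI := by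
    have h6 : (Module.finrank ℚ L : ℝ) * Real.log BI = ∑ w : InfinitePlace L, (w.mult : ℝ) * Real.log BI := by
      rw [← Finset.sum_mul]
      congr 1
      exact_mod_cast (InfinitePlace.sum_mult_eq (K := L)).symm
    rw [h6, ← Finset.sum_add_distrib]
    refine Finset.sum_le_sum fun w _ => ?_
    rw [← mul_add]
    exact mul_le_mul_of_nonneg_left (hI w) (Nat.cast_nonneg _)
  have h6 : ∑ w ∈ U, (lamF f φ w - lamF g φ w) ≤
      ∑ w ∈ U, ∑ j, lamF (y j) φ w + -∑ v ∈ U, Real.log (fv v ((M * D ^ e : ℕ) : L)) := by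
    rw [← Finset.sum_neg_distrib, ← Finset.sum_add_distrib]
    exact Finset.sum_le_sum fun v _ => hF v
  rw [mul_add]
  linarith

end Pool.Agent.W5h9.GC
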