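import Pool.Agent.W5h9.GC.Cov
import Pool.Agent.W5h9.GC.MI

/-!
# Multiplier ideals on curves: auxiliary statements
-/

set_option autoImplicit false

namespace Pool.Agent.W5h9.GC

open NumberField IsDedekindDomain Height Pool.Agent.H691R3 Polynomial Filter Topology

/-- a generating family of a finitely generated ideal with a given first member -/
lemma exists_family {A : Type} [CommRing A] [IsNoetherianRing A] (J : Ideal A) (x : A) (hx : x ∈ J) :
    ∃ (n : ℕ) (y : Fin (n + 1) → A), y 0 = x ∧ Ideal.span (Set.range y) = J := by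
  obtain ⟨n, y, hy⟩ := Submodule.fg_iff_exists_fin_generating_family.1 (IsNoetherian.noetherian J)
  refine ⟨n, Fin.cons x y, rfl, ?_⟩
  rw [Fin.range_cons, Ideal.span_insert]
  have h : Ideal.span (Set.range y) = J := hy
  rw [h, sup_eq_right, Ideal.span_singleton_le_iff_mem]
  exact hx

/-- infinitely many rational points are near -/
theorem near_infinite {𝒜 : Set ℕ} {A : ℕ} (hA : ∀ a ∈ 𝒜, 1 ≤ a ∧ a ≤ A) {z : ℝ} (hz : z ∈ EA 𝒜) {ρ : ℝ} (hρ : 0 ≤ ρ) :
    (Near ρ z).Infinite := by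
  obtain ⟨a, ha, rfl⟩ := hz
  have hpos : PosS a := fun i => (hA _ (ha i)).1
  have hmem : ∀ n, pt (pre a n) ∈ Near ρ (val a) := by
    intro n
    have hp := pre_pos hpos n
    have hK := K_le hp
    refine ⟨(K_coprime (pre a n)).symm, by unfold pt; simp only; exact_mod_cast hK.2, ?_⟩
    have hshift : PosS fun i => a (n + i) := fun i => hpos (n + i)
    have hv := val_mem hshift
    have h1 := Ph_upper hp hv.1 le_rfl
    rw [Ph_zero, ← val_eq hpos n] at h1
    unfold pt
    simp only [Int.cast_natCast]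
    have hq : (1 : ℝ) ≤ (K (pre a n)).1 := by exact_mod_cast hK.2
    have h2 : ((K (pre a n)).2 : ℝ) / (K (pre a n)).1 = cv (pre a n) := rfl
    rw [h2]
    have h3 : |(val fun i => a (n + i)) - 0| ≤ 1 := by
      rw [sub_zero, abs_le]
      exact ⟨by linarith [hv.1], hv.2⟩
    calc |val a - cv (pre a n)| ≤ |(val fun i => a (n + i)) - 0| / ((K (pre a n)).1 : ℝ) ^ 2 := h1
      _ ≤ 1 / ((K (pre a n)).1 : ℝ) ^ 2 := by gcongr
      _ = ((K (pre a n)).1 : ℝ) ^ (-2 : ℝ) := by
          rw [Real.rpow_neg (by positivity), one_div]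
          congr 1
          exact_mod_cast (Real.rpow_natCast ((K (pre a n)).1 : ℝ) 2).symm
      _ ≤ ((K (pre a n)).1 : ℝ) ^ (ρ - 2) := Real.rpow_le_rpow_of_exponent_le hq (by linarith)
  intro hfin
  obtain ⟨N, hN⟩ := (hfin.image fun x => x.2).bddAbove
  have h1 := (q_tendsto hpos).eventually_gt_atTop (N : ℝ)
  obtain ⟨n, hn⟩ := h1.exists
  have h2 : ((K (pre a n)).1 : ℤ) ≤ N := hN ⟨_, hmem n, rfl⟩
  have h3 : ((K (pre a n)).1 : ℝ) ≤ N := by exact_mod_cast h2
  linarith

end Pool.Agent.W5h9.GC
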