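import Pool.Agent.W5h9.GC.NC4

/-!
# The number of the zeros
-/

set_option autoImplicit false

namespace Pool.Agent.W5h9.GC

open Polynomial Filter Topology

open Classical in
theorem ptsA_card {n : ℕ} (D : ℕ) {P : Fin n → ℤ[X]} (hne : ∀ i, P i ≠ 0) :
    (ptsA D P).card = (∏ i, (P i).map (Int.castRingHom ℚ)).roots.toFinset.card +
      if ∃ i, (P i).natDegree < D then 1 else 0 := by
  have hne' : ∀ i, (P i).map (Int.castRingHom ℚ) ≠ 0 := fun i =>
    (Polynomial.map_ne_zero_iff Int.cast_injective).2 (hne i)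
  have hprod : (∏ i, (P i).map (Int.castRingHom ℚ)) ≠ 0 := Finset.prod_ne_zero_iff.2 fun i _ => hne' i
  have hroot : ∀ r : ℚ, r ∈ (∏ i, (P i).map (Int.castRingHom ℚ)).roots ↔
      ∃ i, r ∈ ((P i).map (Int.castRingHom ℚ)).roots := by
    intro r
    rw [mem_roots hprod, IsRoot.def, eval_prod, Finset.prod_eq_zero_iff]
    constructor
    · rintro ⟨i, -, hi⟩
      exact ⟨i, (mem_roots (hne' i)).2 hi⟩
    · rintro ⟨i, hi⟩
      exact ⟨i, Finset.mem_univ _, (mem_roots (hne' i)).1 hi⟩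
  have hset : ptsA D P = (∏ i, (P i).map (Int.castRingHom ℚ)).roots.toFinset.image pr ∪
      if ∃ i, (P i).natDegree < D then {(1, 0)} else ∅ := by
    ext α
    unfold ptsA
    rw [Finset.mem_biUnion, Finset.mem_union, Finset.mem_image]
    constructor
    · rintro ⟨i, -, hi⟩
      rcases mem_pts1.1 hi with ⟨r, hr, h⟩ | ⟨h1, h2⟩
      · exact Or.inl ⟨r, Multiset.mem_toFinset.2 ((hroot r).2 ⟨i, hr⟩), h⟩
      · right
        rw [if_pos ⟨i, h1⟩]
        exact Finset.mem_singleton.2 h2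
    · rintro (⟨r, hr, h⟩ | h)
      · obtain ⟨i, hi⟩ := (hroot r).1 (Multiset.mem_toFinset.1 hr)
        exact ⟨i, Finset.mem_univ _, mem_pts1.2 (Or.inl ⟨r, hi, h⟩)⟩
      · split_ifs at h with h1
        · obtain ⟨i, hi⟩ := h1
          exact ⟨i, Finset.mem_univ _, mem_pts1.2 (Or.inr ⟨hi, Finset.mem_singleton.1 h⟩)⟩
        · simp at h
  have hinj : Function.Injective pr := by
    intro r s h
    unfold pr at h
    rw [Prod.mk.injEq] at h
    exact Rat.ext h.1 (by exact_mod_cast h.2)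
  have hdisj : Disjoint ((∏ i, (P i).map (Int.castRingHom ℚ)).roots.toFinset.image pr)
      (if ∃ i, (P i).natDegree < D then {((1 : ℤ), (0 : ℤ))} else ∅) := by
    rw [Finset.disjoint_left]
    intro α hα h
    obtain ⟨r, -, rfl⟩ := Finset.mem_image.1 hα
    split_ifs at h with h1
    · have h2 := congrArg Prod.snd (Finset.mem_singleton.1 h)
      simp only [pr] at h2
      have := r.den_pos
      omega
    · simp at h
  rw [hset, Finset.card_union_of_disjoint hdisj, Finset.card_image_of_injective _ hinj]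
  congr 1
  split_ifs <;> simp

/-- infinitely many rational points are near -/
theorem near_inf {𝒜 : Set ℕ} {A : ℕ} (hA : ∀ a ∈ 𝒜, 1 ≤ a ∧ a ≤ A) {z : ℝ} (hz : z ∈ EA 𝒜) {ρ : ℝ} (hρ : 0 ≤ ρ) :
    (Near ρ z).Infinite := by
  obtain ⟨a, ha, rfl⟩ := hz
  have hpos : PosS a := fun i => (hA _ (ha i)).1
  have hmem : ∀ n, pt (pre a n) ∈ Near ρ (val a) := by
    intro n
    have hp := pre_pos hpos n
    have hK := K_le hp
    refine ⟨(K_coprime (pre a n)).symm, by unfold pt; simp only; exact_mod_cast hK.2, ?_⟩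
    have hshift : PosS fun i => a (n + i) := fun i => hpos (n + i)
    have hv := val_mem hshift
    have h1 := Ph_upper hp hv.1 le_rfl
    rw [Ph_zero, ← val_eq hpos n] at h1
    unfold pt
    simp only [Int.cast_natCast]
    have hq : (1 : ℝ) ≤ (K (pre a n)).1 := by exact_mod_cast hK.2
    have h2 : ((K (pre a n)).2 : ℝ) / (K (pre a n)).1 = cv (pre a n) := rfl
    rw [h2]
    have h3 : |(val fun i => a (n + i)) - 0| ≤ 1 := by
      rw [sub_zero, abs_le]
      exact ⟨by linarith [hv.1], hv.2⟩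
    calc |val a - cv (pre a n)| ≤ |(val fun i => a (n + i)) - 0| / ((K (pre a n)).1 : ℝ) ^ 2 := h1
      _ ≤ 1 / ((K (pre a n)).1 : ℝ) ^ 2 := by gcongr
      _ = ((K (pre a n)).1 : ℝ) ^ (-2 : ℝ) := by
          rw [Real.rpow_neg (by positivity), one_div]
          congr 1
          exact_mod_cast (Real.rpow_natCast ((K (pre a n)).1 : ℝ) 2).symm
      _ ≤ ((K (pre a n)).1 : ℝ) ^ (ρ - 2) := Real.rpow_le_rpow_of_exponent_le hq (by linarith)
  intro hfin
  obtain ⟨N, hN⟩ := (hfin.image fun x => x.2).bddAbove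
  have h1 := (q_tendsto hpos).eventually_gt_atTop (N : ℝ)
  obtain ⟨n, hn⟩ := h1.exists
  have h2 : ((K (pre a n)).1 : ℤ) ≤ N := hN ⟨_, hmem n, rfl⟩
  have h3 : ((K (pre a n)).1 : ℝ) ≤ N := by exact_mod_cast h2
  linarith

end Pool.Agent.W5h9.GC
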