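import Pool.Agent.W5h9.GC.Final

/-!
# The exceptional convergents
-/

set_option autoImplicit false

namespace Pool.Agent.W5h9.GC

open Filter Topology ENNReal MeasureTheory

/-- The absolute logarithmic height of the point with the coprime coordinates `x`. -/
noncomputable def hgt (x : ℤ × ℤ) : ℝ := Real.log (max x.1.natAbs x.2.natAbs : ℕ)

/-- The sum over the primes `p ∉ T` of the truncated local heights `λ⁽¹⁾_p(α, x)`: for coprime
coordinates of `x` and `α` this is `log p` if `p ∣ x₀ a₁ - x₁ a₀` and `0` otherwise. -/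
noncomputable def N1 (α : ℤ × ℤ) (T : Finset ℕ) (x : ℤ × ℤ) : ℝ :=
  ∑ p ∈ (x.1 * α.2 - x.2 * α.1).natAbs.primeFactors \ T, Real.log p

/-- The finite continued fraction `[0; w] = p / q` as a point with the coprime coordinates `(p, q)`. -/
def pt (w : List ℕ) : ℤ × ℤ := ((K w).2, (K w).1)

/-- `x` is different from all the points `α_1, …, α_q`, `q ≥ 0`, of the line with
`h(α_i) ≤ κ h(x)`, and `(1 - ε) q h(x)` is at most the sum over `p ∉ T` and `i` of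
`λ⁽¹⁾_p(α_i, x)`, for all finite sets `T` of primes with `∑_{p ∈ T} log p ≤ κ h(x)`. -/
def Good (ε κ : ℝ) (x : ℤ × ℤ) : Prop :=
  ∀ (q : ℕ) (α : Fin q → ℤ × ℤ) (T : Finset ℕ), (∀ i, IsCoprime (α i).1 (α i).2 ∧ hgt (α i) ≤ κ * hgt x) →
    (∀ p ∈ T, p.Prime) → ∑ p ∈ T, Real.log (p : ℝ) ≤ κ * hgt x →
    (∀ i, x.1 * (α i).2 - x.2 * (α i).1 ≠ 0) ∧ (1 - ε) * q * hgt x ≤ ∑ i, N1 (α i) T x

lemma hgt_pt {w : List ℕ} (hw : Pos w) : hgt (pt w) = Real.log (K w).1 := by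
  unfold hgt pt
  simp only [Int.natAbs_natCast]
  rw [max_eq_right (K_le hw).1]

lemma form_eq (α : ℤ × ℤ) (w : List ℕ) : (pt w).1 * α.2 - (pt w).2 * α.1 = lf (-α.1, α.2) w := by
  unfold pt lf
  ring

lemma le_rpow_of_hgt {α : ℤ × ℤ} {κ : ℝ} {q : ℕ} (hq : 1 ≤ q) (h : hgt α ≤ κ * Real.log q) (hα : IsCoprime α.1 α.2) :
    |((-α.1 : ℤ) : ℝ)| ≤ (q : ℝ) ^ κ ∧ |(α.2 : ℝ)| ≤ (q : ℝ) ^ κ ∧ (max 1 α.2.natAbs : ℕ) ≤ (q : ℝ) ^ κ := by
  have hq0 : (0 : ℝ) < q := by exact_mod_cast hq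
  have hm0 : 0 < max α.1.natAbs α.2.natAbs := by
    by_contra hcon
    have h1 : α.1.natAbs = 0 ∧ α.2.natAbs = 0 := by
      have := le_max_left α.1.natAbs α.2.natAbs
      have := le_max_right α.1.natAbs α.2.natAbs
      omega
    rw [Int.natAbs_eq_zero, Int.natAbs_eq_zero] at h1
    rw [h1.1, h1.2] at hα
    exact not_isCoprime_zero_zero hα
  have hm : ((max α.1.natAbs α.2.natAbs : ℕ) : ℝ) ≤ (q : ℝ) ^ κ := by
    unfold hgt at h
    rw [← Real.log_rpow hq0] at h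
    exact (Real.log_le_log_iff (by exact_mod_cast hm0) (by positivity)).1 h
  have h1 : ∀ n : ℕ, n ≤ max α.1.natAbs α.2.natAbs → (n : ℝ) ≤ (q : ℝ) ^ κ := by
    intro n hn
    refine le_trans ?_ hm
    exact_mod_cast hn
  refine ⟨?_, ?_, ?_⟩
  · have h2 := h1 _ (le_max_left _ _)
    rw [Int.cast_neg, abs_neg]
    rwa [Nat.cast_natAbs, Int.cast_abs] at h2
  · have h2 := h1 _ (le_max_right _ _)
    rwa [Nat.cast_natAbs, Int.cast_abs] at h2
  · exact h1 _ (max_le hm0 (le_max_right _ _))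

/-- the words which are not exceptional are good -/
lemma good_of_not_Ex {𝒜 : Set ℕ} {A : ℕ} (hA : ∀ a ∈ 𝒜, 1 ≤ a ∧ a ≤ A) {ε κ η : ℝ} (hε : ε ≤ 1) (hκ : 0 ≤ κ) (hη : 0 < η)
    (h : η < ε - 2 * κ) (q₀ : ℕ) : ∃ q₁ : ℕ, ∀ w : W 𝒜, q₁ ≤ (K w.1).1 → w ∉ Ex 𝒜 η κ q₀ → Good ε κ (pt w.1) := by
  have hκ1 : κ < 1 / 2 := by linarith
  -- the threshold
  have hC0 : (0 : ℝ) < 2 * ((A : ℝ) + 1) ^ 2 := by positivity
  have e1 : Tendsto (fun q : ℕ => (q : ℝ) ^ (ε - 2 * κ - η)) atTop atTop :=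
    (tendsto_rpow_atTop (by linarith)).comp tendsto_natCast_atTop_atTop
  have e2 : Tendsto (fun q : ℕ => (q : ℝ) ^ (1 - κ)) atTop atTop :=
    (tendsto_rpow_atTop (by linarith)).comp tendsto_natCast_atTop_atTop
  obtain ⟨q₁, hq₁⟩ := eventually_atTop.1 ((e1.eventually_ge_atTop (2 * ((A : ℝ) + 1) ^ 2)).and
    (e2.eventually_gt_atTop ((A : ℝ) + 1)))
  refine ⟨max (max q₀ q₁) 1, fun w hw hnw => ?_⟩
  have hpos : Pos w.1 := fun a ha => (hA a (w.2 a ha)).1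
  have hwA : ∀ a ∈ w.1, a ≤ A := fun a ha => (hA a (w.2 a ha)).2
  set Q : ℕ := (K w.1).1 with hQ
  have hQ0 : q₀ ≤ Q := ((le_max_left _ _).trans (le_max_left _ _)).trans hw
  have hQ1 : q₁ ≤ Q := ((le_max_right _ _).trans (le_max_left _ _)).trans hw
  have hQ2 : 1 ≤ Q := (le_max_right _ _).trans hw
  obtain ⟨f1, f2⟩ := hq₁ Q hQ1
  have hQpos : (0 : ℝ) < Q := by exact_mod_cast hQ2
  have hlogQ : 0 ≤ Real.log Q := Real.log_natCast_nonneg _
  have hh : hgt (pt w.1) = Real.log Q := hgt_pt hpos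
  -- a single point
  have hsingle : ∀ (α : ℤ × ℤ) (T : Finset ℕ), IsCoprime α.1 α.2 → hgt α ≤ κ * hgt (pt w.1) → (∀ p ∈ T, p.Prime) →
      ∑ p ∈ T, Real.log (p : ℝ) ≤ κ * hgt (pt w.1) →
      ((pt w.1).1 * α.2 - (pt w.1).2 * α.1 ≠ 0) ∧ (1 - ε) * hgt (pt w.1) ≤ N1 α T (pt w.1) := by
    intro α T hα hα2 hT hT2
    rw [hh] at hα2 hT2 ⊢
    unfold N1
    rw [form_eq]
    obtain ⟨g1, g2, g3⟩ := le_rpow_of_hgt hQ2 hα2 hα
    have hl : IsCoprime (-α.1) α.2 := hα.neg_left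
    have hl0 : ((-α.1, α.2) : ℤ × ℤ) ≠ 0 := by
      intro h0
      have h1 : -α.1 = 0 := congrArg Prod.fst h0
      have h2 : α.2 = 0 := congrArg Prod.snd h0
      rw [h1, h2] at hl
      exact not_isCoprime_zero_zero hl
    have hlow := lf_lower hpos hwA hl0 (by
      have h1 : ((A : ℝ) + 1) * ((max 1 α.2.natAbs : ℕ) : ℝ) < Q := by
        calc ((A : ℝ) + 1) * ((max 1 α.2.natAbs : ℕ) : ℝ) ≤ ((A : ℝ) + 1) * (Q : ℝ) ^ κ := by gcongr
          _ < (Q : ℝ) ^ (1 - κ) * (Q : ℝ) ^ κ := by gcongr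
          _ = Q := by rw [← Real.rpow_add hQpos, sub_add_cancel, Real.rpow_one]
      exact_mod_cast h1)
    set n : ℕ := (lf (-α.1, α.2) w.1).natAbs with hn
    have hn0 : n ≠ 0 := by
      intro h0
      rw [h0] at hlow
      simp only [mul_zero] at hlow
      omega
    have hne : lf (-α.1, α.2) w.1 ≠ 0 := Int.natAbs_ne_zero.1 hn0
    refine ⟨hne, ?_⟩
    -- the quotient by the radical is small
    have hrad : ((n / rd n : ℕ) : ℝ) ≤ (Q : ℝ) ^ η := by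
      by_contra hcon
      push Not at hcon
      exact hnw ⟨hQ0, (-α.1, α.2), hl, g1, g2, hne, hcon⟩
    have hlog := log_rd hn0 T hT hrad
    rw [Real.log_rpow hQpos] at hlog
    -- the size of the form
    have hnpos : (0 : ℝ) < n := by exact_mod_cast Nat.pos_of_ne_zero hn0
    have hsize : Real.log Q ≤ (ε - 2 * κ - η) * Real.log Q + κ * Real.log Q + Real.log n := by
      have h1 : (Q : ℝ) ≤ (Q : ℝ) ^ (ε - 2 * κ - η) * (Q : ℝ) ^ κ * n := by
        calc (Q : ℝ) ≤ 2 * ((A : ℝ) + 1) ^ 2 * ((max 1 α.2.natAbs : ℕ) : ℝ) * n := by exact_mod_cast hlow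
          _ ≤ _ := by gcongr
      have h2 := Real.log_le_log hQpos h1
      rwa [Real.log_mul (by positivity) hnpos.ne', Real.log_mul (by positivity) (by positivity), Real.log_rpow hQpos,
        Real.log_rpow hQpos] at h2
    calc (1 - ε) * Real.log Q ≤ Real.log n - η * Real.log Q - κ * Real.log Q := by linarith
      _ ≤ Real.log n - η * Real.log Q - ∑ p ∈ T, Real.log (p : ℝ) := by linarith
      _ ≤ _ := hlog
  intro q α T hα hT hT2
  refine ⟨fun i => (hsingle (α i) T (hα i).1 (hα i).2 hT hT2).1, ?_⟩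
  calc (1 - ε) * q * hgt (pt w.1) = ∑ _i : Fin q, (1 - ε) * hgt (pt w.1) := by
        rw [Finset.sum_const, Finset.card_univ, Fintype.card_fin, nsmul_eq_mul]
        ring
    _ ≤ _ := Finset.sum_le_sum fun i _ => (hsingle (α i) T (hα i).1 (hα i).2 hT hT2).2

end Pool.Agent.W5h9.GC
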