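import Pool.Agent.W5h9.GC.LS

/-!
# The simple poles of the images of the rational numbers near a number with restricted partial quotients
-/

set_option autoImplicit false
set_option linter.unusedSectionVars false

namespace Pool.Agent.W5h9.GC

open NumberField IsDedekindDomain Finset Pool.Agent.H691R3 Pool.Agent.W223.AK Pool.Agent.Y733.UD
open Pool.Agent.Y733.LS

/-- the simple poles of the transformed numbers -/
theorem good_sp {ε κ η : ℝ} (hε : 0 ≤ ε) (hκ : 0 < κ) (hη : η < 1) (h : 2 * ε + 2 * κ < η) (C : ℝ) :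
    ∃ H₀ : ℝ, ∀ x : ℤ × ℤ, IsCoprime x.1 x.2 → H₀ ≤ hgt x → Good ε (4 * κ) x →
      ∀ m : Matrix (Fin 2) (Fin 2) ℤ, m.det ≠ 0 → (∀ i j, Real.log (m i j).natAbs ≤ κ * hgt x) →
      ev (m 1 0, m 1 1) x ≠ 0 ∧ ∀ (K : Type) [Field K] [NumberField K],
        ∑ p ∈ (discr K).natAbs.primeFactors, Real.log p ≤ κ * hgt x →
          (1 - η) * ht ((mob m x : ℚ) : K) ≤ sp ((mob m x : ℚ) : K) ∧
          Module.finrank ℚ K * C ≤ ht ((mob m x : ℚ) : K) := by
  classical
  have hη0 : 0 < η := by linarith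
  set γ : ℝ := η - 2 * ε - 2 * κ with hγ
  have hγ0 : 0 < γ := by rw [hγ]; linarith
  have hl2 : 0 < Real.log 2 := Real.log_pos (by norm_num)
  have hl12 : 0 < Real.log 12 := Real.log_pos (by norm_num)
  have h1η : 0 < 1 - η := by linarith
  refine ⟨max (max (Real.log 12 / κ) (2 * Real.log 2 / γ)) (max ((C + Real.log 2) / (1 - η)) 1), ?_⟩
  intro x hx hH hgood m hm hmb
  set H : ℝ := hgt x with hHdef
  have b1 : Real.log 12 ≤ κ * H := by
    have := ((le_max_left _ _).trans (le_max_left _ _)).trans hH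
    rwa [div_le_iff₀ hκ, mul_comm] at this
  have b2 : 2 * Real.log 2 ≤ γ * H := by
    have := ((le_max_right _ _).trans (le_max_left _ _)).trans hH
    rw [div_le_iff₀ hγ0] at this
    linarith
  have b3 : C + Real.log 2 ≤ (1 - η) * H := by
    have := ((le_max_left _ _).trans (le_max_right _ _)).trans hH
    rw [div_le_iff₀ h1η] at this
    linarith
  have b4 : 1 ≤ H := ((le_max_right _ _).trans (le_max_right _ _)).trans hH
  have hx0 : x ≠ 0 := by
    rintro rfl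
    exact not_isCoprime_zero_zero hx
  have hme := me_pos hm
  have hmer : (1 : ℝ) ≤ me m := by exact_mod_cast hme
  have hlm : Real.log (me m) ≤ κ * H := log_me hmb
  -- the primitive form
  set l : ℤ × ℤ := (m 1 0, m 1 1) with hl
  have hl0 : l ≠ 0 := by
    intro h0
    apply hm
    have h1 : m 1 0 = 0 := congrArg Prod.fst h0
    have h2 : m 1 1 = 0 := congrArg Prod.snd h0
    rw [Matrix.det_fin_two, h1, h2]
    ring
  obtain ⟨c, α, hc, hα, hev⟩ := exists_prim l hl0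
  have hα2 : m 1 0 = c * α.2 := by
    have := hev (1, 0)
    simp only [ev, hl] at this
    linarith
  have hα1 : m 1 1 = -(c * α.1) := by
    have := hev (0, 1)
    simp only [ev, hl] at this
    linarith
  have hcabs : 1 ≤ c.natAbs := Nat.one_le_iff_ne_zero.2 (Int.natAbs_ne_zero.2 hc)
  have hα2' : α.2.natAbs ≤ me m := by
    refine le_trans ?_ (le_me m 1 0)
    rw [hα2, Int.natAbs_mul]
    exact Nat.le_mul_of_pos_left _ hcabs
  have hα1' : α.1.natAbs ≤ me m := by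
    refine le_trans ?_ (le_me m 1 1)
    rw [hα1, Int.natAbs_neg, Int.natAbs_mul]
    exact Nat.le_mul_of_pos_left _ hcabs
  have hhα : hgt α ≤ 4 * κ * H := by
    have h1 : hgt α ≤ Real.log (me m) := by
      unfold hgt
      have h2 : 0 < max α.1.natAbs α.2.natAbs := by
        by_contra h3
        have h4 : α.1 = 0 := Int.natAbs_eq_zero.1 (by
          have := le_max_left α.1.natAbs α.2.natAbs
          omega)
        have h5 : α.2 = 0 := Int.natAbs_eq_zero.1 (by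
          have := le_max_right α.1.natAbs α.2.natAbs
          omega)
        rw [h4, h5] at hα
        exact not_isCoprime_zero_zero hα
      exact Real.log_le_log (by exact_mod_cast h2) (by exact_mod_cast max_le hα1' hα2')
    have h2 : 0 ≤ κ * H := by positivity
    linarith
  refine ⟨?_, ?_⟩
  · have h1 := (hgood 1 (fun _ => α) ∅ (fun _ => ⟨hα, hhα⟩) (by simp) (by
      rw [Finset.sum_empty]
      positivity)).1 0
    rw [hev]
    exact mul_ne_zero hc h1
  intro K _ _ hK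
  -- the excluded primes
  set T : Finset ℕ := Nat.primeFactors 6 ∪ (m.det.natAbs.primeFactors ∪ (discr K).natAbs.primeFactors) with hT
  have hTp : ∀ p ∈ T, p.Prime := by
    intro p hp
    rw [hT, Finset.mem_union, Finset.mem_union] at hp
    rcases hp with hp | hp | hp <;> exact Nat.prime_of_mem_primeFactors hp
  have hTsum : ∑ p ∈ T, Real.log (p : ℝ) ≤ 4 * κ * H := by
    have hnn : ∀ p : ℕ, 0 ≤ Real.log (p : ℝ) := fun p => Real.log_natCast_nonneg p
    have hun : ∀ S S' : Finset ℕ, ∑ p ∈ S ∪ S', Real.log (p : ℝ) ≤ ∑ p ∈ S, Real.log (p : ℝ) + ∑ p ∈ S', Real.log (p : ℝ) := by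
      intro S S'
      rw [← Finset.sum_union_inter]
      have : 0 ≤ ∑ p ∈ S ∩ S', Real.log (p : ℝ) := Finset.sum_nonneg fun p _ => hnn p
      linarith
    have h1 := hun (Nat.primeFactors 6) (m.det.natAbs.primeFactors ∪ (discr K).natAbs.primeFactors)
    have h2 := hun m.det.natAbs.primeFactors (discr K).natAbs.primeFactors
    have h3 := sum_primeFactors_le (n := 6) (by norm_num)
    have h4 := sum_primeFactors_le (Int.natAbs_ne_zero.2 hm)
    have h5 : Real.log (m.det.natAbs : ℝ) ≤ Real.log 2 + 2 * Real.log (me m) := by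
      have h6 : (0 : ℝ) < m.det.natAbs := by exact_mod_cast Int.natAbs_pos.2 hm
      have h7 : (m.det.natAbs : ℝ) ≤ 2 * (me m : ℝ) ^ 2 := by exact_mod_cast det_le m
      have h8 := Real.log_le_log h6 h7
      rwa [Real.log_mul (by norm_num) (by positivity), Real.log_pow, Nat.cast_ofNat] at h8
    have h6 : Real.log ((6 : ℕ) : ℝ) + Real.log 2 = Real.log 12 := by
      rw [← Real.log_mul (by norm_num) (by norm_num)]
      norm_num
    rw [← hT] at h1
    linarith
  have hg := (hgood 1 (fun _ => α) T (fun _ => ⟨hα, hhα⟩) hTp hTsum)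
  have hform := hg.1 0
  have hN1 := hg.2
  simp only [Finset.univ_unique, Finset.sum_singleton, Nat.cast_one, mul_one] at hN1
  unfold N1 at hN1
  set n : ℕ := (x.1 * α.2 - x.2 * α.1).natAbs with hn
  have hn0 : n ≠ 0 := Int.natAbs_ne_zero.2 hform
  set P : Finset ℕ := (n.primeFactors \ T).filter (fun p => ¬ p ^ 2 ∣ n) with hP
  have hsimple := simple_part hn0 T
  rw [← hP] at hsimple
  have hev' : ev (m 1 0, m 1 1) x = c * (x.1 * α.2 - x.2 * α.1) := hev x
  have hev0 : ev (m 1 0, m 1 1) x ≠ 0 := by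
    rw [hev']
    exact mul_ne_zero hc hform
  have hlogn : Real.log (n : ℝ) ≤ Real.log 2 + κ * H + H := by
    have h1 : n ≤ 2 * (me m * max x.1.natAbs x.2.natAbs) := by
      refine le_trans ?_ (ev_le m 1 x)
      rw [hev', Int.natAbs_mul]
      exact Nat.le_mul_of_pos_left _ hcabs
    have hM0 : 0 < max x.1.natAbs x.2.natAbs := by
      by_contra h
      have h1 : x.1.natAbs = 0 := by
        have := le_max_left x.1.natAbs x.2.natAbs
        omega
      have h2 : x.2.natAbs = 0 := by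
        have := le_max_right x.1.natAbs x.2.natAbs
        omega
      exact hx0 (Prod.ext (Int.natAbs_eq_zero.1 h1) (Int.natAbs_eq_zero.1 h2))
    have hMr : (0 : ℝ) < (max x.1.natAbs x.2.natAbs : ℕ) := by exact_mod_cast hM0
    have h2 : (n : ℝ) ≤ 2 * ((me m : ℝ) * ((max x.1.natAbs x.2.natAbs : ℕ) : ℝ)) := by exact_mod_cast h1
    have h3 := Real.log_le_log (by exact_mod_cast Nat.pos_of_ne_zero hn0) h2
    rw [Real.log_mul (by norm_num) (by positivity), Real.log_mul (by positivity) (by positivity)] at h3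
    have h4 : Real.log ((max x.1.natAbs x.2.natAbs : ℕ) : ℝ) = H := rfl
    linarith
  have hPsum : (1 - 2 * ε - κ) * H - Real.log 2 ≤ ∑ p ∈ P, Real.log (p : ℝ) := by linarith
  have hPprop : ∀ p ∈ P, p.Prime ∧ p ≠ 2 ∧ p ≠ 3 ∧ ¬ (p : ℤ) ∣ discr K ∧ ¬ (p : ℤ) ∣ m.det ∧
      (p : ℤ) ∣ ev (m 1 0, m 1 1) x ∧ ¬ (p : ℤ) ^ 2 ∣ ev (m 1 0, m 1 1) x := by
    intro p hp
    rw [hP, Finset.mem_filter, Finset.mem_sdiff, hT, Finset.mem_union, Finset.mem_union, not_or, not_or] at hp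
    obtain ⟨⟨h1, h2, h3, h4⟩, h5⟩ := hp
    have hpp := Nat.prime_of_mem_primeFactors h1
    have h6 : ¬ p ∣ 6 := fun h6 => h2 (Nat.mem_primeFactors.2 ⟨hpp, h6, by norm_num⟩)
    have h7 : ¬ (p : ℤ) ∣ m.det := fun h7 => h3 (Nat.mem_primeFactors.2
      ⟨hpp, Int.natCast_dvd.1 h7, Int.natAbs_ne_zero.2 hm⟩)
    have h8 : ¬ (p : ℤ) ∣ discr K := fun h8 => h4 (Nat.mem_primeFactors.2
      ⟨hpp, Int.natCast_dvd.1 h8, Int.natAbs_ne_zero.2 (NumberField.discr_ne_zero K)⟩)
    have h9 : (p : ℤ) ∣ x.1 * α.2 - x.2 * α.1 := Int.natCast_dvd.2 (Nat.dvd_of_mem_primeFactors h1)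
    refine ⟨hpp, ?_, ?_, h8, h7, ?_, ?_⟩
    · rintro rfl
      exact h6 (by norm_num)
    · rintro rfl
      exact h6 (by norm_num)
    · rw [hev']
      exact Dvd.dvd.mul_left h9 _
    · rw [hev']
      intro h10
      have hpc : ¬ (p : ℤ) ∣ c := by
        intro h11
        apply h7
        rw [Matrix.det_fin_two, hα1, hα2]
        obtain ⟨k, rfl⟩ := h11
        exact ⟨m 0 0 * -(k * α.1) - m 0 1 * (k * α.2), by ring⟩
      have hcop : IsCoprime ((p : ℤ) ^ 2) c :=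
        ((Nat.prime_iff_prime_int.1 hpp).irreducible.coprime_iff_not_dvd.2 hpc).pow_left
      have h12 := hcop.dvd_of_dvd_mul_left h10
      apply h5
      have h13 : ((p ^ 2 : ℕ) : ℤ) ∣ x.1 * α.2 - x.2 * α.1 := by exact_mod_cast h12
      exact Int.natCast_dvd.1 h13
  obtain ⟨s1, s2, s3⟩ := sp_ge (K := K) hx P hPprop
  have hnK : (0 : ℝ) < Module.finrank ℚ K := by exact_mod_cast Module.finrank_pos
  -- the size of the simple part
  have hCs : C ≤ ∑ p ∈ P, Real.log (p : ℝ) := by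
    have : (1 - η) * H ≤ (1 - 2 * ε - κ) * H := mul_le_mul_of_nonneg_right (by linarith) (by linarith)
    linarith
  have hht : ht ((mob m x : ℚ) : K) ≤ Module.finrank ℚ K * (Real.log 2 + κ * H + H) := by
    have h1 : ht ((mob m x : ℚ) : K) = Module.finrank ℚ K * Height.logHeight₁ (mob m x) := by
      rw [← Pool.Agent.Results.MP_9a3c31_nt.AllFieldsAllTwists.ht_log]
      have h2 := Pool.Agent.TH905.VF.log_height_ext' K (mob m x)
      have h3 : algebraMap ℚ K (mob m x) = ((mob m x : ℚ) : K) := eq_ratCast (algebraMap ℚ K) _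
      rw [h3] at h2
      exact h2
    rw [h1]
    apply mul_le_mul_of_nonneg_left _ hnK.le
    have := height_mob_le hm hx0 hev0
    linarith
  refine ⟨?_, ?_⟩
  · calc (1 - η) * ht ((mob m x : ℚ) : K) ≤ (1 - η) * (Module.finrank ℚ K * (Real.log 2 + κ * H + H)) :=
          mul_le_mul_of_nonneg_left hht (by linarith)
      _ = Module.finrank ℚ K * ((1 - η) * (Real.log 2 + κ * H + H)) := by ring
      _ ≤ Module.finrank ℚ K * ∑ p ∈ P, Real.log (p : ℝ) := by
          apply mul_le_mul_of_nonneg_left _ hnK.le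
          have h1 : 0 ≤ η * κ * H := by positivity
          have h2 : 0 ≤ η * Real.log 2 := by positivity
          rw [hγ] at b2
          nlinarith
      _ ≤ _ := s1
  · refine le_trans ?_ s3
    exact mul_le_mul_of_nonneg_left hCs hnK.le

/-- the property of the simple poles for all transformations and all number fields -/
def SPx (η κ C : ℝ) (x : ℤ × ℤ) : Prop :=
  ∀ m : Matrix (Fin 2) (Fin 2) ℤ, m.det ≠ 0 → (∀ i j, Real.log (m i j).natAbs ≤ κ * hgt x) →
    ev (m 1 0, m 1 1) x ≠ 0 ∧ ∀ (K : Type) [Field K] [NumberField K],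
      ∑ p ∈ (discr K).natAbs.primeFactors, Real.log p ≤ κ * hgt x →
        (1 - η) * ht ((mob m x : ℚ) : K) ≤ sp ((mob m x : ℚ) : K) ∧
        Module.finrank ℚ K * C ≤ ht ((mob m x : ℚ) : K)

theorem near_SPx {𝒜 : Set ℕ} {ε κ η z : ℝ} (hz : z ∈ EA 𝒜) (hε : 0 ≤ ε) (hκ : 0 < κ) (hη : η < 1)
    (h : 2 * ε + 2 * κ < η) (hB : z ∉ Bad 𝒜 ε (4 * κ) κ) (C : ℝ) :
    {x | x ∈ Near κ z ∧ ¬ SPx η κ C x}.Finite := by
  obtain ⟨H₀, hH⟩ := good_sp hε hκ hη h C
  have h1 : {x | x ∈ Near κ z ∧ ¬ Good ε (4 * κ) x}.Finite := by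
    by_contra hinf
    exact hB ⟨hz, hinf⟩
  have h2 : {x | x ∈ Near κ z ∧ x.2 < (⌈Real.exp H₀⌉₊ : ℕ)}.Finite := near_finite (by linarith) _
  refine (h1.union h2).subset ?_
  rintro x ⟨hx, hnot⟩
  by_cases hg : Good ε (4 * κ) x
  · right
    refine ⟨hx, ?_⟩
    by_contra hcon
    push Not at hcon
    apply hnot
    have h3 : H₀ ≤ hgt x := by
      have h4 : Real.exp H₀ ≤ x.2 := (Nat.le_ceil _).trans (by exact_mod_cast hcon)
      have h5 : (x.2 : ℝ) ≤ ((max x.1.natAbs x.2.natAbs : ℕ) : ℝ) := by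
        have h6 : x.2 ≤ ((max x.1.natAbs x.2.natAbs : ℕ) : ℤ) := by
          have h7 : x.2.natAbs ≤ max x.1.natAbs x.2.natAbs := le_max_right _ _
          omega
        have h7 : ((x.2 : ℤ) : ℝ) ≤ (((max x.1.natAbs x.2.natAbs : ℕ) : ℤ) : ℝ) := Int.cast_le.2 h6
        rwa [Int.cast_natCast] at h7
      have h6 : 0 < Real.exp H₀ := Real.exp_pos _
      exact (Real.le_log_iff_exp_le (by linarith)).2 (h4.trans h5)
    intro m hm hmb
    exact hH x hx.1 h3 hg m hm hmb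
  · exact Or.inl ⟨hx, hg⟩

open MeasureTheory in
/-- the dimension of the exceptional set of a property which follows from `SPx` -/
theorem dim_of_SPx {𝒜 : Set ℕ} {n : ℕ} (hA : ∀ a ∈ 𝒜, 1 ≤ a ∧ a ≤ n) (hδ : 1 / 2 < δ 𝒜) {η : ℝ}
    (hη0 : 0 < η) (hη : η < 1) (Φ : ℝ → Prop)
    (hΦ : ∀ z κ : ℝ, 0 < κ → (∀ C : ℝ, {x | x ∈ Near κ z ∧ ¬ SPx η κ C x}.Finite) → Φ z) :
    dimH {z | z ∈ EA 𝒜 ∧ ¬ Φ z} ≤ ENNReal.ofReal (δ 𝒜 - η / 2 * (δ 𝒜 - 1 / 2)) := by
  have h1 : ∀ κ : ℝ, 0 < κ → κ < η / 4 → dimH {z | z ∈ EA 𝒜 ∧ ¬ Φ z} ≤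
      ENNReal.ofReal ((2 * δ 𝒜 * (1 + 2 * (4 * κ)) - (η / 2 - 2 * κ) * (2 * δ 𝒜 - 1)) / (2 - κ)) := by
    intro κ hκ hκη
    refine le_trans (dimH_mono ?_) (dim_Bad hA hδ (ε := η / 2 - 2 * κ)
      (κ := 4 * κ) (ρ := κ) (by linarith) (by linarith) (by linarith) hκ.le (by linarith))
    rintro z ⟨hz, hnv⟩
    by_contra hcon
    exact hnv (hΦ z κ hκ fun C => near_SPx hz (ε := η / 2 - 2 * κ) (by linarith) hκ hη (by linarith) hcon C)
  have h2 : Filter.Tendsto (fun κ : ℝ => ENNReal.ofReal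
      ((2 * δ 𝒜 * (1 + 2 * (4 * κ)) - (η / 2 - 2 * κ) * (2 * δ 𝒜 - 1)) / (2 - κ)))
      (nhdsWithin 0 (Set.Ioi 0)) (nhds (ENNReal.ofReal (δ 𝒜 - η / 2 * (δ 𝒜 - 1 / 2)))) := by
    apply ENNReal.tendsto_ofReal
    have h3 : ContinuousAt (fun κ : ℝ =>
        (2 * δ 𝒜 * (1 + 2 * (4 * κ)) - (η / 2 - 2 * κ) * (2 * δ 𝒜 - 1)) / (2 - κ)) 0 := by
      apply ContinuousAt.div
      · fun_prop
      · fun_prop
      · norm_num
    have h4 := h3.tendsto.mono_left (nhdsWithin_le_nhds (s := Set.Ioi (0 : ℝ)))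
    convert h4 using 2
    ring
  refine ge_of_tendsto h2 ?_
  filter_upwards [Ioo_mem_nhdsGT (show (0 : ℝ) < η / 4 by linarith)] with κ hκ
  exact h1 κ hκ.1 hκ.2

open MeasureTheory in
/-- the null set form -/
theorem null_of_dim {𝒜 : Set ℕ} (hδ : 1 / 2 < δ 𝒜) {η : ℝ} (hη0 : 0 < η) {S : Set ℝ}
    (h : dimH S ≤ ENNReal.ofReal (δ 𝒜 - η / 2 * (δ 𝒜 - 1 / 2))) :
    Measure.hausdorffMeasure (δ 𝒜) S = 0 := by
  obtain ⟨-, hd1, hd0⟩ := dimH_EA 𝒜
  have h4 : dimH S < ((δ 𝒜).toNNReal : NNReal) := by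
    refine lt_of_le_of_lt h ?_
    have h5 : ENNReal.ofReal (δ 𝒜 - η / 2 * (δ 𝒜 - 1 / 2)) < ENNReal.ofReal (δ 𝒜) := by
      apply (ENNReal.ofReal_lt_ofReal_iff (by linarith)).2
      have : 0 < η / 2 * (δ 𝒜 - 1 / 2) := mul_pos (by positivity) (by linarith)
      linarith
    exact h5
  have h5 := hausdorffMeasure_of_dimH_lt h4
  rwa [Real.coe_toNNReal _ hd0] at h5

end Pool.Agent.W5h9.GC
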