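import Pool.Agent.W5h9.GC.Val

/-!
# Rational numbers close to a number with bounded partial quotients
-/

set_option autoImplicit false

namespace Pool.Agent.W5h9.GC

/-- every rational number in `[0, 1]` has a finite continued fraction -/
lemma exists_word : ∀ (q p : ℕ), 1 ≤ q → p ≤ q → Nat.Coprime q p → ∃ y : List ℕ, Pos y ∧ K y = (q, p) := by
  intro q
  induction q using Nat.strong_induction_on with
  | _ q ih =>
    intro p hq hp hc
    rcases Nat.eq_zero_or_pos p with h0 | h0
    · subst h0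
      have : q = 1 := by simpa using hc
      subst this
      exact ⟨[], fun a ha => absurd ha (by simp), rfl⟩
    · rcases Nat.lt_or_ge p q with h1 | h1
      · obtain ⟨y, hy, hK⟩ := ih p h1 (q % p) h0 (Nat.mod_lt q h0).le (by
          rw [Nat.coprime_iff_gcd_eq_one, ← hc, Nat.gcd_comm q p, Nat.gcd_rec p q, Nat.gcd_comm])
        refine ⟨(q / p) :: y, ?_, ?_⟩
        · intro a ha
          rcases List.mem_cons.1 ha with rfl | ha
          · exact Nat.div_pos hp h0
          · exact hy a ha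
        · simp only [K, hK]
          rw [Nat.div_add_mod' q p]
      · have h2 : p = q := le_antisymm hp h1
        subst h2
        have : p = 1 := by simpa using hc
        subst this
        refine ⟨[1], ?_, rfl⟩
        intro a ha
        rw [List.mem_singleton] at ha
        omega

/-- the common prefix of a word and a sequence -/
lemma common_prefix : ∀ (y : List ℕ) (a : ℕ → ℕ), ∃ (m : ℕ) (b : List ℕ), y = pre a m ++ b ∧
    (b = [] ∨ ∃ b₁ b', b = b₁ :: b' ∧ b₁ ≠ a m)
  | [], a => ⟨0, [], by simp [pre], Or.inl rfl⟩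
  | c :: y, a => by
      by_cases h : c = a 0
      · obtain ⟨m, b, e, hb⟩ := common_prefix y (fun i => a (1 + i))
        refine ⟨1 + m, b, ?_, hb⟩
        rw [pre_add, List.append_assoc, ← e, h]
        simp [pre]
      · exact ⟨0, c :: y, by simp [pre], Or.inr ⟨c, y, rfl, h⟩⟩

lemma sep_word {a : ℕ → ℕ} {A : ℕ} (ha : PosS a) (hA : ∀ i, a i ≤ A) {m b₁ : ℕ} {b' : List ℕ} (hb : Pos (b₁ :: b'))
    (hne : b₁ ≠ a m) : cA A / ((K (pre a m)).1 : ℝ) ^ 2 ≤ |val a - cv (pre a m ++ b₁ :: b')| := by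
  have h1 := val_mem (a := fun i => a (m + i)) fun i => ha _
  have h2 := cv_mem hb
  have h3 := Ph_lower (pre_pos ha m) h1.1 h2.1 h1.2 h2.2
  rw [val_eq ha m, cv_append (pre_pos ha m) hb]
  refine le_trans ?_ h3
  have hA0 : (0 : ℝ) ≤ A := Nat.cast_nonneg _
  have key : 1 / (((A : ℝ) + 2) * (A + 1) ^ 2) ≤ |(val fun i => a (m + i)) - cv (b₁ :: b')| := by
    have e1 : (val fun i => a (m + i)) = 1 / (a m + val fun i => a (m + (i + 1))) := by
      rw [val_succ (a := fun i => a (m + i)) fun i => ha _]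
      simp only [add_zero]
    have hK' : (0 : ℝ) < (K b').1 := by exact_mod_cast (K_le hb.tail).2
    have e2 : cv (b₁ :: b') = 1 / (b₁ + cv b') := by
      unfold cv
      simp only [K]
      push_cast
      rw [one_div, eq_comm, inv_eq_iff_eq_inv, inv_div]
      field_simp
    rw [e1, e2]
    obtain ⟨x1, x2⟩ := val_bounds (a := fun i => a (m + (i + 1))) (fun i => ha _) (fun i => hA _)
    obtain ⟨y1, y2⟩ := cv_mem hb.tail
    set x := val fun i => a (m + (i + 1))
    set y := cv b'
    have a1 : (1 : ℝ) ≤ a m := by exact_mod_cast ha m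
    have a2 : (a m : ℝ) ≤ A := by exact_mod_cast hA m
    have b1 : (1 : ℝ) ≤ b₁ := by exact_mod_cast hb.head
    have x0 : 0 ≤ x := le_trans (by positivity) x1
    have hlt : ((A : ℝ) + 1) / (A + 2) = 1 - 1 / (A + 2) := by field_simp; ring
    have hpos : 0 < 1 / ((A : ℝ) + 1) := by positivity
    have hpos2 : 0 < 1 / ((A : ℝ) + 2) := by positivity
    have hs : (a m : ℝ) + x ≤ A + 1 := by linarith
    rcases lt_or_gt_of_ne hne with hlt' | hlt'
    · -- `b₁ < a m`
      have h4 : (b₁ : ℝ) + 1 ≤ a m := by exact_mod_cast hlt'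
      have h5 : (1 : ℝ) / (a m) ≤ 1 / (b₁ + y) := one_div_le_one_div_of_le (by linarith) (by linarith)
      have h6 : 1 / (a m : ℝ) - 1 / (a m + x) = x / (a m * (a m + x)) := by
        have h7 : (a m : ℝ) ≠ 0 := by linarith
        have h8 : (a m : ℝ) + x ≠ 0 := by linarith
        field_simp
        ring
      have h7 : 1 / (((A : ℝ) + 2) * (A + 1) ^ 2) ≤ x / (a m * (a m + x)) := by
        calc 1 / (((A : ℝ) + 2) * (A + 1) ^ 2) = (1 / ((A : ℝ) + 2)) / (A + 1) ^ 2 := by rw [div_div]
          _ ≤ x / (A + 1) ^ 2 := by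
              gcongr
              refine le_trans ?_ x1
              apply one_div_le_one_div_of_le (by positivity)
              linarith
          _ ≤ x / (a m * (a m + x)) := by
              apply div_le_div_of_nonneg_left x0 (by positivity)
              have : (a m : ℝ) * (a m + x) ≤ A * (A + 1) := by gcongr
              nlinarith
      rw [le_abs]
      right
      linarith
    · have h4 : (a m : ℝ) + 1 ≤ b₁ := by exact_mod_cast hlt'
      have h5 : (1 : ℝ) / (b₁ + y) ≤ 1 / (a m + 1) := one_div_le_one_div_of_le (by linarith) (by linarith)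
      have h6 : 1 / (a m + x : ℝ) - 1 / (a m + 1) = (1 - x) / ((a m + x) * (a m + 1)) := by
        have h7 : (a m : ℝ) + 1 ≠ 0 := by linarith
        have h8 : (a m : ℝ) + x ≠ 0 := by linarith
        field_simp
        ring
      have h7 : 1 / (((A : ℝ) + 2) * (A + 1) ^ 2) ≤ (1 - x) / ((a m + x) * (a m + 1)) := by
        calc 1 / (((A : ℝ) + 2) * (A + 1) ^ 2) = (1 / ((A : ℝ) + 2)) / (A + 1) ^ 2 := by rw [div_div]
          _ ≤ (1 - x) / (A + 1) ^ 2 := by
              gcongr
              linarith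
          _ ≤ (1 - x) / ((a m + x) * (a m + 1)) := by
              apply div_le_div_of_nonneg_left (by linarith) (by positivity)
              have : ((a m : ℝ) + x) * (a m + 1) ≤ (A + 1) * (A + 1) := by gcongr
              nlinarith
      rw [le_abs]
      left
      linarith
  have h4 : (0 : ℝ) < (K (pre a m)).1 := by exact_mod_cast (K_le (pre_pos ha m)).2
  calc cA A / ((K (pre a m)).1 : ℝ) ^ 2 = (1 / (((A : ℝ) + 2) * (A + 1) ^ 2)) / (4 * ((K (pre a m)).1 : ℝ) ^ 2) := by
        unfold cA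
        field_simp
    _ ≤ _ := by gcongr

/-- A rational number close to a number with bounded partial quotients has a long common prefix. -/
lemma close_word {a : ℕ → ℕ} {A : ℕ} (ha : PosS a) (hA : ∀ i, a i ≤ A) {y : List ℕ} (hy : Pos y) {ρ : ℝ}
    (hclose : |val a - cv y| ≤ ((K y).1 : ℝ) ^ (-(2 - ρ))) (hρ : 0 ≤ ρ) :
    ∃ m b, y = pre a m ++ b ∧ Pos b ∧ cA A * ((K b).1 : ℝ) ^ 2 ≤ ((K y).1 : ℝ) ^ ρ := by
  obtain ⟨m, b, e, hb⟩ := common_prefix y a
  have hbp : Pos b := Pos.right (u := pre a m) (by rw [← e]; exact hy)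
  refine ⟨m, b, e, hbp, ?_⟩
  have hy1 : (1 : ℝ) ≤ (K y).1 := by exact_mod_cast (K_le hy).2
  have hcA1 : cA A ≤ 1 := by
    unfold cA
    rw [div_le_one (by positivity)]
    have hA0 : (0 : ℝ) ≤ A := Nat.cast_nonneg _
    nlinarith [sq_nonneg (A : ℝ)]
  rcases hb with rfl | ⟨b₁, b', rfl, hne⟩
  · have h1 : (1 : ℝ) ≤ ((K y).1 : ℝ) ^ ρ := Real.one_le_rpow hy1 hρ
    simp only [K, Nat.cast_one, one_pow, mul_one]
    exact hcA1.trans h1
  · have h1 := sep_word ha hA hbp hne
    rw [← e] at h1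
    have h2 := h1.trans hclose
    have h3 : (0 : ℝ) < (K (pre a m)).1 := by exact_mod_cast (K_le (pre_pos ha m)).2
    have h4 : ((K (pre a m)).1 : ℝ) * (K (b₁ :: b')).1 ≤ (K y).1 := by
      rw [e]
      exact_mod_cast q_mul_le
    have h5 : (0 : ℝ) ≤ (K (b₁ :: b')).1 := Nat.cast_nonneg _
    rw [div_le_iff₀ (by positivity)] at h2
    calc cA A * ((K (b₁ :: b')).1 : ℝ) ^ 2
        ≤ (((K y).1 : ℝ) ^ (-(2 - ρ)) * ((K (pre a m)).1 : ℝ) ^ 2) * ((K (b₁ :: b')).1 : ℝ) ^ 2 := by gcongr
      _ = ((K y).1 : ℝ) ^ (-(2 - ρ)) * (((K (pre a m)).1 : ℝ) * (K (b₁ :: b')).1) ^ 2 := by ring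
      _ ≤ ((K y).1 : ℝ) ^ (-(2 - ρ)) * ((K y).1 : ℝ) ^ 2 := by gcongr
      _ = ((K y).1 : ℝ) ^ ρ := by
          rw [← Real.rpow_natCast, ← Real.rpow_add (by linarith)]
          congr 1
          push_cast
          ring

end Pool.Agent.W5h9.GC
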