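import Mathlib

/-!
# Continuants of words
-/

set_option autoImplicit false

namespace Pool.Agent.W5h9.GC

/-- denominator and numerator of the continued fraction `[0; a_1, …, a_n]` -/
def K : List ℕ → ℕ × ℕ
  | [] => (1, 0)
  | a :: w => (a * (K w).1 + (K w).2, (K w).1)

/-- the previous denominator and numerator -/
def K' : List ℕ → ℕ × ℕ
  | [] => (0, 1)
  | a :: w => (a * (K' w).1 + (K' w).2, (K' w).1)

/-- all letters are positive -/
def Pos (w : List ℕ) : Prop := ∀ a ∈ w, 1 ≤ a

lemma Pos.tail {a : ℕ} {w : List ℕ} (h : Pos (a :: w)) : Pos w := fun b hb => h b (List.mem_cons_of_mem _ hb)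
lemma Pos.head {a : ℕ} {w : List ℕ} (h : Pos (a :: w)) : 1 ≤ a := h a List.mem_cons_self
lemma Pos.left {u v : List ℕ} (h : Pos (u ++ v)) : Pos u := fun b hb => h b (List.mem_append_left _ hb)
lemma Pos.right {u v : List ℕ} (h : Pos (u ++ v)) : Pos v := fun b hb => h b (List.mem_append_right _ hb)

lemma K_append (u v : List ℕ) : K (u ++ v) =
    ((K u).1 * (K v).1 + (K' u).1 * (K v).2, (K u).2 * (K v).1 + (K' u).2 * (K v).2) := by
  induction u with
  | nil => simp [K, K']
  | cons a u ih =>
    simp only [List.cons_append, K, K', ih]
    ext
    · simp only; ring
    · simp only

lemma K'_append (u v : List ℕ) : K' (u ++ v) =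
    ((K u).1 * (K' v).1 + (K' u).1 * (K' v).2, (K u).2 * (K' v).1 + (K' u).2 * (K' v).2) := by
  induction u with
  | nil => simp [K, K']
  | cons a u ih =>
    simp only [List.cons_append, K, K', ih]
    ext
    · simp only; ring
    · simp only

lemma K_le {w : List ℕ} (h : Pos w) : (K w).2 ≤ (K w).1 ∧ 1 ≤ (K w).1 := by
  induction w with
  | nil => simp [K]
  | cons a w ih =>
    obtain ⟨h1, h2⟩ := ih h.tail
    have := h.head
    simp only [K]
    constructor <;> nlinarith

lemma K'_le {w : List ℕ} (h : Pos w) : (K' w).1 ≤ (K w).1 ∧ (K' w).2 ≤ (K w).1 := by
  induction w with
  | nil => simp [K, K']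
  | cons a w ih =>
    obtain ⟨h1, h2⟩ := ih h.tail
    have h3 := h.head
    have h4 : (K' w).2 ≤ (K w).2 ∨ w = [] := by
      cases w with
      | nil => right; rfl
      | cons b w =>
        left
        simp only [K, K']
        clear ih h1 h2
        induction w with
        | nil => simp [K, K']
        | cons c w ih =>
          simp only [K, K']
          have e : Pos (a :: b :: w) := by
            intro x hx
            apply h x
            simp only [List.mem_cons] at hx ⊢
            tauto
          have ih' := ih e
          have e2 : (K' w).1 ≤ (K w).1 ∧ ((K' w).2 ≤ (K w).2 ∨ w = []) := by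
            clear ih ih' e
            have hw : Pos w := h.tail.tail.tail
            clear h
            induction w with
            | nil => simp [K, K']
            | cons d w ih =>
              obtain ⟨i1, i2⟩ := ih hw.tail
              simp only [K, K']
              refine ⟨?_, Or.inl i1⟩
              have hd := hw.head
              rcases i2 with i2 | i2
              · nlinarith [Nat.mul_le_mul_left d i1]
              · subst i2
                simp [K, K']
                omega
          obtain ⟨i1, i2⟩ := e2
          have hc : 1 ≤ c := h.tail.tail.head
          rcases i2 with i2 | i2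
          · nlinarith [Nat.mul_le_mul_left c i1]
          · subst i2
            simp [K, K']
            omega
    simp only [K, K']
    rcases h4 with h4 | h4
    · exact ⟨by nlinarith [Nat.mul_le_mul_left a h1], by nlinarith [Nat.mul_le_mul_right (K w).1 h3]⟩
    · subst h4
      simp [K, K']
      omega

lemma det_eq (w : List ℕ) : ((K w).1 : ℤ) * (K' w).2 - (K' w).1 * (K w).2 = (-1) ^ w.length := by
  induction w with
  | nil => simp [K, K']
  | cons a w ih =>
    simp only [K, K', List.length_cons, pow_succ]
    push_cast
    rw [← ih]
    ring

lemma K_coprime (w : List ℕ) : IsCoprime ((K w).1 : ℤ) ((K w).2 : ℤ) := by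
  have h := det_eq w
  rcases neg_one_pow_eq_or ℤ w.length with e | e
  · rw [e] at h
    exact ⟨(K' w).2, -(K' w).1, by linear_combination h⟩
  · rw [e] at h
    exact ⟨-(K' w).2, (K' w).1, by linear_combination -h⟩

lemma q_mul_le {u v : List ℕ} : (K u).1 * (K v).1 ≤ (K (u ++ v)).1 := by
  rw [K_append]
  exact Nat.le_add_right _ _

lemma q_le_mul {u v : List ℕ} (h : Pos (u ++ v)) : (K (u ++ v)).1 ≤ 2 * ((K u).1 * (K v).1) := by
  rw [K_append]
  have h1 := (K'_le h.left).1
  have h2 := (K_le h.right).1
  simp only
  nlinarith [Nat.mul_le_mul h1 h2]

lemma q_cons_le {a : ℕ} {w : List ℕ} (h : Pos w) : (K (a :: w)).1 ≤ (a + 1) * (K w).1 := by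
  simp only [K]
  have := (K_le h).1
  nlinarith

lemma q_concat_le {a : ℕ} {w : List ℕ} (h : Pos w) : (K (w ++ [a])).1 ≤ (a + 1) * (K w).1 := by
  rw [K_append]
  simp only [K]
  have := (K'_le h).1
  nlinarith

/-- the words with positive letters are determined by their continued fraction and the knowledge
whether the last letter is `1` -/
lemma K_inj : ∀ {w w' : List ℕ}, Pos w → Pos w' → K w = K w' →
    (w.getLast? = some 1 ↔ w'.getLast? = some 1) → w = w' := by
  intro w
  induction w with
  | nil =>
    intro w' _ h' hK _
    cases w' with
    | nil => rfl
    | cons b u =>
      simp only [K, Prod.mk.injEq] at hK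
      have := (K_le h'.tail).2
      omega
  | cons a u ih =>
    intro w' h h' hK he
    cases w' with
    | nil =>
      simp only [K, Prod.mk.injEq] at hK
      have := (K_le h.tail).2
      omega
    | cons b u' =>
      simp only [K, Prod.mk.injEq] at hK
      obtain ⟨h1, h2⟩ := hK
      have hu := K_le h.tail
      have hu' := K_le h'.tail
      have ha := h.head
      have hb := h'.head
      have key : ∀ {x y : ℕ} {s t : List ℕ}, Pos s → Pos t → x = y + 1 → (K s).1 = (K t).1 →
          x * (K s).1 + (K s).2 = y * (K t).1 + (K t).2 → s = [] ∧ t = [1] := by
        intro x y s t hs ht hxy e1 e2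
        have k1 := K_le hs
        have k2 := K_le ht
        subst hxy
        rw [e1] at e2
        have e3 : (K t).1 + (K s).2 = (K t).2 := by nlinarith
        have e4 : (K s).2 = 0 := by omega
        have e5 : (K t).2 = (K t).1 := by omega
        have e6 : s = [] := by
          cases s with
          | nil => rfl
          | cons c s =>
            have := (K_le hs.tail).2
            simp only [K] at e4
            omega
        refine ⟨e6, ?_⟩
        cases t with
        | nil => simp [K] at e5
        | cons c t =>
          have k3 := K_le ht.tail
          have hc := ht.head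
          simp only [K] at e5
          have e7 : c = 1 := by
            by_contra hne
            have : 2 ≤ c := by omega
            nlinarith
          subst e7
          have e8 : (K t).2 = 0 := by omega
          cases t with
          | nil => rfl
          | cons d t =>
            have := (K_le ht.tail.tail).2
            simp only [K] at e8
            omega
      rcases lt_trichotomy a b with hab | hab | hab
      · have hb1 : b = a + 1 := by
          by_contra hne
          have h3 : a + 2 ≤ b := by omega
          rw [h2] at h1
          have : (K u).2 ≤ (K u').1 := h2 ▸ hu.1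
          nlinarith
        obtain ⟨i1, i2⟩ := key h'.tail h.tail hb1 h2.symm h1.symm
        subst i1 i2
        simp at he
        omega
      · subst hab
        rw [h2] at h1
        have h3 : (K u).2 = (K u').2 := by omega
        have h4 : K u = K u' := Prod.ext h2 h3
        congr 1
        by_cases hu0 : u = []
        · subst hu0
          cases u' with
          | nil => rfl
          | cons c t =>
            simp only [K] at h3
            have := (K_le h'.tail.tail).2
            omega
        · by_cases hu0' : u' = []
          · subst hu0'
            cases u with
            | nil => rfl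
            | cons c t =>
              simp only [K] at h3
              have := (K_le h.tail.tail).2
              omega
          · apply ih h.tail h'.tail h4
            have e1 : (a :: u).getLast? = u.getLast? := by
              cases u with
              | nil => exact absurd rfl hu0
              | cons c t => simp
            have e2 : (a :: u').getLast? = u'.getLast? := by
              cases u' with
              | nil => exact absurd rfl hu0'
              | cons c t => simp
            rw [← e1, ← e2]
            exact he
      · have ha1 : a = b + 1 := by
          by_contra hne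
          have h3 : b + 2 ≤ a := by omega
          rw [← h2] at h1
          have : (K u').2 ≤ (K u).1 := h2 ▸ hu'.1
          nlinarith
        obtain ⟨i1, i2⟩ := key h.tail h'.tail ha1 h2 h1
        subst i1 i2
        simp at he
        omega

end Pool.Agent.W5h9.GC
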