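import Pool.Agent.W5h9.GC.Main2

/-!
# A criterion, the count, and the form of the conjecture
-/

set_option autoImplicit false

namespace Pool.Agent.W5h9.GC

open Filter Topology ENNReal MeasureTheory

/-- A sufficient condition for `dim E_𝒜 > 1 / 2`. -/
theorem half_lt {𝒜 : Set ℕ} {A : ℕ} (hA : ∀ a ∈ 𝒜, 1 ≤ a ∧ a ≤ A) {F : Finset ℕ} (hF : ∀ a ∈ F, a ∈ 𝒜)
    (h : 1 < ∑ a ∈ F, 1 / ((a : ℝ) + 1)) : 1 / 2 < δ 𝒜 := by
  classical
  -- an exponent larger than 1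
  have hcont : ContinuousAt (fun σ : ℝ => ∑ a ∈ F, ((a : ℝ) + 1) ^ (-σ)) 1 := by
    apply tendsto_finsetSum
    intro a _
    have h1 : (0 : ℝ) < (a : ℝ) + 1 := by positivity
    exact (Real.continuousAt_const_rpow h1.ne').comp continuousAt_neg
  have h1 : 1 < ∑ a ∈ F, ((a : ℝ) + 1) ^ (-(1 : ℝ)) := by
    refine lt_of_lt_of_eq h (Finset.sum_congr rfl fun a _ => ?_)
    rw [Real.rpow_neg_one, one_div]
  obtain ⟨r, hr, hball⟩ := Metric.eventually_nhds_iff.1 (hcont.eventually_const_lt h1)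
  set σ : ℝ := 1 + r / 2 with hσ
  have h2 : 1 < ∑ a ∈ F, ((a : ℝ) + 1) ^ (-σ) := by
    apply hball
    rw [hσ, Real.dist_eq]
    rw [show 1 + r / 2 - 1 = r / 2 by ring, abs_of_pos (by positivity)]
    linarith
  have hσ0 : 0 ≤ σ := by positivity
  by_contra hcon
  push Not at hcon
  have hZ : Z 𝒜 σ < ⊤ := Z_lt_top' hA (by rw [hσ]; linarith)
  -- the recursion
  have hrec : 1 + Z 𝒜 σ ≤ Z 𝒜 σ := by
    have e1 : Z 𝒜 σ = qs σ ([] : List ℕ) + ∑' w : W 𝒜, if w = ⟨[], by simp⟩ then 0 else qs σ w.1 := by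
      convert ENNReal.tsum_eq_add_tsum_ite (f := fun w : W 𝒜 => qs σ w.1) ⟨[], by simp⟩
      rfl
    have e2 : qs σ ([] : List ℕ) = 1 := by
      unfold qs
      simp [K]
    set i : F × W 𝒜 → W 𝒜 := fun x => ⟨x.1.1 :: x.2.1, by
      intro a ha
      rcases List.mem_cons.1 ha with rfl | ha
      · exact hF _ x.1.2
      · exact x.2.2 a ha⟩ with hi
    have hinj : Function.Injective i := by
      rintro ⟨⟨a, ha⟩, ⟨w, hw⟩⟩ ⟨⟨a', ha'⟩, ⟨w', hw'⟩⟩ he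
      simp only [hi, Subtype.mk.injEq, List.cons.injEq] at he
      obtain ⟨rfl, rfl⟩ := he
      rfl
    have e3 : ∑' x : F × W 𝒜, ENNReal.ofReal (((x.1.1 : ℝ) + 1) ^ (-σ)) * qs σ x.2.1 ≤
        ∑' w : W 𝒜, if w = ⟨[], by simp⟩ then 0 else qs σ w.1 := by
      refine le_trans (ENNReal.tsum_le_tsum fun x => ?_) (ENNReal.tsum_comp_le_tsum_of_injective hinj _)
      have h3 : i x ≠ ⟨[], by simp⟩ := by
        rw [hi]
        simp
      show _ ≤ if i x = ⟨[], by simp⟩ then 0 else qs σ (i x).1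
      rw [if_neg h3]
      unfold qs
      rw [← ENNReal.ofReal_mul (by positivity)]
      apply ENNReal.ofReal_le_ofReal
      have hp : Pos x.2.1 := fun a ha => (hA a (x.2.2 a ha)).1
      have h4 : ((K (i x).1).1 : ℝ) ≤ ((x.1.1 : ℝ) + 1) * (K x.2.1).1 := by
        exact_mod_cast q_cons_le (a := x.1.1) hp
      have h5 : (0 : ℝ) < (K x.2.1).1 := by exact_mod_cast (K_le hp).2
      have h6 : (0 : ℝ) < (K (i x).1).1 := by
        exact_mod_cast (K_le (fun a ha => (hA a ((i x).2 a ha)).1)).2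
      rw [← Real.mul_rpow (by positivity) (by positivity)]
      exact Real.rpow_le_rpow_of_nonpos h6 h4 (by linarith)
    have e4 : ∑' x : F × W 𝒜, ENNReal.ofReal (((x.1.1 : ℝ) + 1) ^ (-σ)) * qs σ x.2.1 =
        ENNReal.ofReal (∑ a ∈ F, ((a : ℝ) + 1) ^ (-σ)) * Z 𝒜 σ := by
      rw [ENNReal.tsum_prod']
      simp only
      have e5 : ∀ a : F, ∑' w : W 𝒜, ENNReal.ofReal (((a.1 : ℝ) + 1) ^ (-σ)) * qs σ w.1 =
          ENNReal.ofReal (((a.1 : ℝ) + 1) ^ (-σ)) * Z 𝒜 σ := fun a => ENNReal.tsum_mul_left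
      rw [tsum_congr e5, ENNReal.tsum_mul_right, tsum_fintype, ENNReal.ofReal_sum_of_nonneg (fun a _ => by positivity)]
      congr 1
      exact Finset.sum_coe_sort F (fun a => ENNReal.ofReal (((a : ℝ) + 1) ^ (-σ)))
    calc 1 + Z 𝒜 σ ≤ 1 + ENNReal.ofReal (∑ a ∈ F, ((a : ℝ) + 1) ^ (-σ)) * Z 𝒜 σ := by
          gcongr
          calc Z 𝒜 σ = 1 * Z 𝒜 σ := (one_mul _).symm
            _ ≤ _ := by
                gcongr
                rw [← ENNReal.ofReal_one]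
                exact ENNReal.ofReal_le_ofReal h2.le
      _ ≤ qs σ ([] : List ℕ) + ∑' w : W 𝒜, if w = ⟨[], by simp⟩ then 0 else qs σ w.1 := by
          rw [e2, ← e4]
          gcongr
      _ = Z 𝒜 σ := e1.symm
  have h3 : Z 𝒜 σ < 1 + Z 𝒜 σ := by
    rw [add_comm]
    exact ENNReal.lt_add_right hZ.ne one_ne_zero
  exact absurd hrec (not_le.2 h3)

/-- the words with a bounded denominator -/
lemma finite_words {𝒜 : Set ℕ} {A : ℕ} (hA : ∀ a ∈ 𝒜, 1 ≤ a ∧ a ≤ A) (N : ℕ) : {w : W 𝒜 | (K w.1).1 < N}.Finite := by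
  have h1 : {w : List ℕ | w.length ≤ 2 * N + 1 ∧ ∀ a ∈ w, a ∈ Set.Icc 1 A}.Finite := by
    have h2 : ∀ n : ℕ, {w : List ℕ | w.length = n ∧ ∀ a ∈ w, a ∈ Set.Icc 1 A}.Finite := fun n => by
      have := List.finite_length_eq (Set.Icc 1 A) n
      have hinj : {w : List ℕ | w.length = n ∧ ∀ a ∈ w, a ∈ Set.Icc 1 A} ⊆
          (fun l : List (Set.Icc 1 A) => l.map Subtype.val) '' {l | l.length = n} := by
        rintro w ⟨hw, hw2⟩
        refine ⟨w.attach.map (fun a => ⟨a.1, hw2 a.1 a.2⟩), ?_, ?_⟩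
        · simp [hw]
        · simp [List.map_map, Function.comp_def]
      exact (this.image _).subset hinj
    have h3 : {w : List ℕ | w.length ≤ 2 * N + 1 ∧ ∀ a ∈ w, a ∈ Set.Icc 1 A} ⊆
        ⋃ n ∈ Set.Iic (2 * N + 1), {w : List ℕ | w.length = n ∧ ∀ a ∈ w, a ∈ Set.Icc 1 A} := by
      rintro w ⟨hw, hw2⟩
      simp only [Set.mem_iUnion, Set.mem_Iic]
      exact ⟨w.length, hw, rfl, hw2⟩
    exact ((Set.finite_Iic _).biUnion fun n _ => h2 n).subset h3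
  refine (h1.preimage (f := fun w : W 𝒜 => w.1) Subtype.val_injective.injOn).subset ?_
  intro w hw
  have hp : Pos w.1 := fun a ha => (hA a (w.2 a ha)).1
  refine ⟨?_, fun a ha => hA a (w.2 a ha)⟩
  have h2 := growth hp
  have h3 : (K w.1).1 < N := hw
  have h4 : w.1.length / 2 < 2 ^ (w.1.length / 2) := Nat.lt_two_pow_self
  show w.1.length ≤ 2 * N + 1
  omega

/-- **The count of the exceptional words.** -/
theorem count_words {𝒜 : Set ℕ} {A : ℕ} (hA : ∀ a ∈ 𝒜, 1 ≤ a ∧ a ≤ A) (hδ : 1 / 2 < δ 𝒜) {ε κ τ : ℝ} (hε0 : 0 < ε) (hε : ε ≤ 1)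
    (hκ : 0 ≤ κ) (hτ : 2 * δ 𝒜 * (1 + 2 * κ) - ε * (2 * δ 𝒜 - 1) < τ) :
    ∑' w : {w : W 𝒜 // ¬ Good ε κ (pt w.1)}, qs τ w.1.1 < ⊤ := by
  obtain ⟨hd, hd1, hd0⟩ := dimH_EA 𝒜
  by_cases hτ2 : 2 * δ 𝒜 < τ
  · refine lt_of_le_of_lt ?_ (Z_lt_top' hA hτ2)
    exact ENNReal.tsum_comp_le_tsum_of_injective Subtype.val_injective (fun w : W 𝒜 => qs τ w.1)
  push Not at hτ2
  have hκε : 0 < ε - 2 * κ := by
    by_contra hcon
    push Not at hcon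
    nlinarith [mul_nonneg hκ hd0, mul_nonneg hε0.le hd0]
  have h5 : (2 * δ 𝒜 - τ + 2 * κ) / (2 * δ 𝒜 - 1) < ε - 2 * κ := by
    rw [div_lt_iff₀ (by linarith)]
    nlinarith
  obtain ⟨η, hη1, hη2⟩ := exists_between (max_lt hκε h5)
  have hη0 : 0 < η := lt_of_le_of_lt (le_max_left _ _) hη1
  have hη3 : 2 * δ 𝒜 - τ + 2 * κ < η * (2 * δ 𝒜 - 1) := by
    have := lt_of_le_of_lt (le_max_right _ _) hη1
    rwa [div_lt_iff₀ (by linarith)] at this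
  obtain ⟨q₀, hq₀⟩ := exists_q₀ (κ := κ) (by linarith)
  have hsum := exc_sum' hA (τ := τ) hδ hη0 hκ hη3 hq₀
  obtain ⟨q₁, hq₁⟩ := good_of_not_Ex hA hε hκ hη0 hη2 q₀
  -- the words are exceptional or small
  set E : Set (W 𝒜) := Ex 𝒜 η κ q₀ with hE
  set F : Set (W 𝒜) := {w : W 𝒜 | (K w.1).1 < q₁} with hF
  have hFf : F.Finite := finite_words hA q₁
  have hsub : {w : W 𝒜 | ¬ Good ε κ (pt w.1)} ⊆ E ∪ F := by
    intro w hw
    by_cases h1 : (K w.1).1 < q₁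
    · exact Or.inr h1
    · left
      by_contra h2
      exact hw (hq₁ w (not_lt.1 h1) h2)
  calc ∑' w : {w : W 𝒜 // ¬ Good ε κ (pt w.1)}, qs τ w.1.1 ≤ ∑' w : (E ∪ F : Set (W 𝒜)), qs τ w.1.1 :=
        ENNReal.tsum_mono_subtype (fun w : W 𝒜 => qs τ w.1) hsub
    _ ≤ ∑' w : E, qs τ w.1.1 + ∑' w : F, qs τ w.1.1 := ENNReal.tsum_union_le (fun w : W 𝒜 => qs τ w.1) E F
    _ < ⊤ := by
        refine ENNReal.add_lt_top.2 ⟨hsum, ?_⟩
        have : Fintype F := hFf.fintype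
        rw [tsum_fintype]
        exact ENNReal.sum_lt_top.2 fun w _ => ENNReal.ofReal_lt_top

/-- The inequality of the conjecture, with the coefficient `(1 - ε) q`, for all rational points near `z`:
for some `ρ > 0`, all `q`, all points `α_1, …, α_q` of the line and all finite sets `T` of primes there
is a constant `C` such that it holds for all `x` in `Near ρ z` different from the `α_i`. -/
def Vojta (ε z : ℝ) : Prop :=
  ∃ ρ : ℝ, 0 < ρ ∧ ∀ (q : ℕ) (α : Fin q → ℤ × ℤ) (T : Finset ℕ), (∀ i, IsCoprime (α i).1 (α i).2) →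
    (∀ p ∈ T, p.Prime) → ∃ C : ℝ, ∀ x ∈ Near ρ z, (∀ i, x.1 * (α i).2 - x.2 * (α i).1 ≠ 0) →
      (1 - ε) * q * hgt x ≤ ∑ i, N1 (α i) T x + C

lemma N1_nonneg (α : ℤ × ℤ) (T : Finset ℕ) (x : ℤ × ℤ) : 0 ≤ N1 α T x :=
  Finset.sum_nonneg fun p _ => Real.log_natCast_nonneg p

lemma vojta_of_not_Bad {𝒜 : Set ℕ} {z ε κ : ℝ} (hz : z ∈ EA 𝒜) (hκ : 0 < κ) (hκ2 : κ < 2) (h : z ∉ Bad 𝒜 ε κ κ) :
    Vojta ε z := by
  refine ⟨κ, hκ, fun q α T hα hT => ?_⟩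
  have hfin1 : {x | x ∈ Near κ z ∧ ¬ Good ε κ x}.Finite := by
    by_contra hcon
    exact h ⟨hz, hcon⟩
  -- the threshold
  obtain ⟨B, hB⟩ : ∃ B : ℝ, (∀ i, hgt (α i) ≤ B) ∧ ∑ p ∈ T, Real.log (p : ℝ) ≤ B := by
    obtain ⟨B₁, hB₁⟩ := (Set.finite_range fun i => hgt (α i)).bddAbove
    refine ⟨max B₁ (∑ p ∈ T, Real.log (p : ℝ)), fun i => ?_, le_max_right _ _⟩
    exact (hB₁ (Set.mem_range_self i)).trans (le_max_left _ _)
  have e1 : Tendsto (fun n : ℕ => κ * Real.log n) atTop atTop :=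
    (Real.tendsto_log_atTop.comp tendsto_natCast_atTop_atTop).const_mul_atTop hκ
  obtain ⟨M, hM⟩ := eventually_atTop.1 (e1.eventually_ge_atTop B)
  have hfin2 := near_finite (ρ := κ) (z := z) hκ2 M
  have hfin := hfin1.union hfin2
  refine ⟨∑ x ∈ hfin.toFinset, |(1 - ε) * q * hgt x|, fun x hx hne => ?_⟩
  have hC : 0 ≤ ∑ x ∈ hfin.toFinset, |(1 - ε) * q * hgt x| := Finset.sum_nonneg fun _ _ => abs_nonneg _
  have hN : 0 ≤ ∑ i, N1 (α i) T x := Finset.sum_nonneg fun i _ => N1_nonneg _ _ _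
  by_cases hxf : x ∈ hfin.toFinset
  · have h1 := Finset.single_le_sum (f := fun x => |(1 - ε) * q * hgt x|) (fun _ _ => abs_nonneg _) hxf
    have h2 := le_abs_self ((1 - ε) * q * hgt x)
    linarith
  · rw [Set.Finite.mem_toFinset, Set.mem_union, not_or] at hxf
    have hg : Good ε κ x := by
      by_contra hcon
      exact hxf.1 ⟨hx, hcon⟩
    have hx2 : (M : ℤ) ≤ x.2 := by
      by_contra hcon
      exact hxf.2 ⟨hx, not_le.1 hcon⟩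
    have hh : B ≤ κ * hgt x := by
      have h3 : M ≤ x.2.natAbs := by omega
      have h4 := hM x.2.natAbs h3
      refine h4.trans ?_
      have h5 : 0 < x.2.natAbs := by
        have := hx.2.1
        omega
      have h6 : Real.log (x.2.natAbs : ℕ) ≤ hgt x := by
        unfold hgt
        apply Real.log_le_log (by exact_mod_cast h5)
        exact_mod_cast le_max_right _ _
      gcongr
    have h7 := (hg q α T (fun i => ⟨hα i, (hB.1 i).trans hh⟩) hT (hB.2.trans hh)).2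
    linarith

/-- The set of the exceptions to the inequality of the conjecture has a smaller dimension. -/
theorem dim_Vojta {𝒜 : Set ℕ} {A : ℕ} (hA : ∀ a ∈ 𝒜, 1 ≤ a ∧ a ≤ A) (hδ : 1 / 2 < δ 𝒜) {ε : ℝ} (hε0 : 0 < ε) (hε : ε ≤ 1) :
    dimH {z | z ∈ EA 𝒜 ∧ ¬ Vojta ε z} ≤ ENNReal.ofReal (δ 𝒜 - ε * (δ 𝒜 - 1 / 2)) := by
  have h1 : ∀ κ : ℝ, 0 < κ → κ < 2 → dimH {z | z ∈ EA 𝒜 ∧ ¬ Vojta ε z} ≤
      ENNReal.ofReal ((2 * δ 𝒜 * (1 + 2 * κ) - ε * (2 * δ 𝒜 - 1)) / (2 - κ)) := by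
    intro κ hκ hκ2
    refine le_trans (dimH_mono ?_) (dim_Bad hA hδ hε0 hε hκ.le hκ.le hκ2)
    rintro z ⟨hz, hnv⟩
    by_contra hcon
    exact hnv (vojta_of_not_Bad hz hκ hκ2 hcon)
  have h2 : Tendsto (fun κ : ℝ => ENNReal.ofReal ((2 * δ 𝒜 * (1 + 2 * κ) - ε * (2 * δ 𝒜 - 1)) / (2 - κ))) (𝓝[>] 0)
      (𝓝 (ENNReal.ofReal (δ 𝒜 - ε * (δ 𝒜 - 1 / 2)))) := by
    apply ENNReal.tendsto_ofReal
    have h3 : ContinuousAt (fun κ : ℝ => (2 * δ 𝒜 * (1 + 2 * κ) - ε * (2 * δ 𝒜 - 1)) / (2 - κ)) 0 := by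
      apply ContinuousAt.div
      · fun_prop
      · fun_prop
      · norm_num
    have h4 := h3.tendsto.mono_left (nhdsWithin_le_nhds (s := Set.Ioi (0 : ℝ)))
    convert h4 using 2
    ring
  refine ge_of_tendsto h2 ?_
  have h5 : Set.Ioo (0 : ℝ) 2 ∈ 𝓝[>] (0 : ℝ) := Ioo_mem_nhdsGT (by norm_num)
  filter_upwards [h5] with κ hκ
  exact h1 κ hκ.1 hκ.2

/-- Almost all elements of `E_𝒜` satisfy the inequality of the conjecture. -/
theorem null_Vojta {𝒜 : Set ℕ} {A : ℕ} (hA : ∀ a ∈ 𝒜, 1 ≤ a ∧ a ≤ A) (hδ : 1 / 2 < δ 𝒜) :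
    Measure.hausdorffMeasure (δ 𝒜) {z | z ∈ EA 𝒜 ∧ ∃ ε > 0, ¬ Vojta ε z} = 0 := by
  have hsub : {z | z ∈ EA 𝒜 ∧ ∃ ε > 0, ¬ Vojta ε z} ⊆ ⋃ k : ℕ, {z | z ∈ EA 𝒜 ∧ ¬ Vojta (1 / ((k : ℝ) + 1)) z} := by
    rintro z ⟨hz, ε, hε, hnv⟩
    obtain ⟨k, hk⟩ := exists_nat_one_div_lt hε
    rw [Set.mem_iUnion]
    refine ⟨k, hz, fun hv => hnv ?_⟩
    obtain ⟨ρ, hρ, hv⟩ := hv
    refine ⟨ρ, hρ, fun q α T hα hT => ?_⟩
    obtain ⟨C, hC⟩ := hv q α T hα hT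
    refine ⟨C, fun x hx hne => le_trans ?_ (hC x hx hne)⟩
    have h1 : 0 ≤ hgt x := Real.log_natCast_nonneg _
    have h2 : 1 - ε ≤ 1 - 1 / ((k : ℝ) + 1) := by linarith
    gcongr
  refine measure_mono_null hsub (measure_iUnion_null fun k => ?_)
  have h1 : (0 : ℝ) < 1 / ((k : ℝ) + 1) := by positivity
  have h2 : 1 / ((k : ℝ) + 1) ≤ 1 := by
    rw [div_le_one (by positivity)]
    have : (0 : ℝ) ≤ k := Nat.cast_nonneg _
    linarith
  have h3 := dim_Vojta hA hδ h1 h2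
  obtain ⟨-, hd1, hd0⟩ := dimH_EA 𝒜
  have h4 : dimH {z | z ∈ EA 𝒜 ∧ ¬ Vojta (1 / ((k : ℝ) + 1)) z} < ((δ 𝒜).toNNReal : NNReal) := by
    refine lt_of_le_of_lt h3 ?_
    have h5 : ENNReal.ofReal (δ 𝒜 - 1 / ((k : ℝ) + 1) * (δ 𝒜 - 1 / 2)) < ENNReal.ofReal (δ 𝒜) := by
      apply (ENNReal.ofReal_lt_ofReal_iff (by linarith)).2
      have : 0 < 1 / ((k : ℝ) + 1) * (δ 𝒜 - 1 / 2) := mul_pos h1 (by linarith)
      linarith
    exact h5
  have h5 := hausdorffMeasure_of_dimH_lt h4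
  rwa [Real.coe_toNNReal _ hd0] at h5

end Pool.Agent.W5h9.GC
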