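import Pool.Agent.TH905.VF.Abs
import Pool.Agent.W5h9.GC.Crit

/-!
# From the truncated inequality to the points of curves
-/

set_option autoImplicit false

namespace Pool.Agent.W5h9.GC

open NumberField IsDedekindDomain Height Pool.Agent.H691R3

/-! ### primes -/

lemma exists_over (p : ℕ) (hp : p.Prime) : ∃ v : HeightOneSpectrum (𝓞 ℚ), (p : 𝓞 ℚ) ∈ v.asIdeal := by
  have hnu : Ideal.span {(p : 𝓞 ℚ)} ≠ ⊤ := by
    intro h
    rw [Ideal.span_singleton_eq_top] at h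
    have h1 : IsUnit (Rat.ringOfIntegersEquiv (p : 𝓞 ℚ)) := h.map _
    rw [map_natCast, Int.isUnit_iff] at h1
    have := hp.one_lt
    omega
  obtain ⟨M, hM, hle⟩ := Ideal.exists_le_maximal _ hnu
  have hmem : (p : 𝓞 ℚ) ∈ M := hle (Ideal.mem_span_singleton_self _)
  refine ⟨⟨M, hM.isPrime, ?_⟩, hmem⟩
  rintro rfl
  rw [Ideal.mem_bot] at hmem
  exact hp.ne_zero (by exact_mod_cast hmem)

variable {v : HeightOneSpectrum (𝓞 ℚ)} {p : ℕ}

lemma le_norm (hp : p.Prime) (hv : (p : 𝓞 ℚ) ∈ v.asIdeal) : Real.log p ≤ Real.log (Ideal.absNorm v.asIdeal) := by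
  have h1 : addOrderOf (1 : 𝓞 ℚ ⧸ v.asIdeal) = p := by
    have : Fact p.Prime := ⟨hp⟩
    apply addOrderOf_eq_prime
    · rw [nsmul_eq_mul, mul_one]
      have : ((p : ℕ) : 𝓞 ℚ ⧸ v.asIdeal) = Ideal.Quotient.mk v.asIdeal (p : 𝓞 ℚ) := by rw [map_natCast]
      rw [this]
      exact Ideal.Quotient.eq_zero_iff_mem.2 hv
    · have : Nontrivial (𝓞 ℚ ⧸ v.asIdeal) := Ideal.Quotient.nontrivial_iff.2 v.isPrime.ne_top
      exact one_ne_zero
  have h2 : p ∣ Ideal.absNorm v.asIdeal := by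
    rw [← h1, Ideal.absNorm_apply]
    exact addOrderOf_dvd_natCard _
  have h3 : 0 < Ideal.absNorm v.asIdeal := Nat.pos_of_ne_zero (by
    have := NumberField.HeightOneSpectrum.one_lt_absNorm v
    omega)
  exact Real.log_le_log (by exact_mod_cast hp.pos) (by exact_mod_cast Nat.le_of_dvd h3 h2)

lemma over_inj {p p' : ℕ} (hp : p.Prime) (hp' : p'.Prime) (h : (p : 𝓞 ℚ) ∈ v.asIdeal) (h' : (p' : 𝓞 ℚ) ∈ v.asIdeal) :
    p = p' := by
  by_contra hne
  have h1 : IsCoprime (p : ℤ) (p' : ℤ) := Nat.isCoprime_iff_coprime.2 ((Nat.coprime_primes hp hp').2 hne)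
  obtain ⟨a, b, hab⟩ := h1
  have h2 : ((a * p + b * p' : ℤ) : 𝓞 ℚ) ∈ v.asIdeal := by
    push_cast
    exact v.asIdeal.add_mem (v.asIdeal.mul_mem_left _ h) (v.asIdeal.mul_mem_left _ h')
  rw [hab, Int.cast_one] at h2
  exact v.isPrime.ne_top ((Ideal.eq_top_iff_one _).2 h2)

lemma fv_int (m : ℤ) : fv v (m : ℚ) ≤ 1 ∧ (fv v (m : ℚ) < 1 ↔ (m : 𝓞 ℚ) ∈ v.asIdeal) := by
  have h : ((m : ℤ) : ℚ) = algebraMap (𝓞 ℚ) ℚ (m : 𝓞 ℚ) := by simp
  rw [h, fv_apply, FinitePlace.mk_apply]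
  exact ⟨FinitePlace.norm_le_one ℚ v _, FinitePlace.norm_lt_one_iff_mem ℚ v _⟩

lemma fv_lt {m : ℤ} (hv : (p : 𝓞 ℚ) ∈ v.asIdeal) (h : (p : ℤ) ∣ m) : fv v (m : ℚ) < 1 := by
  rw [(fv_int m).2]
  obtain ⟨k, rfl⟩ := h
  push_cast
  exact v.asIdeal.mul_mem_right _ hv

lemma fv_eq {m : ℤ} (hp : p.Prime) (hv : (p : 𝓞 ℚ) ∈ v.asIdeal) (h : ¬ (p : ℤ) ∣ m) : fv v (m : ℚ) = 1 := by
  refine le_antisymm (fv_int m).1 (not_lt.1 fun hlt => ?_)
  rw [(fv_int m).2] at hlt
  have h1 : IsCoprime (p : ℤ) m := by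
    rw [Int.isCoprime_iff_gcd_eq_one]
    rcases (Nat.dvd_prime hp).1 (Int.gcd_dvd_natAbs_left (p : ℤ) m : Int.gcd p m ∣ p) with h2 | h2
    · exact h2
    · exfalso
      apply h
      have := Int.gcd_dvd_right (a := (p : ℤ)) (b := m)
      rwa [h2] at this
  obtain ⟨a, b, hab⟩ := h1
  have h2 : ((a * p + b * m : ℤ) : 𝓞 ℚ) ∈ v.asIdeal := by
    push_cast
    exact v.asIdeal.add_mem (v.asIdeal.mul_mem_left _ hv) (v.asIdeal.mul_mem_left _ hlt)
  rw [hab, Int.cast_one] at h2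
  exact v.isPrime.ne_top ((Ideal.eq_top_iff_one _).2 h2)

/-! ### linear forms -/

/-- the value of a linear form -/
def ev (l x : ℤ × ℤ) : ℤ := l.1 * x.1 + l.2 * x.2

/-- the determinant of two linear forms -/
def dt (l l' : ℤ × ℤ) : ℤ := l.1 * l'.2 - l'.1 * l.2

lemma exists_prim (l : ℤ × ℤ) (h : l ≠ 0) : ∃ (c : ℤ) (α : ℤ × ℤ), c ≠ 0 ∧ IsCoprime α.1 α.2 ∧
    ∀ x, ev l x = c * (x.1 * α.2 - x.2 * α.1) := by
  have hg : 0 < Int.gcd l.1 l.2 := by
    apply Nat.pos_of_ne_zero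
    rw [Ne, Int.gcd_eq_zero_iff]
    rintro ⟨h1, h2⟩
    exact h (Prod.ext h1 h2)
  obtain ⟨m, n, h1, h2, h3⟩ := Int.exists_gcd_one hg
  refine ⟨(Int.gcd l.1 l.2 : ℤ), (-n, m), by exact_mod_cast hg.ne', ?_, fun x => ?_⟩
  · simp only
    rw [IsCoprime.neg_left_iff]
    exact (Int.isCoprime_iff_gcd_eq_one.2 h1).symm
  · have h4 : ev l x = (m * (Int.gcd l.1 l.2 : ℤ)) * x.1 + (n * (Int.gcd l.1 l.2 : ℤ)) * x.2 := by
      rw [← h2, ← h3]
      rfl
    rw [h4]
    ring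

lemma union_bound {ε z ρ : ℝ} (hV : ∀ (q : ℕ) (α : Fin q → ℤ × ℤ) (T : Finset ℕ),
      (∀ i, IsCoprime (α i).1 (α i).2) → (∀ p ∈ T, p.Prime) → ∃ C : ℝ, ∀ x ∈ Near ρ z,
      (∀ i, x.1 * (α i).2 - x.2 * (α i).1 ≠ 0) → (1 - ε) * q * hgt x ≤ ∑ i, N1 (α i) T x + C)
    {q : ℕ} (l : Fin q → ℤ × ℤ) (hl0 : ∀ i, l i ≠ 0) (hl : ∀ i j, i ≠ j → dt (l i) (l j) ≠ 0) (T : Finset ℕ)
    (hT : ∀ p ∈ T, p.Prime) :
    ∃ C : ℝ, ∀ x ∈ Near ρ z, (∀ i, ev (l i) x ≠ 0) →
      (1 - ε) * q * hgt x ≤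
        ∑ p ∈ (Finset.univ.biUnion fun i => (ev (l i) x).natAbs.primeFactors) \ T, Real.log p + C := by
  classical
  choose c α hc hα hev using fun i => exists_prim (l i) (hl0 i)
  set T' : Finset ℕ := T ∪ Finset.univ.biUnion fun i => Finset.univ.biUnion fun j =>
    (dt (l i) (l j)).natAbs.primeFactors with hT'
  obtain ⟨C, hC⟩ := hV q α T' hα (by
    intro p hp
    rw [hT', Finset.mem_union] at hp
    rcases hp with hp | hp
    · exact hT p hp
    · obtain ⟨i, -, hp⟩ := Finset.mem_biUnion.1 hp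
      obtain ⟨j, -, hp⟩ := Finset.mem_biUnion.1 hp
      exact Nat.prime_of_mem_primeFactors hp)
  refine ⟨C, fun x hx hne => ?_⟩
  have hne' : ∀ i, x.1 * (α i).2 - x.2 * (α i).1 ≠ 0 := by
    intro i h0
    apply hne i
    rw [hev, h0, mul_zero]
  refine (hC x hx hne').trans (add_le_add_left ?_ C)
  have hdisj : (Set.univ : Set (Fin q)).PairwiseDisjoint fun i => (ev (l i) x).natAbs.primeFactors \ T' := by
    intro i _ j _ hij
    rw [Function.onFun, Finset.disjoint_left]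
    intro p hp hp'
    rw [Finset.mem_sdiff] at hp hp'
    have hpp := Nat.prime_of_mem_primeFactors hp.1
    have h1 : (p : ℤ) ∣ ev (l i) x := Int.natCast_dvd.2 (Nat.dvd_of_mem_primeFactors hp.1)
    have h2 : (p : ℤ) ∣ ev (l j) x := Int.natCast_dvd.2 (Nat.dvd_of_mem_primeFactors hp'.1)
    obtain ⟨r, s, hrs⟩ := hx.1
    have h3 : dt (l i) (l j) = (ev (l i) x * (l j).2 - ev (l j) x * (l i).2) * r +
        (ev (l j) x * (l i).1 - ev (l i) x * (l j).1) * s := by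
      have : dt (l i) (l j) = dt (l i) (l j) * (r * x.1 + s * x.2) := by rw [hrs, mul_one]
      rw [this]
      unfold dt ev
      ring
    have h4 : (p : ℤ) ∣ dt (l i) (l j) := by
      rw [h3]
      exact dvd_add (Dvd.dvd.mul_right (dvd_sub (Dvd.dvd.mul_right h1 _) (Dvd.dvd.mul_right h2 _)) _)
        (Dvd.dvd.mul_right (dvd_sub (Dvd.dvd.mul_right h2 _) (Dvd.dvd.mul_right h1 _)) _)
    apply hp.2
    rw [hT']
    refine Finset.mem_union_right _ (Finset.mem_biUnion.2 ⟨i, Finset.mem_univ _, Finset.mem_biUnion.2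
      ⟨j, Finset.mem_univ _, ?_⟩⟩)
    rw [Nat.mem_primeFactors]
    exact ⟨hpp, Int.natCast_dvd.1 h4, Int.natAbs_ne_zero.2 (hl i j hij)⟩
  calc ∑ i, N1 (α i) T' x ≤ ∑ i, ∑ p ∈ (ev (l i) x).natAbs.primeFactors \ T', Real.log p := by
        refine Finset.sum_le_sum fun i _ => ?_
        unfold N1
        refine Finset.sum_le_sum_of_subset_of_nonneg (Finset.sdiff_subset_sdiff (Nat.primeFactors_mono ?_ ?_)
          subset_rfl) fun p _ _ => Real.log_natCast_nonneg p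
        · rw [hev, Int.natAbs_mul]
          exact Dvd.intro_left _ rfl
        · exact Int.natAbs_ne_zero.2 (hne i)
    _ = ∑ p ∈ Finset.univ.biUnion fun i => (ev (l i) x).natAbs.primeFactors \ T', Real.log p := by
        rw [Finset.sum_biUnion]
        simpa using hdisj
    _ ≤ _ := by
        refine Finset.sum_le_sum_of_subset_of_nonneg ?_ fun p _ _ => Real.log_natCast_nonneg p
        intro p hp
        obtain ⟨i, hi, hp⟩ := Finset.mem_biUnion.1 hp
        rw [Finset.mem_sdiff] at hp ⊢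
        refine ⟨Finset.mem_biUnion.2 ⟨i, hi, hp.1⟩, fun h => hp.2 ?_⟩
        rw [hT']
        exact Finset.mem_union_left _ h

/-! ### the transformed coordinate -/

/-- the affine coordinate of the image of `x` under the linear transformation `g` -/
def mob (g : Matrix (Fin 2) (Fin 2) ℤ) (x : ℤ × ℤ) : ℚ := (ev (g 0 0, g 0 1) x : ℚ) / (ev (g 1 0, g 1 1) x : ℚ)

lemma height_mob (g : Matrix (Fin 2) (Fin 2) ℤ) : ∃ C : ℝ, ∀ x : ℤ × ℤ, x ≠ 0 →
    logHeight₁ (mob g x) ≤ hgt x + C := by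
  set G : ℕ := 1 + ((g 0 0).natAbs + (g 0 1).natAbs) + ((g 1 0).natAbs + (g 1 1).natAbs) with hG
  refine ⟨Real.log G, fun x hx => ?_⟩
  set M : ℕ := max x.1.natAbs x.2.natAbs with hM
  have hM0 : 0 < M := by
    by_contra h
    have h1 : x.1.natAbs = 0 := by
      have := le_max_left x.1.natAbs x.2.natAbs
      omega
    have h2 : x.2.natAbs = 0 := by
      have := le_max_right x.1.natAbs x.2.natAbs
      omega
    exact hx (Prod.ext (Int.natAbs_eq_zero.1 h1) (Int.natAbs_eq_zero.1 h2))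
  have hev : ∀ a b : ℤ, (ev (a, b) x).natAbs ≤ (a.natAbs + b.natAbs) * M := by
    intro a b
    unfold ev
    refine (Int.natAbs_add_le _ _).trans ?_
    rw [Int.natAbs_mul, Int.natAbs_mul, add_mul]
    exact add_le_add (Nat.mul_le_mul_left _ (le_max_left _ _)) (Nat.mul_le_mul_left _ (le_max_right _ _))
  have hG1 : 1 ≤ G := by omega
  rw [Rat.logHeight₁_eq_log_max]
  unfold hgt
  rw [← hM, ← Real.log_mul (by positivity) (by positivity)]
  have hpos : (0 : ℝ) < ((max (mob g x).num.natAbs (mob g x).den : ℕ) : ℝ) := by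
    have := (mob g x).den_pos
    have h1 : 0 < max (mob g x).num.natAbs (mob g x).den := lt_max_of_lt_right this
    exact_mod_cast h1
  apply Real.log_le_log hpos
  have hle : max (mob g x).num.natAbs (mob g x).den ≤ M * G := by
    by_cases hv : ev (g 1 0, g 1 1) x = 0
    · have : mob g x = 0 := by
        unfold mob
        rw [hv]
        simp
      rw [this]
      simp only [Rat.num_zero, Int.natAbs_zero, Rat.den_zero]
      have : 1 ≤ M * G := Nat.mul_pos hM0 hG1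
      simpa using this
    · have e : mob g x = Rat.divInt (ev (g 0 0, g 0 1) x) (ev (g 1 0, g 1 1) x) := by
        rw [Rat.divInt_eq_div]
        rfl
      have h1 : (mob g x).den ∣ (ev (g 1 0, g 1 1) x).natAbs := by
        rw [e]
        exact Int.natCast_dvd.1 (Rat.den_dvd _ _)
      have h2 : (mob g x).num.natAbs ≤ (ev (g 0 0, g 0 1) x).natAbs := by
        by_cases hu : ev (g 0 0, g 0 1) x = 0
        · rw [e, hu]
          simp
        · rw [e]
          exact Nat.le_of_dvd (Int.natAbs_pos.2 hu) (Int.natAbs_dvd_natAbs.2 (Rat.num_dvd _ hv))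
      refine max_le ?_ ?_
      · refine (h2.trans (hev _ _)).trans ?_
        rw [mul_comm]
        exact Nat.mul_le_mul_left _ (by omega)
      · refine ((Nat.le_of_dvd (Int.natAbs_pos.2 hv) h1).trans (hev _ _)).trans ?_
        rw [mul_comm]
        exact Nat.mul_le_mul_left _ (by omega)
  exact_mod_cast hle

/-- the linear form which vanishes at the points with `mob g x = a` -/
def fm (g : Matrix (Fin 2) (Fin 2) ℤ) (a : ℚ) : ℤ × ℤ :=
  (a.den * g 0 0 - a.num * g 1 0, a.den * g 0 1 - a.num * g 1 1)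

lemma ev_fm (g : Matrix (Fin 2) (Fin 2) ℤ) (a : ℚ) (x : ℤ × ℤ) :
    ev (fm g a) x = a.den * ev (g 0 0, g 0 1) x - a.num * ev (g 1 0, g 1 1) x := by
  unfold ev fm
  ring

lemma dt_fm (g : Matrix (Fin 2) (Fin 2) ℤ) (a b : ℚ) :
    dt (fm g a) (fm g b) = g.det * (a.num * b.den - b.num * a.den) := by
  rw [Matrix.det_fin_two]
  unfold dt fm
  ring

lemma dt_fm_ne {g : Matrix (Fin 2) (Fin 2) ℤ} (hg : g.det ≠ 0) {a b : ℚ} (h : a ≠ b) : dt (fm g a) (fm g b) ≠ 0 := by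
  rw [dt_fm]
  refine mul_ne_zero hg fun h0 => h ?_
  rw [Rat.eq_iff_mul_eq_mul]
  linarith

lemma fm_ne {g : Matrix (Fin 2) (Fin 2) ℤ} (hg : g.det ≠ 0) (a : ℚ) : fm g a ≠ 0 := by
  intro h
  have h1 := dt_fm_ne hg (show a ≠ a + 1 by intro h; linarith)
  rw [h] at h1
  apply h1
  unfold dt
  simp

lemma mob_sub (g : Matrix (Fin 2) (Fin 2) ℤ) (a : ℚ) (x : ℤ × ℤ) (hx : ev (g 1 0, g 1 1) x ≠ 0) :
    mob g x - a = (ev (fm g a) x : ℚ) / (ev (g 1 0, g 1 1) x * a.den) := by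
  have h1 : (a.den : ℚ) ≠ 0 := by exact_mod_cast a.den_ne_zero
  have h2 : (ev (g 1 0, g 1 1) x : ℚ) ≠ 0 := by exact_mod_cast hx
  have h3 : a = a.num / a.den := (Rat.num_div_den a).symm
  rw [ev_fm]
  unfold mob
  conv_lhs => rw [h3]
  push_cast
  field_simp

/-- at a prime dividing the form, the coordinate is near `a` -/
lemma near_of_dvd {g : Matrix (Fin 2) (Fin 2) ℤ} {a : ℚ} {x : ℤ × ℤ} (hcop : IsCoprime x.1 x.2)
    (hx : ev (g 1 0, g 1 1) x ≠ 0) (hp : p.Prime) (hv : (p : 𝓞 ℚ) ∈ v.asIdeal) (hg : ¬ (p : ℤ) ∣ g.det)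
    (hd : ¬ p ∣ a.den) (h : (p : ℤ) ∣ ev (fm g a) x) : fv v (mob g x - a) < max (fv v (mob g x)) 1 := by
  have hV : (ev (g 1 0, g 1 1) x : ℚ) ≠ 0 := by exact_mod_cast hx
  have hV0 : 0 < fv v (ev (g 1 0, g 1 1) x : ℚ) := (fv v).pos hV
  have hden : fv v ((a.den : ℕ) : ℚ) = 1 := by
    have := fv_eq (m := (a.den : ℤ)) hp hv (by rwa [Int.natCast_dvd_natCast])
    exact_mod_cast this
  have h1 : fv v (mob g x - a) = fv v (ev (fm g a) x : ℚ) / fv v (ev (g 1 0, g 1 1) x : ℚ) := by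
    rw [mob_sub g a x hx, map_div₀, map_mul, hden, mul_one]
  have h2 := fv_lt hv h
  by_cases h3 : (p : ℤ) ∣ ev (g 1 0, g 1 1) x
  · have h4 : ¬ (p : ℤ) ∣ ev (g 0 0, g 0 1) x := by
      intro h4
      apply hg
      obtain ⟨r, s, hrs⟩ := hcop
      have h5 : g.det = (g 1 1 * ev (g 0 0, g 0 1) x - g 0 1 * ev (g 1 0, g 1 1) x) * r +
          (g 0 0 * ev (g 1 0, g 1 1) x - g 1 0 * ev (g 0 0, g 0 1) x) * s := by
        have : g.det = g.det * (r * x.1 + s * x.2) := by rw [hrs, mul_one]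
        rw [this, Matrix.det_fin_two]
        unfold ev
        ring
      rw [h5]
      exact dvd_add (Dvd.dvd.mul_right (dvd_sub (Dvd.dvd.mul_left h4 _) (Dvd.dvd.mul_left h3 _)) _)
        (Dvd.dvd.mul_right (dvd_sub (Dvd.dvd.mul_left h3 _) (Dvd.dvd.mul_left h4 _)) _)
    have h5 : fv v (mob g x) = 1 / fv v (ev (g 1 0, g 1 1) x : ℚ) := by
      unfold mob
      rw [map_div₀, fv_eq hp hv h4]
    refine lt_max_of_lt_left ?_
    rw [h1, h5]
    gcongr
  · refine lt_max_of_lt_right ?_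
    rw [h1, fv_eq hp hv h3, div_one]
    exact h2

open Polynomial Pool.Agent.TH905.VF in
theorem curves {ε z : ℝ} (hε : ε ≤ 1) (hV : Vojta ε z) : ∃ ρ : ℝ, 0 < ρ ∧
    ∀ (A : Type) [CommRing A] [IsDedekindDomain A] [Algebra ℚ A] [Algebra ℚ[X] A] [IsScalarTower ℚ ℚ[X] A]
      [Module.Finite ℚ[X] A] [FaithfulSMul ℚ[X] A] (q : ℕ) (a : Fin q → ℚ) (u : Fin q → ℕ)
      (y : ∀ j, Fin (u j + 1) → A) (g : Matrix (Fin 2) (Fin 2) ℤ) (ε' : ℝ), Function.Injective a →
      (∀ j, y j 0 = Pool.Agent.W223.AC.tt A - algebraMap ℚ[X] A (C (a j))) →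
      (∀ j l, y j l ∈ (Ideal.span {Pool.Agent.W223.AC.tt A - algebraMap ℚ[X] A (C (a j))}).radical) →
      g.det ≠ 0 → 0 < ε' →
      ∃ c : ℝ, ∀ x ∈ Near ρ z, ev (g 1 0, g 1 1) x ≠ 0 → (∀ j, mob g x ≠ a j) →
        ∀ (L : Type) [Field L] [NumberField L] (φ : A →+* L) (S : Finset ℕ) (hS : ∀ p ∈ S, p.Prime),
          φ (Pool.Agent.W223.AC.tt A) = algebraMap ℚ L (mob g x) →
          (1 - ε) * q * logHeight₁ (mob g x) +
            proxC (K := ℚ) (above_finite ℚ S hS).toFinset (n := 1) (q := fun _ => q) (A := fun _ => A)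
              (u := fun _ => u) (fun _ => y) (fun _ => φ) ≤
          ld ℚ L + ((∑ j, (Module.finrank ℚ (A ⧸ Ideal.span (Set.range (y j))) : ℝ)) /
            Module.finrank ℚ[X] A + ε') * logHeight₁ (mob g x) + ∑ p ∈ S, Real.log p + c := by
  classical
  obtain ⟨ρ, hρ, hV⟩ := hV
  refine ⟨ρ, hρ, ?_⟩
  intro A _ _ _ _ _ _ _ q a u y g ε' ha hy0 hyr hg hε'
  obtain ⟨T, c, hk⟩ := prod_key ℚ (n := 1) (q := fun _ => q) (fun _ => A) (fun _ => a) (fun _ => u) (fun _ => y)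
    (fun _ j => hy0 j) (fun _ j l => hyr j l) ε' hε'
  -- a prime of `𝓞 ℚ` over each prime number
  have hex : ∀ p : ℕ, ∃ v : HeightOneSpectrum (𝓞 ℚ), p.Prime → (p : 𝓞 ℚ) ∈ v.asIdeal := by
    intro p
    by_cases hp : p.Prime
    · obtain ⟨v, hv⟩ := exists_over p hp
      exact ⟨v, fun _ => hv⟩
    · obtain ⟨v, hv⟩ := exists_over 2 Nat.prime_two
      exact ⟨v, fun h => absurd h hp⟩
  choose vp hvp using hex
  have hinj : ∀ p p' : ℕ, p.Prime → p'.Prime → vp p = vp p' → p = p' := by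
    intro p p' hp hp' h
    have h1 := hvp p' hp'
    rw [← h] at h1
    exact over_inj hp hp' (hvp p hp) h1
  -- the excluded primes
  have hTfin : {p : ℕ | p.Prime ∧ vp p ∈ T}.Finite := by
    refine Set.Finite.of_finite_image (f := vp) (T.finite_toSet.subset ?_) ?_
    · rintro _ ⟨p, hp, rfl⟩
      exact hp.2
    · intro p hp p' hp' h
      exact hinj p p' hp.1 hp'.1 h
  set T₀ : Finset ℕ := hTfin.toFinset ∪ (g.det.natAbs.primeFactors ∪
    Finset.univ.biUnion fun j => (a j).den.primeFactors) with hT₀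
  obtain ⟨C₁, hC₁⟩ := union_bound hV (fun j => fm g (a j)) (fun j => fm_ne hg _)
    (fun i j hij => dt_fm_ne hg (ha.ne hij)) T₀ (by
      intro p hp
      rw [hT₀, Finset.mem_union, Finset.mem_union] at hp
      rcases hp with hp | hp | hp
      · exact ((Set.Finite.mem_toFinset _).1 hp).1
      · exact Nat.prime_of_mem_primeFactors hp
      · obtain ⟨j, -, hp⟩ := Finset.mem_biUnion.1 hp
        exact Nat.prime_of_mem_primeFactors hp)
  obtain ⟨C₂, hC₂⟩ := height_mob g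
  refine ⟨c + C₁ + (1 - ε) * q * C₂, ?_⟩
  intro x hx hx0 hne L _ _ φ S hS hφ
  have hxne : x ≠ 0 := by
    rintro rfl
    exact hx0 (by unfold ev; simp)
  have hev : ∀ j, ev (fm g (a j)) x ≠ 0 := by
    intro j h0
    apply hne j
    have h1 := mob_sub g (a j) x hx0
    rw [h0] at h1
    simp only [Int.cast_zero, zero_div] at h1
    exact sub_eq_zero.1 h1
  set P : Finset ℕ := (Finset.univ.biUnion fun j => (ev (fm g (a j)) x).natAbs.primeFactors) \ T₀ with hP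
  have hPp : ∀ p ∈ P, p.Prime := by
    intro p hp
    rw [hP, Finset.mem_sdiff] at hp
    obtain ⟨j, -, hp⟩ := Finset.mem_biUnion.1 hp.1
    exact Nat.prime_of_mem_primeFactors hp
  have h1 := hC₁ x hx hev
  have h2 := hC₂ x hxne
  have h3 := hk L (fun _ => φ) (fun _ => mob g x) (fun _ => hφ) (fun _ j => by
      have := hne j
      simpa using this) (above_finite ℚ S hS).toFinset ((P \ S).image vp) (by
    intro v hv
    obtain ⟨p, hp, rfl⟩ := Finset.mem_image.1 hv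
    rw [Finset.mem_sdiff] at hp
    have hpp := hPp p hp.1
    have hp1 := hp.1
    rw [hP, Finset.mem_sdiff, hT₀, Finset.mem_union, Finset.mem_union, not_or, not_or] at hp1
    obtain ⟨hp1, hp2, hp3, hp4⟩ := hp1
    obtain ⟨j, -, hp1⟩ := Finset.mem_biUnion.1 hp1
    refine ⟨?_, ?_, 0, j, ?_⟩
    · intro hcon
      obtain ⟨p', hp', hmem⟩ := (Set.Finite.mem_toFinset _).1 hcon
      have := over_inj hpp (hS p' hp') (hvp p hpp) hmem
      exact hp.2 (this ▸ hp')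
    · intro hcon
      exact hp2 ((Set.Finite.mem_toFinset _).2 ⟨hpp, hcon⟩)
    · have h4 : (p : ℤ) ∣ ev (fm g (a j)) x := Int.natCast_dvd.2 (Nat.dvd_of_mem_primeFactors hp1)
      have h5 : ¬ (p : ℤ) ∣ g.det := by
        intro h5
        apply hp3
        rw [Nat.mem_primeFactors]
        exact ⟨hpp, Int.natCast_dvd.1 h5, Int.natAbs_ne_zero.2 hg⟩
      have h6 : ¬ p ∣ (a j).den := by
        intro h6
        apply hp4
        refine Finset.mem_biUnion.2 ⟨j, Finset.mem_univ _, ?_⟩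
        rw [Nat.mem_primeFactors]
        exact ⟨hpp, h6, (a j).den_ne_zero⟩
      have h7 := near_of_dvd hx.1 hx0 hpp (hvp p hpp) h5 h6 h4
      simpa using h7)
  have h4 : ∑ p ∈ P \ S, Real.log (p : ℝ) ≤ ∑ v ∈ (P \ S).image vp, Real.log (Ideal.absNorm v.asIdeal) := by
    rw [Finset.sum_image]
    · refine Finset.sum_le_sum fun p hp => ?_
      have hpp := hPp p (Finset.mem_sdiff.1 hp).1
      exact le_norm hpp (hvp p hpp)
    · intro p hp p' hp' h
      exact hinj p p' (hPp p (Finset.mem_sdiff.1 hp).1) (hPp p' (Finset.mem_sdiff.1 hp').1) h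
  have h5 : ∑ p ∈ P, Real.log (p : ℝ) ≤ ∑ p ∈ P \ S, Real.log (p : ℝ) + ∑ p ∈ S, Real.log (p : ℝ) := by
    rw [← Finset.sum_inter_add_sum_sdiff P S, add_comm]
    refine add_le_add_right ?_ _
    exact Finset.sum_le_sum_of_subset_of_nonneg Finset.inter_subset_right fun p _ _ => Real.log_natCast_nonneg p
  simp only [Finset.univ_unique, Fin.default_eq_zero, Fin.isValue, Finset.sum_singleton] at h3
  have h6 : (1 - ε) * q * logHeight₁ (mob g x) ≤ (1 - ε) * q * hgt x + (1 - ε) * q * C₂ := by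
    have : 0 ≤ (1 - ε) * q := mul_nonneg (by linarith) (Nat.cast_nonneg _)
    nlinarith
  linarith

end Pool.Agent.W5h9.GC
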