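import Mathlib

/-!
# The series of `r ^ (-x) rad(r) ^ (-y)`
-/

set_option autoImplicit false

namespace Pool.Agent.W5h9.GC

open ENNReal

/-- the product of the prime divisors -/
def rd (r : ℕ) : ℕ := ∏ p ∈ r.primeFactors, p

lemma rd_pos (r : ℕ) : 0 < rd r := Finset.prod_pos fun _ hp => (Nat.prime_of_mem_primeFactors hp).pos

lemma rd_dvd {r : ℕ} : rd r ∣ r := Nat.prod_primeFactors_dvd r

/-- the function `n ↦ n ^ (-σ)` as a monoid homomorphism -/
noncomputable def powHom (σ : ℝ) : ℕ →* ℝ where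
  toFun n := (n : ℝ) ^ (-σ)
  map_one' := by simp
  map_mul' m n := by
    push_cast
    exact Real.mul_rpow (Nat.cast_nonneg _) (Nat.cast_nonneg _)

lemma fac_sum {x : ℝ} (hx : 0 < x) (k : ℕ) :
    ∑' j : Nat.factoredNumbers k.primeFactors, ENNReal.ofReal (((j : ℕ) : ℝ) ^ (-x)) =
      ENNReal.ofReal (∏ p ∈ k.primeFactors, (1 - (p : ℝ) ^ (-x))⁻¹) := by
  have h := EulerProduct.summable_and_hasSum_factoredNumbers_prod_filter_prime_geometric
    (f := powHom x) (by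
      intro p hp
      have hp1 : (1 : ℝ) < p := by exact_mod_cast hp.one_lt
      show ‖(p : ℝ) ^ (-x)‖ < 1
      rw [Real.norm_of_nonneg (by positivity)]
      exact Real.rpow_lt_one_of_one_lt_of_neg hp1 (by linarith)) k.primeFactors
  have h2 : ∑' j : Nat.factoredNumbers k.primeFactors, ((j : ℕ) : ℝ) ^ (-x) =
      ∏ p ∈ k.primeFactors with p.Prime, (1 - (p : ℝ) ^ (-x))⁻¹ := h.2.tsum_eq
  have h3 : (k.primeFactors.filter fun p => p.Prime) = k.primeFactors := by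
    apply Finset.filter_true_of_mem
    intro p hp
    exact Nat.prime_of_mem_primeFactors hp
  rw [h3] at h2
  have h4 : Summable fun j : Nat.factoredNumbers k.primeFactors => ((j : ℕ) : ℝ) ^ (-x) := h.2.summable
  rw [← h2, ENNReal.ofReal_tsum_of_nonneg (fun _ => by positivity) h4]

lemma euler_bound {x η : ℝ} (hx : 0 < x) (hη : 0 < η) : ∃ C : ℝ, 0 < C ∧ ∀ k : ℕ, k ≠ 0 →
    ∏ p ∈ k.primeFactors, (1 - (p : ℝ) ^ (-x))⁻¹ ≤ C * (k : ℝ) ^ η := by
  classical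
  set B : ℝ := (1 - (2 : ℝ) ^ (-x))⁻¹ with hB
  have hlt : ∀ p : ℕ, 2 ≤ p → (p : ℝ) ^ (-x) ≤ (2 : ℝ) ^ (-x) := by
    intro p hp
    exact Real.rpow_le_rpow_of_nonpos (by norm_num) (by exact_mod_cast hp) (by linarith)
  have h2 : (2 : ℝ) ^ (-x) < 1 := Real.rpow_lt_one_of_one_lt_of_neg (by norm_num) (by linarith)
  have h20 : (0 : ℝ) < (2 : ℝ) ^ (-x) := by positivity
  have hB1 : 1 ≤ B := by
    rw [hB]
    apply (one_le_inv₀ (by linarith)).2
    linarith
  have hpB : ∀ p : ℕ, 2 ≤ p → (1 - (p : ℝ) ^ (-x))⁻¹ ≤ B := by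
    intro p hp
    rw [hB]
    apply inv_anti₀ (by linarith)
    linarith [hlt p hp]
  have hp0 : ∀ p : ℕ, 2 ≤ p → 0 < (1 - (p : ℝ) ^ (-x))⁻¹ := by
    intro p hp
    apply inv_pos.2
    linarith [hlt p hp]
  obtain ⟨P0, hP0⟩ : ∃ P0 : ℕ, ∀ p : ℕ, P0 ≤ p → B ≤ (p : ℝ) ^ η := by
    have ht := (tendsto_rpow_atTop hη).comp (tendsto_natCast_atTop_atTop (R := ℝ))
    obtain ⟨P0, h⟩ := Filter.eventually_atTop.1 (ht.eventually_ge_atTop B)
    exact ⟨P0, fun p hp => h p hp⟩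
  refine ⟨B ^ P0, by positivity, fun k hk => ?_⟩
  have h3 : ∀ p ∈ k.primeFactors, (1 - (p : ℝ) ^ (-x))⁻¹ ≤ (if p < P0 then B else 1) * (p : ℝ) ^ η := by
    intro p hp
    have hp2 := (Nat.prime_of_mem_primeFactors hp).two_le
    have hp1 : (1 : ℝ) ≤ (p : ℝ) ^ η := Real.one_le_rpow (by exact_mod_cast (by omega : 1 ≤ p)) hη.le
    split_ifs with h
    · calc (1 - (p : ℝ) ^ (-x))⁻¹ ≤ B := hpB p hp2
        _ = B * 1 := (mul_one _).symm
        _ ≤ B * (p : ℝ) ^ η := by gcongr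
    · rw [one_mul]
      exact (hpB p hp2).trans (hP0 p (by omega))
  calc ∏ p ∈ k.primeFactors, (1 - (p : ℝ) ^ (-x))⁻¹
      ≤ ∏ p ∈ k.primeFactors, ((if p < P0 then B else 1) * (p : ℝ) ^ η) :=
        Finset.prod_le_prod (fun p hp => (hp0 p (Nat.prime_of_mem_primeFactors hp).two_le).le) h3
    _ = (∏ p ∈ k.primeFactors, (if p < P0 then B else 1)) * ∏ p ∈ k.primeFactors, (p : ℝ) ^ η := Finset.prod_mul_distrib
    _ ≤ B ^ P0 * (k : ℝ) ^ η := by
        apply mul_le_mul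
        · rw [Finset.prod_ite, Finset.prod_const, Finset.prod_const_one, mul_one]
          apply pow_le_pow_right₀ hB1
          calc (k.primeFactors.filter fun p => p < P0).card ≤ (Finset.range P0).card := by
                apply Finset.card_le_card
                intro p hp
                exact Finset.mem_range.2 (Finset.mem_filter.1 hp).2
            _ = P0 := Finset.card_range _
        · rw [Real.finsetProd_rpow _ _ (fun p _ => Nat.cast_nonneg p)]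
          apply Real.rpow_le_rpow (Finset.prod_nonneg fun p _ => Nat.cast_nonneg p) _ hη.le
          have h5 := Nat.le_of_dvd (Nat.pos_of_ne_zero hk) (rd_dvd (r := k))
          unfold rd at h5
          have h6 : ((∏ p ∈ k.primeFactors, p : ℕ) : ℝ) ≤ (k : ℝ) := by exact_mod_cast h5
          rwa [Nat.cast_prod] at h6
        · exact Finset.prod_nonneg fun p _ => by positivity
        · positivity

theorem rad_sum {x y : ℝ} (hx : 0 < x) (hxy : 1 < x + y) :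
    ∑' r : {r : ℕ // r ≠ 0}, ENNReal.ofReal ((r.1 : ℝ) ^ (-x) * (rd r.1 : ℝ) ^ (-y)) < ⊤ := by
  set η : ℝ := (x + y - 1) / 2 with hη
  have hη0 : 0 < η := by rw [hη]; linarith
  obtain ⟨C, hC, hCb⟩ := euler_bound hx hη0
  have hq : ∀ r : {r : ℕ // r ≠ 0}, r.1 / rd r.1 ∈ Nat.factoredNumbers (rd r.1).primeFactors := by
    intro r
    rw [Nat.mem_factoredNumbers_iff_primeFactors_subset]
    refine ⟨(Nat.div_pos (Nat.le_of_dvd (Nat.pos_of_ne_zero r.2) rd_dvd) (rd_pos _)).ne', ?_⟩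
    have h1 : (rd r.1).primeFactors = r.1.primeFactors := Nat.primeFactors_prod fun p hp => Nat.prime_of_mem_primeFactors hp
    rw [h1]
    exact Nat.primeFactors_mono (Nat.div_dvd_of_dvd rd_dvd) r.2
  set φ : {r : ℕ // r ≠ 0} → Σ k : {r : ℕ // r ≠ 0}, Nat.factoredNumbers k.1.primeFactors := fun r =>
    ⟨⟨rd r.1, (rd_pos _).ne'⟩, ⟨r.1 / rd r.1, hq r⟩⟩ with hφ
  have hinj : Function.Injective φ := by
    intro r s h
    simp only [hφ, Sigma.mk.injEq, Subtype.mk.injEq] at h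
    obtain ⟨h1, h2⟩ := h
    have h3 : r.1 / rd r.1 = s.1 / rd s.1 := by
      have key : ∀ (a b : {r : ℕ // r ≠ 0}) (u : Nat.factoredNumbers a.1.primeFactors)
          (v : Nat.factoredNumbers b.1.primeFactors), a = b → HEq u v → u.1 = v.1 := by
        intro a b u v hab huv
        subst hab
        rw [eq_of_heq huv]
      exact key ⟨rd r.1, (rd_pos _).ne'⟩ ⟨rd s.1, (rd_pos _).ne'⟩ ⟨r.1 / rd r.1, hq r⟩ ⟨s.1 / rd s.1, hq s⟩
        (Subtype.ext h1) h2
    apply Subtype.ext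
    rw [← Nat.mul_div_cancel' (rd_dvd (r := r.1)), ← Nat.mul_div_cancel' (rd_dvd (r := s.1)), h3, h1]
  have h1 : ∀ r : {r : ℕ // r ≠ 0}, ENNReal.ofReal ((r.1 : ℝ) ^ (-x) * (rd r.1 : ℝ) ^ (-y)) =
      ENNReal.ofReal (((φ r).1.1 : ℝ) ^ (-(x + y))) * ENNReal.ofReal ((((φ r).2 : ℕ) : ℝ) ^ (-x)) := by
    intro r
    rw [← ENNReal.ofReal_mul (by positivity)]
    congr 1
    have e1 : (r.1 : ℝ) = (rd r.1 : ℝ) * ((r.1 / rd r.1 : ℕ) : ℝ) := by
      exact_mod_cast (Nat.mul_div_cancel' (rd_dvd (r := r.1))).symm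
    have e2 : (0 : ℝ) < rd r.1 := by exact_mod_cast rd_pos _
    simp only [hφ]
    conv_lhs => rw [e1]
    rw [Real.mul_rpow e2.le (Nat.cast_nonneg _), neg_add, Real.rpow_add e2]
    ring
  have hsum : ∑' k : {r : ℕ // r ≠ 0}, ENNReal.ofReal (C * (k.1 : ℝ) ^ (-(x + y - η))) < ⊤ := by
    have hs : Summable fun k : ℕ => C * (k : ℝ) ^ (-(x + y - η)) := by
      apply Summable.mul_left
      rw [Real.summable_nat_rpow]
      rw [hη]
      linarith
    calc ∑' k : {r : ℕ // r ≠ 0}, ENNReal.ofReal (C * (k.1 : ℝ) ^ (-(x + y - η)))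
        ≤ ∑' k : ℕ, ENNReal.ofReal (C * (k : ℝ) ^ (-(x + y - η))) :=
          ENNReal.tsum_comp_le_tsum_of_injective Subtype.val_injective (fun k : ℕ => ENNReal.ofReal (C * (k : ℝ) ^ (-(x + y - η))))
      _ = ENNReal.ofReal (∑' k : ℕ, C * (k : ℝ) ^ (-(x + y - η))) :=
          (ENNReal.ofReal_tsum_of_nonneg (fun k => by positivity) hs).symm
      _ < ⊤ := ENNReal.ofReal_lt_top
  refine lt_of_le_of_lt ?_ hsum
  calc ∑' r : {r : ℕ // r ≠ 0}, ENNReal.ofReal ((r.1 : ℝ) ^ (-x) * (rd r.1 : ℝ) ^ (-y))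
      = ∑' r : {r : ℕ // r ≠ 0}, ENNReal.ofReal (((φ r).1.1 : ℝ) ^ (-(x + y))) * ENNReal.ofReal ((((φ r).2 : ℕ) : ℝ) ^ (-x)) :=
        tsum_congr h1
    _ ≤ ∑' s : Σ k : {r : ℕ // r ≠ 0}, Nat.factoredNumbers k.1.primeFactors,
          ENNReal.ofReal ((s.1.1 : ℝ) ^ (-(x + y))) * ENNReal.ofReal (((s.2 : ℕ) : ℝ) ^ (-x)) :=
        ENNReal.tsum_comp_le_tsum_of_injective hinj
          (fun s : Σ k : {r : ℕ // r ≠ 0}, Nat.factoredNumbers k.1.primeFactors =>
            ENNReal.ofReal ((s.1.1 : ℝ) ^ (-(x + y))) * ENNReal.ofReal (((s.2 : ℕ) : ℝ) ^ (-x)))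
    _ = ∑' k : {r : ℕ // r ≠ 0}, ENNReal.ofReal ((k.1 : ℝ) ^ (-(x + y))) *
          ENNReal.ofReal (∏ p ∈ k.1.primeFactors, (1 - (p : ℝ) ^ (-x))⁻¹) := by
        rw [ENNReal.tsum_sigma']
        refine tsum_congr fun k => ?_
        simp only
        rw [ENNReal.tsum_mul_left, fac_sum hx]
    _ ≤ ∑' k : {r : ℕ // r ≠ 0}, ENNReal.ofReal (C * (k.1 : ℝ) ^ (-(x + y - η))) := by
        refine ENNReal.tsum_le_tsum fun k => ?_
        have hk : (0 : ℝ) < k.1 := by exact_mod_cast Nat.pos_of_ne_zero k.2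
        rw [← ENNReal.ofReal_mul (by positivity)]
        apply ENNReal.ofReal_le_ofReal
        calc (k.1 : ℝ) ^ (-(x + y)) * ∏ p ∈ k.1.primeFactors, (1 - (p : ℝ) ^ (-x))⁻¹
            ≤ (k.1 : ℝ) ^ (-(x + y)) * (C * (k.1 : ℝ) ^ η) := by
              gcongr
              exact hCb k.1 k.2
          _ = C * (k.1 : ℝ) ^ (-(x + y - η)) := by
              rw [show -(x + y - η) = -(x + y) + η by ring, Real.rpow_add hk]
              ring

end Pool.Agent.W5h9.GC
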