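import Pool.Agent.W5h9.GC.Sieve
import Pool.Agent.W5h9.GC.Rad

/-!
# The exceptional words
-/

set_option autoImplicit false

namespace Pool.Agent.W5h9.GC

open ENNReal

lemma rr_dvd {n : ℕ} (hn : n ≠ 0) : (n / rd n) * rd (n / rd n) ∣ n := by
  have h1 : n / rd n * rd n = n := Nat.div_mul_cancel rd_dvd
  conv_rhs => rw [← h1]
  apply Nat.mul_dvd_mul_left
  unfold rd
  apply Finset.prod_dvd_prod_of_subset
  exact Nat.primeFactors_mono (Nat.div_dvd_of_dvd rd_dvd) hn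

/-- the exceptional words: for some linear form of small height the value at the point is not zero,
and the quotient by its radical is large -/
def Ex (𝒜 : Set ℕ) (η κ : ℝ) (q₀ : ℕ) : Set (W 𝒜) :=
  {w | q₀ ≤ (K w.1).1 ∧ ∃ l : ℤ × ℤ, IsCoprime l.1 l.2 ∧ |(l.1 : ℝ)| ≤ ((K w.1).1 : ℝ) ^ κ ∧
    |(l.2 : ℝ)| ≤ ((K w.1).1 : ℝ) ^ κ ∧ lf l w.1 ≠ 0 ∧
    ((K w.1).1 : ℝ) ^ η < (((lf l w.1).natAbs / rd (lf l w.1).natAbs : ℕ) : ℝ)}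

lemma box_sum {R : ℝ} (hR : 1 ≤ R) (c : ℝ≥0∞) (P : ℤ × ℤ → Prop) [DecidablePred P]
    (hP : ∀ l, P l → |(l.1 : ℝ)| ≤ R ∧ |(l.2 : ℝ)| ≤ R) :
    ∑' l : ℤ × ℤ, (if P l then c else 0) ≤ ENNReal.ofReal (9 * R ^ 2) * c := by
  classical
  set B : Finset (ℤ × ℤ) := Finset.Icc (-⌊R⌋) ⌊R⌋ ×ˢ Finset.Icc (-⌊R⌋) ⌊R⌋ with hB
  have hfl : ∀ a : ℤ, |(a : ℝ)| ≤ R → a ∈ Finset.Icc (-⌊R⌋) ⌊R⌋ := by
    intro a ha
    rw [abs_le] at ha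
    rw [Finset.mem_Icc]
    constructor
    · have : (-a : ℤ) ≤ ⌊R⌋ := Int.le_floor.2 (by push_cast; linarith [ha.1])
      omega
    · exact Int.le_floor.2 ha.2
  have h1 : ∀ l : ℤ × ℤ, l ∉ B → (if P l then c else 0) = 0 := by
    intro l hl
    rw [if_neg]
    intro hPl
    apply hl
    rw [hB, Finset.mem_product]
    exact ⟨hfl _ (hP l hPl).1, hfl _ (hP l hPl).2⟩
  rw [tsum_eq_sum (s := B) (fun l hl => h1 l hl)]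
  have h0 : (0 : ℤ) ≤ ⌊R⌋ := Int.floor_nonneg.2 (by linarith)
  have hcard : (B.card : ℝ) ≤ 9 * R ^ 2 := by
    rw [hB, Finset.card_product, Int.card_Icc]
    have e1 : (((⌊R⌋ + 1 - -⌊R⌋).toNat : ℕ) : ℝ) = 2 * (⌊R⌋ : ℝ) + 1 := by
      have : ((⌊R⌋ + 1 - -⌊R⌋).toNat : ℤ) = 2 * ⌊R⌋ + 1 := by
        rw [Int.toNat_of_nonneg (by omega)]
        ring
      exact_mod_cast this
    push_cast
    rw [e1]
    have e2 : (⌊R⌋ : ℝ) ≤ R := Int.floor_le R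
    have e3 : (0 : ℝ) ≤ ⌊R⌋ := by exact_mod_cast h0
    nlinarith
  calc ∑ l ∈ B, (if P l then c else 0) ≤ ∑ l ∈ B, c := Finset.sum_le_sum fun l _ => by split_ifs <;> simp
    _ = (B.card : ℝ≥0∞) * c := by rw [Finset.sum_const, nsmul_eq_mul]
    _ ≤ ENNReal.ofReal (9 * R ^ 2) * c := by
        gcongr
        rw [← ENNReal.ofReal_natCast]
        exact ENNReal.ofReal_le_ofReal hcard

theorem exc_sum {𝒜 : Set ℕ} {A : ℕ} (hA : ∀ a ∈ 𝒜, 1 ≤ a ∧ a ≤ A) {σ σ' τ η κ : ℝ} (hσ1 : 1 < σ') (hσ2 : σ' ≤ 2)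
    (hσ3 : σ' ≤ σ) (hZ : Z 𝒜 σ < ⊤) (hη : 0 < η) (hκ : 0 ≤ κ) (hτ : τ ≤ σ)
    (h : σ - τ + 2 * κ < η * (σ' - 1)) {q₀ : ℕ}
    (hq₀' : ∀ q : ℕ, q₀ ≤ q → 2 * (q : ℝ) ^ κ ≤ q) :
    ∑' w : Ex 𝒜 η κ q₀, qs τ w.1.1 < ⊤ := by
  classical
  have hpos : ∀ w : W 𝒜, Pos w.1 := fun w a ha => (hA a (w.2 a ha)).1
  -- the data of an exceptional word
  have hdat : ∀ w : Ex 𝒜 η κ q₀, ∃ (r : {r : ℕ // r ≠ 0}) (l : ℤ × ℤ), IsCoprime l.1 l.2 ∧ 1 < r.1 * rd r.1 ∧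
      |(l.1 : ℝ)| ≤ (r.1 : ℝ) ^ (κ / η) ∧ |(l.2 : ℝ)| ≤ (r.1 : ℝ) ^ (κ / η) ∧
      r.1 * rd r.1 ≤ (K w.1.1).1 ^ 2 ∧ ((r.1 * rd r.1 : ℕ) : ℤ) ∣ lf l w.1.1 ∧
      ((K w.1.1).1 : ℝ) ≤ (r.1 : ℝ) ^ (1 / η) := by
    intro w
    obtain ⟨hq, l, hl, hl1, hl2, hne, hr⟩ := w.2
    set n := (lf l w.1.1).natAbs with hn
    have hn0 : n ≠ 0 := Int.natAbs_ne_zero.2 hne
    set r := n / rd n with hrdef
    have hr0 : r ≠ 0 := (Nat.div_pos (Nat.le_of_dvd (Nat.pos_of_ne_zero hn0) rd_dvd) (rd_pos _)).ne'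
    have hK1 : 1 ≤ (K w.1.1).1 := (K_le (hpos w.1)).2
    have hK1' : (1 : ℝ) ≤ (K w.1.1).1 := by exact_mod_cast hK1
    have hr1 : (1 : ℝ) < r := lt_of_le_of_lt (Real.one_le_rpow hK1' hη.le) hr
    have hr1' : 1 < r := by exact_mod_cast hr1
    have hKr : ((K w.1.1).1 : ℝ) ≤ (r : ℝ) ^ (1 / η) := by
      have h1 := Real.rpow_le_rpow (by positivity) hr.le (by positivity : 0 ≤ 1 / η)
      rwa [← Real.rpow_mul (by linarith), mul_one_div_cancel hη.ne', Real.rpow_one] at h1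
    have hKκ : ((K w.1.1).1 : ℝ) ^ κ ≤ (r : ℝ) ^ (κ / η) := by
      have h1 := Real.rpow_le_rpow (by linarith) hKr hκ
      rwa [← Real.rpow_mul (by linarith), one_div_mul_eq_div] at h1
    have hdvd : r * rd r ∣ n := rr_dvd hn0
    refine ⟨⟨r, hr0⟩, l, hl, ?_, hl1.trans hKκ, hl2.trans hKκ, ?_, ?_, hKr⟩
    · have := rd_pos r
      nlinarith
    · have h1 : r * rd r ≤ n := Nat.le_of_dvd (Nat.pos_of_ne_zero hn0) hdvd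
      refine h1.trans ?_
      have h2 : (n : ℝ) ≤ ((K w.1.1).1 : ℝ) ^ 2 := by
        have e1 : (n : ℝ) = |(lf l w.1.1 : ℝ)| := by
          rw [hn, Nat.cast_natAbs, Int.cast_abs]
        rw [e1]
        unfold lf
        push_cast
        have h3 : ((K w.1.1).2 : ℝ) ≤ (K w.1.1).1 := by exact_mod_cast (K_le (hpos w.1)).1
        have h4 : (0 : ℝ) ≤ (K w.1.1).2 := Nat.cast_nonneg _
        have h5 := hq₀' _ hq
        calc |(l.1 : ℝ) * (K w.1.1).1 + l.2 * (K w.1.1).2| ≤ |(l.1 : ℝ) * (K w.1.1).1| + |(l.2 : ℝ) * (K w.1.1).2| := abs_add_le _ _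
          _ = |(l.1 : ℝ)| * (K w.1.1).1 + |(l.2 : ℝ)| * (K w.1.1).2 := by
              rw [abs_mul, abs_mul, Nat.abs_cast, Nat.abs_cast]
          _ ≤ ((K w.1.1).1 : ℝ) ^ κ * (K w.1.1).1 + ((K w.1.1).1 : ℝ) ^ κ * (K w.1.1).1 := by gcongr
          _ = (2 * ((K w.1.1).1 : ℝ) ^ κ) * (K w.1.1).1 := by ring
          _ ≤ (K w.1.1).1 * (K w.1.1).1 := by gcongr
          _ = _ := by ring
      exact_mod_cast h2
    · exact Int.natCast_dvd.2 (by exact_mod_cast hdvd)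
  choose r l hl hr1 hl1 hl2 hd hdv hKr using hdat
  -- the target of the injection
  set T : {r : ℕ // r ≠ 0} × (ℤ × ℤ) → Type := fun p =>
    {w : W 𝒜 // p.1.1 * rd p.1.1 ≤ (K w.1).1 ^ 2 ∧ ((p.1.1 * rd p.1.1 : ℕ) : ℤ) ∣ lf p.2 w.1} with hT
  set φ : Ex 𝒜 η κ q₀ → Σ p : {r : ℕ // r ≠ 0} × (ℤ × ℤ), T p := fun w =>
    ⟨(r w, l w), ⟨w.1, hd w, hdv w⟩⟩ with hφ
  have hinj : Function.Injective φ := by
    intro w w' hww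
    have h1 : ∀ (x y : Σ p : {r : ℕ // r ≠ 0} × (ℤ × ℤ), T p), x = y → x.2.1 = y.2.1 := by
      intro x y hxy
      subst hxy
      rfl
    exact Subtype.ext (h1 _ _ hww)
  set P : {r : ℕ // r ≠ 0} → ℤ × ℤ → Prop := fun s m => IsCoprime m.1 m.2 ∧ 1 < s.1 * rd s.1 ∧
    |(m.1 : ℝ)| ≤ (s.1 : ℝ) ^ (κ / η) ∧ |(m.2 : ℝ)| ≤ (s.1 : ℝ) ^ (κ / η) with hPdef
  set G : (Σ p : {r : ℕ // r ≠ 0} × (ℤ × ℤ), T p) → ℝ≥0∞ := fun x =>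
    if P x.1.1 x.1.2 then ENNReal.ofReal ((x.1.1.1 : ℝ) ^ ((σ - τ) / η)) * qs σ x.2.1.1 else 0 with hG
  have hle : ∀ w : Ex 𝒜 η κ q₀, qs τ w.1.1 ≤ G (φ w) := by
    intro w
    have hP : P (r w) (l w) := ⟨hl w, hr1 w, hl1 w, hl2 w⟩
    simp only [hG, hφ, hP, if_true]
    unfold qs
    rw [← ENNReal.ofReal_mul (by positivity)]
    apply ENNReal.ofReal_le_ofReal
    have hK1' : (1 : ℝ) ≤ (K w.1.1).1 := by exact_mod_cast (K_le (hpos w.1)).2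
    have h1 : ((K w.1.1).1 : ℝ) ^ (σ - τ) ≤ ((r w).1 : ℝ) ^ ((σ - τ) / η) := by
      have h2 := Real.rpow_le_rpow (by linarith) (hKr w) (by linarith : 0 ≤ σ - τ)
      rwa [← Real.rpow_mul (by positivity), one_div_mul_eq_div] at h2
    calc ((K w.1.1).1 : ℝ) ^ (-τ) = ((K w.1.1).1 : ℝ) ^ (σ - τ) * ((K w.1.1).1 : ℝ) ^ (-σ) := by
          rw [← Real.rpow_add (by linarith)]
          congr 1
          ring
      _ ≤ _ := by gcongr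
  have hC0 : 0 ≤ 2 * ((A : ℝ) + 1) ^ σ := by positivity
  -- the sum over the words for given data
  have hin : ∀ p : {r : ℕ // r ≠ 0} × (ℤ × ℤ), ∑' w : T p, G ⟨p, w⟩ ≤
      if P p.1 p.2 then ENNReal.ofReal ((p.1.1 : ℝ) ^ ((σ - τ) / η) *
        (2 * ((A : ℝ) + 1) ^ σ * ((p.1.1 : ℝ) * (rd p.1.1 : ℝ)) ^ (-(σ' / 2)))) * Z 𝒜 σ else 0 := by
    intro p
    by_cases hP : P p.1 p.2
    · simp only [hG, hP, if_true]
      rw [ENNReal.tsum_mul_left]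
      have h1 := sieve hA (by linarith : 0 ≤ σ) hP.2.1 hP.1
      have hd1 : (1 : ℝ) ≤ ((p.1.1 * rd p.1.1 : ℕ) : ℝ) := by exact_mod_cast hP.2.1.le
      rw [ENNReal.ofReal_mul (by positivity), mul_assoc]
      gcongr
      refine h1.trans ?_
      gcongr
      push_cast at hd1 ⊢
      exact Real.rpow_le_rpow_of_exponent_le hd1 (by linarith)
    · simp [hG, hP]
  have hx : 0 < σ' / 2 - (σ - τ + 2 * κ) / η := by
    have : (σ - τ + 2 * κ) / η < σ' - 1 := by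
      rw [div_lt_iff₀ hη]
      linarith
    linarith
  have hxy : 1 < (σ' / 2 - (σ - τ + 2 * κ) / η) + σ' / 2 := by
    have : (σ - τ + 2 * κ) / η < σ' - 1 := by
      rw [div_lt_iff₀ hη]
      linarith
    linarith
  have hfin := rad_sum hx hxy
  calc ∑' w : Ex 𝒜 η κ q₀, qs τ w.1.1 ≤ ∑' w : Ex 𝒜 η κ q₀, G (φ w) := ENNReal.tsum_le_tsum hle
    _ ≤ ∑' x : Σ p : {r : ℕ // r ≠ 0} × (ℤ × ℤ), T p, G x := ENNReal.tsum_comp_le_tsum_of_injective hinj G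
    _ = ∑' p : {r : ℕ // r ≠ 0} × (ℤ × ℤ), ∑' w : T p, G ⟨p, w⟩ := ENNReal.tsum_sigma' _
    _ ≤ ∑' p : {r : ℕ // r ≠ 0} × (ℤ × ℤ), (if P p.1 p.2 then ENNReal.ofReal ((p.1.1 : ℝ) ^ ((σ - τ) / η) *
        (2 * ((A : ℝ) + 1) ^ σ * ((p.1.1 : ℝ) * (rd p.1.1 : ℝ)) ^ (-(σ' / 2)))) * Z 𝒜 σ else 0) :=
        ENNReal.tsum_le_tsum hin
    _ = ∑' s : {r : ℕ // r ≠ 0}, ∑' m : ℤ × ℤ, (if P s m then ENNReal.ofReal ((s.1 : ℝ) ^ ((σ - τ) / η) *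
        (2 * ((A : ℝ) + 1) ^ σ * ((s.1 : ℝ) * (rd s.1 : ℝ)) ^ (-(σ' / 2)))) * Z 𝒜 σ else 0) := ENNReal.tsum_prod'
    _ ≤ ∑' s : {r : ℕ // r ≠ 0}, ENNReal.ofReal (9 * ((s.1 : ℝ) ^ (κ / η)) ^ 2) * (ENNReal.ofReal ((s.1 : ℝ) ^ ((σ - τ) / η) *
        (2 * ((A : ℝ) + 1) ^ σ * ((s.1 : ℝ) * (rd s.1 : ℝ)) ^ (-(σ' / 2)))) * Z 𝒜 σ) := by
        refine ENNReal.tsum_le_tsum fun s => ?_
        have hs1 : (1 : ℝ) ≤ s.1 := by exact_mod_cast Nat.pos_of_ne_zero s.2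
        exact box_sum (Real.one_le_rpow hs1 (by positivity)) _ (P s) fun m hm => ⟨hm.2.2.1, hm.2.2.2⟩
    _ = ∑' s : {r : ℕ // r ≠ 0}, (ENNReal.ofReal (18 * ((A : ℝ) + 1) ^ σ) * Z 𝒜 σ) *
          ENNReal.ofReal ((s.1 : ℝ) ^ (-(σ' / 2 - (σ - τ + 2 * κ) / η)) * (rd s.1 : ℝ) ^ (-(σ' / 2))) := by
        refine tsum_congr fun s => ?_
        have hs1 : (0 : ℝ) < s.1 := by exact_mod_cast Nat.pos_of_ne_zero s.2
        have hs2 : (0 : ℝ) < rd s.1 := by exact_mod_cast rd_pos _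
        rw [← mul_assoc, ← ENNReal.ofReal_mul (by positivity),
          mul_right_comm (ENNReal.ofReal (18 * ((A : ℝ) + 1) ^ σ)) (Z 𝒜 σ) _, ← ENNReal.ofReal_mul (by positivity)]
        congr 2
        rw [Real.mul_rpow hs1.le hs2.le, ← Real.rpow_natCast, ← Real.rpow_mul hs1.le]
        have e : (s.1 : ℝ) ^ (-(σ' / 2 - (σ - τ + 2 * κ) / η)) =
            (s.1 : ℝ) ^ (κ / η * ((2 : ℕ) : ℝ)) * (s.1 : ℝ) ^ ((σ - τ) / η) * (s.1 : ℝ) ^ (-(σ' / 2)) := by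
          rw [← Real.rpow_add hs1, ← Real.rpow_add hs1]
          congr 1
          push_cast
          ring
        rw [e]
        ring
    _ = (ENNReal.ofReal (18 * ((A : ℝ) + 1) ^ σ) * Z 𝒜 σ) * ∑' s : {r : ℕ // r ≠ 0},
          ENNReal.ofReal ((s.1 : ℝ) ^ (-(σ' / 2 - (σ - τ + 2 * κ) / η)) * (rd s.1 : ℝ) ^ (-(σ' / 2))) := ENNReal.tsum_mul_left
    _ < ⊤ := ENNReal.mul_lt_top (ENNReal.mul_lt_top ENNReal.ofReal_lt_top hZ) hfin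

end Pool.Agent.W5h9.GC
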