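import Pool.Agent.W5h9.GC.Lower

/-!
# The mass distribution
-/

set_option autoImplicit false

set_option linter.unusedSectionVars false

namespace Pool.Agent.W5h9.GC

open Filter Topology ENNReal MeasureTheory

section

variable {𝒜 : Set ℕ} [Fintype 𝒜] {n : ℕ} [NeZero n] {τ : ℝ}

/-- the sum over the blocks -/
noncomputable def SS (𝒜 : Set ℕ) [Fintype 𝒜] (n : ℕ) (τ : ℝ) : ℝ := ∑ b : Fin n → 𝒜, ((K (wd b)).1 : ℝ) ^ (-τ)

/-- the weights of the blocks -/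
noncomputable def wt (𝒜 : Set ℕ) [Fintype 𝒜] (n : ℕ) (τ : ℝ) (b : Fin n → 𝒜) : ℝ :=
  ((K (wd b)).1 : ℝ) ^ (-τ) / SS 𝒜 n τ

lemma wd_pos {A : ℕ} (hA : ∀ a ∈ 𝒜, 1 ≤ a ∧ a ≤ A) (b : Fin n → 𝒜) : Pos (wd b) := by
  intro x hx
  simp only [wd, List.mem_ofFn] at hx
  obtain ⟨i, rfl⟩ := hx
  exact (hA _ (b i).2).1

lemma dg_pos {A : ℕ} (hA : ∀ a ∈ 𝒜, 1 ≤ a ∧ a ≤ A) (ω : ℕ → Fin n → 𝒜) : PosS (dg ω) :=
  fun i => (hA _ (dg_mem ω i)).1

instance instMB : MeasurableSpace (Fin n → 𝒜) := ⊤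

lemma sum_wt (hS : 0 < SS 𝒜 n τ) : ∑ b : Fin n → 𝒜, ENNReal.ofReal (wt 𝒜 n τ b) = 1 := by
  rw [← ENNReal.ofReal_sum_of_nonneg (fun b _ => by unfold wt; positivity)]
  unfold wt
  rw [← Finset.sum_div]
  have : ∑ b : Fin n → 𝒜, ((K (wd b)).1 : ℝ) ^ (-τ) = SS 𝒜 n τ := rfl
  rw [this, div_self hS.ne', ENNReal.ofReal_one]

/-- the law of one block -/
noncomputable def μ0 (hS : 0 < SS 𝒜 n τ) : Measure (Fin n → 𝒜) :=
  (PMF.ofFintype (fun b : Fin n → 𝒜 => ENNReal.ofReal (wt 𝒜 n τ b)) (sum_wt hS)).toMeasure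

instance (hS : 0 < SS 𝒜 n τ) : IsProbabilityMeasure (μ0 hS) := by
  unfold μ0
  infer_instance

/-- the law of the sequence of blocks -/
noncomputable def ν (hS : 0 < SS 𝒜 n τ) : Measure (ℕ → Fin n → 𝒜) := Measure.infinitePi fun _ => μ0 hS

instance (hS : 0 < SS 𝒜 n τ) : IsProbabilityMeasure (ν hS) := by
  unfold ν
  infer_instance

/-- the cylinder of the first `k` blocks -/
def cyl (ω₀ : ℕ → Fin n → 𝒜) (k : ℕ) : Set (ℕ → Fin n → 𝒜) := {ω | ∀ i < k, ω₀ i = ω i}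

lemma ν_cyl (hS : 0 < SS 𝒜 n τ) (ω₀ : ℕ → Fin n → 𝒜) (k : ℕ) :
    ν hS (cyl ω₀ k) = ENNReal.ofReal (∏ i ∈ Finset.range k, wt 𝒜 n τ (ω₀ i)) := by
  have e : cyl ω₀ k = Set.pi (Finset.range k : Set ℕ) fun i => {ω₀ i} := by
    ext ω
    simp only [cyl, Set.mem_ofPred_eq, Set.mem_pi, Finset.coe_range, Set.mem_Iio, Set.mem_singleton_iff]
    exact ⟨fun h i hi => (h i hi).symm, fun h i hi => (h i hi).symm⟩
  rw [e, ν, Measure.infinitePi_pi _ (fun i _ => MeasurableSpace.measurableSet_top),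
    ENNReal.ofReal_prod_of_nonneg (fun i _ => by unfold wt; positivity)]
  refine Finset.prod_congr rfl fun i _ => ?_
  rw [μ0, PMF.toMeasure_apply_singleton _ _ MeasurableSpace.measurableSet_top]
  rfl

lemma prod_wt {A : ℕ} (hA : ∀ a ∈ 𝒜, 1 ≤ a ∧ a ≤ A) (hτ : 0 < τ) (hS : (2 : ℝ) ^ τ ≤ SS 𝒜 n τ)
    (ω₀ : ℕ → Fin n → 𝒜) (k : ℕ) :
    ∏ i ∈ Finset.range k, wt 𝒜 n τ (ω₀ i) ≤ ((K (pre (dg ω₀) (k * n))).1 : ℝ) ^ (-τ) := by
  have hS0 : 0 < SS 𝒜 n τ := lt_of_lt_of_le (by positivity) hS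
  induction k with
  | zero => simp [pre, K]
  | succ k ih =>
    rw [Finset.prod_range_succ, pre_blocks_succ]
    have hp := pre_pos (dg_pos hA ω₀) (k * n)
    have hw := wd_pos hA (ω₀ k)
    have h1 : (0 : ℝ) < (K (pre (dg ω₀) (k * n))).1 := by exact_mod_cast (K_le hp).2
    have h2 : (0 : ℝ) < (K (wd (ω₀ k))).1 := by exact_mod_cast (K_le hw).2
    have hpp : Pos (pre (dg ω₀) (k * n) ++ wd (ω₀ k)) := by
      intro x hx
      rcases List.mem_append.1 hx with h | h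
      · exact hp x h
      · exact hw x h
    have h3 : ((K (pre (dg ω₀) (k * n) ++ wd (ω₀ k))).1 : ℝ) ≤
        2 * ((K (pre (dg ω₀) (k * n))).1 * (K (wd (ω₀ k))).1) := by exact_mod_cast q_le_mul hpp
    have h4 : (0 : ℝ) < (K (pre (dg ω₀) (k * n) ++ wd (ω₀ k))).1 := by exact_mod_cast (K_le hpp).2
    calc (∏ i ∈ Finset.range k, wt 𝒜 n τ (ω₀ i)) * wt 𝒜 n τ (ω₀ k)
        ≤ ((K (pre (dg ω₀) (k * n))).1 : ℝ) ^ (-τ) * (((K (wd (ω₀ k))).1 : ℝ) ^ (-τ) / 2 ^ τ) := by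
          apply mul_le_mul ih _ (by unfold wt; positivity) (by positivity)
          unfold wt
          gcongr
      _ = (2 * (((K (pre (dg ω₀) (k * n))).1 : ℝ) * (K (wd (ω₀ k))).1)) ^ (-τ) := by
          rw [Real.mul_rpow (by norm_num) (by positivity), Real.mul_rpow h1.le h2.le,
            Real.rpow_neg (by norm_num : (0 : ℝ) ≤ 2)]
          ring
      _ ≤ _ := Real.rpow_le_rpow_of_nonpos h4 h3 (by linarith)

lemma meas_K (m : ℕ) : Measurable (fun ω : ℕ → Fin n → 𝒜 => K (pre (dg ω) m)) ∧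
    Measurable (fun ω : ℕ → Fin n → 𝒜 => K' (pre (dg ω) m)) := by
  induction m with
  | zero => exact ⟨by simp only [pre_zero]; exact measurable_const, by simp only [pre_zero]; exact measurable_const⟩
  | succ m ih =>
    have hd : Measurable (fun ω : ℕ → Fin n → 𝒜 => dg ω m) := by
      have h1 : Measurable (fun ω : ℕ → Fin n → 𝒜 => ω (m / n)) := measurable_pi_apply _
      have h2 : Measurable (fun b : Fin n → 𝒜 => ((b (Fin.ofNat n m) : 𝒜) : ℕ)) := measurable_from_top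
      exact h2.comp h1
    have e1 : (fun ω : ℕ → Fin n → 𝒜 => K (pre (dg ω) (m + 1))) = fun ω =>
        ((K (pre (dg ω) m)).1 * dg ω m + (K' (pre (dg ω) m)).1, (K (pre (dg ω) m)).2 * dg ω m + (K' (pre (dg ω) m)).2) := by
      ext ω
      · rw [pre_succ, K_append]; simp [K]
      · rw [pre_succ, K_append]; simp [K]
    have e2 : (fun ω : ℕ → Fin n → 𝒜 => K' (pre (dg ω) (m + 1))) = fun ω => K (pre (dg ω) m) := by
      ext ω
      · rw [pre_succ, K'_append]; simp [K']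
      · rw [pre_succ, K'_append]; simp [K']
    rw [e1, e2]
    refine ⟨?_, ih.1⟩
    exact ((ih.1.fst.mul hd).add ih.2.fst).prodMk ((ih.1.snd.mul hd).add ih.2.snd)

lemma meas_val {A : ℕ} (hA : ∀ a ∈ 𝒜, 1 ≤ a ∧ a ≤ A) : Measurable (fun ω : ℕ → Fin n → 𝒜 => val (dg ω)) := by
  refine measurable_of_tendsto_metrizable (f := fun m (ω : ℕ → Fin n → 𝒜) => cv (pre (dg ω) m)) (fun m => ?_) ?_
  · have h1 : Measurable (fun x : ℕ × ℕ => (x.2 : ℝ) / (x.1 : ℝ)) := measurable_of_countable _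
    exact h1.comp (meas_K m).1
  · rw [tendsto_pi_nhds]
    intro ω
    exact val_tendsto (dg_pos hA ω)

/-- sets of small diameter have small mass -/
lemma mass {A : ℕ} (hA : ∀ a ∈ 𝒜, 1 ≤ a ∧ a ≤ A) (hτ : 0 < τ) (hS : (2 : ℝ) ^ τ ≤ SS 𝒜 n τ) (hS0 : 0 < SS 𝒜 n τ)
    (T : Set ℝ) (hT : Metric.ediam T ≤ ENNReal.ofReal (cA A / 2)) :
    ν hS0 ((fun ω => val (dg ω)) ⁻¹' T) ≤
      ENNReal.ofReal ((2 * ((A : ℝ) + 1) ^ n) ^ τ * (cA A) ^ (-(τ / 2))) * Metric.ediam T ^ (τ / 2) := by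
  classical
  have hc := cA_pos A
  by_cases hne : ((fun ω : ℕ → Fin n → 𝒜 => val (dg ω)) ⁻¹' T).Nonempty
  swap
  · rw [Set.not_nonempty_iff_eq_empty.1 hne, measure_empty]
    exact zero_le
  obtain ⟨ω₀, hω₀⟩ := hne
  have htop : Metric.ediam T ≠ ⊤ := ne_top_of_le_ne_top ENNReal.ofReal_ne_top hT
  set r : ℝ := (Metric.ediam T).toReal with hr
  have hr0 : 0 ≤ r := ENNReal.toReal_nonneg
  have hrT : Metric.ediam T = ENNReal.ofReal r := (ENNReal.ofReal_toReal htop).symm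
  have hrc : r ≤ cA A / 2 := by
    rw [hrT] at hT
    exact (ENNReal.ofReal_le_ofReal_iff (by positivity)).1 hT
  set Q : ℕ → ℝ := fun k => ((K (pre (dg ω₀) (k * n))).1 : ℝ) with hQ
  have hQ1 : ∀ k, 1 ≤ Q k := fun k => by
    simp only [hQ]
    exact_mod_cast (K_le (pre_pos (dg_pos hA ω₀) (k * n))).2
  have hQ0 : Q 0 = 1 := by simp [hQ, pre, K]
  have hstep : ∀ k, r < cA A / (Q k) ^ 2 → ν hS0 ((fun ω => val (dg ω)) ⁻¹' T) ≤ ENNReal.ofReal ((Q k) ^ (-τ)) := by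
    intro k hk
    have hsub : ((fun ω : ℕ → Fin n → 𝒜 => val (dg ω)) ⁻¹' T) ⊆ cyl ω₀ k := by
      intro ω hω
      by_contra hcon
      obtain ⟨m, hm, h1, h2⟩ := first_diff (ω := ω₀) (ω' := ω) (k := k) hcon
      have h3 := separation (dg_pos hA ω₀) (dg_pos hA ω) (fun i => (hA _ (dg_mem ω₀ i)).2)
        (fun i => (hA _ (dg_mem ω i)).2) h1 h2
      have h4 : |val (dg ω₀) - val (dg ω)| ≤ r := by
        have h5 := Metric.edist_le_ediam_of_mem (s := T) (show val (dg ω₀) ∈ T from hω₀) (show val (dg ω) ∈ T from hω)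
        rw [hrT, edist_dist, Real.dist_eq] at h5
        exact (ENNReal.ofReal_le_ofReal_iff hr0).1 h5
      have h6 : ((K (pre (dg ω₀) m)).1 : ℝ) ≤ Q k := by
        simp only [hQ]
        exact_mod_cast pre_mono (dg_pos hA ω₀) hm.le
      have h7 : (1 : ℝ) ≤ (K (pre (dg ω₀) m)).1 := by exact_mod_cast (K_le (pre_pos (dg_pos hA ω₀) m)).2
      have h8 : cA A / (Q k) ^ 2 ≤ cA A / ((K (pre (dg ω₀) m)).1 : ℝ) ^ 2 := by
        apply div_le_div_of_nonneg_left hc.le (by positivity)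
        gcongr
      linarith
    calc ν hS0 ((fun ω => val (dg ω)) ⁻¹' T) ≤ ν hS0 (cyl ω₀ k) := measure_mono hsub
      _ = ENNReal.ofReal (∏ i ∈ Finset.range k, wt 𝒜 n τ (ω₀ i)) := ν_cyl hS0 ω₀ k
      _ ≤ _ := ENNReal.ofReal_le_ofReal (prod_wt hA hτ hS ω₀ k)
  have hn : 0 < n := Nat.pos_of_ne_zero (NeZero.ne n)
  have hQt : Tendsto Q atTop atTop := by
    apply (q_tendsto (dg_pos hA ω₀)).comp
    exact tendsto_id.atTop_mul_const' hn
  rcases hr0.lt_or_eq with hrpos | hrzero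
  · -- positive diameter
    have hex : ∃ k, cA A / (Q k) ^ 2 ≤ r := by
      obtain ⟨k, hk⟩ := (hQt.eventually_ge_atTop (cA A / r + 1)).exists
      refine ⟨k, ?_⟩
      have h1 : 0 < cA A / r := by positivity
      have h2 : cA A / r ≤ (Q k) ^ 2 := by nlinarith
      rw [div_le_iff₀ (by have := hQ1 k; positivity)]
      rw [div_le_iff₀ hrpos] at h2
      linarith
    have hk1 : Nat.find hex ≠ 0 := by
      intro h0
      have := Nat.find_spec hex
      rw [h0, hQ0] at this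
      simp only [one_pow, div_one] at this
      linarith
    obtain ⟨k, hk⟩ := Nat.exists_eq_succ_of_ne_zero hk1
    have h1 : cA A / (Q (k + 1)) ^ 2 ≤ r := by
      have := Nat.find_spec hex
      rwa [hk] at this
    have h2 : r < cA A / (Q k) ^ 2 := by
      have := Nat.find_min hex (m := k) (by omega)
      exact not_le.1 this
    refine (hstep k h2).trans ?_
    rw [hrT, ENNReal.ofReal_rpow_of_nonneg hr0 (by positivity), ← ENNReal.ofReal_mul (by positivity)]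
    apply ENNReal.ofReal_le_ofReal
    have h3 : Q (k + 1) ≤ 2 * ((A : ℝ) + 1) ^ n * Q k := by
      simp only [hQ]
      rw [pre_blocks_succ]
      have hp := pre_pos (dg_pos hA ω₀) (k * n)
      have hw := wd_pos hA (ω₀ k)
      have hpp : Pos (pre (dg ω₀) (k * n) ++ wd (ω₀ k)) := by
        intro x hx
        rcases List.mem_append.1 hx with h | h
        · exact hp x h
        · exact hw x h
      have h4 := q_le_mul hpp
      have h5 := q_le_pow (A := A) hw (by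
        intro x hx
        simp only [wd, List.mem_ofFn] at hx
        obtain ⟨i, rfl⟩ := hx
        exact (hA _ (ω₀ k i).2).2)
      have hl : (wd (ω₀ k)).length = n := by simp [wd]
      rw [hl] at h5
      have h6 : (K (pre (dg ω₀) (k * n) ++ wd (ω₀ k))).1 ≤ 2 * ((A + 1) ^ n) * (K (pre (dg ω₀) (k * n))).1 := by
        refine h4.trans ?_
        calc 2 * ((K (pre (dg ω₀) (k * n))).1 * (K (wd (ω₀ k))).1) ≤ 2 * ((K (pre (dg ω₀) (k * n))).1 * (A + 1) ^ n) := by gcongr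
          _ = _ := by ring
      exact_mod_cast h6
    have h4 : cA A ≤ r * (2 * ((A : ℝ) + 1) ^ n * Q k) ^ 2 := by
      have hQk := hQ1 (k + 1)
      rw [div_le_iff₀ (by positivity)] at h1
      refine h1.trans ?_
      gcongr
    have hM : (0 : ℝ) < 2 * ((A : ℝ) + 1) ^ n := by positivity
    have hQk : 0 < Q k := lt_of_lt_of_le one_pos (hQ1 k)
    have h5 : (cA A) ^ (τ / 2) ≤ r ^ (τ / 2) * ((2 * ((A : ℝ) + 1) ^ n) ^ τ * (Q k) ^ τ) := by
      have h6 := Real.rpow_le_rpow hc.le h4 (by positivity : 0 ≤ τ / 2)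
      rw [Real.mul_rpow hr0 (by positivity), ← Real.rpow_natCast, ← Real.rpow_mul (by positivity)] at h6
      have e : ((2 : ℕ) : ℝ) * (τ / 2) = τ := by push_cast; ring
      rw [e, Real.mul_rpow hM.le hQk.le] at h6
      exact h6
    have hc2 : 0 < (cA A) ^ (τ / 2) := by positivity
    rw [Real.rpow_neg hQk.le, Real.rpow_neg hc.le]
    rw [inv_le_iff_one_le_mul₀ (by positivity)]
    calc (1 : ℝ) = (cA A) ^ (τ / 2) * ((cA A) ^ (τ / 2))⁻¹ := (mul_inv_cancel₀ hc2.ne').symm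
      _ ≤ (r ^ (τ / 2) * ((2 * ((A : ℝ) + 1) ^ n) ^ τ * (Q k) ^ τ)) * ((cA A) ^ (τ / 2))⁻¹ := by gcongr
      _ = _ := by ring
  · -- zero diameter
    have h1 : ∀ k, ν hS0 ((fun ω => val (dg ω)) ⁻¹' T) ≤ ENNReal.ofReal ((Q k) ^ (-τ)) := by
      intro k
      apply hstep k
      rw [← hrzero]
      have := hQ1 k
      positivity
    have h2 : Tendsto (fun k => ENNReal.ofReal ((Q k) ^ (-τ))) atTop (𝓝 0) := by
      have := ENNReal.tendsto_ofReal ((tendsto_rpow_neg_atTop hτ).comp hQt)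
      rwa [ENNReal.ofReal_zero] at this
    have h3 : ν hS0 ((fun ω => val (dg ω)) ⁻¹' T) ≤ 0 := ge_of_tendsto' h2 h1
    exact h3.trans zero_le

end

/-- **The exponent of convergence is at most twice the Hausdorff dimension.** -/
theorem Z_lt_top {𝒜 : Set ℕ} {A : ℕ} (hA : ∀ a ∈ 𝒜, 1 ≤ a ∧ a ≤ A) {σ : ℝ}
    (hσ : dimH (EA 𝒜) < ENNReal.ofReal (σ / 2)) : Z 𝒜 σ < ⊤ := by
  classical
  by_contra hcon
  have hZ : Z 𝒜 σ = ⊤ := top_le_iff.1 (not_lt.1 hcon)
  have hfin : 𝒜.Finite := (Set.finite_Icc 1 A).subset fun a ha => hA a ha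
  haveI : Fintype 𝒜 := hfin.fintype
  -- an exponent between the dimension and σ / 2
  obtain ⟨t, ht1, ht2⟩ := ENNReal.lt_iff_exists_nnreal_btwn.1 hσ
  have ht3 : (t : ℝ) < σ / 2 := by
    have h := ht2
    rw [← ENNReal.ofReal_coe_nnreal] at h
    by_contra hge
    exact absurd h (not_lt.2 (ENNReal.ofReal_le_ofReal (not_lt.1 hge)))
  obtain ⟨s, hs1, hs2⟩ := exists_between ht3
  have hs0 : 0 < s := lt_of_le_of_lt t.coe_nonneg hs1
  set τ : ℝ := 2 * s with hτdef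
  have hτ0 : 0 < τ := by positivity
  have hτσ : τ < σ := by rw [hτdef]; linarith
  obtain ⟨n, hn, hS⟩ := exists_block hA hτ0 hτσ hZ
  haveI : NeZero n := ⟨hn⟩
  have hS' : (2 : ℝ) ^ τ ≤ SS 𝒜 n τ := hS
  have hS0 : 0 < SS 𝒜 n τ := lt_of_lt_of_le (by positivity) hS'
  set f : (ℕ → Fin n → 𝒜) → ℝ := fun ω => val (dg ω) with hf
  have hfm : Measurable f := meas_val hA
  set C : ℝ := (2 * ((A : ℝ) + 1) ^ n) ^ τ * (cA A) ^ (-(τ / 2)) with hC
  have hC0 : 0 < C := by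
    have := cA_pos A
    positivity
  set μ : Measure ℝ := (ENNReal.ofReal C⁻¹) • (ν hS0).map f with hμ
  have hle : μ ≤ Measure.hausdorffMeasure (τ / 2) := by
    apply Measure.le_hausdorffMeasure (τ / 2) μ (ENNReal.ofReal (cA A / 2))
    · have := cA_pos A
      exact ENNReal.ofReal_pos.2 (by positivity)
    · intro T hT
      have h1 : μ T ≤ μ (closure T) := measure_mono subset_closure
      refine h1.trans ?_
      have hd : Metric.ediam (closure T) = Metric.ediam T := Metric.ediam_closure T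
      rw [hμ, Measure.smul_apply, Measure.map_apply hfm isClosed_closure.measurableSet, smul_eq_mul, ← hd]
      have h2 := mass hA hτ0 hS' hS0 (closure T) (by rw [hd]; exact hT)
      calc ENNReal.ofReal C⁻¹ * ν hS0 (f ⁻¹' closure T)
          ≤ ENNReal.ofReal C⁻¹ * (ENNReal.ofReal C * Metric.ediam (closure T) ^ (τ / 2)) := by gcongr
        _ = Metric.ediam (closure T) ^ (τ / 2) := by
            rw [← mul_assoc, ← ENNReal.ofReal_mul (by positivity), inv_mul_cancel₀ hC0.ne', ENNReal.ofReal_one, one_mul]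
  have hpos : Measure.hausdorffMeasure (τ / 2) (EA 𝒜) ≠ 0 := by
    intro h0
    have h1 : μ (EA 𝒜) ≤ 0 := h0 ▸ hle (EA 𝒜)
    have h2 : μ (EA 𝒜) = ENNReal.ofReal C⁻¹ * ((ν hS0).map f) (EA 𝒜) := by
      rw [hμ, Measure.smul_apply, smul_eq_mul]
    have h3 : (1 : ℝ≥0∞) ≤ ((ν hS0).map f) (EA 𝒜) := by
      have h4 := Measure.le_map_apply (μ := ν hS0) hfm.aemeasurable (EA 𝒜)
      have h5 : f ⁻¹' (EA 𝒜) = Set.univ := by
        ext ω
        simp only [Set.mem_preimage, Set.mem_univ, iff_true]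
        exact ⟨dg ω, dg_mem ω, rfl⟩
      rw [h5, measure_univ] at h4
      exact h4
    rw [h2] at h1
    have h6 : ENNReal.ofReal C⁻¹ * 1 ≤ 0 := le_trans (by gcongr) h1
    rw [mul_one] at h6
    have h7 : 0 < ENNReal.ofReal C⁻¹ := ENNReal.ofReal_pos.2 (by positivity)
    exact absurd h6 (not_le.2 h7)
  have e : τ / 2 = (s.toNNReal : ℝ) := by
    rw [hτdef, Real.coe_toNNReal s hs0.le]
    ring
  rw [e] at hpos
  have h8 := le_dimH_of_hausdorffMeasure_ne_zero hpos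
  have h9 : (t : ℝ≥0∞) < (s.toNNReal : ℝ≥0∞) := by
    rw [ENNReal.coe_lt_coe, ← NNReal.coe_lt_coe, Real.coe_toNNReal s hs0.le]
    exact hs1
  exact absurd (lt_of_lt_of_le (ht1.trans h9) h8) (lt_irrefl _)

end Pool.Agent.W5h9.GC
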