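import Pool.Agent.W5h9.GC.Upper
import Pool.Agent.W5h9.GC.Mass

/-!
# The dimension of the exceptional set, and the size of the linear forms
-/

set_option autoImplicit false

namespace Pool.Agent.W5h9.GC

open Filter Topology ENNReal MeasureTheory

/-- a nonempty prefix with large denominator -/
lemma exists_prefix {A B : ℕ} : ∀ {w : List ℕ}, Pos w → (∀ a ∈ w, a ≤ A) → w ≠ [] → B ≤ (K w).1 →
    ∃ c v, w = c ++ v ∧ c ≠ [] ∧ B ≤ (K c).1 ∧ (K c).1 ≤ (A + 1) * max 1 B := by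
  intro w
  induction w using List.reverseRecOn with
  | nil => intro _ _ h; exact absurd rfl h
  | append_singleton w a ih =>
    intro hw hA _ hB
    have ha : a ≤ A := hA a (by simp)
    by_cases h1 : w = []
    · subst h1
      refine ⟨[a], [], by simp, by simp, by simpa using hB, ?_⟩
      simp only [K]
      nlinarith [le_max_left 1 B]
    · by_cases h2 : B ≤ (K w).1
      · obtain ⟨c, v, e, h3, h4, h5⟩ := ih hw.left (fun b hb => hA b (List.mem_append_left _ hb)) h1 h2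
        exact ⟨c, v ++ [a], by rw [e, List.append_assoc], h3, h4, h5⟩
      · refine ⟨w ++ [a], [], by simp, by simp, hB, ?_⟩
        have h3 := q_concat_le (a := a) hw.left
        calc (K (w ++ [a])).1 ≤ (a + 1) * (K w).1 := h3
          _ ≤ (A + 1) * max 1 B := Nat.mul_le_mul (by omega) (by have := le_max_right 1 B; omega)

lemma K'_pos : ∀ {c : List ℕ}, Pos c → c ≠ [] → 1 ≤ (K' c).1
  | [], _, h => absurd rfl h
  | [a], h, _ => by simp [K']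
  | a :: b :: c, h, _ => by
      have ih := K'_pos (c := b :: c) h.tail (by simp)
      have ha := h.head
      have e : (K' (a :: b :: c)).1 = a * (K' (b :: c)).1 + (K' (b :: c)).2 := rfl
      rw [e]
      nlinarith

lemma int_low {y1 y2 q' q v1 v2 B : ℤ} (hq' : 1 ≤ q') (hq : 1 ≤ q) (hB : B ≤ q) (habs : |y1 * q' - y2 * q| = B)
    (hne : ¬ (y1 = 0 ∧ y2 = 0)) (hv : v2 ≤ v1) (hv2 : 1 ≤ v2) : v2 ≤ |y1 * v1 + y2 * v2| := by
  rcases lt_trichotomy y1 0 with h4 | h4 | h4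
  · have h5 : y2 ≤ 0 := by
      by_contra h6
      push Not at h6
      have h7 : y1 * q' ≤ -1 := by nlinarith
      have h8 : q ≤ y2 * q := by nlinarith
      have h9 := neg_le_abs (y1 * q' - y2 * q)
      rw [habs] at h9
      linarith
    have h6 := neg_le_abs (y1 * v1 + y2 * v2)
    have h7 : y1 * v1 ≤ -v1 := by nlinarith
    have h8 : y2 * v2 ≤ 0 := by nlinarith
    linarith
  · rw [h4, zero_mul, zero_add, abs_mul]
    have h5 : y2 ≠ 0 := fun h5 => hne ⟨h4, h5⟩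
    have h6 : 1 ≤ |y2| := Int.one_le_abs h5
    rw [abs_of_nonneg (by omega : 0 ≤ v2)]
    nlinarith
  · have h5 : 0 ≤ y2 := by
      by_contra h6
      push Not at h6
      have h7 : 1 ≤ y1 * q' := by nlinarith
      have h8 : y2 * q ≤ -q := by nlinarith
      have h9 := le_abs_self (y1 * q' - y2 * q)
      rw [habs] at h9
      linarith
    have h6 := le_abs_self (y1 * v1 + y2 * v2)
    have h7 : v1 ≤ y1 * v1 := by nlinarith
    have h8 : 0 ≤ y2 * v2 := by nlinarith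
    linarith

lemma lf_lower {A : ℕ} {w : List ℕ} (hw : Pos w) (hA : ∀ a ∈ w, a ≤ A) {l : ℤ × ℤ} (hl : l ≠ 0)
    (h : (A + 1) * max 1 l.2.natAbs < (K w).1) :
    (K w).1 ≤ 2 * (A + 1) ^ 2 * max 1 l.2.natAbs * (lf l w).natAbs := by
  have hB1 : 1 ≤ max 1 l.2.natAbs := le_max_left _ _
  have hB2 : l.2.natAbs ≤ max 1 l.2.natAbs := le_max_right _ _
  have hwne : w ≠ [] := by
    rintro rfl
    simp only [K] at h
    nlinarith
  obtain ⟨c, v, e, hc, h1, h2⟩ := exists_prefix (B := l.2.natAbs) hw hA hwne (by nlinarith)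
  have hcp : Pos c := Pos.left (v := v) (by rw [← e]; exact hw)
  have hvp : Pos v := Pos.right (u := c) (by rw [← e]; exact hw)
  have hc' := K'_pos hcp hc
  have hcK := K_le hcp
  have hdet := det_eq c
  have hlf := lf_append l c v
  rw [← e] at hlf
  have habs : |(l.1 * ((K c).1 : ℤ) + l.2 * ((K c).2 : ℤ)) * (K' c).1 - (l.1 * ((K' c).1 : ℤ) + l.2 * ((K' c).2 : ℤ)) * (K c).1|
      = l.2.natAbs := by
    have hrel : (l.1 * ((K c).1 : ℤ) + l.2 * ((K c).2 : ℤ)) * (K' c).1 -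
        (l.1 * ((K' c).1 : ℤ) + l.2 * ((K' c).2 : ℤ)) * (K c).1 = - (l.2 * (-1) ^ c.length) := by
      rw [← hdet]
      ring
    rw [hrel, abs_neg, abs_mul, abs_pow, abs_neg, abs_one, one_pow, mul_one, Int.abs_eq_natAbs]
  have hq' : (1 : ℤ) ≤ (K' c).1 := by exact_mod_cast hc'
  have hq : (l.2.natAbs : ℤ) ≤ (K c).1 := by exact_mod_cast h1
  have hq1 : (1 : ℤ) ≤ (K c).1 := by exact_mod_cast hcK.2
  have hne : ¬ ((l.1 * ((K c).1 : ℤ) + l.2 * ((K c).2 : ℤ)) = 0 ∧ (l.1 * ((K' c).1 : ℤ) + l.2 * ((K' c).2 : ℤ)) = 0) := by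
    rintro ⟨h3, h4⟩
    rw [h3, h4] at habs
    simp only [zero_mul, sub_zero, abs_zero] at habs
    have h5 : l.2 = 0 := by
      have : l.2.natAbs = 0 := by exact_mod_cast habs.symm
      exact Int.natAbs_eq_zero.1 this
    have h6 : l.1 = 0 := by
      rw [h5, zero_mul, add_zero] at h3
      rcases mul_eq_zero.1 h3 with h7 | h7
      · exact h7
      · omega
    exact hl (Prod.ext h6 h5)
  -- the suffix is not empty
  have hv : v ≠ [] := by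
    rintro rfl
    rw [List.append_nil] at e
    rw [← e] at h2
    omega
  have hpv : (K v).1 ≤ (A + 1) * (K v).2 ∧ 1 ≤ (K v).2 := by
    cases v with
    | nil => exact absurd rfl hv
    | cons a v =>
      have ha : a ≤ A := hA a (by rw [e]; simp)
      have h3 := q_cons_le (a := a) hvp.tail
      have h4 : (K (a :: v)).2 = (K v).1 := rfl
      rw [h4]
      exact ⟨h3.trans (Nat.mul_le_mul_right _ (by omega)), (K_le hvp.tail).2⟩
  have hvK := K_le hvp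
  -- the size of the form
  have hlow : (K v).2 ≤ (lf l w).natAbs := by
    have hqv : ((K v).2 : ℤ) ≤ (K v).1 := by exact_mod_cast hvK.1
    have hpv1 : (1 : ℤ) ≤ (K v).2 := by exact_mod_cast hpv.2
    have h3 : ((K v).2 : ℤ) ≤ |lf l w| := by
      rw [hlf]
      exact int_low hq' hq1 hq habs hne hqv hpv1
    rw [Int.abs_eq_natAbs] at h3
    exact_mod_cast h3
  have h3 : (K w).1 ≤ 2 * ((K c).1 * (K v).1) := by
    rw [e]
    apply q_le_mul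
    rw [← e]
    exact hw
  calc (K w).1 ≤ 2 * ((K c).1 * (K v).1) := h3
    _ ≤ 2 * (((A + 1) * max 1 l.2.natAbs) * ((A + 1) * (K v).2)) := by
        apply Nat.mul_le_mul_left
        exact Nat.mul_le_mul h2 hpv.1
    _ ≤ 2 * (((A + 1) * max 1 l.2.natAbs) * ((A + 1) * (lf l w).natAbs)) := by gcongr
    _ = _ := by ring

lemma log_rd {n : ℕ} (hn : n ≠ 0) (S : Finset ℕ) (hS : ∀ p ∈ S, p.Prime) {R : ℝ} (hR : ((n / rd n : ℕ) : ℝ) ≤ R) :
    Real.log n - Real.log R - ∑ p ∈ S, Real.log p ≤ ∑ p ∈ n.primeFactors \ S, Real.log (p : ℝ) := by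
  have h1 : n / rd n * rd n = n := Nat.div_mul_cancel rd_dvd
  have h2 : 0 < n / rd n := Nat.div_pos (Nat.le_of_dvd (Nat.pos_of_ne_zero hn) rd_dvd) (rd_pos _)
  have h3 : Real.log n = Real.log ((n / rd n : ℕ) : ℝ) + Real.log (rd n) := by
    conv_lhs => rw [← h1]
    rw [Nat.cast_mul, Real.log_mul]
    · exact_mod_cast h2.ne'
    · exact_mod_cast (rd_pos n).ne'
  have h4 : Real.log (rd n) = ∑ p ∈ n.primeFactors, Real.log (p : ℝ) := by
    unfold rd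
    rw [Nat.cast_prod, Real.log_prod]
    intro p hp
    exact_mod_cast (Nat.prime_of_mem_primeFactors hp).ne_zero
  have h5 : Real.log ((n / rd n : ℕ) : ℝ) ≤ Real.log R :=
    Real.log_le_log (by exact_mod_cast h2) hR
  have h6 : ∑ p ∈ n.primeFactors, Real.log (p : ℝ) ≤ ∑ p ∈ n.primeFactors \ S, Real.log (p : ℝ) + ∑ p ∈ S, Real.log (p : ℝ) := by
    classical
    have h7 : n.primeFactors ⊆ (n.primeFactors \ S) ∪ S := by
      intro p hp
      by_cases h8 : p ∈ S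
      · exact Finset.mem_union_right _ h8
      · exact Finset.mem_union_left _ (Finset.mem_sdiff.2 ⟨hp, h8⟩)
    have hpos : ∀ p ∈ (n.primeFactors \ S) ∪ S, 0 ≤ Real.log (p : ℝ) := by
      intro p _
      exact Real.log_natCast_nonneg p
    calc ∑ p ∈ n.primeFactors, Real.log (p : ℝ) ≤ ∑ p ∈ (n.primeFactors \ S) ∪ S, Real.log (p : ℝ) :=
          Finset.sum_le_sum_of_subset_of_nonneg h7 fun p hp _ => hpos p hp
      _ = _ := Finset.sum_union Finset.sdiff_disjoint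
  linarith

/-- the Hausdorff dimension of the set of the values -/
noncomputable def δ (𝒜 : Set ℕ) : ℝ := (dimH (EA 𝒜)).toReal

lemma dimH_EA (𝒜 : Set ℕ) : dimH (EA 𝒜) = ENNReal.ofReal (δ 𝒜) ∧ δ 𝒜 ≤ 1 ∧ 0 ≤ δ 𝒜 := by
  have h1 : dimH (EA 𝒜) ≤ 1 := by
    have h2 := dimH_mono (Set.subset_univ (EA 𝒜))
    rwa [Real.dimH_univ] at h2
  have h2 : dimH (EA 𝒜) ≠ ⊤ := (lt_of_le_of_lt h1 ENNReal.one_lt_top).ne
  refine ⟨(ENNReal.ofReal_toReal h2).symm, ?_, ENNReal.toReal_nonneg⟩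
  have h3 := ENNReal.toReal_mono ENNReal.one_ne_top h1
  simpa [δ] using h3

lemma LS_subset {𝒜 : Set ℕ} (S : Set (W 𝒜)) : LS 𝒜 S ⊆ EA 𝒜 := by
  rintro z ⟨a, h, hz, _⟩
  exact ⟨a, h, hz⟩

theorem Z_eq_top {𝒜 : Set ℕ} {A : ℕ} (hA : ∀ a ∈ 𝒜, 1 ≤ a ∧ a ≤ A) {τ : ℝ} (hτ : 0 ≤ τ) (h : τ < 2 * δ 𝒜) :
    Z 𝒜 τ = ⊤ := by
  by_contra hcon
  have hZ : Z 𝒜 τ < ⊤ := lt_top_iff_ne_top.2 hcon
  obtain ⟨hd, -, hd0⟩ := dimH_EA 𝒜
  set t : NNReal := Real.toNNReal (τ / 2) with ht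
  have ht1 : (t : ℝ) = τ / 2 := Real.coe_toNNReal _ (by positivity)
  have h1 : ∑' w : (Set.univ : Set (W 𝒜)), qs (2 * (t : ℝ)) w.1.1 < ⊤ := by
    rw [ht1]
    have h2 : ∑' w : (Set.univ : Set (W 𝒜)), qs (2 * (τ / 2)) w.1.1 = ∑' w : W 𝒜, qs (2 * (τ / 2)) w.1 :=
      tsum_univ (fun w : W 𝒜 => qs (2 * (τ / 2)) w.1)
    rw [h2, mul_div_cancel₀ τ (two_ne_zero)]
    exact hZ
  have h2 := dim_LS hA h1
  have h3 : EA 𝒜 ⊆ LS 𝒜 Set.univ := by
    rintro z ⟨a, ha, hz⟩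
    exact ⟨a, ha, hz, Eventually.frequently (Eventually.of_forall fun n => Set.mem_univ _)⟩
  have h4 := (dimH_mono h3).trans h2
  rw [hd, ← ENNReal.ofReal_coe_nnreal] at h4
  have h5 : δ 𝒜 ≤ t := (ENNReal.ofReal_le_ofReal_iff t.coe_nonneg).1 h4
  linarith

theorem Z_lt_top' {𝒜 : Set ℕ} {A : ℕ} (hA : ∀ a ∈ 𝒜, 1 ≤ a ∧ a ≤ A) {σ : ℝ} (h : 2 * δ 𝒜 < σ) : Z 𝒜 σ < ⊤ := by
  obtain ⟨hd, -, hd0⟩ := dimH_EA 𝒜
  apply Z_lt_top hA
  rw [hd]
  exact (ENNReal.ofReal_lt_ofReal_iff (by linarith)).2 (by linarith)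

/-- **The sum over the exceptional words.** -/
theorem exc_sum' {𝒜 : Set ℕ} {A : ℕ} (hA : ∀ a ∈ 𝒜, 1 ≤ a ∧ a ≤ A) {τ η κ : ℝ} (hδ : 1 / 2 < δ 𝒜) (hη : 0 < η)
    (hκ : 0 ≤ κ) (h : 2 * δ 𝒜 - τ + 2 * κ < η * (2 * δ 𝒜 - 1)) {q₀ : ℕ}
    (hq₀' : ∀ q : ℕ, q₀ ≤ q → 2 * (q : ℝ) ^ κ ≤ q) :
    ∑' w : Ex 𝒜 η κ q₀, qs τ w.1.1 < ⊤ := by
  obtain ⟨hd, hd1, hd0⟩ := dimH_EA 𝒜
  by_cases hτ : 2 * δ 𝒜 < τ
  · refine lt_of_le_of_lt ?_ (Z_lt_top' hA hτ)
    exact ENNReal.tsum_comp_le_tsum_of_injective Subtype.val_injective (fun w : W 𝒜 => qs τ w.1)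
  · push Not at hτ
    set s : ℝ := η * (2 * δ 𝒜 - 1) - (2 * δ 𝒜 - τ + 2 * κ) with hs
    have hs0 : 0 < s := by rw [hs]; linarith
    refine exc_sum hA (σ := 2 * δ 𝒜 + s / 2) (σ' := min (2 * δ 𝒜 + s / 2) 2) ?_ (min_le_right _ _) (min_le_left _ _)
      (Z_lt_top' hA (by linarith)) hη hκ (by linarith) ?_ hq₀'
    · apply lt_min <;> linarith
    · have h1 : 2 * δ 𝒜 ≤ min (2 * δ 𝒜 + s / 2) 2 := le_min (by linarith) (by linarith)
      have h2 : η * (2 * δ 𝒜 - 1) ≤ η * (min (2 * δ 𝒜 + s / 2) 2 - 1) := by gcongr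
      refine lt_of_lt_of_le ?_ h2
      have : η * (2 * δ 𝒜 - 1) = s + (2 * δ 𝒜 - τ + 2 * κ) := by rw [hs]; ring
      rw [this]
      linarith

/-- **The dimension of the set of the values with infinitely many exceptional prefixes.** -/
theorem dim_Ex {𝒜 : Set ℕ} {A : ℕ} (hA : ∀ a ∈ 𝒜, 1 ≤ a ∧ a ≤ A) {t η κ : ℝ} (hδ : 1 / 2 < δ 𝒜) (hη : 0 < η)
    (hκ : 0 ≤ κ) (ht : 0 ≤ t) (h : 2 * δ 𝒜 - 2 * t + 2 * κ < η * (2 * δ 𝒜 - 1)) {q₀ : ℕ}
    (hq₀' : ∀ q : ℕ, q₀ ≤ q → 2 * (q : ℝ) ^ κ ≤ q) :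
    dimH (LS 𝒜 (Ex 𝒜 η κ q₀)) ≤ ENNReal.ofReal t := by
  have h1 := exc_sum' hA (τ := 2 * t) hδ hη hκ h hq₀'
  have h2 := dim_LS (t := Real.toNNReal t) hA (S := Ex 𝒜 η κ q₀) (by rw [Real.coe_toNNReal _ ht]; exact h1)
  exact h2

lemma exists_q₀ {κ : ℝ} (hκ : κ < 1) : ∃ q₀ : ℕ, ∀ q : ℕ, q₀ ≤ q → 2 * (q : ℝ) ^ κ ≤ q := by
  have h1 : Tendsto (fun q : ℕ => (q : ℝ) ^ (1 - κ)) atTop atTop :=
    (tendsto_rpow_atTop (by linarith)).comp tendsto_natCast_atTop_atTop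
  obtain ⟨q₀, hq₀⟩ := eventually_atTop.1 (h1.eventually_ge_atTop 2)
  refine ⟨max q₀ 1, fun q hq => ?_⟩
  have h2 := hq₀ q ((le_max_left _ _).trans hq)
  have h3 : (0 : ℝ) < q := by exact_mod_cast (le_max_right q₀ 1).trans hq
  calc 2 * (q : ℝ) ^ κ ≤ (q : ℝ) ^ (1 - κ) * (q : ℝ) ^ κ := by gcongr
    _ = q := by rw [← Real.rpow_add h3, sub_add_cancel, Real.rpow_one]

end Pool.Agent.W5h9.GC
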