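import Pool.Agent.W5h9.GC.Unr
import Pool.Agent.W5h9.GC.Cov
import Pool.Agent.Results.MP_9a3c31_nt.AllFieldsAllTwists

/-!
# Lang and Silverman's lower bound for the invariants near a number with restricted partial quotients
-/

set_option autoImplicit false
set_option linter.unusedSectionVars false

namespace Pool.Agent.W5h9.GC

open NumberField IsDedekindDomain Finset Pool.Agent.H691R3 Pool.Agent.W223.AK Pool.Agent.Y733.UD
open Pool.Agent.TH942 Pool.Agent.TH910.LS Pool.Agent.Y733.LS WeierstrassCurve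

section One

variable {K : Type} [Field K] [NumberField K] [DecidableEq K]

/-- the lower bound for one curve and points of infinite order -/
theorem one_curve' {a b : K} (ha : a ≠ 0) (hb : b ≠ 0) (hD : dl a b ≠ 0)
    {η : ℝ} (hη0 : 0 ≤ η) (hη : η < 1 / 2) (hsp : (1 - η) * ht (jj a b) ≤ sp (jj a b))
    (hht : Module.finrank ℚ K * (600 * (C3 + 1 + C4) / (1 - 2 * η)) ≤ ht (jj a b))
    (S : Finset (Pr K)) (hS : ∀ v ∈ S, BadAt a b v) {P : SPt a b} (hP : ¬ IsOfFinAddOrder P) :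
    (1 - 2 * η) / 100 * (Module.finrank ℚ K + ht (jj a b) + ∑ v ∈ S, Real.log (Nv v)) ≤
      chat P := by
  obtain ⟨T, hT, hTS⟩ := bad_sum ha hb hD S hS
  have hk : ∀ k : ℕ, (2 ^ k : ℕ) • P ≠ 0 := by
    intro k h0
    apply hP
    rw [isOfFinAddOrder_iff_nsmul_eq_zero]
    exact ⟨2 ^ k, by positivity, h0⟩
  have h := chat_ge ha hb hD P hk T hT
  have hn : (0 : ℝ) < Module.finrank ℚ K := by exact_mod_cast Module.finrank_pos
  have hT0 : 0 ≤ ∑ v ∈ T, Real.log (Nv v) := Finset.sum_nonneg fun v _ => (log_Nv_pos v).le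
  have h1 : 0 < 1 - 2 * η := by linarith
  have hC4 : 0 ≤ C4 := add_nonneg (Real.log_nonneg (by norm_num)) (Real.log_nonneg (by norm_num))
  have hC4' : Real.log 6 + Real.log 1729 = C4 := rfl
  rw [hC4'] at hTS
  generalize (∑ v ∈ T, Real.log (Nv v)) = sT at *
  generalize (∑ v ∈ S, Real.log (Nv v)) = sS at *
  generalize ht (jj a b) = H at *
  generalize sp (jj a b) = p at *
  generalize C3 = c3 at *
  generalize C4 = c4 at *
  generalize (Module.finrank ℚ K : ℝ) = n at *
  have h3 : n * (c3 + 1 + c4) ≤ (1 - 2 * η) / 600 * H := by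
    have h4 : (1 - 2 * η) / 600 * (n * (600 * (c3 + 1 + c4) / (1 - 2 * η))) ≤
        (1 - 2 * η) / 600 * H := mul_le_mul_of_nonneg_left hht (by positivity)
    have h5 : (1 - 2 * η) / 600 * (n * (600 * (c3 + 1 + c4) / (1 - 2 * η))) =
        n * (c3 + 1 + c4) := by
      field_simp
    linarith
  have h6 : (1 - 2 * η) / 100 * (n + H + sS) ≤
      (1 - 2 * η) / 100 * (n + H + (sT + 3 * H + n * c4)) :=
    mul_le_mul_of_nonneg_left (by linarith) (by positivity)
  have h7 : (1 - 2 * η) / 100 * (n + H + (sT + 3 * H + n * c4)) ≤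
      (1 - 2 * η) / 25 * H + sT / 4 + n * (1 + c4) := by
    have i1 : (1 - 2 * η) / 100 * (n * (1 + c4)) ≤ n * (1 + c4) := by
      have : 0 ≤ n * (1 + c4) := by positivity
      nlinarith
    have i2 : (1 - 2 * η) / 100 * sT ≤ sT / 4 := by nlinarith
    nlinarith
  nlinarith

end One

open Classical in
/-- the lower bound of Lang and Silverman with constant `c` for the points of infinite order of the
powers of all curves of invariant `j` -/
def LSN (c : ℝ) {K : Type} [Field K] [NumberField K] (j : K) : Prop :=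
  ∀ a b : K, dl a b ≠ 0 → jj a b = j → ∀ S : Finset (Pr K), (∀ v ∈ S, BadAt a b v) →
    ∀ (g : ℕ) (M : Matrix (Fin g) (Fin g) ℤ), (M.map (Int.cast : ℤ → ℝ)).PosDef →
    ∀ P : Fin g → SPt a b, ¬ IsOfFinAddOrder P →
      c * (Module.finrank ℚ K + ht j + ∑ v ∈ S, Real.log (Nv v)) ≤ chatM M P

theorem lsn_of {K : Type} [Field K] [NumberField K] {j : K} (h0 : j ≠ 0) (h1 : j ≠ 1728)
    {η : ℝ} (hη0 : 0 ≤ η) (hη : η < 1 / 2) (hsp : (1 - η) * ht j ≤ sp j)
    (hht : Module.finrank ℚ K * (600 * (C3 + 1 + C4) / (1 - 2 * η)) ≤ ht j) :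
    LSN ((1 - 2 * η) / 100) j := by
  classical
  intro a b hD hj S hS g M hM P hP
  have ha : a ≠ 0 := by
    rintro rfl
    apply h0
    rw [← hj]
    unfold jj
    simp
  have hb : b ≠ 0 := by
    rintro rfl
    apply h1
    have h3 := jj_sub a 0 hD
    rw [hj] at h3
    have h4 : j - 1728 = 0 := by rw [h3]; simp
    linear_combination h4
  subst hj
  obtain ⟨Q, _, hQ, hQ'⟩ := reduction (a := a) (b := b) hD M hM P hP
  exact (one_curve' ha hb hD hη0 hη hsp hht S hS hQ).trans hQ'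

/-! ### the simple poles of the invariant -/

section Sp

variable {K : Type} [Field K] [NumberField K]

theorem sp_ge {x : ℤ × ℤ} (hx : IsCoprime x.1 x.2) {m : Matrix (Fin 2) (Fin 2) ℤ}
    (P : Finset ℕ) (hP : ∀ p ∈ P, p.Prime ∧ p ≠ 2 ∧ p ≠ 3 ∧ ¬ (p : ℤ) ∣ discr K ∧ ¬ (p : ℤ) ∣ m.det ∧
      (p : ℤ) ∣ ev (m 1 0, m 1 1) x ∧ ¬ (p : ℤ) ^ 2 ∣ ev (m 1 0, m 1 1) x) :
    Module.finrank ℚ K * ∑ p ∈ P, Real.log p ≤ sp ((mob m x : ℚ) : K) ∧
      (0 < ∑ p ∈ P, Real.log (p : ℝ) → ((mob m x : ℚ) : K) ≠ 0 ∧ ((mob m x : ℚ) : K) ≠ 1728) ∧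
      Module.finrank ℚ K * ∑ p ∈ P, Real.log p ≤ ht ((mob m x : ℚ) : K) := by
  classical
  set j : K := ((mob m x : ℚ) : K) with hj
  have hfin := Pool.Agent.TH905.VF.above_finite K P fun p hp => (hP p hp).1
  set U := hfin.toFinset with hU
  have hUmem : ∀ v, v ∈ U ↔ ∃ p ∈ P, (p : 𝓞 K) ∈ v.asIdeal := fun v => Set.Finite.mem_toFinset _
  have hsum := sum_above_eq P (fun p hp => (hP p hp).1) (fun p hp => (hP p hp).2.2.2.1) U hUmem
  have hSp : ∀ v ∈ U, Sp j v := by
    intro v hv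
    obtain ⟨p, hp, hpv⟩ := (hUmem v).1 hv
    obtain ⟨hpp, h2, h3, hd, hdet, hdvd, hsq⟩ := hP p hp
    have hpv' : ((p : ℤ) : 𝓞 K) ∈ v.asIdeal := by simpa using hpv
    have hcop : ∀ n : ℤ, ¬ (p : ℤ) ∣ n → fv v (n : K) = 1 := by
      intro n hn
      apply fv_intCast_one
      apply not_mem_of_coprime _ hpv'
      exact ((Nat.prime_iff_prime_int.1 hpp).irreducible.coprime_iff_not_dvd).2 hn
    obtain ⟨D', hD'⟩ := hdvd
    have hD'' : ¬ (p : ℤ) ∣ D' := by
      rintro ⟨k, rfl⟩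
      exact hsq ⟨k, by rw [hD']; ring⟩
    have hN : ¬ (p : ℤ) ∣ ev (m 0 0, m 0 1) x := by
      intro h4
      apply hdet
      obtain ⟨r, s, hrs⟩ := hx
      have h5 : m.det = (m 1 1 * ev (m 0 0, m 0 1) x - m 0 1 * ev (m 1 0, m 1 1) x) * r +
          (m 0 0 * ev (m 1 0, m 1 1) x - m 1 0 * ev (m 0 0, m 0 1) x) * s := by
        have : m.det = m.det * (r * x.1 + s * x.2) := by rw [hrs, mul_one]
        rw [this, Matrix.det_fin_two]
        unfold ev
        ring
      rw [h5]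
      have h3 : (p : ℤ) ∣ ev (m 1 0, m 1 1) x := ⟨D', hD'⟩
      exact dvd_add (Dvd.dvd.mul_right (dvd_sub (Dvd.dvd.mul_left h4 _) (Dvd.dvd.mul_left h3 _)) _)
        (Dvd.dvd.mul_right (dvd_sub (Dvd.dvd.mul_left h3 _) (Dvd.dvd.mul_left h4 _)) _)
    refine ⟨?_, ?_, ?_⟩
    · have := hcop 2 (by
        intro h
        have h5 : p ∣ 2 := by exact_mod_cast h
        exact h2 ((Nat.prime_dvd_prime_iff_eq hpp Nat.prime_two).1 h5))
      exact_mod_cast this
    · have := hcop 3 (by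
        intro h
        have h5 : p ∣ 3 := by exact_mod_cast h
        exact h3 ((Nat.prime_dvd_prime_iff_eq hpp Nat.prime_three).1 h5))
      exact_mod_cast this
    · have e : j = ((ev (m 0 0, m 0 1) x : ℤ) : K) / ((p : K) * ((D' : ℤ) : K)) := by
        rw [hj]
        unfold mob
        rw [hD']
        push_cast
        rfl
      rw [e, map_div₀, map_mul, hcop _ hN, hcop _ hD'', fv_unram hpp hd hpv, mul_one, one_div, inv_inv]
  have h1 : ∑ v ∈ U, Real.log (Nv v) ≤ sp j := by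
    unfold sp
    refine le_trans (le_of_eq ?_) (sum_le_fin U (Fs_sp j) fun v => ?_)
    · refine Finset.sum_congr rfl fun v hv => ?_
      rw [if_pos (hSp v hv)]
    · split_ifs
      · exact (log_Nv_pos v).le
      · exact le_rfl
  refine ⟨by rw [← hsum]; exact h1, fun hpos => ?_, ?_⟩
  · have hne : U.Nonempty := by
      rw [Finset.nonempty_iff_ne_empty]
      intro h
      rw [h, Finset.sum_empty] at hsum
      have : (0 : ℝ) < Module.finrank ℚ K := by exact_mod_cast Module.finrank_pos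
      have := mul_pos this hpos
      linarith
    obtain ⟨v, hv⟩ := hne
    have h2 := (hSp v hv).2.2
    have h3 := Nv_one_lt v
    constructor
    · intro h0
      rw [h0, map_zero] at h2
      linarith
    · intro h0
      rw [h0] at h2
      have : fv v (((1728 : ℤ)) : K) ≤ 1 := Pool.Agent.W125.CV.fv_int v 1728
      push_cast at this
      linarith
  · rw [← hsum]
    refine le_trans (Finset.sum_le_sum fun v hv => ?_) (sum_max_le j U)
    rw [(hSp v hv).2.2]
    exact Real.log_le_log (by linarith [Nv_one_lt v]) (le_max_left _ _)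

end Sp

/-! ### sizes -/

lemma simple_part {n : ℕ} (hn : n ≠ 0) (T : Finset ℕ) :
    2 * ∑ p ∈ n.primeFactors \ T, Real.log p - Real.log n ≤
      ∑ p ∈ (n.primeFactors \ T).filter (fun p => ¬ p ^ 2 ∣ n), Real.log p := by
  classical
  have h1 : Real.log n = ∑ p ∈ n.primeFactors, (n.factorization p : ℝ) * Real.log p := by
    rw [Real.log_nat_eq_sum_factorization]
    rfl
  have h2 : ∑ p ∈ n.primeFactors \ T, (n.factorization p : ℝ) * Real.log p ≤
      ∑ p ∈ n.primeFactors, (n.factorization p : ℝ) * Real.log p :=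
    Finset.sum_le_sum_of_subset_of_nonneg Finset.sdiff_subset fun p _ _ =>
      mul_nonneg (Nat.cast_nonneg _) (Real.log_natCast_nonneg p)
  have h3 : 2 * ∑ p ∈ n.primeFactors \ T, Real.log (p : ℝ) -
      ∑ p ∈ (n.primeFactors \ T).filter (fun p => ¬ p ^ 2 ∣ n), Real.log (p : ℝ) ≤
      ∑ p ∈ n.primeFactors \ T, (n.factorization p : ℝ) * Real.log p := by
    rw [Finset.sum_filter, Finset.mul_sum, ← Finset.sum_sub_distrib]
    refine Finset.sum_le_sum fun p hp => ?_
    have hpp := Nat.prime_of_mem_primeFactors (Finset.mem_sdiff.1 hp).1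
    have hlog : 0 ≤ Real.log (p : ℝ) := Real.log_natCast_nonneg p
    by_cases h : p ^ 2 ∣ n
    · rw [if_neg (not_not.2 h)]
      have h4 : 2 ≤ n.factorization p := (hpp.pow_dvd_iff_le_factorization hn).1 h
      have h5 : (2 : ℝ) ≤ n.factorization p := by exact_mod_cast h4
      nlinarith
    · rw [if_pos h]
      have h4 : 1 ≤ n.factorization p :=
        (hpp.dvd_iff_one_le_factorization hn).1 (Nat.dvd_of_mem_primeFactors (Finset.mem_sdiff.1 hp).1)
      have h5 : (1 : ℝ) ≤ n.factorization p := by exact_mod_cast h4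
      nlinarith
  linarith

lemma sum_primeFactors_le {n : ℕ} (hn : n ≠ 0) : ∑ p ∈ n.primeFactors, Real.log p ≤ Real.log n := by
  rw [← Real.log_prod fun p hp => by exact_mod_cast (Nat.prime_of_mem_primeFactors hp).ne_zero]
  have h1 : 0 < ∏ p ∈ n.primeFactors, p := Finset.prod_pos fun p hp => (Nat.prime_of_mem_primeFactors hp).pos
  have h2 := Nat.le_of_dvd (Nat.pos_of_ne_zero hn) (Nat.prod_primeFactors_dvd n)
  rw [← Nat.cast_prod]
  exact Real.log_le_log (by exact_mod_cast h1) (by exact_mod_cast h2)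

/-- the largest entry -/
def me (m : Matrix (Fin 2) (Fin 2) ℤ) : ℕ :=
  max (max (m 0 0).natAbs (m 0 1).natAbs) (max (m 1 0).natAbs (m 1 1).natAbs)

lemma le_me (m : Matrix (Fin 2) (Fin 2) ℤ) (i j : Fin 2) : (m i j).natAbs ≤ me m := by
  unfold me
  fin_cases i <;> fin_cases j <;> simp

lemma me_pos {m : Matrix (Fin 2) (Fin 2) ℤ} (hm : m.det ≠ 0) : 1 ≤ me m := by
  by_contra h
  apply hm
  have h0 : ∀ i j, m i j = 0 := by
    intro i j
    have := le_me m i j
    omega
  rw [Matrix.det_fin_two, h0 0 0, h0 0 1]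
  ring

lemma log_me {m : Matrix (Fin 2) (Fin 2) ℤ} {B : ℝ} (h : ∀ i j, Real.log (m i j).natAbs ≤ B) : Real.log (me m) ≤ B := by
  unfold me
  rcases max_choice (max (m 0 0).natAbs (m 0 1).natAbs) (max (m 1 0).natAbs (m 1 1).natAbs) with h1 | h1 <;> rw [h1]
  · rcases max_choice (m 0 0).natAbs (m 0 1).natAbs with h2 | h2 <;> rw [h2] <;> exact h _ _
  · rcases max_choice (m 1 0).natAbs (m 1 1).natAbs with h2 | h2 <;> rw [h2] <;> exact h _ _

lemma det_le (m : Matrix (Fin 2) (Fin 2) ℤ) : m.det.natAbs ≤ 2 * me m ^ 2 := by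
  rw [Matrix.det_fin_two]
  refine (Int.natAbs_sub_le _ _).trans ?_
  rw [Int.natAbs_mul, Int.natAbs_mul, two_mul, sq]
  exact add_le_add (Nat.mul_le_mul (le_me m 0 0) (le_me m 1 1)) (Nat.mul_le_mul (le_me m 0 1) (le_me m 1 0))

lemma ev_le (m : Matrix (Fin 2) (Fin 2) ℤ) (i : Fin 2) (x : ℤ × ℤ) :
    (ev (m i 0, m i 1) x).natAbs ≤ 2 * (me m * max x.1.natAbs x.2.natAbs) := by
  unfold ev
  refine (Int.natAbs_add_le _ _).trans ?_
  rw [Int.natAbs_mul, Int.natAbs_mul, two_mul]
  exact add_le_add (Nat.mul_le_mul (le_me m i 0) (le_max_left _ _)) (Nat.mul_le_mul (le_me m i 1) (le_max_right _ _))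

lemma height_mob_le {m : Matrix (Fin 2) (Fin 2) ℤ} (hm : m.det ≠ 0) {x : ℤ × ℤ} (hx : x ≠ 0)
    (hv : ev (m 1 0, m 1 1) x ≠ 0) :
    Height.logHeight₁ (mob m x) ≤ Real.log 2 + Real.log (me m) + hgt x := by
  set M : ℕ := max x.1.natAbs x.2.natAbs with hM
  have hM0 : 0 < M := by
    by_contra h
    have h1 : x.1.natAbs = 0 := by
      have := le_max_left x.1.natAbs x.2.natAbs
      omega
    have h2 : x.2.natAbs = 0 := by
      have := le_max_right x.1.natAbs x.2.natAbs
      omega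
    exact hx (Prod.ext (Int.natAbs_eq_zero.1 h1) (Int.natAbs_eq_zero.1 h2))
  have hme := me_pos hm
  have hMr : (0 : ℝ) < M := by exact_mod_cast hM0
  have hmer : (0 : ℝ) < me m := by exact_mod_cast hme
  rw [Rat.logHeight₁_eq_log_max]
  unfold hgt
  rw [← hM, add_assoc, ← Real.log_mul hmer.ne' hMr.ne', ← Real.log_mul (by norm_num) (by positivity)]
  have hpos : (0 : ℝ) < ((max (mob m x).num.natAbs (mob m x).den : ℕ) : ℝ) := by
    have := (mob m x).den_pos
    have h1 : 0 < max (mob m x).num.natAbs (mob m x).den := lt_max_of_lt_right this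
    exact_mod_cast h1
  apply Real.log_le_log hpos
  have e : mob m x = Rat.divInt (ev (m 0 0, m 0 1) x) (ev (m 1 0, m 1 1) x) := by
    rw [Rat.divInt_eq_div]
    rfl
  have h1 : (mob m x).den ∣ (ev (m 1 0, m 1 1) x).natAbs := by
    rw [e]
    exact Int.natCast_dvd.1 (Rat.den_dvd _ _)
  have h2 : (mob m x).num.natAbs ≤ (ev (m 0 0, m 0 1) x).natAbs := by
    by_cases hu : ev (m 0 0, m 0 1) x = 0
    · rw [e, hu]
      simp
    · rw [e]
      exact Nat.le_of_dvd (Int.natAbs_pos.2 hu) (Int.natAbs_dvd_natAbs.2 (Rat.num_dvd _ hv))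
  have hle : max (mob m x).num.natAbs (mob m x).den ≤ 2 * (me m * M) :=
    max_le (h2.trans (ev_le m 0 x)) ((Nat.le_of_dvd (Int.natAbs_pos.2 hv) h1).trans (ev_le m 1 x))
  exact_mod_cast hle

theorem good_ls {ε κ η : ℝ} (hε : 0 ≤ ε) (hκ : 0 < κ) (hη : η < 1 / 2) (h : 2 * ε + 2 * κ < η) :
    ∃ H₀ : ℝ, ∀ x : ℤ × ℤ, IsCoprime x.1 x.2 → H₀ ≤ hgt x → Good ε (4 * κ) x →
      ∀ m : Matrix (Fin 2) (Fin 2) ℤ, m.det ≠ 0 → (∀ i j, Real.log (m i j).natAbs ≤ κ * hgt x) →
      ev (m 1 0, m 1 1) x ≠ 0 ∧ ∀ (K : Type) [Field K] [NumberField K],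
        ∑ p ∈ (discr K).natAbs.primeFactors, Real.log p ≤ κ * hgt x →
          LSN ((1 - 2 * η) / 100) ((mob m x : ℚ) : K) := by
  classical
  have hη0 : 0 < η := by linarith
  set C : ℝ := 600 * (C3 + 1 + C4) / (1 - 2 * η) with hC
  set γ : ℝ := η - 2 * ε - 2 * κ with hγ
  have hγ0 : 0 < γ := by rw [hγ]; linarith
  have hl2 : 0 < Real.log 2 := Real.log_pos (by norm_num)
  have hl12 : 0 < Real.log 12 := Real.log_pos (by norm_num)
  refine ⟨max (max (Real.log 12 / κ) (2 * Real.log 2 / γ)) (max (2 * (C + Real.log 2)) 1), ?_⟩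
  intro x hx hH hgood m hm hmb
  set H : ℝ := hgt x with hHdef
  have b1 : Real.log 12 ≤ κ * H := by
    have := ((le_max_left _ _).trans (le_max_left _ _)).trans hH
    rwa [div_le_iff₀ hκ, mul_comm] at this
  have b2 : 2 * Real.log 2 ≤ γ * H := by
    have := ((le_max_right _ _).trans (le_max_left _ _)).trans hH
    rw [div_le_iff₀ hγ0] at this
    linarith
  have b3 : 2 * (C + Real.log 2) ≤ H := ((le_max_left _ _).trans (le_max_right _ _)).trans hH
  have b4 : 1 ≤ H := ((le_max_right _ _).trans (le_max_right _ _)).trans hH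
  have hx0 : x ≠ 0 := by
    rintro rfl
    exact not_isCoprime_zero_zero hx
  have hme := me_pos hm
  have hmer : (1 : ℝ) ≤ me m := by exact_mod_cast hme
  have hlm : Real.log (me m) ≤ κ * H := log_me hmb
  -- the primitive form
  set l : ℤ × ℤ := (m 1 0, m 1 1) with hl
  have hl0 : l ≠ 0 := by
    intro h0
    apply hm
    have h1 : m 1 0 = 0 := congrArg Prod.fst h0
    have h2 : m 1 1 = 0 := congrArg Prod.snd h0
    rw [Matrix.det_fin_two, h1, h2]
    ring
  obtain ⟨c, α, hc, hα, hev⟩ := exists_prim l hl0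
  have hα2 : m 1 0 = c * α.2 := by
    have := hev (1, 0)
    simp only [ev, hl] at this
    linarith
  have hα1 : m 1 1 = -(c * α.1) := by
    have := hev (0, 1)
    simp only [ev, hl] at this
    linarith
  have hcabs : 1 ≤ c.natAbs := Nat.one_le_iff_ne_zero.2 (Int.natAbs_ne_zero.2 hc)
  have hα2' : α.2.natAbs ≤ me m := by
    refine le_trans ?_ (le_me m 1 0)
    rw [hα2, Int.natAbs_mul]
    exact Nat.le_mul_of_pos_left _ hcabs
  have hα1' : α.1.natAbs ≤ me m := by
    refine le_trans ?_ (le_me m 1 1)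
    rw [hα1, Int.natAbs_neg, Int.natAbs_mul]
    exact Nat.le_mul_of_pos_left _ hcabs
  have hhα : hgt α ≤ 4 * κ * H := by
    have h1 : hgt α ≤ Real.log (me m) := by
      unfold hgt
      have h2 : 0 < max α.1.natAbs α.2.natAbs := by
        by_contra h3
        have h4 : α.1 = 0 := Int.natAbs_eq_zero.1 (by
          have := le_max_left α.1.natAbs α.2.natAbs
          omega)
        have h5 : α.2 = 0 := Int.natAbs_eq_zero.1 (by
          have := le_max_right α.1.natAbs α.2.natAbs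
          omega)
        rw [h4, h5] at hα
        exact not_isCoprime_zero_zero hα
      exact Real.log_le_log (by exact_mod_cast h2) (by exact_mod_cast max_le hα1' hα2')
    have h2 : 0 ≤ κ * H := by positivity
    linarith
  refine ⟨?_, ?_⟩
  · have h1 := (hgood 1 (fun _ => α) ∅ (fun _ => ⟨hα, hhα⟩) (by simp) (by
      rw [Finset.sum_empty]
      positivity)).1 0
    rw [hev]
    exact mul_ne_zero hc h1
  intro K _ _ hK
  -- the excluded primes
  set T : Finset ℕ := Nat.primeFactors 6 ∪ (m.det.natAbs.primeFactors ∪ (discr K).natAbs.primeFactors) with hT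
  have hTp : ∀ p ∈ T, p.Prime := by
    intro p hp
    rw [hT, Finset.mem_union, Finset.mem_union] at hp
    rcases hp with hp | hp | hp <;> exact Nat.prime_of_mem_primeFactors hp
  have hTsum : ∑ p ∈ T, Real.log (p : ℝ) ≤ 4 * κ * H := by
    have hnn : ∀ p : ℕ, 0 ≤ Real.log (p : ℝ) := fun p => Real.log_natCast_nonneg p
    have hun : ∀ S S' : Finset ℕ, ∑ p ∈ S ∪ S', Real.log (p : ℝ) ≤ ∑ p ∈ S, Real.log (p : ℝ) + ∑ p ∈ S', Real.log (p : ℝ) := by
      intro S S'
      rw [← Finset.sum_union_inter]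
      have : 0 ≤ ∑ p ∈ S ∩ S', Real.log (p : ℝ) := Finset.sum_nonneg fun p _ => hnn p
      linarith
    have h1 := hun (Nat.primeFactors 6) (m.det.natAbs.primeFactors ∪ (discr K).natAbs.primeFactors)
    have h2 := hun m.det.natAbs.primeFactors (discr K).natAbs.primeFactors
    have h3 := sum_primeFactors_le (n := 6) (by norm_num)
    have h4 := sum_primeFactors_le (Int.natAbs_ne_zero.2 hm)
    have h5 : Real.log (m.det.natAbs : ℝ) ≤ Real.log 2 + 2 * Real.log (me m) := by
      have h6 : (0 : ℝ) < m.det.natAbs := by exact_mod_cast Int.natAbs_pos.2 hm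
      have h7 : (m.det.natAbs : ℝ) ≤ 2 * (me m : ℝ) ^ 2 := by exact_mod_cast det_le m
      have h8 := Real.log_le_log h6 h7
      rwa [Real.log_mul (by norm_num) (by positivity), Real.log_pow, Nat.cast_ofNat] at h8
    have h6 : Real.log ((6 : ℕ) : ℝ) + Real.log 2 = Real.log 12 := by
      rw [← Real.log_mul (by norm_num) (by norm_num)]
      norm_num
    rw [← hT] at h1
    linarith
  have hg := (hgood 1 (fun _ => α) T (fun _ => ⟨hα, hhα⟩) hTp hTsum)
  have hform := hg.1 0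
  have hN1 := hg.2
  simp only [Finset.univ_unique, Finset.sum_singleton, Nat.cast_one, mul_one] at hN1
  unfold N1 at hN1
  set n : ℕ := (x.1 * α.2 - x.2 * α.1).natAbs with hn
  have hn0 : n ≠ 0 := Int.natAbs_ne_zero.2 hform
  set P : Finset ℕ := (n.primeFactors \ T).filter (fun p => ¬ p ^ 2 ∣ n) with hP
  have hsimple := simple_part hn0 T
  rw [← hP] at hsimple
  have hev' : ev (m 1 0, m 1 1) x = c * (x.1 * α.2 - x.2 * α.1) := hev x
  have hev0 : ev (m 1 0, m 1 1) x ≠ 0 := by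
    rw [hev']
    exact mul_ne_zero hc hform
  have hlogn : Real.log (n : ℝ) ≤ Real.log 2 + κ * H + H := by
    have h1 : n ≤ 2 * (me m * max x.1.natAbs x.2.natAbs) := by
      refine le_trans ?_ (ev_le m 1 x)
      rw [hev', Int.natAbs_mul]
      exact Nat.le_mul_of_pos_left _ hcabs
    have hM0 : 0 < max x.1.natAbs x.2.natAbs := by
      by_contra h
      have h1 : x.1.natAbs = 0 := by
        have := le_max_left x.1.natAbs x.2.natAbs
        omega
      have h2 : x.2.natAbs = 0 := by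
        have := le_max_right x.1.natAbs x.2.natAbs
        omega
      exact hx0 (Prod.ext (Int.natAbs_eq_zero.1 h1) (Int.natAbs_eq_zero.1 h2))
    have hMr : (0 : ℝ) < (max x.1.natAbs x.2.natAbs : ℕ) := by exact_mod_cast hM0
    have h2 : (n : ℝ) ≤ 2 * ((me m : ℝ) * ((max x.1.natAbs x.2.natAbs : ℕ) : ℝ)) := by exact_mod_cast h1
    have h3 := Real.log_le_log (by exact_mod_cast Nat.pos_of_ne_zero hn0) h2
    rw [Real.log_mul (by norm_num) (by positivity), Real.log_mul (by positivity) (by positivity)] at h3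
    have h4 : Real.log ((max x.1.natAbs x.2.natAbs : ℕ) : ℝ) = H := rfl
    linarith
  have hPsum : (1 - 2 * ε - κ) * H - Real.log 2 ≤ ∑ p ∈ P, Real.log (p : ℝ) := by linarith
  have hPprop : ∀ p ∈ P, p.Prime ∧ p ≠ 2 ∧ p ≠ 3 ∧ ¬ (p : ℤ) ∣ discr K ∧ ¬ (p : ℤ) ∣ m.det ∧
      (p : ℤ) ∣ ev (m 1 0, m 1 1) x ∧ ¬ (p : ℤ) ^ 2 ∣ ev (m 1 0, m 1 1) x := by
    intro p hp
    rw [hP, Finset.mem_filter, Finset.mem_sdiff, hT, Finset.mem_union, Finset.mem_union, not_or, not_or] at hp
    obtain ⟨⟨h1, h2, h3, h4⟩, h5⟩ := hp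
    have hpp := Nat.prime_of_mem_primeFactors h1
    have h6 : ¬ p ∣ 6 := fun h6 => h2 (Nat.mem_primeFactors.2 ⟨hpp, h6, by norm_num⟩)
    have h7 : ¬ (p : ℤ) ∣ m.det := fun h7 => h3 (Nat.mem_primeFactors.2
      ⟨hpp, Int.natCast_dvd.1 h7, Int.natAbs_ne_zero.2 hm⟩)
    have h8 : ¬ (p : ℤ) ∣ discr K := fun h8 => h4 (Nat.mem_primeFactors.2
      ⟨hpp, Int.natCast_dvd.1 h8, Int.natAbs_ne_zero.2 (NumberField.discr_ne_zero K)⟩)
    have h9 : (p : ℤ) ∣ x.1 * α.2 - x.2 * α.1 := Int.natCast_dvd.2 (Nat.dvd_of_mem_primeFactors h1)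
    refine ⟨hpp, ?_, ?_, h8, h7, ?_, ?_⟩
    · rintro rfl
      exact h6 (by norm_num)
    · rintro rfl
      exact h6 (by norm_num)
    · rw [hev']
      exact Dvd.dvd.mul_left h9 _
    · rw [hev']
      intro h10
      have hpc : ¬ (p : ℤ) ∣ c := by
        intro h11
        apply h7
        rw [Matrix.det_fin_two, hα1, hα2]
        obtain ⟨k, rfl⟩ := h11
        exact ⟨m 0 0 * -(k * α.1) - m 0 1 * (k * α.2), by ring⟩
      have hcop : IsCoprime ((p : ℤ) ^ 2) c :=
        ((Nat.prime_iff_prime_int.1 hpp).irreducible.coprime_iff_not_dvd.2 hpc).pow_left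
      have h12 := hcop.dvd_of_dvd_mul_left h10
      apply h5
      have h13 : ((p ^ 2 : ℕ) : ℤ) ∣ x.1 * α.2 - x.2 * α.1 := by exact_mod_cast h12
      exact Int.natCast_dvd.1 h13
  obtain ⟨s1, s2, s3⟩ := sp_ge (K := K) hx P hPprop
  have hnK : (0 : ℝ) < Module.finrank ℚ K := by exact_mod_cast Module.finrank_pos
  -- the size of the simple part
  have hbig : (1 / 2 : ℝ) ≤ 1 - 2 * ε - κ := by linarith
  have hCs : C ≤ ∑ p ∈ P, Real.log (p : ℝ) := by
    have : (1 / 2 : ℝ) * H ≤ (1 - 2 * ε - κ) * H := mul_le_mul_of_nonneg_right hbig (by linarith)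
    linarith
  have hC3 : 0 ≤ C3 := by
    unfold C3
    have h1 : 0 ≤ Real.log 6912 := Real.log_nonneg (by norm_num)
    have h2 : 0 ≤ Real.log 250 := Real.log_nonneg (by norm_num)
    have h3 : 0 ≤ Real.log ((4 * 6912 * 46656 : ℕ) : ℝ) := Real.log_natCast_nonneg _
    positivity
  have hC4 : 0 ≤ C4 := add_nonneg (Real.log_nonneg (by norm_num)) (Real.log_nonneg (by norm_num))
  have hCpos : 0 < C := by
    rw [hC]
    have : 0 < 1 - 2 * η := by linarith
    positivity
  obtain ⟨t1, t2⟩ := s2 (by linarith)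
  have hht : ht ((mob m x : ℚ) : K) ≤ Module.finrank ℚ K * (Real.log 2 + κ * H + H) := by
    have h1 : ht ((mob m x : ℚ) : K) = Module.finrank ℚ K * Height.logHeight₁ (mob m x) := by
      rw [← Pool.Agent.Results.MP_9a3c31_nt.AllFieldsAllTwists.ht_log]
      have h2 := Pool.Agent.TH905.VF.log_height_ext' K (mob m x)
      have h3 : algebraMap ℚ K (mob m x) = ((mob m x : ℚ) : K) := eq_ratCast (algebraMap ℚ K) _
      rw [h3] at h2
      exact h2
    rw [h1]
    apply mul_le_mul_of_nonneg_left _ hnK.le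
    have := height_mob_le hm hx0 hev0
    linarith
  apply lsn_of t1 t2 hη0.le hη
  · calc (1 - η) * ht ((mob m x : ℚ) : K) ≤ (1 - η) * (Module.finrank ℚ K * (Real.log 2 + κ * H + H)) :=
          mul_le_mul_of_nonneg_left hht (by linarith)
      _ = Module.finrank ℚ K * ((1 - η) * (Real.log 2 + κ * H + H)) := by ring
      _ ≤ Module.finrank ℚ K * ∑ p ∈ P, Real.log (p : ℝ) := by
          apply mul_le_mul_of_nonneg_left _ hnK.le
          have h1 : 0 ≤ η * κ * H := by positivity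
          have h2 : 0 ≤ η * Real.log 2 := by positivity
          rw [hγ] at b2
          nlinarith
      _ ≤ _ := s1
  · refine le_trans ?_ s3
    exact mul_le_mul_of_nonneg_left hCs hnK.le

end Pool.Agent.W5h9.GC
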