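import Pool.Agent.W5h9.GC.CF

/-!
# Continued fractions: values, cylinders, separation
-/

set_option autoImplicit false

namespace Pool.Agent.W5h9.GC

open Filter Topology

/-- the Moebius map of a word -/
noncomputable def Ph (u : List ℕ) (x : ℝ) : ℝ := ((K u).2 + (K' u).2 * x) / ((K u).1 + (K' u).1 * x)

/-- the continued fraction `[0; w]` -/
noncomputable def cv (w : List ℕ) : ℝ := (K w).2 / (K w).1

/-- the first `n` digits -/
def pre (a : ℕ → ℕ) (n : ℕ) : List ℕ := (List.range n).map a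

/-- all digits are positive -/
def PosS (a : ℕ → ℕ) : Prop := ∀ i, 1 ≤ a i

lemma pre_zero (a : ℕ → ℕ) : pre a 0 = [] := rfl

lemma pre_length (a : ℕ → ℕ) (n : ℕ) : (pre a n).length = n := by simp [pre]

lemma pre_succ (a : ℕ → ℕ) (n : ℕ) : pre a (n + 1) = pre a n ++ [a n] := by
  simp [pre, List.range_succ]

lemma pre_add (a : ℕ → ℕ) (n m : ℕ) : pre a (n + m) = pre a n ++ pre (fun i => a (n + i)) m := by
  induction m with
  | zero => simp [pre]
  | succ m ih => rw [← add_assoc, pre_succ, ih, pre_succ, List.append_assoc]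

lemma pre_pos {a : ℕ → ℕ} (h : PosS a) (n : ℕ) : Pos (pre a n) := by
  intro x hx
  simp only [pre, List.mem_map] at hx
  obtain ⟨i, _, rfl⟩ := hx
  exact h i

lemma den_pos {u : List ℕ} (hu : Pos u) {x : ℝ} (hx : 0 ≤ x) : (0 : ℝ) < (K u).1 + (K' u).1 * x := by
  have h1 : (1 : ℝ) ≤ (K u).1 := by exact_mod_cast (K_le hu).2
  have : 0 ≤ ((K' u).1 : ℝ) * x := by positivity
  linarith

lemma Ph_sub {u : List ℕ} (hu : Pos u) {x y : ℝ} (hx : 0 ≤ x) (hy : 0 ≤ y) :
    |Ph u x - Ph u y| = |x - y| / (((K u).1 + (K' u).1 * x) * ((K u).1 + (K' u).1 * y)) := by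
  have h1 := den_pos hu hx
  have h2 := den_pos hu hy
  have hd : (((K u).1 : ℝ) * (K' u).2 - (K' u).1 * (K u).2) = (-1) ^ u.length := by
    exact_mod_cast det_eq u
  have e : Ph u x - Ph u y = (((K u).1 : ℝ) * (K' u).2 - (K' u).1 * (K u).2) * (x - y) /
      (((K u).1 + (K' u).1 * x) * ((K u).1 + (K' u).1 * y)) := by
    unfold Ph
    rw [div_sub_div _ _ h1.ne' h2.ne']
    congr 1
    ring
  rw [e, hd, abs_div, abs_mul, abs_pow, abs_neg, abs_one, one_pow, one_mul, abs_of_pos (mul_pos h1 h2)]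

lemma Ph_upper {u : List ℕ} (hu : Pos u) {x y : ℝ} (hx : 0 ≤ x) (hy : 0 ≤ y) :
    |Ph u x - Ph u y| ≤ |x - y| / ((K u).1 : ℝ) ^ 2 := by
  rw [Ph_sub hu hx hy]
  have h1 : (1 : ℝ) ≤ (K u).1 := by exact_mod_cast (K_le hu).2
  have h2 : 0 ≤ ((K' u).1 : ℝ) * x := by positivity
  have h3 : 0 ≤ ((K' u).1 : ℝ) * y := by positivity
  apply div_le_div_of_nonneg_left (abs_nonneg _) (by positivity)
  nlinarith

lemma Ph_lower {u : List ℕ} (hu : Pos u) {x y : ℝ} (hx : 0 ≤ x) (hy : 0 ≤ y) (hx1 : x ≤ 1) (hy1 : y ≤ 1) :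
    |x - y| / (4 * ((K u).1 : ℝ) ^ 2) ≤ |Ph u x - Ph u y| := by
  rw [Ph_sub hu hx hy]
  have h1 : (1 : ℝ) ≤ (K u).1 := by exact_mod_cast (K_le hu).2
  have h2 : 0 ≤ ((K' u).1 : ℝ) * x := by positivity
  have h3 : 0 ≤ ((K' u).1 : ℝ) * y := by positivity
  have h4 : ((K' u).1 : ℝ) ≤ (K u).1 := by exact_mod_cast (K'_le hu).1
  have h5 : (0 : ℝ) ≤ (K' u).1 := Nat.cast_nonneg _
  have h6 : ((K' u).1 : ℝ) * x ≤ (K u).1 := by nlinarith
  have h7 : ((K' u).1 : ℝ) * y ≤ (K u).1 := by nlinarith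
  apply div_le_div_of_nonneg_left (abs_nonneg _) (by positivity)
  nlinarith

lemma Ph_zero (u : List ℕ) : Ph u 0 = cv u := by simp [Ph, cv]

lemma cv_mem {w : List ℕ} (hw : Pos w) : 0 ≤ cv w ∧ cv w ≤ 1 := by
  obtain ⟨h1, h2⟩ := K_le hw
  have h3 : (0 : ℝ) < (K w).1 := by exact_mod_cast h2
  refine ⟨by unfold cv; positivity, ?_⟩
  unfold cv
  rw [div_le_one h3]
  exact_mod_cast h1

lemma cv_append {u v : List ℕ} (hu : Pos u) (hv : Pos v) : cv (u ++ v) = Ph u (cv v) := by
  have h1 := den_pos hu (cv_mem hv).1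
  have h2 : (0 : ℝ) < (K v).1 := by exact_mod_cast (K_le hv).2
  unfold cv Ph at *
  rw [K_append]
  push_cast
  have e1 : ((K u).2 : ℝ) + (K' u).2 * ((K v).2 / (K v).1) = ((K u).2 * (K v).1 + (K' u).2 * (K v).2) / (K v).1 := by
    field_simp
  have e2 : ((K u).1 : ℝ) + (K' u).1 * ((K v).2 / (K v).1) = ((K u).1 * (K v).1 + (K' u).1 * (K v).2) / (K v).1 := by
    field_simp
  rw [e1, e2, div_div_div_cancel_right₀ h2.ne']

lemma growth : ∀ {w : List ℕ}, Pos w → 2 ^ (w.length / 2) ≤ (K w).1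
  | [], _ => by simp [K]
  | [a], h => by
      have := h.head
      simp [K]
      omega
  | a :: b :: w, h => by
      have ih := growth (w := w) h.tail.tail
      have ha := h.head
      have hb := h.tail.head
      have h3 := K_le h.tail.tail
      simp only [K, List.length_cons]
      have e : (w.length + 1 + 1) / 2 = w.length / 2 + 1 := by omega
      rw [e, pow_succ]
      have h4 : (K w).1 ≤ b * (K w).1 + (K w).2 := by nlinarith
      nlinarith

lemma q_tendsto {a : ℕ → ℕ} (h : PosS a) : Tendsto (fun n => ((K (pre a n)).1 : ℝ)) atTop atTop := by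
  have h1 : Tendsto (fun n : ℕ => ((2 : ℝ) ^ (n / 2))) atTop atTop := by
    apply (tendsto_pow_atTop_atTop_of_one_lt (by norm_num : (1 : ℝ) < 2)).comp
    exact Nat.tendsto_div_const_atTop (by norm_num)
  apply tendsto_atTop_mono _ h1
  intro n
  have := growth (pre_pos h n)
  rw [pre_length] at this
  exact_mod_cast this

lemma cv_cauchy {a : ℕ → ℕ} (h : PosS a) : CauchySeq fun n => cv (pre a n) := by
  rw [Metric.cauchySeq_iff']
  intro ε hε
  have h1 := (q_tendsto h).eventually_gt_atTop (1 / ε + 1)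
  obtain ⟨N, hN⟩ := eventually_atTop.1 h1
  refine ⟨N, fun n hn => ?_⟩
  obtain ⟨m, rfl⟩ := Nat.exists_eq_add_of_le hn
  rw [pre_add, cv_append (pre_pos h N) (pre_pos (fun i => h _) m), Real.dist_eq]
  have hm := cv_mem (pre_pos (a := fun i => a (N + i)) (fun i => h _) m)
  have h2 := Ph_upper (pre_pos h N) hm.1 le_rfl (y := 0)
  rw [Ph_zero] at h2
  have h3 := hN N le_rfl
  have h4 : (1 : ℝ) < (K (pre a N)).1 := by
    have : 0 < 1 / ε := by positivity
    linarith
  refine lt_of_le_of_lt h2 ?_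
  rw [sub_zero, abs_of_nonneg hm.1, div_lt_iff₀ (by positivity)]
  have h5 : 1 < ε * (K (pre a N)).1 := by
    have : 1 / ε < (K (pre a N)).1 := by linarith
    rw [div_lt_iff₀ hε] at this
    linarith
  nlinarith

/-- the value of the infinite continued fraction -/
noncomputable def val (a : ℕ → ℕ) : ℝ := limUnder atTop fun n => cv (pre a n)

lemma val_tendsto {a : ℕ → ℕ} (h : PosS a) : Tendsto (fun n => cv (pre a n)) atTop (𝓝 (val a)) :=
  CauchySeq.tendsto_limUnder (cv_cauchy h)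

lemma val_mem {a : ℕ → ℕ} (h : PosS a) : 0 ≤ val a ∧ val a ≤ 1 :=
  ⟨ge_of_tendsto' (val_tendsto h) fun n => (cv_mem (pre_pos h n)).1,
    le_of_tendsto' (val_tendsto h) fun n => (cv_mem (pre_pos h n)).2⟩

lemma val_eq {a : ℕ → ℕ} (h : PosS a) (n : ℕ) : val a = Ph (pre a n) (val fun i => a (n + i)) := by
  have hs : PosS fun i => a (n + i) := fun i => h _
  have h1 : Tendsto (fun m => cv (pre a (n + m))) atTop (𝓝 (val a)) := by
    have := (val_tendsto h).comp (tendsto_add_atTop_nat n)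
    refine this.congr fun m => ?_
    simp only [Function.comp, add_comm]
  have h2 : Tendsto (fun m => cv (pre a (n + m))) atTop (𝓝 (Ph (pre a n) (val fun i => a (n + i)))) := by
    have h3 : Tendsto (fun m => Ph (pre a n) (cv (pre (fun i => a (n + i)) m))) atTop
        (𝓝 (Ph (pre a n) (val fun i => a (n + i)))) := by
      unfold Ph
      apply Tendsto.div
      · exact tendsto_const_nhds.add (tendsto_const_nhds.mul (val_tendsto hs))
      · exact tendsto_const_nhds.add (tendsto_const_nhds.mul (val_tendsto hs))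
      · exact (den_pos (pre_pos h n) (val_mem hs).1).ne'
    refine h3.congr fun m => ?_
    rw [pre_add, cv_append (pre_pos h n) (pre_pos hs m)]
  exact tendsto_nhds_unique h1 h2

lemma val_succ {a : ℕ → ℕ} (h : PosS a) : val a = 1 / (a 0 + val fun i => a (i + 1)) := by
  have h1 := val_eq h 1
  have e : (fun i => a (1 + i)) = fun i => a (i + 1) := by
    ext i
    rw [add_comm]
  rw [e] at h1
  rw [h1]
  simp [Ph, pre, K, K']

lemma val_cyl {a b : ℕ → ℕ} (ha : PosS a) (hb : PosS b) {n : ℕ} (h : pre a n = pre b n) :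
    |val a - val b| ≤ 1 / ((K (pre a n)).1 : ℝ) ^ 2 := by
  rw [val_eq ha n, val_eq hb n, ← h]
  have h1 := val_mem (a := fun i => a (n + i)) fun i => ha _
  have h2 := val_mem (a := fun i => b (n + i)) fun i => hb _
  refine (Ph_upper (pre_pos ha n) h1.1 h2.1).trans ?_
  gcongr
  rw [abs_le]
  constructor <;> linarith [h1.1, h1.2, h2.1, h2.2]

lemma val_bounds {a : ℕ → ℕ} {A : ℕ} (h : PosS a) (hA : ∀ i, a i ≤ A) :
    1 / ((A : ℝ) + 1) ≤ val a ∧ val a ≤ ((A : ℝ) + 1) / (A + 2) := by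
  have low : ∀ {b : ℕ → ℕ}, PosS b → (∀ i, b i ≤ A) → 1 / ((A : ℝ) + 1) ≤ val b := by
    intro b hb hbA
    rw [val_succ hb]
    have h1 := val_mem (a := fun i => b (i + 1)) fun i => hb _
    have h2 : (1 : ℝ) ≤ b 0 := by exact_mod_cast hb 0
    have h3 : (b 0 : ℝ) ≤ A := by exact_mod_cast hbA 0
    apply one_div_le_one_div_of_le
    · linarith [h1.1]
    · linarith [h1.2]
  refine ⟨low h hA, ?_⟩
  rw [val_succ h]
  have h1 := low (b := fun i => a (i + 1)) (fun i => h _) (fun i => hA _)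
  have h2 : (1 : ℝ) ≤ a 0 := by exact_mod_cast h 0
  have hA0 : (0 : ℝ) ≤ A := Nat.cast_nonneg _
  have h3 : ((A : ℝ) + 2) / (A + 1) ≤ a 0 + val fun i => a (i + 1) := by
    have : ((A : ℝ) + 2) / (A + 1) = 1 + 1 / (A + 1) := by field_simp; ring
    rw [this]
    linarith
  calc 1 / ((a 0 : ℝ) + val fun i => a (i + 1)) ≤ 1 / (((A : ℝ) + 2) / (A + 1)) :=
        one_div_le_one_div_of_le (by positivity) h3
    _ = ((A : ℝ) + 1) / (A + 2) := by rw [one_div_div]

/-- the constant of the separation lemma -/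
noncomputable def cA (A : ℕ) : ℝ := 1 / (4 * (((A : ℝ) + 2) * (A + 1) ^ 2))

lemma cA_pos (A : ℕ) : 0 < cA A := by unfold cA; positivity

lemma separation {a b : ℕ → ℕ} {A : ℕ} (ha : PosS a) (hb : PosS b) (hA : ∀ i, a i ≤ A) (hB : ∀ i, b i ≤ A)
    {n : ℕ} (h : pre a n = pre b n) (hn : a n ≠ b n) :
    cA A / ((K (pre a n)).1 : ℝ) ^ 2 ≤ |val a - val b| := by
  have h1 := val_mem (a := fun i => a (n + i)) fun i => ha _
  have h2 := val_mem (a := fun i => b (n + i)) fun i => hb _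
  have h3 := Ph_lower (pre_pos ha n) h1.1 h2.1 h1.2 h2.2
  rw [val_eq ha n, val_eq hb n, ← h]
  refine le_trans ?_ h3
  have hA0 : (0 : ℝ) ≤ A := Nat.cast_nonneg _
  have key : 1 / (((A : ℝ) + 2) * (A + 1) ^ 2) ≤ |(val fun i => a (n + i)) - val fun i => b (n + i)| := by
    rw [val_succ (a := fun i => a (n + i)) fun i => ha _, val_succ (a := fun i => b (n + i)) fun i => hb _]
    simp only [add_zero]
    obtain ⟨x1, x2⟩ := val_bounds (a := fun i => a (n + (i + 1))) (fun i => ha _) (fun i => hA _)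
    obtain ⟨y1, y2⟩ := val_bounds (a := fun i => b (n + (i + 1))) (fun i => hb _) (fun i => hB _)
    set x := val fun i => a (n + (i + 1))
    set y := val fun i => b (n + (i + 1))
    have a1 : (1 : ℝ) ≤ a n := by exact_mod_cast ha n
    have a2 : (a n : ℝ) ≤ A := by exact_mod_cast hA n
    have b1 : (1 : ℝ) ≤ b n := by exact_mod_cast hb n
    have b2 : (b n : ℝ) ≤ A := by exact_mod_cast hB n
    have x0 : 0 ≤ x := le_trans (by positivity) x1
    have y0 : 0 ≤ y := le_trans (by positivity) y1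
    have hlt : ((A : ℝ) + 1) / (A + 2) < 1 := by rw [div_lt_one (by positivity)]; linarith
    have e : (1 : ℝ) / (a n + x) - 1 / (b n + y) = ((b n + y) - (a n + x)) / ((a n + x) * (b n + y)) := by
      rw [div_sub_div _ _ (by linarith) (by linarith)]
      congr 1
      ring
    rw [e, abs_div, abs_of_pos (by positivity : 0 < ((a n : ℝ) + x) * (b n + y))]
    have hnum : 1 / ((A : ℝ) + 2) ≤ |((b n : ℝ) + y) - (a n + x)| := by
      have hdiff : ((A : ℝ) + 1) / (A + 2) = 1 - 1 / (A + 2) := by field_simp; ring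
      have hpos : 0 < 1 / ((A : ℝ) + 1) := by positivity
      rcases lt_or_gt_of_ne hn with hlt' | hlt'
      · have : (a n : ℝ) + 1 ≤ b n := by exact_mod_cast hlt'
        rw [le_abs]
        left
        linarith
      · have : (b n : ℝ) + 1 ≤ a n := by exact_mod_cast hlt'
        rw [le_abs]
        right
        linarith
    have hden : ((a n : ℝ) + x) * (b n + y) ≤ (A + 1) ^ 2 := by
      have : x ≤ 1 := by linarith
      have : y ≤ 1 := by linarith
      nlinarith
    calc 1 / (((A : ℝ) + 2) * (A + 1) ^ 2) = (1 / ((A : ℝ) + 2)) / (A + 1) ^ 2 := by rw [div_div]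
      _ ≤ (1 / ((A : ℝ) + 2)) / (((a n : ℝ) + x) * (b n + y)) := by
          apply div_le_div_of_nonneg_left (by positivity) (by positivity) hden
      _ ≤ _ := by gcongr
  have h4 : (0 : ℝ) < (K (pre a n)).1 := by exact_mod_cast (K_le (pre_pos ha n)).2
  calc cA A / ((K (pre a n)).1 : ℝ) ^ 2 = (1 / (((A : ℝ) + 2) * (A + 1) ^ 2)) / (4 * ((K (pre a n)).1 : ℝ) ^ 2) := by
        unfold cA
        field_simp
    _ ≤ _ := by gcongr

end Pool.Agent.W5h9.GC
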