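import Pool.Agent.W5h9.GC.Sieve
import Pool.Agent.W5h9.GC.Val

/-!
# The Hausdorff dimension of `E_𝒜` is at least half the exponent of convergence
-/

set_option autoImplicit false

namespace Pool.Agent.W5h9.GC

open Filter Topology ENNReal MeasureTheory

/-- the values of the continued fractions with digits in `𝒜` -/
def EA (𝒜 : Set ℕ) : Set ℝ := {z | ∃ a : ℕ → ℕ, (∀ i, a i ∈ 𝒜) ∧ val a = z}

lemma q_le_pow {A : ℕ} : ∀ {w : List ℕ}, Pos w → (∀ a ∈ w, a ≤ A) → (K w).1 ≤ (A + 1) ^ w.length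
  | [], _, _ => by simp [K]
  | a :: w, h, hA => by
      have ih := q_le_pow (w := w) h.tail fun b hb => hA b (List.mem_cons_of_mem _ hb)
      have h1 := q_cons_le (a := a) h.tail
      have h2 : a ≤ A := hA a List.mem_cons_self
      rw [List.length_cons, pow_succ]
      calc (K (a :: w)).1 ≤ (a + 1) * (K w).1 := h1
        _ ≤ (A + 1) * (A + 1) ^ w.length := Nat.mul_le_mul (by omega) ih
        _ = _ := mul_comm _ _

section

variable {𝒜 : Set ℕ}

/-- the word of a block -/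
def wd {n : ℕ} (b : Fin n → 𝒜) : List ℕ := List.ofFn fun i => (b i : ℕ)

/-- the digits of a sequence of blocks of length `n` -/
def dg {n : ℕ} [NeZero n] (ω : ℕ → Fin n → 𝒜) (m : ℕ) : ℕ := ω (m / n) (Fin.ofNat n m)

lemma dg_mem {n : ℕ} [NeZero n] (ω : ℕ → Fin n → 𝒜) (m : ℕ) : dg ω m ∈ 𝒜 := (ω _ _).2

lemma pre_block {n : ℕ} [NeZero n] (ω : ℕ → Fin n → 𝒜) (k : ℕ) :
    pre (fun i => dg ω (k * n + i)) n = wd (ω k) := by
  have hn : 0 < n := Nat.pos_of_ne_zero (NeZero.ne n)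
  apply List.ext_getElem
  · simp [pre, wd]
  · intro i h1 h2
    simp only [pre, wd, List.getElem_map, List.getElem_range, List.getElem_ofFn, dg]
    have hi : i < n := by simpa [pre] using h1
    have e1 : (k * n + i) / n = k := by
      rw [mul_comm, Nat.mul_add_div hn, Nat.div_eq_of_lt hi, add_zero]
    have e2 : Fin.ofNat n (k * n + i) = ⟨i, hi⟩ := by
      ext
      show (k * n + i) % n = i
      rw [mul_comm, Nat.mul_add_mod, Nat.mod_eq_of_lt hi]
    rw [e1, e2]

lemma pre_blocks_succ {n : ℕ} [NeZero n] (ω : ℕ → Fin n → 𝒜) (k : ℕ) :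
    pre (dg ω) ((k + 1) * n) = pre (dg ω) (k * n) ++ wd (ω k) := by
  rw [add_mul, one_mul, pre_add, pre_block]

lemma pre_agree {n : ℕ} [NeZero n] {ω ω' : ℕ → Fin n → 𝒜} {k : ℕ} (h : ∀ i < k, ω i = ω' i) {m : ℕ}
    (hm : m ≤ k * n) : pre (dg ω) m = pre (dg ω') m := by
  have hn : 0 < n := Nat.pos_of_ne_zero (NeZero.ne n)
  unfold pre
  apply List.map_congr_left
  intro i hi
  have hi' : i < m := List.mem_range.1 hi
  unfold dg
  rw [h (i / n) (by rw [Nat.div_lt_iff_lt_mul hn]; omega)]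

/-- if two block sequences differ somewhere in the first `k` blocks, their digits have a first
difference before `k n` -/
lemma first_diff {n : ℕ} [NeZero n] {ω ω' : ℕ → Fin n → 𝒜} {k : ℕ} (h : ¬ ∀ i < k, ω i = ω' i) :
    ∃ m < k * n, pre (dg ω) m = pre (dg ω') m ∧ dg ω m ≠ dg ω' m := by
  classical
  have hn : 0 < n := Nat.pos_of_ne_zero (NeZero.ne n)
  have hex : ∃ m, m < k * n ∧ dg ω m ≠ dg ω' m := by
    by_contra hcon
    push Not at hcon
    apply h
    intro i hi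
    ext j
    have h1 := hcon (i * n + j) (by
      have : i * n + n ≤ k * n := by
        rw [← Nat.succ_mul]
        exact Nat.mul_le_mul_right _ hi
      omega)
    unfold dg at h1
    have e1 : (i * n + (j : ℕ)) / n = i := by
      rw [mul_comm, Nat.mul_add_div hn, Nat.div_eq_of_lt j.2, add_zero]
    have e2 : Fin.ofNat n (i * n + (j : ℕ)) = j := by
      ext
      show (i * n + (j : ℕ)) % n = j
      rw [mul_comm, Nat.mul_add_mod, Nat.mod_eq_of_lt j.2]
    rw [e1, e2] at h1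
    exact h1
  obtain ⟨h1, h2⟩ := Nat.find_spec hex
  refine ⟨Nat.find hex, h1, ?_, h2⟩
  unfold pre
  apply List.map_congr_left
  intro i hi
  have hi' : i < Nat.find hex := List.mem_range.1 hi
  have h3 := Nat.find_min hex hi'
  push Not at h3
  exact h3 (by omega)

end

lemma pre_mono {a : ℕ → ℕ} (h : PosS a) {m m' : ℕ} (hm : m ≤ m') : (K (pre a m)).1 ≤ (K (pre a m')).1 := by
  obtain ⟨j, rfl⟩ := Nat.exists_eq_add_of_le hm
  rw [pre_add]
  refine le_trans ?_ q_mul_le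
  have := (K_le (pre_pos (a := fun i => a (m + i)) (fun i => h _) j)).2
  nlinarith [(K_le (pre_pos h m)).2]

/-- a length of blocks with a large sum -/
lemma exists_block {𝒜 : Set ℕ} [Fintype 𝒜] {A : ℕ} (hA : ∀ a ∈ 𝒜, 1 ≤ a ∧ a ≤ A) {σ τ : ℝ} (hτ0 : 0 < τ) (hτ : τ < σ)
    (hZ : Z 𝒜 σ = ⊤) : ∃ n : ℕ, n ≠ 0 ∧ (2 : ℝ) ^ τ ≤ ∑ b : Fin n → 𝒜, ((K (wd b)).1 : ℝ) ^ (-τ) := by
  classical
  by_contra hcon
  push Not at hcon
  have h2 : (1 : ℝ) ≤ 2 ^ τ := Real.one_le_rpow (by norm_num) hτ0.le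
  have hcon' : ∀ n : ℕ, ∑ b : Fin n → 𝒜, ((K (wd b)).1 : ℝ) ^ (-τ) ≤ 2 ^ τ := by
    intro n
    by_cases hn : n = 0
    · subst hn
      simp [wd, K]
      exact h2
    · exact (hcon n hn).le
  have hposw : ∀ (n : ℕ) (b : Fin n → 𝒜), Pos (wd b) := by
    intro n b x hx
    simp only [wd, List.mem_ofFn] at hx
    obtain ⟨i, rfl⟩ := hx
    exact (hA _ (b i).2).1
  set φ : W 𝒜 → Σ n : ℕ, (Fin n → 𝒜) := fun w => ⟨w.1.length, fun i => ⟨w.1.get i, w.2 _ (List.get_mem _ _)⟩⟩ with hφ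
  have hwd : ∀ w : W 𝒜, wd (φ w).2 = w.1 := by
    intro w
    simp only [hφ, wd]
    exact List.ofFn_get w.1
  have hinj : Function.Injective φ := by
    intro w w' h
    apply Subtype.ext
    rw [← hwd w, ← hwd w', h]
  have hr1 : (2 : ℝ) ^ (-(σ - τ)) < 1 := Real.rpow_lt_one_of_one_lt_of_neg (by norm_num) (by linarith)
  have hr0 : (0 : ℝ) < (2 : ℝ) ^ (-(σ - τ)) := by positivity
  have hsum : Summable fun n : ℕ => 2 ^ τ * ((2 : ℝ) ^ (-(σ - τ))) ^ (n / 2) := by
    apply Summable.mul_left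
    have hg := summable_geometric_of_lt_one (by positivity) (by
      exact Real.rpow_lt_one_of_one_lt_of_neg (by norm_num) (by linarith) : (2 : ℝ) ^ (-((σ - τ) / 2)) < 1)
    refine Summable.of_nonneg_of_le (fun n => by positivity) (fun n => ?_) (hg.mul_left ((2 : ℝ) ^ (σ - τ)))
    rw [← Real.rpow_natCast, ← Real.rpow_mul (by norm_num), ← Real.rpow_natCast, ← Real.rpow_mul (by norm_num),
      ← Real.rpow_add (by norm_num)]
    apply Real.rpow_le_rpow_of_exponent_le (by norm_num)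
    have h3 : (n : ℝ) ≤ 2 * ((n / 2 : ℕ) : ℝ) + 1 := by
      have : n ≤ 2 * (n / 2) + 1 := by omega
      exact_mod_cast this
    nlinarith
  have : Z 𝒜 σ < ⊤ := by
    calc Z 𝒜 σ = ∑' w : W 𝒜, ENNReal.ofReal (((K (wd (φ w).2)).1 : ℝ) ^ (-σ)) := by
          unfold Z qs
          refine tsum_congr fun w => ?_
          rw [hwd w]
      _ ≤ ∑' x : Σ n : ℕ, (Fin n → 𝒜), ENNReal.ofReal (((K (wd x.2)).1 : ℝ) ^ (-σ)) :=
          ENNReal.tsum_comp_le_tsum_of_injective hinj
            (fun x : Σ n : ℕ, (Fin n → 𝒜) => ENNReal.ofReal (((K (wd x.2)).1 : ℝ) ^ (-σ)))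
      _ = ∑' n : ℕ, ∑' b : Fin n → 𝒜, ENNReal.ofReal (((K (wd b)).1 : ℝ) ^ (-σ)) := ENNReal.tsum_sigma' _
      _ ≤ ∑' n : ℕ, ENNReal.ofReal (2 ^ τ * ((2 : ℝ) ^ (-(σ - τ))) ^ (n / 2)) := by
          refine ENNReal.tsum_le_tsum fun n => ?_
          rw [tsum_fintype, ← ENNReal.ofReal_sum_of_nonneg (fun _ _ => by positivity)]
          apply ENNReal.ofReal_le_ofReal
          calc ∑ b : Fin n → 𝒜, ((K (wd b)).1 : ℝ) ^ (-σ)
              ≤ ∑ b : Fin n → 𝒜, ((K (wd b)).1 : ℝ) ^ (-τ) * ((2 : ℝ) ^ (-(σ - τ))) ^ (n / 2) := by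
                refine Finset.sum_le_sum fun b _ => ?_
                have hq : (1 : ℝ) ≤ (K (wd b)).1 := by exact_mod_cast (K_le (hposw n b)).2
                have hg := growth (hposw n b)
                have hl : (wd b).length = n := by simp [wd]
                rw [hl] at hg
                have hg' : ((2 : ℝ) ^ (n / 2)) ≤ (K (wd b)).1 := by exact_mod_cast hg
                have e : ((K (wd b)).1 : ℝ) ^ (-σ) = ((K (wd b)).1 : ℝ) ^ (-τ) * ((K (wd b)).1 : ℝ) ^ (-(σ - τ)) := by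
                  rw [← Real.rpow_add (by linarith)]
                  congr 1
                  ring
                rw [e]
                gcongr
                calc ((K (wd b)).1 : ℝ) ^ (-(σ - τ)) ≤ ((2 : ℝ) ^ (n / 2)) ^ (-(σ - τ)) :=
                      Real.rpow_le_rpow_of_nonpos (by positivity) hg' (by linarith)
                  _ = ((2 : ℝ) ^ (-(σ - τ))) ^ (n / 2) := by
                      rw [← Real.rpow_natCast, ← Real.rpow_natCast, ← Real.rpow_mul (by norm_num),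
                        ← Real.rpow_mul (by norm_num), mul_comm]
            _ = (∑ b : Fin n → 𝒜, ((K (wd b)).1 : ℝ) ^ (-τ)) * ((2 : ℝ) ^ (-(σ - τ))) ^ (n / 2) := by
                rw [Finset.sum_mul]
            _ ≤ _ := by
                gcongr
                exact hcon' n
      _ = ENNReal.ofReal (∑' n : ℕ, 2 ^ τ * ((2 : ℝ) ^ (-(σ - τ))) ^ (n / 2)) :=
          (ENNReal.ofReal_tsum_of_nonneg (fun n => by positivity) hsum).symm
      _ < ⊤ := ENNReal.ofReal_lt_top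
  exact this.ne hZ

end Pool.Agent.W5h9.GC
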