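import Pool.Agent.W5h9.GC.Exc

/-!
# The sieve for the words with a long prefix over `𝒜`
-/

set_option autoImplicit false

namespace Pool.Agent.W5h9.GC

open ENNReal

/-- the words with a prefix over `𝒜` such that the rest `b` satisfies `q(b)² < d` -/
def XD (𝒜 : Set ℕ) (d : ℕ) : Set (List ℕ) :=
  {x | ∃ w b, x = w ++ b ∧ (∀ a ∈ w, a ∈ 𝒜) ∧ Pos b ∧ (K b).1 ^ 2 < d}

lemma pos_append {u v : List ℕ} (hu : Pos u) (hv : Pos v) : Pos (u ++ v) := by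
  intro a ha
  rcases List.mem_append.1 ha with h | h
  · exact hu a h
  · exact hv a h

lemma exists_split2 {A d : ℕ} {b : List ℕ} (hb : Pos b) (hbd : (K b).1 ^ 2 < d) : ∀ {w : List ℕ}, Pos w → (∀ a ∈ w, a ≤ A) →
    d ≤ (K (w ++ b)).1 ^ 2 →
    ∃ u v, w ++ b = u ++ v ∧ (∀ a ∈ u, a ∈ w) ∧ Pos v ∧ (K v).1 ^ 2 < d ∧ d ≤ ((A + 1) * (K v).1) ^ 2 := by
  intro w
  induction w with
  | nil =>
    intro _ _ h
    rw [List.nil_append] at h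
    omega
  | cons a w ih =>
    intro hw hA h
    by_cases h1 : d ≤ (K (w ++ b)).1 ^ 2
    · obtain ⟨u, v, e, h2, h3, h4⟩ := ih hw.tail (fun b hb => hA b (List.mem_cons_of_mem _ hb)) h1
      refine ⟨a :: u, v, by rw [List.cons_append, List.cons_append, e], ?_, h3, h4⟩
      intro x hx
      rcases List.mem_cons.1 hx with rfl | hx
      · exact List.mem_cons_self
      · exact List.mem_cons_of_mem _ (h2 x hx)
    · refine ⟨[a], w ++ b, rfl, ?_, pos_append hw.tail hb, by omega, h.trans ?_⟩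
      · intro x hx
        rw [List.mem_singleton] at hx
        rw [hx]
        exact List.mem_cons_self
      · apply Nat.pow_le_pow_left
        rw [List.cons_append]
        refine (q_cons_le (pos_append hw.tail hb)).trans ?_
        exact Nat.mul_le_mul_right _ (by have := hA a List.mem_cons_self; omega)

variable {𝒜 : Set ℕ} {A : ℕ}

theorem sieve2 (hA : ∀ a ∈ 𝒜, 1 ≤ a ∧ a ≤ A) {σ : ℝ} (hσ : 0 ≤ σ) {d : ℕ} (hd : 1 < d) {l : ℤ × ℤ}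
    (hl : IsCoprime l.1 l.2) :
    ∑' x : {x : List ℕ // x ∈ XD 𝒜 d ∧ d ≤ (K x).1 ^ 2 ∧ (d : ℤ) ∣ lf l x}, qs σ x.1 ≤
      ENNReal.ofReal (2 * ((A : ℝ) + 1) ^ σ * (d : ℝ) ^ (-(σ / 2))) * Z 𝒜 σ := by
  classical
  have hsp : ∀ x : {x : List ℕ // x ∈ XD 𝒜 d ∧ d ≤ (K x).1 ^ 2 ∧ (d : ℤ) ∣ lf l x}, ∃ u v, x.1 = u ++ v ∧
      (∀ a ∈ u, a ∈ 𝒜) ∧ Pos v ∧ (K v).1 ^ 2 < d ∧ d ≤ ((A + 1) * (K v).1) ^ 2 := by
    rintro ⟨x, ⟨w, b, e, hw, hb, hbd⟩, hx, -⟩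
    subst e
    obtain ⟨u, v, h1, h2, h3⟩ := exists_split2 hb hbd (w := w) (fun a ha => (hA a (hw a ha)).1)
      (fun a ha => (hA a (hw a ha)).2) hx
    exact ⟨u, v, h1, fun a ha => hw a (h2 a ha), h3⟩
  choose u v hw hu hvp hv1 hv2 using hsp
  have hup : ∀ w, Pos (u w) := fun w a ha => (hA a (hu w a ha)).1
  set φ : {x : List ℕ // x ∈ XD 𝒜 d ∧ d ≤ (K x).1 ^ 2 ∧ (d : ℤ) ∣ lf l x} → W 𝒜 × Bool := fun w =>
    (⟨u w, hu w⟩, decide ((v w).getLast? = some 1)) with hφ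
  have hinj : Function.Injective φ := by
    intro w w' h
    simp only [hφ, Prod.mk.injEq, Subtype.mk.injEq, decide_eq_decide] at h
    obtain ⟨h1, h2⟩ := h
    have e1 := w.2.2.2
    have e2 := w'.2.2.2
    rw [hw w, lf_append] at e1
    rw [hw w', ← h1, lf_append] at e2
    have h3 : K (v w) = K (v w') := K_eq_of_dvd (coprime_row hl (u w)) (hvp w) (hvp w') (hv1 w) (hv1 w') e1 e2
    have h4 : v w = v w' := K_inj (hvp w) (hvp w') h3 h2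
    apply Subtype.ext
    rw [hw w, hw w', h1, h4]
  have hd0 : (0 : ℝ) < d := by exact_mod_cast (by omega : 0 < d)
  have hbound : ∀ w, qs σ w.1 ≤ ENNReal.ofReal (((A : ℝ) + 1) ^ σ * (d : ℝ) ^ (-(σ / 2))) * qs σ (φ w).1.1 := by
    intro w
    unfold qs
    rw [← ENNReal.ofReal_mul (by positivity)]
    apply ENNReal.ofReal_le_ofReal
    have h1 : ((K (u w)).1 : ℝ) * (K (v w)).1 ≤ (K w.1).1 := by
      rw [hw w]
      exact_mod_cast q_mul_le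
    have h2 : (0 : ℝ) < (K (u w)).1 := by
      exact_mod_cast (K_le (hup w)).2
    have h3 : (0 : ℝ) < (K (v w)).1 := by exact_mod_cast (K_le (hvp w)).2
    have h4 : (d : ℝ) ^ (1 / 2 : ℝ) ≤ ((A : ℝ) + 1) * (K (v w)).1 := by
      rw [← Real.sqrt_eq_rpow]
      apply Real.sqrt_le_iff.2 ⟨by positivity, ?_⟩
      exact_mod_cast hv2 w
    have h5 : (d : ℝ) ^ (1 / 2 : ℝ) / ((A : ℝ) + 1) * (K (u w)).1 ≤ (K w.1).1 := by
      refine le_trans ?_ h1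
      rw [mul_comm]
      apply mul_le_mul_of_nonneg_left _ h2.le
      rw [div_le_iff₀ (by positivity)]
      linarith
    have h6 : (0 : ℝ) < (d : ℝ) ^ (1 / 2 : ℝ) / ((A : ℝ) + 1) * (K (u w)).1 := by positivity
    calc ((K w.1).1 : ℝ) ^ (-σ) ≤ ((d : ℝ) ^ (1 / 2 : ℝ) / ((A : ℝ) + 1) * (K (u w)).1) ^ (-σ) :=
          Real.rpow_le_rpow_of_nonpos h6 h5 (by linarith)
      _ = ((A : ℝ) + 1) ^ σ * (d : ℝ) ^ (-(σ / 2)) * ((K (u w)).1 : ℝ) ^ (-σ) := by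
          rw [Real.mul_rpow (by positivity) h2.le, Real.div_rpow (by positivity) (by positivity), ← Real.rpow_mul hd0.le,
            Real.rpow_neg (by positivity : (0 : ℝ) ≤ (A : ℝ) + 1), div_inv_eq_mul]
          have : (1 / 2 : ℝ) * -σ = -(σ / 2) := by ring
          rw [this]
          ring
  calc ∑' w : {x : List ℕ // x ∈ XD 𝒜 d ∧ d ≤ (K x).1 ^ 2 ∧ (d : ℤ) ∣ lf l x}, qs σ w.1
      ≤ ∑' w : {x : List ℕ // x ∈ XD 𝒜 d ∧ d ≤ (K x).1 ^ 2 ∧ (d : ℤ) ∣ lf l x},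
          ENNReal.ofReal (((A : ℝ) + 1) ^ σ * (d : ℝ) ^ (-(σ / 2))) * qs σ (φ w).1.1 := ENNReal.tsum_le_tsum hbound
    _ ≤ ∑' x : W 𝒜 × Bool, ENNReal.ofReal (((A : ℝ) + 1) ^ σ * (d : ℝ) ^ (-(σ / 2))) * qs σ x.1.1 :=
        ENNReal.tsum_comp_le_tsum_of_injective hinj
          (fun x : W 𝒜 × Bool => ENNReal.ofReal (((A : ℝ) + 1) ^ σ * (d : ℝ) ^ (-(σ / 2))) * qs σ x.1.1)
    _ = ENNReal.ofReal (2 * ((A : ℝ) + 1) ^ σ * (d : ℝ) ^ (-(σ / 2))) * Z 𝒜 σ := by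
        rw [ENNReal.tsum_prod']
        simp only [tsum_fintype, Fintype.sum_bool]
        have e : (2 * ((A : ℝ) + 1) ^ σ * (d : ℝ) ^ (-(σ / 2))) =
            ((A : ℝ) + 1) ^ σ * (d : ℝ) ^ (-(σ / 2)) + ((A : ℝ) + 1) ^ σ * (d : ℝ) ^ (-(σ / 2)) := by ring
        rw [e, ENNReal.ofReal_add (by positivity) (by positivity), add_mul, Z, ← ENNReal.tsum_mul_left,
          ENNReal.tsum_add]

/-- The exceptional words: `x = w b` with `w` over `𝒜` and `q(b) ≤ q(x) ^ ρ`, and for some linear form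
of small height the value at the point is not zero, and the quotient by its radical is large. -/
def Ex2 (𝒜 : Set ℕ) (η κ ρ : ℝ) (q₀ : ℕ) : Set (List ℕ) :=
  {x | q₀ ≤ (K x).1 ∧ (∃ w b, x = w ++ b ∧ (∀ a ∈ w, a ∈ 𝒜) ∧ Pos b ∧ ((K b).1 : ℝ) ≤ ((K x).1 : ℝ) ^ ρ) ∧
    ∃ l : ℤ × ℤ, IsCoprime l.1 l.2 ∧ |(l.1 : ℝ)| ≤ ((K x).1 : ℝ) ^ κ ∧
    |(l.2 : ℝ)| ≤ ((K x).1 : ℝ) ^ κ ∧ lf l x ≠ 0 ∧
    ((K x).1 : ℝ) ^ η < (((lf l x).natAbs / rd (lf l x).natAbs : ℕ) : ℝ)}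

lemma Ex2.pos (hA : ∀ a ∈ 𝒜, 1 ≤ a ∧ a ≤ A) {η κ ρ : ℝ} {q₀ : ℕ} {x : List ℕ} (hx : x ∈ Ex2 𝒜 η κ ρ q₀) : Pos x := by
  obtain ⟨-, ⟨w, b, rfl, hw, hb, -⟩, -⟩ := hx
  exact pos_append (fun a ha => (hA a (hw a ha)).1) hb

theorem exc_sum2 (hA : ∀ a ∈ 𝒜, 1 ≤ a ∧ a ≤ A) {σ σ' τ η κ ρ : ℝ} (hσ1 : 1 < σ') (hσ2 : σ' ≤ 2)
    (hσ3 : σ' ≤ σ) (hZ : Z 𝒜 σ < ⊤) (hη : 0 < η) (hκ : 0 ≤ κ) (hρ : 2 * ρ ≤ η) (hτ : τ ≤ σ)
    (h : σ - τ + 2 * κ < η * (σ' - 1)) {q₀ : ℕ}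
    (hq₀' : ∀ q : ℕ, q₀ ≤ q → 2 * (q : ℝ) ^ κ ≤ q) :
    ∑' x : Ex2 𝒜 η κ ρ q₀, qs τ x.1 < ⊤ := by
  classical
  have hpos : ∀ w : Ex2 𝒜 η κ ρ q₀, Pos w.1 := fun w => Ex2.pos hA w.2
  -- the data of an exceptional word
  have hdat : ∀ w : Ex2 𝒜 η κ ρ q₀, ∃ (r : {r : ℕ // r ≠ 0}) (l : ℤ × ℤ), IsCoprime l.1 l.2 ∧ 1 < r.1 * rd r.1 ∧
      |(l.1 : ℝ)| ≤ (r.1 : ℝ) ^ (κ / η) ∧ |(l.2 : ℝ)| ≤ (r.1 : ℝ) ^ (κ / η) ∧
      r.1 * rd r.1 ≤ (K w.1).1 ^ 2 ∧ ((r.1 * rd r.1 : ℕ) : ℤ) ∣ lf l w.1 ∧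
      ((K w.1).1 : ℝ) ≤ (r.1 : ℝ) ^ (1 / η) ∧ w.1 ∈ XD 𝒜 (r.1 * rd r.1) := by
    intro w
    obtain ⟨hq, ⟨w', b, e, hw', hb, hbρ⟩, l, hl, hl1, hl2, hne, hr⟩ := w.2
    set n := (lf l w.1).natAbs with hn
    have hn0 : n ≠ 0 := Int.natAbs_ne_zero.2 hne
    set r := n / rd n with hrdef
    have hr0 : r ≠ 0 := (Nat.div_pos (Nat.le_of_dvd (Nat.pos_of_ne_zero hn0) rd_dvd) (rd_pos _)).ne'
    have hK1 : 1 ≤ (K w.1).1 := (K_le (hpos w)).2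
    have hK1' : (1 : ℝ) ≤ (K w.1).1 := by exact_mod_cast hK1
    have hr1 : (1 : ℝ) < r := lt_of_le_of_lt (Real.one_le_rpow hK1' hη.le) hr
    have hr1' : 1 < r := by exact_mod_cast hr1
    have hKr : ((K w.1).1 : ℝ) ≤ (r : ℝ) ^ (1 / η) := by
      have h1 := Real.rpow_le_rpow (by positivity) hr.le (by positivity : 0 ≤ 1 / η)
      rwa [← Real.rpow_mul (by linarith), mul_one_div_cancel hη.ne', Real.rpow_one] at h1
    have hKκ : ((K w.1).1 : ℝ) ^ κ ≤ (r : ℝ) ^ (κ / η) := by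
      have h1 := Real.rpow_le_rpow (by linarith) hKr hκ
      rwa [← Real.rpow_mul (by linarith), one_div_mul_eq_div] at h1
    have hdvd : r * rd r ∣ n := rr_dvd hn0
    refine ⟨⟨r, hr0⟩, l, hl, ?_, hl1.trans hKκ, hl2.trans hKκ, ?_, ?_, hKr, w', b, e, hw', hb, ?_⟩
    · have := rd_pos r
      nlinarith
    · have h1 : r * rd r ≤ n := Nat.le_of_dvd (Nat.pos_of_ne_zero hn0) hdvd
      refine h1.trans ?_
      have h2 : (n : ℝ) ≤ ((K w.1).1 : ℝ) ^ 2 := by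
        have e1 : (n : ℝ) = |(lf l w.1 : ℝ)| := by
          rw [hn, Nat.cast_natAbs, Int.cast_abs]
        rw [e1]
        unfold lf
        push_cast
        have h3 : ((K w.1).2 : ℝ) ≤ (K w.1).1 := by exact_mod_cast (K_le (hpos w)).1
        have h4 : (0 : ℝ) ≤ (K w.1).2 := Nat.cast_nonneg _
        have h5 := hq₀' _ hq
        calc |(l.1 : ℝ) * (K w.1).1 + l.2 * (K w.1).2| ≤ |(l.1 : ℝ) * (K w.1).1| + |(l.2 : ℝ) * (K w.1).2| := abs_add_le _ _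
          _ = |(l.1 : ℝ)| * (K w.1).1 + |(l.2 : ℝ)| * (K w.1).2 := by
              rw [abs_mul, abs_mul, Nat.abs_cast, Nat.abs_cast]
          _ ≤ ((K w.1).1 : ℝ) ^ κ * (K w.1).1 + ((K w.1).1 : ℝ) ^ κ * (K w.1).1 := by gcongr
          _ = (2 * ((K w.1).1 : ℝ) ^ κ) * (K w.1).1 := by ring
          _ ≤ (K w.1).1 * (K w.1).1 := by gcongr
          _ = _ := by ring
      exact_mod_cast h2
    · exact Int.natCast_dvd.2 (by exact_mod_cast hdvd)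
    · have h1 : ((K b).1 : ℝ) ^ 2 < r := by
        calc ((K b).1 : ℝ) ^ 2 ≤ (((K w.1).1 : ℝ) ^ ρ) ^ 2 := by gcongr
          _ = ((K w.1).1 : ℝ) ^ (2 * ρ) := by
              rw [← Real.rpow_natCast, ← Real.rpow_mul (by linarith)]
              congr 1
              push_cast
              ring
          _ ≤ ((K w.1).1 : ℝ) ^ η := Real.rpow_le_rpow_of_exponent_le hK1' hρ
          _ < r := hr
      have h2 : (K b).1 ^ 2 < r := by exact_mod_cast h1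
      have h3 := rd_pos r
      have h4 : r ≤ r * rd r := Nat.le_mul_of_pos_right r h3
      exact lt_of_lt_of_le h2 h4
  choose r l hl hr1 hl1 hl2 hd hdv hKr hXD using hdat
  -- the target of the injection
  set T : {r : ℕ // r ≠ 0} × (ℤ × ℤ) → Type := fun p =>
    {x : List ℕ // x ∈ XD 𝒜 (p.1.1 * rd p.1.1) ∧ p.1.1 * rd p.1.1 ≤ (K x).1 ^ 2 ∧ ((p.1.1 * rd p.1.1 : ℕ) : ℤ) ∣ lf p.2 x} with hT
  set φ : Ex2 𝒜 η κ ρ q₀ → Σ p : {r : ℕ // r ≠ 0} × (ℤ × ℤ), T p := fun w =>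
    ⟨(r w, l w), ⟨w.1, hXD w, hd w, hdv w⟩⟩ with hφ
  have hinj : Function.Injective φ := by
    intro w w' hww
    have h1 : ∀ (x y : Σ p : {r : ℕ // r ≠ 0} × (ℤ × ℤ), T p), x = y → x.2.1 = y.2.1 := by
      intro x y hxy
      subst hxy
      rfl
    exact Subtype.ext (h1 _ _ hww)
  set P : {r : ℕ // r ≠ 0} → ℤ × ℤ → Prop := fun s m => IsCoprime m.1 m.2 ∧ 1 < s.1 * rd s.1 ∧
    |(m.1 : ℝ)| ≤ (s.1 : ℝ) ^ (κ / η) ∧ |(m.2 : ℝ)| ≤ (s.1 : ℝ) ^ (κ / η) with hPdef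
  set G : (Σ p : {r : ℕ // r ≠ 0} × (ℤ × ℤ), T p) → ℝ≥0∞ := fun x =>
    if P x.1.1 x.1.2 then ENNReal.ofReal ((x.1.1.1 : ℝ) ^ ((σ - τ) / η)) * qs σ x.2.1 else 0 with hG
  have hle : ∀ w : Ex2 𝒜 η κ ρ q₀, qs τ w.1 ≤ G (φ w) := by
    intro w
    have hP : P (r w) (l w) := ⟨hl w, hr1 w, hl1 w, hl2 w⟩
    simp only [hG, hφ, hP, if_true]
    unfold qs
    rw [← ENNReal.ofReal_mul (by positivity)]
    apply ENNReal.ofReal_le_ofReal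
    have hK1' : (1 : ℝ) ≤ (K w.1).1 := by exact_mod_cast (K_le (hpos w)).2
    have h1 : ((K w.1).1 : ℝ) ^ (σ - τ) ≤ ((r w).1 : ℝ) ^ ((σ - τ) / η) := by
      have h2 := Real.rpow_le_rpow (by linarith) (hKr w) (by linarith : 0 ≤ σ - τ)
      rwa [← Real.rpow_mul (by positivity), one_div_mul_eq_div] at h2
    calc ((K w.1).1 : ℝ) ^ (-τ) = ((K w.1).1 : ℝ) ^ (σ - τ) * ((K w.1).1 : ℝ) ^ (-σ) := by
          rw [← Real.rpow_add (by linarith)]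
          congr 1
          ring
      _ ≤ _ := by gcongr
  have hC0 : 0 ≤ 2 * ((A : ℝ) + 1) ^ σ := by positivity
  -- the sum over the words for given data
  have hin : ∀ p : {r : ℕ // r ≠ 0} × (ℤ × ℤ), ∑' w : T p, G ⟨p, w⟩ ≤
      if P p.1 p.2 then ENNReal.ofReal ((p.1.1 : ℝ) ^ ((σ - τ) / η) *
        (2 * ((A : ℝ) + 1) ^ σ * ((p.1.1 : ℝ) * (rd p.1.1 : ℝ)) ^ (-(σ' / 2)))) * Z 𝒜 σ else 0 := by
    intro p
    by_cases hP : P p.1 p.2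
    · simp only [hG, hP, if_true]
      rw [ENNReal.tsum_mul_left]
      have h1 := sieve2 hA (by linarith : 0 ≤ σ) hP.2.1 hP.1
      have hd1 : (1 : ℝ) ≤ ((p.1.1 * rd p.1.1 : ℕ) : ℝ) := by exact_mod_cast hP.2.1.le
      rw [ENNReal.ofReal_mul (by positivity), mul_assoc]
      gcongr
      refine h1.trans ?_
      gcongr
      push_cast at hd1 ⊢
      exact Real.rpow_le_rpow_of_exponent_le hd1 (by linarith)
    · simp [hG, hP]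
  have hx : 0 < σ' / 2 - (σ - τ + 2 * κ) / η := by
    have : (σ - τ + 2 * κ) / η < σ' - 1 := by
      rw [div_lt_iff₀ hη]
      linarith
    linarith
  have hxy : 1 < (σ' / 2 - (σ - τ + 2 * κ) / η) + σ' / 2 := by
    have : (σ - τ + 2 * κ) / η < σ' - 1 := by
      rw [div_lt_iff₀ hη]
      linarith
    linarith
  have hfin := rad_sum hx hxy
  calc ∑' w : Ex2 𝒜 η κ ρ q₀, qs τ w.1 ≤ ∑' w : Ex2 𝒜 η κ ρ q₀, G (φ w) := ENNReal.tsum_le_tsum hle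
    _ ≤ ∑' x : Σ p : {r : ℕ // r ≠ 0} × (ℤ × ℤ), T p, G x := ENNReal.tsum_comp_le_tsum_of_injective hinj G
    _ = ∑' p : {r : ℕ // r ≠ 0} × (ℤ × ℤ), ∑' w : T p, G ⟨p, w⟩ := ENNReal.tsum_sigma' _
    _ ≤ ∑' p : {r : ℕ // r ≠ 0} × (ℤ × ℤ), (if P p.1 p.2 then ENNReal.ofReal ((p.1.1 : ℝ) ^ ((σ - τ) / η) *
        (2 * ((A : ℝ) + 1) ^ σ * ((p.1.1 : ℝ) * (rd p.1.1 : ℝ)) ^ (-(σ' / 2)))) * Z 𝒜 σ else 0) :=
        ENNReal.tsum_le_tsum hin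
    _ = ∑' s : {r : ℕ // r ≠ 0}, ∑' m : ℤ × ℤ, (if P s m then ENNReal.ofReal ((s.1 : ℝ) ^ ((σ - τ) / η) *
        (2 * ((A : ℝ) + 1) ^ σ * ((s.1 : ℝ) * (rd s.1 : ℝ)) ^ (-(σ' / 2)))) * Z 𝒜 σ else 0) := ENNReal.tsum_prod'
    _ ≤ ∑' s : {r : ℕ // r ≠ 0}, ENNReal.ofReal (9 * ((s.1 : ℝ) ^ (κ / η)) ^ 2) * (ENNReal.ofReal ((s.1 : ℝ) ^ ((σ - τ) / η) *
        (2 * ((A : ℝ) + 1) ^ σ * ((s.1 : ℝ) * (rd s.1 : ℝ)) ^ (-(σ' / 2)))) * Z 𝒜 σ) := by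
        refine ENNReal.tsum_le_tsum fun s => ?_
        have hs1 : (1 : ℝ) ≤ s.1 := by exact_mod_cast Nat.pos_of_ne_zero s.2
        exact box_sum (Real.one_le_rpow hs1 (by positivity)) _ (P s) fun m hm => ⟨hm.2.2.1, hm.2.2.2⟩
    _ = ∑' s : {r : ℕ // r ≠ 0}, (ENNReal.ofReal (18 * ((A : ℝ) + 1) ^ σ) * Z 𝒜 σ) *
          ENNReal.ofReal ((s.1 : ℝ) ^ (-(σ' / 2 - (σ - τ + 2 * κ) / η)) * (rd s.1 : ℝ) ^ (-(σ' / 2))) := by
        refine tsum_congr fun s => ?_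
        have hs1 : (0 : ℝ) < s.1 := by exact_mod_cast Nat.pos_of_ne_zero s.2
        have hs2 : (0 : ℝ) < rd s.1 := by exact_mod_cast rd_pos _
        rw [← mul_assoc, ← ENNReal.ofReal_mul (by positivity),
          mul_right_comm (ENNReal.ofReal (18 * ((A : ℝ) + 1) ^ σ)) (Z 𝒜 σ) _, ← ENNReal.ofReal_mul (by positivity)]
        congr 2
        rw [Real.mul_rpow hs1.le hs2.le, ← Real.rpow_natCast, ← Real.rpow_mul hs1.le]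
        have e : (s.1 : ℝ) ^ (-(σ' / 2 - (σ - τ + 2 * κ) / η)) =
            (s.1 : ℝ) ^ (κ / η * ((2 : ℕ) : ℝ)) * (s.1 : ℝ) ^ ((σ - τ) / η) * (s.1 : ℝ) ^ (-(σ' / 2)) := by
          rw [← Real.rpow_add hs1, ← Real.rpow_add hs1]
          congr 1
          push_cast
          ring
        rw [e]
        ring
    _ = (ENNReal.ofReal (18 * ((A : ℝ) + 1) ^ σ) * Z 𝒜 σ) * ∑' s : {r : ℕ // r ≠ 0},
          ENNReal.ofReal ((s.1 : ℝ) ^ (-(σ' / 2 - (σ - τ + 2 * κ) / η)) * (rd s.1 : ℝ) ^ (-(σ' / 2))) := ENNReal.tsum_mul_left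
    _ < ⊤ := ENNReal.mul_lt_top (ENNReal.mul_lt_top ENNReal.ofReal_lt_top hZ) hfin

end Pool.Agent.W5h9.GC
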