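import Pool.Agent.W5h9.GC.Main
import Pool.Agent.W5h9.GC.Sieve2
import Pool.Agent.W5h9.GC.Approx

/-!
# The exceptional rational points near a number with restricted partial quotients
-/

set_option autoImplicit false

namespace Pool.Agent.W5h9.GC

open Filter Topology ENNReal MeasureTheory

lemma lf_lower2 {A : ℕ} {w b : List ℕ} (hw : Pos w) (hA : ∀ a ∈ w, a ≤ A) (hb : Pos b) {l : ℤ × ℤ} (hl : l ≠ 0)
    (h : (A + 1) * max 1 l.2.natAbs < (K w).1) :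
    (K (w ++ b)).1 ≤ 2 * (A + 1) ^ 2 * max 1 l.2.natAbs * (lf l (w ++ b)).natAbs := by
  have hB1 : 1 ≤ max 1 l.2.natAbs := le_max_left _ _
  have hB2 : l.2.natAbs ≤ max 1 l.2.natAbs := le_max_right _ _
  have hwne : w ≠ [] := by
    rintro rfl
    simp only [K] at h
    nlinarith
  obtain ⟨c, v, e, hc, h1, h2⟩ := exists_prefix (B := l.2.natAbs) hw hA hwne (by nlinarith)
  have hcp : Pos c := Pos.left (v := v) (by rw [← e]; exact hw)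
  have hvp : Pos v := Pos.right (u := c) (by rw [← e]; exact hw)
  have hvb : Pos (v ++ b) := pos_append hvp hb
  have hc' := K'_pos hcp hc
  have hcK := K_le hcp
  have hdet := det_eq c
  have hlf := lf_append l c (v ++ b)
  rw [← List.append_assoc, ← e] at hlf
  have habs : |(l.1 * ((K c).1 : ℤ) + l.2 * ((K c).2 : ℤ)) * (K' c).1 - (l.1 * ((K' c).1 : ℤ) + l.2 * ((K' c).2 : ℤ)) * (K c).1|
      = l.2.natAbs := by
    have hrel : (l.1 * ((K c).1 : ℤ) + l.2 * ((K c).2 : ℤ)) * (K' c).1 -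
        (l.1 * ((K' c).1 : ℤ) + l.2 * ((K' c).2 : ℤ)) * (K c).1 = - (l.2 * (-1) ^ c.length) := by
      rw [← hdet]
      ring
    rw [hrel, abs_neg, abs_mul, abs_pow, abs_neg, abs_one, one_pow, mul_one, Int.abs_eq_natAbs]
  have hq' : (1 : ℤ) ≤ (K' c).1 := by exact_mod_cast hc'
  have hq : (l.2.natAbs : ℤ) ≤ (K c).1 := by exact_mod_cast h1
  have hq1 : (1 : ℤ) ≤ (K c).1 := by exact_mod_cast hcK.2
  have hne : ¬ ((l.1 * ((K c).1 : ℤ) + l.2 * ((K c).2 : ℤ)) = 0 ∧ (l.1 * ((K' c).1 : ℤ) + l.2 * ((K' c).2 : ℤ)) = 0) := by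
    rintro ⟨h3, h4⟩
    rw [h3, h4] at habs
    simp only [zero_mul, sub_zero, abs_zero] at habs
    have h5 : l.2 = 0 := by
      have : l.2.natAbs = 0 := by exact_mod_cast habs.symm
      exact Int.natAbs_eq_zero.1 this
    have h6 : l.1 = 0 := by
      rw [h5, zero_mul, add_zero] at h3
      rcases mul_eq_zero.1 h3 with h7 | h7
      · exact h7
      · omega
    exact hl (Prod.ext h6 h5)
  -- the suffix is not empty
  have hv : v ≠ [] := by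
    rintro rfl
    rw [List.append_nil] at e
    rw [← e] at h2
    omega
  have hpv : (K (v ++ b)).1 ≤ (A + 1) * (K (v ++ b)).2 ∧ 1 ≤ (K (v ++ b)).2 := by
    cases v with
    | nil => exact absurd rfl hv
    | cons a v =>
      have ha : a ≤ A := hA a (by rw [e]; simp)
      rw [List.cons_append] at hvb ⊢
      have h3 := q_cons_le (a := a) hvb.tail
      have h4 : (K (a :: (v ++ b))).2 = (K (v ++ b)).1 := rfl
      rw [h4]
      exact ⟨h3.trans (Nat.mul_le_mul_right _ (by omega)), (K_le hvb.tail).2⟩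
  have hvK := K_le hvb
  -- the size of the form
  have hlow : (K (v ++ b)).2 ≤ (lf l (w ++ b)).natAbs := by
    have hqv : ((K (v ++ b)).2 : ℤ) ≤ (K (v ++ b)).1 := by exact_mod_cast hvK.1
    have hpv1 : (1 : ℤ) ≤ (K (v ++ b)).2 := by exact_mod_cast hpv.2
    have h3 : ((K (v ++ b)).2 : ℤ) ≤ |lf l (w ++ b)| := by
      rw [hlf]
      exact int_low hq' hq1 hq habs hne hqv hpv1
    rw [Int.abs_eq_natAbs] at h3
    exact_mod_cast h3
  have h3 : (K (w ++ b)).1 ≤ 2 * ((K c).1 * (K (v ++ b)).1) := by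
    rw [e, List.append_assoc]
    apply q_le_mul
    exact pos_append hcp hvb
  calc (K (w ++ b)).1 ≤ 2 * ((K c).1 * (K (v ++ b)).1) := h3
    _ ≤ 2 * (((A + 1) * max 1 l.2.natAbs) * ((A + 1) * (K (v ++ b)).2)) := by
        apply Nat.mul_le_mul_left
        exact Nat.mul_le_mul h2 hpv.1
    _ ≤ 2 * (((A + 1) * max 1 l.2.natAbs) * ((A + 1) * (lf l (w ++ b)).natAbs)) := by gcongr
    _ = _ := by ring

/-- the words with a long prefix over `𝒜` which are not exceptional are good -/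
lemma good_of_not_Ex2 {𝒜 : Set ℕ} {A : ℕ} (hA : ∀ a ∈ 𝒜, 1 ≤ a ∧ a ≤ A) {ε κ η ρ : ℝ} (hε : ε ≤ 1) (hκ : 0 ≤ κ) (hη : 0 < η)
    (h : η < ε - 2 * κ) (hρ : 2 * ρ ≤ η) (q₀ : ℕ) : ∃ q₁ : ℕ, ∀ w b : List ℕ, (∀ a ∈ w, a ∈ 𝒜) → Pos b →
      ((K b).1 : ℝ) ≤ ((K (w ++ b)).1 : ℝ) ^ ρ → q₁ ≤ (K (w ++ b)).1 → w ++ b ∉ Ex2 𝒜 η κ ρ q₀ → Good ε κ (pt (w ++ b)) := by
  have hκ1 : κ < 1 / 2 := by linarith
  -- the threshold
  have hC0 : (0 : ℝ) < 2 * ((A : ℝ) + 1) ^ 2 := by positivity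
  have e1 : Tendsto (fun q : ℕ => (q : ℝ) ^ (ε - 2 * κ - η)) atTop atTop :=
    (tendsto_rpow_atTop (by linarith)).comp tendsto_natCast_atTop_atTop
  have e2 : Tendsto (fun q : ℕ => (q : ℝ) ^ (1 - ρ - κ)) atTop atTop :=
    (tendsto_rpow_atTop (by linarith)).comp tendsto_natCast_atTop_atTop
  obtain ⟨q₁, hq₁⟩ := eventually_atTop.1 ((e1.eventually_ge_atTop (2 * ((A : ℝ) + 1) ^ 2)).and
    (e2.eventually_gt_atTop (2 * ((A : ℝ) + 1))))
  refine ⟨max (max q₀ q₁) 1, fun w b hw𝒜 hb hbρ hw hnw => ?_⟩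
  have hwpos : Pos w := fun a ha => (hA a (hw𝒜 a ha)).1
  have hpos : Pos (w ++ b) := pos_append hwpos hb
  have hwA : ∀ a ∈ w, a ≤ A := fun a ha => (hA a (hw𝒜 a ha)).2
  set Q : ℕ := (K (w ++ b)).1 with hQ
  have hQ0 : q₀ ≤ Q := ((le_max_left _ _).trans (le_max_left _ _)).trans hw
  have hQ1 : q₁ ≤ Q := ((le_max_right _ _).trans (le_max_left _ _)).trans hw
  have hQ2 : 1 ≤ Q := (le_max_right _ _).trans hw
  obtain ⟨f1, f2⟩ := hq₁ Q hQ1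
  have hQpos : (0 : ℝ) < Q := by exact_mod_cast hQ2
  have hlogQ : 0 ≤ Real.log Q := Real.log_natCast_nonneg _
  have hh : hgt (pt (w ++ b)) = Real.log Q := hgt_pt hpos
  have hbig : 2 * ((A : ℝ) + 1) * (Q : ℝ) ^ κ < 2 * (K w).1 := by
    have h1 : (Q : ℝ) ≤ 2 * ((K w).1 * (K b).1) := by exact_mod_cast q_le_mul hpos
    have h2 : (Q : ℝ) ≤ 2 * (K w).1 * (Q : ℝ) ^ ρ := by
      calc (Q : ℝ) ≤ 2 * ((K w).1 * (K b).1) := h1
        _ ≤ 2 * ((K w).1 * (Q : ℝ) ^ ρ) := by gcongr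
        _ = _ := by ring
    have h3 : 2 * ((A : ℝ) + 1) * (Q : ℝ) ^ κ * (Q : ℝ) ^ ρ < 2 * (K w).1 * (Q : ℝ) ^ ρ := by
      refine lt_of_lt_of_le ?_ h2
      calc 2 * ((A : ℝ) + 1) * (Q : ℝ) ^ κ * (Q : ℝ) ^ ρ < (Q : ℝ) ^ (1 - ρ - κ) * (Q : ℝ) ^ κ * (Q : ℝ) ^ ρ := by gcongr
        _ = Q := by
            rw [← Real.rpow_add hQpos, ← Real.rpow_add hQpos]
            have : 1 - ρ - κ + κ + ρ = 1 := by ring
            rw [this, Real.rpow_one]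
    have h4 : (0 : ℝ) < (Q : ℝ) ^ ρ := by positivity
    exact lt_of_mul_lt_mul_right h3 h4.le
  -- a single point
  have hsingle : ∀ (α : ℤ × ℤ) (T : Finset ℕ), IsCoprime α.1 α.2 → hgt α ≤ κ * hgt (pt (w ++ b)) → (∀ p ∈ T, p.Prime) →
      ∑ p ∈ T, Real.log (p : ℝ) ≤ κ * hgt (pt (w ++ b)) →
      ((pt (w ++ b)).1 * α.2 - (pt (w ++ b)).2 * α.1 ≠ 0) ∧ (1 - ε) * hgt (pt (w ++ b)) ≤ N1 α T (pt (w ++ b)) := by
    intro α T hα hα2 hT hT2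
    rw [hh] at hα2 hT2 ⊢
    unfold N1
    rw [form_eq]
    obtain ⟨g1, g2, g3⟩ := le_rpow_of_hgt hQ2 hα2 hα
    have hl : IsCoprime (-α.1) α.2 := hα.neg_left
    have hl0 : ((-α.1, α.2) : ℤ × ℤ) ≠ 0 := by
      intro h0
      have h1 : -α.1 = 0 := congrArg Prod.fst h0
      have h2 : α.2 = 0 := congrArg Prod.snd h0
      rw [h1, h2] at hl
      exact not_isCoprime_zero_zero hl
    have hlow := lf_lower2 hwpos hwA hb hl0 (by
      have h1 : ((A : ℝ) + 1) * ((max 1 α.2.natAbs : ℕ) : ℝ) < (K w).1 := by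
        have h2 : ((A : ℝ) + 1) * ((max 1 α.2.natAbs : ℕ) : ℝ) ≤ ((A : ℝ) + 1) * (Q : ℝ) ^ κ := by gcongr
        linarith
      exact_mod_cast h1)
    set n : ℕ := (lf (-α.1, α.2) (w ++ b)).natAbs with hn
    have hn0 : n ≠ 0 := by
      intro h0
      rw [h0] at hlow
      simp only [mul_zero] at hlow
      omega
    have hne : lf (-α.1, α.2) (w ++ b) ≠ 0 := Int.natAbs_ne_zero.1 hn0
    refine ⟨hne, ?_⟩
    -- the quotient by the radical is small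
    have hrad : ((n / rd n : ℕ) : ℝ) ≤ (Q : ℝ) ^ η := by
      by_contra hcon
      push Not at hcon
      exact hnw ⟨hQ0, ⟨w, b, rfl, hw𝒜, hb, hbρ⟩, (-α.1, α.2), hl, g1, g2, hne, hcon⟩
    have hlog := log_rd hn0 T hT hrad
    rw [Real.log_rpow hQpos] at hlog
    -- the size of the form
    have hnpos : (0 : ℝ) < n := by exact_mod_cast Nat.pos_of_ne_zero hn0
    have hsize : Real.log Q ≤ (ε - 2 * κ - η) * Real.log Q + κ * Real.log Q + Real.log n := by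
      have h1 : (Q : ℝ) ≤ (Q : ℝ) ^ (ε - 2 * κ - η) * (Q : ℝ) ^ κ * n := by
        calc (Q : ℝ) ≤ 2 * ((A : ℝ) + 1) ^ 2 * ((max 1 α.2.natAbs : ℕ) : ℝ) * n := by exact_mod_cast hlow
          _ ≤ _ := by gcongr
      have h2 := Real.log_le_log hQpos h1
      rwa [Real.log_mul (by positivity) hnpos.ne', Real.log_mul (by positivity) (by positivity), Real.log_rpow hQpos,
        Real.log_rpow hQpos] at h2
    calc (1 - ε) * Real.log Q ≤ Real.log n - η * Real.log Q - κ * Real.log Q := by linarith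
      _ ≤ Real.log n - η * Real.log Q - ∑ p ∈ T, Real.log (p : ℝ) := by linarith
      _ ≤ _ := hlog
  intro q α T hα hT hT2
  refine ⟨fun i => (hsingle (α i) T (hα i).1 (hα i).2 hT hT2).1, ?_⟩
  calc (1 - ε) * q * hgt (pt (w ++ b)) = ∑ _i : Fin q, (1 - ε) * hgt (pt (w ++ b)) := by
        rw [Finset.sum_const, Finset.card_univ, Fintype.card_fin, nsmul_eq_mul]
        ring
    _ ≤ _ := Finset.sum_le_sum fun i _ => (hsingle (α i) T (hα i).1 (hα i).2 hT hT2).2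

/-- The covering by balls. -/
theorem dim_balls {S : Set (List ℕ)} {t : NNReal} {θ : ℝ} (hθ : 0 < θ)
    (hsum : ∑' y : S, qs (θ * t) y.1 < ⊤) :
    dimH {z : ℝ | ∀ N : ℕ, ∃ y ∈ S, N ≤ (K y).1 ∧ |z - cv y| ≤ ((K y).1 : ℝ) ^ (-θ)} ≤ t := by
  apply dimH_le_of_hausdorffMeasure_ne_top
  set B : Set ℝ := {z : ℝ | ∀ N : ℕ, ∃ y ∈ S, N ≤ (K y).1 ∧ |z - cv y| ≤ ((K y).1 : ℝ) ^ (-θ)} with hB
  set Cy : List ℕ → Set ℝ := fun y => Metric.closedBall (cv y) (((K y).1 : ℝ) ^ (-θ)) with hCy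
  have hdiam : ∀ y : List ℕ, Metric.ediam (Cy y) ≤ ENNReal.ofReal (2 * ((K y).1 : ℝ) ^ (-θ)) := by
    intro y
    apply Metric.ediam_le
    intro x hx x' hx'
    rw [hCy, Metric.mem_closedBall] at hx hx'
    rw [edist_dist]
    apply ENNReal.ofReal_le_ofReal
    have h1 := dist_triangle_right x x' (cv y)
    linarith
  set ι : ℕ → Type := fun N => {y : S // N + 1 ≤ (K y.1).1} with hι
  have hιc : ∀ N, Countable (ι N) := fun N => inferInstanceAs (Countable {y : S // N + 1 ≤ (K y.1).1})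
  have hr : Tendsto (fun N : ℕ => ENNReal.ofReal (2 * ((N : ℝ) + 1) ^ (-θ))) atTop (𝓝 0) := by
    have h1 : Tendsto (fun N : ℕ => 2 * ((N : ℝ) + 1) ^ (-θ)) atTop (𝓝 0) := by
      have h2 : Tendsto (fun N : ℕ => ((N : ℝ) + 1) ^ (-θ)) atTop (𝓝 0) := by
        apply (tendsto_rpow_neg_atTop hθ).comp
        exact tendsto_atTop_add_const_right _ _ tendsto_natCast_atTop_atTop
      have h3 := h2.const_mul 2
      rwa [mul_zero] at h3
    have := ENNReal.tendsto_ofReal h1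
    rwa [ENNReal.ofReal_zero] at this
  have key := Measure.hausdorffMeasure_le_liminf_tsum (X := ℝ) (ι := ι) (t : ℝ) B (l := atTop)
    (fun N : ℕ => ENNReal.ofReal (2 * ((N : ℝ) + 1) ^ (-θ))) hr (fun N w => Cy w.1.1)
    (Eventually.of_forall fun N w => by
      refine (hdiam _).trans (ENNReal.ofReal_le_ofReal ?_)
      have h1 : ((N : ℝ) + 1) ≤ (K w.1.1).1 := by exact_mod_cast w.2
      have h2 := Real.rpow_le_rpow_of_nonpos (by positivity) h1 (by linarith : -θ ≤ 0)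
      linarith)
    (Eventually.of_forall fun N => by
      intro z hz
      obtain ⟨y, hy, hN, hcl⟩ := hz (N + 1)
      rw [Set.mem_iUnion]
      refine ⟨⟨⟨y, hy⟩, hN⟩, ?_⟩
      rw [hCy, Metric.mem_closedBall, Real.dist_eq]
      exact hcl)
  have hsum' : ∀ N, ∑' w : ι N, Metric.ediam (Cy w.1.1) ^ (t : ℝ) ≤ ENNReal.ofReal ((2 : ℝ) ^ (t : ℝ)) * ∑' y : S, qs (θ * t) y.1 := by
    intro N
    rw [← ENNReal.tsum_mul_left]
    calc ∑' w : ι N, Metric.ediam (Cy w.1.1) ^ (t : ℝ) ≤ ∑' w : ι N, ENNReal.ofReal ((2 : ℝ) ^ (t : ℝ)) * qs (θ * t) w.1.1 := by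
          refine ENNReal.tsum_le_tsum fun w => ?_
          refine (ENNReal.rpow_le_rpow (hdiam w.1.1) t.coe_nonneg).trans (le_of_eq ?_)
          rw [ENNReal.ofReal_rpow_of_nonneg (by positivity) t.coe_nonneg]
          unfold qs
          rw [Real.mul_rpow (by norm_num) (by positivity), ENNReal.ofReal_mul (by positivity), ← Real.rpow_mul (Nat.cast_nonneg _)]
          congr 3
          ring
      _ ≤ ∑' y : S, ENNReal.ofReal ((2 : ℝ) ^ (t : ℝ)) * qs (θ * t) y.1 :=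
          ENNReal.tsum_comp_le_tsum_of_injective (Subtype.val_injective (p := fun w : S => N + 1 ≤ (K w.1).1))
            (fun y : S => ENNReal.ofReal ((2 : ℝ) ^ (t : ℝ)) * qs (θ * t) y.1)
  refine (lt_of_le_of_lt key ?_).ne
  have hlt : ENNReal.ofReal ((2 : ℝ) ^ (t : ℝ)) * ∑' y : S, qs (θ * t) y.1 < ⊤ :=
    ENNReal.mul_lt_top ENNReal.ofReal_lt_top hsum
  refine lt_of_le_of_lt ?_ hlt
  calc liminf (fun N => ∑' w : ι N, Metric.ediam (Cy w.1.1) ^ (t : ℝ)) atTop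
      ≤ liminf (fun _ : ℕ => ENNReal.ofReal ((2 : ℝ) ^ (t : ℝ)) * ∑' y : S, qs (θ * t) y.1) atTop :=
        liminf_le_liminf (Eventually.of_forall hsum')
    _ = _ := liminf_const _

theorem exc_sum2' {𝒜 : Set ℕ} {A : ℕ} (hA : ∀ a ∈ 𝒜, 1 ≤ a ∧ a ≤ A) {τ η κ ρ : ℝ} (hδ : 1 / 2 < δ 𝒜) (hη : 0 < η)
    (hκ : 0 ≤ κ) (hρ : 2 * ρ ≤ η) (hτ : τ ≤ 2 * δ 𝒜) (h : 2 * δ 𝒜 - τ + 2 * κ < η * (2 * δ 𝒜 - 1)) {q₀ : ℕ}
    (hq₀' : ∀ q : ℕ, q₀ ≤ q → 2 * (q : ℝ) ^ κ ≤ q) :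
    ∑' w : Ex2 𝒜 η κ ρ q₀, qs τ w.1 < ⊤ := by
  obtain ⟨hd, hd1, hd0⟩ := dimH_EA 𝒜
  set s : ℝ := η * (2 * δ 𝒜 - 1) - (2 * δ 𝒜 - τ + 2 * κ) with hs
  have hs0 : 0 < s := by rw [hs]; linarith
  refine exc_sum2 hA (σ := 2 * δ 𝒜 + s / 2) (σ' := min (2 * δ 𝒜 + s / 2) 2) ?_ (min_le_right _ _) (min_le_left _ _)
    (Z_lt_top' hA (by linarith)) hη hκ hρ (by linarith) ?_ hq₀'
  · apply lt_min <;> linarith
  · have h1 : 2 * δ 𝒜 ≤ min (2 * δ 𝒜 + s / 2) 2 := le_min (by linarith) (by linarith)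
    have h2 : η * (2 * δ 𝒜 - 1) ≤ η * (min (2 * δ 𝒜 + s / 2) 2 - 1) := by gcongr
    refine lt_of_lt_of_le ?_ h2
    have : η * (2 * δ 𝒜 - 1) = s + (2 * δ 𝒜 - τ + 2 * κ) := by rw [hs]; ring
    rw [this]
    linarith

/-- The rational points `x = p / q` (coprime coordinates `(p, q)`, `q > 0`) with `|z - x| ≤ q ^ (ρ - 2)`. -/
def Near (ρ z : ℝ) : Set (ℤ × ℤ) :=
  {x | IsCoprime x.1 x.2 ∧ 0 < x.2 ∧ |z - x.1 / x.2| ≤ (x.2 : ℝ) ^ (ρ - 2)}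

/-- The elements of `E_𝒜` near which infinitely many rational points are not good. -/
def Bad (𝒜 : Set ℕ) (ε κ ρ : ℝ) : Set ℝ := {z | z ∈ EA 𝒜 ∧ {x | x ∈ Near ρ z ∧ ¬ Good ε κ x}.Infinite}

/-- only finitely many rational points near `z` have a small denominator -/
lemma near_finite {ρ z : ℝ} (hρ : ρ < 2) (N : ℕ) : {x | x ∈ Near ρ z ∧ x.2 < N}.Finite := by
  have hfin : (Set.Icc (-(⌈|z|⌉ + 1) * (N : ℤ)) ((⌈|z|⌉ + 1) * (N : ℤ)) ×ˢ Set.Icc (0 : ℤ) N).Finite :=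
    (Set.finite_Icc _ _).prod (Set.finite_Icc _ _)
  refine hfin.subset ?_
  rintro ⟨p, q⟩ ⟨⟨-, hq, hcl⟩, hqN⟩
  simp only at hq hcl hqN
  have hq' : (0 : ℝ) < q := by exact_mod_cast hq
  have hq1 : (1 : ℝ) ≤ q := by exact_mod_cast hq
  have h1 : |z - p / q| ≤ 1 := hcl.trans (Real.rpow_le_one_of_one_le_of_nonpos hq1 (by linarith))
  have h2 : |(p : ℝ) / q| ≤ |z| + 1 := by
    have h3 : |(p : ℝ) / q| ≤ |z| + |z - p / q| := by
      have h4 : (p : ℝ) / q = z - (z - p / q) := by ring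
      calc |(p : ℝ) / q| = |z - (z - p / q)| := by rw [← h4]
        _ ≤ _ := abs_sub _ _
    linarith
  rw [abs_div, abs_of_pos hq', div_le_iff₀ hq'] at h2
  have h3 : |(p : ℝ)| ≤ ((⌈|z|⌉ : ℝ) + 1) * N := by
    refine h2.trans ?_
    have h5 : (q : ℝ) ≤ N := by exact_mod_cast hqN.le
    have h6 : |z| ≤ ⌈|z|⌉ := Int.le_ceil _
    have h7 : 0 ≤ |z| := abs_nonneg _
    gcongr
  have h4 : |p| ≤ (⌈|z|⌉ + 1) * (N : ℤ) := by exact_mod_cast h3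
  rw [abs_le] at h4
  refine Set.mem_prod.2 ⟨Set.mem_Icc.2 ⟨by linarith [h4.1], h4.2⟩, Set.mem_Icc.2 ⟨hq.le, hqN.le⟩⟩

lemma Bad_subset {𝒜 : Set ℕ} {A : ℕ} (hA : ∀ a ∈ 𝒜, 1 ≤ a ∧ a ≤ A) {ε κ η ρ : ℝ} (hε : ε ≤ 1) (hκ : 0 ≤ κ) (hη : 0 < η)
    (h : η < ε - 2 * κ) (hρ0 : 0 ≤ ρ) (hρ : ρ < η) (q₀ : ℕ) :
    Bad 𝒜 ε κ ρ ⊆ {z : ℝ | ∀ N : ℕ, ∃ y ∈ Ex2 𝒜 η κ (η / 2) q₀, N ≤ (K y).1 ∧ |z - cv y| ≤ ((K y).1 : ℝ) ^ (-(2 - ρ))} := by
  rintro z ⟨⟨a, ha, rfl⟩, hinf⟩ N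
  have hpos : PosS a := fun i => (hA _ (ha i)).1
  have haA : ∀ i, a i ≤ A := fun i => (hA _ (ha i)).2
  obtain ⟨q₁, hq₁⟩ := good_of_not_Ex2 hA hε hκ hη h (by linarith : 2 * (η / 2) ≤ η) q₀
  -- the thresholds
  have e1 : Tendsto (fun q : ℕ => (q : ℝ) ^ (η - ρ)) atTop atTop :=
    (tendsto_rpow_atTop (by linarith)).comp tendsto_natCast_atTop_atTop
  have e2 : Tendsto (fun q : ℕ => (q : ℝ) ^ (-(2 - ρ))) atTop (𝓝 0) :=
    (tendsto_rpow_neg_atTop (by linarith)).comp tendsto_natCast_atTop_atTop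
  obtain ⟨q₂, hq₂⟩ := eventually_atTop.1 ((e1.eventually_ge_atTop (1 / cA A)).and
    (e2.eventually_lt_const (by positivity : 0 < 1 / ((A : ℝ) + 2))))
  set M : ℕ := max (max N q₁) q₂ with hM
  obtain ⟨⟨p, q⟩, ⟨hx, hbad⟩, hx2⟩ : ∃ x, (x ∈ Near ρ (val a) ∧ ¬ Good ε κ x) ∧ ¬ x.2 < M := by
    by_contra hcon
    push Not at hcon
    apply hinf
    refine (near_finite (ρ := ρ) (z := val a) (by linarith) M).subset ?_
    rintro x ⟨hx, hg⟩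
    exact ⟨hx, hcon x ⟨hx, hg⟩⟩
  obtain ⟨hcop, hq0, hcl⟩ := hx
  simp only at hcop hq0 hcl hx2
  -- natural numbers
  lift q to ℕ using hq0.le
  have hqM : M ≤ q := by
    have : ¬ ((q : ℤ) < (M : ℤ)) := hx2
    omega
  have hq0' : 0 < q := by exact_mod_cast hq0
  have hqN : N ≤ q := ((le_max_left _ _).trans (le_max_left _ _)).trans hqM
  have hqq₁ : q₁ ≤ q := ((le_max_right _ _).trans (le_max_left _ _)).trans hqM
  have hqq₂ : q₂ ≤ q := (le_max_right _ _).trans hqM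
  obtain ⟨f1, f2⟩ := hq₂ q hqq₂
  have hcl' : |val a - p / ((q : ℤ) : ℝ)| ≤ (q : ℝ) ^ (-(2 - ρ)) := by
    have e : -(2 - ρ) = ρ - 2 := by ring
    rw [e]
    exact_mod_cast hcl
  rw [Int.cast_natCast] at hcl'
  have hqpos : (0 : ℝ) < q := by exact_mod_cast hq0'
  -- the point is in `[0, 1]`
  obtain ⟨v1, v2⟩ := val_bounds hpos haA
  have hA0 : (0 : ℝ) ≤ A := Nat.cast_nonneg _
  have hclt : |val a - p / (q : ℝ)| < 1 / ((A : ℝ) + 2) := lt_of_le_of_lt hcl' f2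
  rw [abs_lt] at hclt
  have hp0 : 0 < (p : ℝ) / q := by
    have : 1 / ((A : ℝ) + 2) ≤ 1 / (A + 1) := one_div_le_one_div_of_le (by positivity) (by linarith)
    linarith [hclt.2]
  have hp1 : (p : ℝ) / q < 1 := by
    have : ((A : ℝ) + 1) / (A + 2) = 1 - 1 / (A + 2) := by field_simp; ring
    linarith [hclt.1]
  have hp0' : 0 < p := by
    have := (div_pos_iff_of_pos_right hqpos).1 hp0
    exact_mod_cast this
  lift p to ℕ using hp0'.le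
  have hpq : p ≤ q := by
    rw [div_lt_one hqpos] at hp1
    exact_mod_cast hp1.le
  obtain ⟨y, hy, hyK⟩ := exists_word q p hq0' hpq (by
    have := Int.isCoprime_iff_gcd_eq_one.1 hcop
    rw [Int.gcd_natCast_natCast] at this
    rw [Nat.coprime_iff_gcd_eq_one, Nat.gcd_comm]
    exact this)
  have hy1 : (K y).1 = q := by rw [hyK]
  have hy2 : (K y).2 = p := by rw [hyK]
  have hcv : cv y = p / q := by unfold cv; rw [hy1, hy2]
  have hclose : |val a - cv y| ≤ ((K y).1 : ℝ) ^ (-(2 - ρ)) := by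
    rw [hcv, hy1]
    rw [Int.cast_natCast] at hcl'
    exact hcl'
  obtain ⟨m, b, e, hb, hbq⟩ := close_word hpos haA hy hclose hρ0
  refine ⟨y, ?_, by rw [hy1]; exact hqN, hclose⟩
  -- the size of the rest
  have hbη : ((K b).1 : ℝ) ≤ ((K y).1 : ℝ) ^ (η / 2) := by
    rw [hy1] at hbq ⊢
    have hcA := cA_pos A
    have h1 : ((K b).1 : ℝ) ^ 2 ≤ (q : ℝ) ^ η := by
      calc ((K b).1 : ℝ) ^ 2 = 1 / cA A * (cA A * ((K b).1 : ℝ) ^ 2) := by field_simp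
        _ ≤ (q : ℝ) ^ (η - ρ) * (q : ℝ) ^ ρ := by gcongr
        _ = (q : ℝ) ^ η := by rw [← Real.rpow_add hqpos, sub_add_cancel]
    have h2 : ((K b).1 : ℝ) ^ 2 ≤ ((q : ℝ) ^ (η / 2)) ^ 2 := by
      refine h1.trans (le_of_eq ?_)
      rw [← Real.rpow_natCast, ← Real.rpow_mul hqpos.le]
      congr 1
      push_cast
      ring
    exact (pow_le_pow_iff_left₀ (Nat.cast_nonneg _) (by positivity) (by norm_num)).1 h2
  by_contra hnot
  apply hbad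
  have hpt : ((p : ℤ), (q : ℤ)) = pt y := by
    unfold pt
    rw [hy1, hy2]
  rw [hpt, e]
  apply hq₁ (pre a m) b _ hb
  · rw [← e]
    exact hbη
  · rw [← e, hy1]
    exact hqq₁
  · rw [← e]
    exact hnot
  · intro x hx
    simp only [pre, List.mem_map] at hx
    obtain ⟨i, _, rfl⟩ := hx
    exact ha i

/-- **The main theorem.** -/
theorem dim_Bad {𝒜 : Set ℕ} {A : ℕ} (hA : ∀ a ∈ 𝒜, 1 ≤ a ∧ a ≤ A) (hδ : 1 / 2 < δ 𝒜) {ε κ ρ : ℝ} (hε0 : 0 < ε) (hε : ε ≤ 1)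
    (hκ : 0 ≤ κ) (hρ0 : 0 ≤ ρ) (hρ : ρ < 2) :
    dimH (Bad 𝒜 ε κ ρ) ≤ ENNReal.ofReal ((2 * δ 𝒜 * (1 + 2 * κ) - ε * (2 * δ 𝒜 - 1)) / (2 - ρ)) := by
  obtain ⟨hd, hd1, hd0⟩ := dimH_EA 𝒜
  set β : ℝ := (2 * δ 𝒜 * (1 + 2 * κ) - ε * (2 * δ 𝒜 - 1)) / (2 - ρ) with hβ
  have hnum : 0 < 2 * δ 𝒜 * (1 + 2 * κ) - ε * (2 * δ 𝒜 - 1) := by nlinarith [mul_nonneg hd0 hκ]
  have hβ0 : 0 < β := div_pos hnum (by linarith)
  apply le_of_forall_gt
  intro c hc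
  by_cases hcd : ENNReal.ofReal (δ 𝒜) < c
  · refine lt_of_le_of_lt ?_ hcd
    rw [← hd]
    exact dimH_mono fun z hz => hz.1
  push Not at hcd
  have hctop : c ≠ ⊤ := (lt_of_le_of_lt hcd ENNReal.ofReal_lt_top).ne
  -- an exponent between
  obtain ⟨t, ht1, ht2⟩ := ENNReal.lt_iff_exists_nnreal_btwn.1 hc
  have htβ : β < t := by
    rw [← ENNReal.ofReal_coe_nnreal] at ht1
    exact (ENNReal.ofReal_lt_ofReal_iff_of_nonneg hβ0.le).1 ht1
  have htδ : (t : ℝ) < δ 𝒜 := by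
    have h1 := lt_of_lt_of_le ht2 hcd
    rw [← ENNReal.ofReal_coe_nnreal] at h1
    exact (ENNReal.ofReal_lt_ofReal_iff_of_nonneg t.coe_nonneg).1 h1
  refine lt_of_le_of_lt ?_ ht2
  have h2ρ : 0 < 2 - ρ := by linarith
  have hkey : 2 * δ 𝒜 * (1 + 2 * κ) - ε * (2 * δ 𝒜 - 1) < (2 - ρ) * t := by
    rw [hβ, div_lt_iff₀ h2ρ] at htβ
    linarith
  have h3 : (2 - ρ) * t < (2 - ρ) * δ 𝒜 := by gcongr
  have hρη : ρ < ε - 2 * κ := by
    by_contra hcon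
    push Not at hcon
    have h4 : (2 - ρ) * δ 𝒜 ≤ (2 - ε + 2 * κ) * δ 𝒜 := by gcongr; linarith
    nlinarith [mul_nonneg hκ hd0, mul_nonneg hε0.le (sub_nonneg.2 hd1)]
  have h5 : (2 * δ 𝒜 - (2 - ρ) * t + 2 * κ) / (2 * δ 𝒜 - 1) < ε - 2 * κ := by
    rw [div_lt_iff₀ (by linarith)]
    nlinarith
  obtain ⟨η, hη1, hη2⟩ := exists_between (max_lt hρη h5)
  have hηρ : ρ < η := lt_of_le_of_lt (le_max_left _ _) hη1
  have hη0 : 0 < η := by linarith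
  have hη3 : 2 * δ 𝒜 - (2 - ρ) * t + 2 * κ < η * (2 * δ 𝒜 - 1) := by
    have := lt_of_le_of_lt (le_max_right _ _) hη1
    rwa [div_lt_iff₀ (by linarith)] at this
  obtain ⟨q₀, hq₀⟩ := exists_q₀ (κ := κ) (by linarith)
  have hsum := exc_sum2' hA (τ := (2 - ρ) * t) (ρ := η / 2) hδ hη0 hκ (by linarith) (by nlinarith) hη3 hq₀
  exact (dimH_mono (Bad_subset hA hε hκ hη0 hη2 hρ0 hηρ q₀)).trans (dim_balls h2ρ hsum)

end Pool.Agent.W5h9.GC
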