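import Pool.Agent.W5h9.GC.Crit

/-!
# Values of split polynomials at rational points
-/

set_option autoImplicit false

namespace Pool.Agent.W5h9.GC

open Polynomial

/-- the coordinates of a rational number -/
def pr (r : ℚ) : ℤ × ℤ := (r.num, r.den)

/-- the linear form which vanishes at `α` -/
def lin (α x : ℤ × ℤ) : ℤ := x.1 * α.2 - x.2 * α.1

lemma root_den {P : ℤ[X]} {r : ℚ} (hr : aeval r P = 0) : (r.den : ℤ) ∣ P.leadingCoeff := by
  have h := den_dvd_of_is_root hr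
  rw [← Int.dvd_natAbs] at h ⊢
  rw [← Rat.isFractionRingDen]
  rwa [Int.natAbs_dvd]

lemma root_num {P : ℤ[X]} {r : ℚ} (hr0 : r ≠ 0) (hr : aeval r P = 0) : r.num ∣ P.trailingCoeff := by
  have h1 : aeval r⁻¹ P.reverse = 0 := by
    have : Invertible r := invertibleOfNonzero hr0
    have h2 := (eval₂_reverse_eq_zero_iff (algebraMap ℤ ℚ) r P).2 hr
    rwa [invOf_eq_inv] at h2
  have h3 := root_den h1
  rw [reverse_leadingCoeff, Rat.den_inv_of_ne_zero hr0] at h3
  rwa [Int.natAbs_dvd] at h3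

/-- the homogeneous value -/
def Fv (D : ℕ) (P : ℤ[X]) (x : ℤ × ℤ) : ℤ := ∑ k ∈ Finset.range (D + 1), P.coeff k * x.1 ^ k * x.2 ^ (D - k)

lemma Fv_cast {D : ℕ} {P : ℤ[X]} (hD : P.natDegree ≤ D) {x : ℤ × ℤ} (hx : x.2 ≠ 0) :
    (Fv D P x : ℚ) = (x.2 : ℚ) ^ D * aeval ((x.1 : ℚ) / x.2) P := by
  have hx' : (x.2 : ℚ) ≠ 0 := by exact_mod_cast hx
  rw [aeval_eq_sum_range' (n := D + 1) (by omega), Finset.mul_sum]
  unfold Fv
  push_cast
  apply Finset.sum_congr rfl
  intro k hk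
  have hk' : k ≤ D := by
    have := Finset.mem_range.1 hk
    omega
  rw [zsmul_eq_mul, div_pow]
  have : (x.2 : ℚ) ^ D = (x.2 : ℚ) ^ (D - k) * (x.2 : ℚ) ^ k := by rw [← pow_add]; congr 1; omega
  rw [this]
  field_simp

lemma Fv_le {D : ℕ} {P : ℤ[X]} {H : ℝ} (hP : ∀ k, |(P.coeff k : ℝ)| ≤ H) (x : ℤ × ℤ) :
    |(Fv D P x : ℝ)| ≤ (D + 1) * H * ((max x.1.natAbs x.2.natAbs : ℕ) : ℝ) ^ D := by
  have hH : 0 ≤ H := (abs_nonneg _).trans (hP 0)
  set M : ℝ := ((max x.1.natAbs x.2.natAbs : ℕ) : ℝ) with hM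
  have h1 : |(x.1 : ℝ)| ≤ M := by
    rw [hM]
    have : |(x.1 : ℝ)| = (x.1.natAbs : ℝ) := by rw [Nat.cast_natAbs, Int.cast_abs]
    rw [this]
    exact_mod_cast le_max_left _ _
  have h2 : |(x.2 : ℝ)| ≤ M := by
    rw [hM]
    have : |(x.2 : ℝ)| = (x.2.natAbs : ℝ) := by rw [Nat.cast_natAbs, Int.cast_abs]
    rw [this]
    exact_mod_cast le_max_right _ _
  have hM0 : 0 ≤ M := (abs_nonneg _).trans h1
  unfold Fv
  push_cast
  refine (Finset.abs_sum_le_sum_abs _ _).trans ?_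
  have h3 : ∀ k ∈ Finset.range (D + 1), |(P.coeff k : ℝ) * (x.1 : ℝ) ^ k * (x.2 : ℝ) ^ (D - k)| ≤ H * M ^ D := by
    intro k hk
    have hk' : k ≤ D := by
      have := Finset.mem_range.1 hk
      omega
    rw [abs_mul, abs_mul, abs_pow, abs_pow]
    calc |(P.coeff k : ℝ)| * |(x.1 : ℝ)| ^ k * |(x.2 : ℝ)| ^ (D - k) ≤ H * M ^ k * M ^ (D - k) := by
          gcongr
          exact hP k
      _ = H * M ^ D := by rw [mul_assoc, ← pow_add]; congr 2; omega
  refine (Finset.sum_le_sum h3).trans (le_of_eq ?_)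
  rw [Finset.sum_const, Finset.card_range, nsmul_eq_mul]
  push_cast
  ring

lemma cast_mprod (f : ℚ → ℤ) (S : Multiset ℚ) : (((S.map f).prod : ℤ) : ℚ) = (S.map fun r => (f r : ℚ)).prod := by
  induction S using Multiset.induction_on with
  | empty => simp
  | cons r S ih => rw [Multiset.map_cons, Multiset.prod_cons, Multiset.map_cons, Multiset.prod_cons, ← ih, Int.cast_mul]

/-- the product formula for the values -/
lemma Fv_prod {D : ℕ} {P : ℤ[X]} (hD : P.natDegree ≤ D) (hs : (P.map (Int.castRingHom ℚ)).Splits) {x : ℤ × ℤ} (hx : x.2 ≠ 0) :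
    (((P.map (Int.castRingHom ℚ)).roots.map fun r : ℚ => (r.den : ℤ)).prod) * Fv D P x =
      P.leadingCoeff * (((P.map (Int.castRingHom ℚ)).roots.map fun r : ℚ => lin (pr r) x).prod) *
        x.2 ^ (D - P.natDegree) := by
  have hx' : (x.2 : ℚ) ≠ 0 := by exact_mod_cast hx
  have hinj : Function.Injective (Int.castRingHom ℚ) := Int.cast_injective
  set R := (P.map (Int.castRingHom ℚ)).roots with hR
  have hcard : Multiset.card R = P.natDegree := by
    rw [hR, ← hs.natDegree_eq_card_roots, natDegree_map_eq_of_injective hinj]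
  have h1 : aeval ((x.1 : ℚ) / x.2) P = P.leadingCoeff * (R.map fun r => (x.1 : ℚ) / x.2 - r).prod := by
    have h2 := hs.eval_eq_prod_roots ((x.1 : ℚ) / x.2)
    rw [leadingCoeff_map_of_injective hinj, eval_map] at h2
    exact h2
  have h3 : ∀ S : Multiset ℚ, (S.map fun r : ℚ => (r.den : ℚ)).prod * (x.2 : ℚ) ^ (Multiset.card S) *
      (S.map fun r => (x.1 : ℚ) / x.2 - r).prod = (S.map fun r : ℚ => (lin (pr r) x : ℚ)).prod := by
    intro S
    induction S using Multiset.induction_on with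
    | empty => simp
    | cons r S ih =>
      rw [Multiset.map_cons, Multiset.prod_cons, Multiset.map_cons, Multiset.prod_cons, Multiset.map_cons,
        Multiset.prod_cons, Multiset.card_cons, ← ih]
      have h4 : (lin (pr r) x : ℚ) = (r.den : ℚ) * x.2 * ((x.1 : ℚ) / x.2 - r) := by
        unfold lin pr
        push_cast
        have h5 : (r.num : ℚ) = r * r.den := (Rat.mul_den_eq_num r).symm
        rw [h5]
        field_simp
      rw [h4]
      ring
  have h4 : (((R.map fun r : ℚ => (r.den : ℤ)).prod * Fv D P x : ℤ) : ℚ) =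
      ((P.leadingCoeff * (R.map fun r : ℚ => lin (pr r) x).prod * x.2 ^ (D - P.natDegree) : ℤ) : ℚ) := by
    have e3 := h3 R
    rw [hcard] at e3
    have e4 : (x.2 : ℚ) ^ D = (x.2 : ℚ) ^ P.natDegree * (x.2 : ℚ) ^ (D - P.natDegree) := by
      rw [← pow_add]
      congr 1
      omega
    rw [Int.cast_mul, Int.cast_mul, Int.cast_mul, Int.cast_pow, cast_mprod, cast_mprod, Fv_cast hD hx, h1, e4, ← e3]
    simp only [Int.cast_natCast]
    ring
  exact_mod_cast h4

end Pool.Agent.W5h9.GC
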