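import Pool.Agent.W5h9.GC.NC1

/-!
# The zeros of split polynomials and the prime factors of their values
-/

set_option autoImplicit false

namespace Pool.Agent.W5h9.GC

open Polynomial

open Classical in
/-- the zeros of a form of degree `D` on the projective line -/
noncomputable def pts1 (D : ℕ) (P : ℤ[X]) : Finset (ℤ × ℤ) :=
  (P.map (Int.castRingHom ℚ)).roots.toFinset.image pr ∪ if P.natDegree < D then {(1, 0)} else ∅

lemma mem_pts1 {D : ℕ} {P : ℤ[X]} {α : ℤ × ℤ} : α ∈ pts1 D P ↔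
    (∃ r ∈ (P.map (Int.castRingHom ℚ)).roots, pr r = α) ∨ (P.natDegree < D ∧ α = (1, 0)) := by
  classical
  unfold pts1
  rw [Finset.mem_union, Finset.mem_image]
  constructor
  · rintro (⟨r, hr, h⟩ | h)
    · exact Or.inl ⟨r, Multiset.mem_toFinset.1 hr, h⟩
    · right
      split_ifs at h with h1
      · exact ⟨h1, Finset.mem_singleton.1 h⟩
      · simp at h
  · rintro (⟨r, hr, h⟩ | ⟨h1, h2⟩)
    · exact Or.inl ⟨r, Multiset.mem_toFinset.2 hr, h⟩
    · right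
      rw [if_pos h1]
      exact Finset.mem_singleton.2 h2

lemma root_iff {P : ℤ[X]} (hP : P ≠ 0) {r : ℚ} : r ∈ (P.map (Int.castRingHom ℚ)).roots ↔ aeval r P = 0 := by
  rw [mem_roots', IsRoot.def, eval_map]
  constructor
  · exact fun h => h.2
  · intro h
    refine ⟨?_, h⟩
    intro h0
    exact hP ((Polynomial.map_eq_zero_iff Int.cast_injective).1 h0)

lemma pr_coprime (r : ℚ) : IsCoprime (pr r).1 (pr r).2 := by
  unfold pr
  simp only
  rw [Int.isCoprime_iff_gcd_eq_one, Int.gcd_eq_natAbs, Int.natAbs_natCast]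
  exact r.reduced

lemma dvd_Fv_iff {D : ℕ} {P : ℤ[X]} (hP0 : P ≠ 0) (hD : P.natDegree ≤ D)
    (hs : (P.map (Int.castRingHom ℚ)).Splits) {x : ℤ × ℤ} (hx : x.2 ≠ 0) {p : ℤ} (hp : Prime p)
    (hlc : ¬ p ∣ P.leadingCoeff) : p ∣ Fv D P x ↔ ∃ α ∈ pts1 D P, p ∣ lin α x := by
  have hprod := Fv_prod hD hs hx
  have hden : ¬ p ∣ ((P.map (Int.castRingHom ℚ)).roots.map fun r : ℚ => (r.den : ℤ)).prod := by
    intro h
    obtain ⟨r, hr, h1⟩ := hp.exists_mem_multiset_map_dvd h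
    exact hlc (h1.trans (root_den ((root_iff hP0).1 hr)))
  constructor
  · intro h
    have h1 : p ∣ P.leadingCoeff * (((P.map (Int.castRingHom ℚ)).roots.map fun r : ℚ => lin (pr r) x).prod) *
        x.2 ^ (D - P.natDegree) := by
      rw [← hprod]
      exact Dvd.dvd.mul_left h _
    rcases hp.dvd_or_dvd h1 with h2 | h2
    · rcases hp.dvd_or_dvd h2 with h3 | h3
      · exact absurd h3 hlc
      · obtain ⟨r, hr, h4⟩ := hp.exists_mem_multiset_map_dvd h3
        exact ⟨pr r, mem_pts1.2 (Or.inl ⟨r, hr, rfl⟩), h4⟩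
    · have h3 : P.natDegree < D := by
        by_contra h4
        have h5 : D - P.natDegree = 0 := by omega
        rw [h5, pow_zero] at h2
        exact hp.not_isUnit (isUnit_of_dvd_one h2)
      refine ⟨(1, 0), mem_pts1.2 (Or.inr ⟨h3, rfl⟩), ?_⟩
      unfold lin
      simp only [mul_zero, mul_one, zero_sub, dvd_neg]
      exact hp.dvd_of_dvd_pow h2
  · rintro ⟨α, hα, h⟩
    have h1 : p ∣ P.leadingCoeff * (((P.map (Int.castRingHom ℚ)).roots.map fun r : ℚ => lin (pr r) x).prod) *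
        x.2 ^ (D - P.natDegree) := by
      rcases mem_pts1.1 hα with ⟨r, hr, rfl⟩ | ⟨h2, rfl⟩
      · have h3 : lin (pr r) x ∣ ((P.map (Int.castRingHom ℚ)).roots.map fun r : ℚ => lin (pr r) x).prod :=
          Multiset.dvd_prod (Multiset.mem_map_of_mem _ hr)
        exact Dvd.dvd.mul_right (Dvd.dvd.mul_left (h.trans h3) _) _
      · unfold lin at h
        simp only [mul_zero, mul_one, zero_sub, dvd_neg] at h
        exact Dvd.dvd.mul_left (h.trans (dvd_pow_self _ (by omega))) _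
    rw [← hprod] at h1
    exact (hp.dvd_or_dvd h1).resolve_left hden

lemma pts1_coprime {D : ℕ} {P : ℤ[X]} {α : ℤ × ℤ} (hα : α ∈ pts1 D P) : IsCoprime α.1 α.2 := by
  rcases mem_pts1.1 hα with ⟨r, hr, rfl⟩ | ⟨-, rfl⟩
  · exact pr_coprime r
  · exact isCoprime_one_left

/-- the heights of the zeros -/
lemma pts1_le {D : ℕ} {P : ℤ[X]} (hP0 : P ≠ 0) {H : ℝ} (hH : 1 ≤ H) (hP : ∀ k, |(P.coeff k : ℝ)| ≤ H) {α : ℤ × ℤ}
    (hα : α ∈ pts1 D P) : (α.1.natAbs : ℝ) ≤ H ∧ (α.2.natAbs : ℝ) ≤ H := by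
  have hle : ∀ a b : ℤ, b ≠ 0 → a ∣ b → |(b : ℝ)| ≤ H → (a.natAbs : ℝ) ≤ H := by
    intro a b hb hab hbH
    have h1 : a.natAbs ≤ b.natAbs := Nat.le_of_dvd (Int.natAbs_pos.2 hb) (Int.natAbs_dvd_natAbs.2 hab)
    have h2 : (a.natAbs : ℝ) ≤ (b.natAbs : ℝ) := by exact_mod_cast h1
    have h3 : (b.natAbs : ℝ) = |(b : ℝ)| := by rw [Nat.cast_natAbs, Int.cast_abs]
    rw [h3] at h2
    exact h2.trans hbH
  rcases mem_pts1.1 hα with ⟨r, hr, rfl⟩ | ⟨-, rfl⟩
  · have h0 := (root_iff hP0).1 hr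
    have h1 : ((pr r).2.natAbs : ℝ) ≤ H := by
      refine hle _ _ (leadingCoeff_ne_zero.2 hP0) (root_den h0) (hP _)
    refine ⟨?_, h1⟩
    by_cases hr0 : r = 0
    · subst hr0
      simp only [pr, Rat.num_zero, Int.natAbs_zero, Nat.cast_zero]
      linarith
    · refine hle _ _ ?_ (root_num hr0 h0) (hP _)
      rw [Ne, trailingCoeff_eq_zero]
      exact hP0
  · simp only [Int.natAbs_one, Nat.cast_one, Int.natAbs_zero, Nat.cast_zero]
    exact ⟨hH, by linarith⟩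

/-- the determinant of two points -/
def dtp (α β : ℤ × ℤ) : ℤ := α.1 * β.2 - β.1 * α.2

lemma dtp_ne {D D' : ℕ} {P P' : ℤ[X]} {α β : ℤ × ℤ} (hα : α ∈ pts1 D P) (hβ : β ∈ pts1 D' P') (h : α ≠ β) :
    dtp α β ≠ 0 := by
  unfold dtp
  rcases mem_pts1.1 hα with ⟨r, -, rfl⟩ | ⟨-, rfl⟩ <;> rcases mem_pts1.1 hβ with ⟨s, -, rfl⟩ | ⟨-, rfl⟩
  · intro h0
    apply h
    congr 1
    rw [Rat.eq_iff_mul_eq_mul]
    simp only [pr] at h0
    linarith
  · simp only [pr]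
    have := r.den_pos
    omega
  · simp only [pr]
    have := s.den_pos
    omega
  · exact absurd rfl h

lemma dvd_dtp {α β x : ℤ × ℤ} (hx : IsCoprime x.1 x.2) {p : ℤ} (h1 : p ∣ lin α x) (h2 : p ∣ lin β x) :
    p ∣ dtp α β := by
  obtain ⟨r, s, hrs⟩ := hx
  have h3 : dtp α β = -((lin α x * β.1 - lin β x * α.1) * r + (lin α x * β.2 - lin β x * α.2) * s) := by
    have : dtp α β = dtp α β * (r * x.1 + s * x.2) := by rw [hrs, mul_one]
    rw [this]
    unfold dtp lin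
    ring
  rw [h3]
  exact dvd_neg.2 (dvd_add (Dvd.dvd.mul_right (dvd_sub (Dvd.dvd.mul_right h1 _) (Dvd.dvd.mul_right h2 _)) _)
        (Dvd.dvd.mul_right (dvd_sub (Dvd.dvd.mul_right h1 _) (Dvd.dvd.mul_right h2 _)) _))

lemma dtp_le {H : ℝ} {α β : ℤ × ℤ} (h1 : (α.1.natAbs : ℝ) ≤ H ∧ (α.2.natAbs : ℝ) ≤ H)
    (h2 : (β.1.natAbs : ℝ) ≤ H ∧ (β.2.natAbs : ℝ) ≤ H) : ((dtp α β).natAbs : ℝ) ≤ 2 * H ^ 2 := by
  have h3 : (dtp α β).natAbs ≤ α.1.natAbs * β.2.natAbs + β.1.natAbs * α.2.natAbs := by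
    unfold dtp
    refine (Int.natAbs_sub_le _ _).trans ?_
    rw [Int.natAbs_mul, Int.natAbs_mul]
  have hH : 0 ≤ H := le_trans (Nat.cast_nonneg _) h1.1
  have h4 : ((dtp α β).natAbs : ℝ) ≤ α.1.natAbs * β.2.natAbs + β.1.natAbs * α.2.natAbs := by exact_mod_cast h3
  refine h4.trans ?_
  have h5 : (α.1.natAbs : ℝ) * β.2.natAbs ≤ H * H := mul_le_mul h1.1 h2.2 (Nat.cast_nonneg _) hH
  have h6 : (β.1.natAbs : ℝ) * α.2.natAbs ≤ H * H := mul_le_mul h2.1 h1.2 (Nat.cast_nonneg _) hH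
  linarith

lemma disjoint_pts1 {D : ℕ} {P P' : ℤ[X]}
    (hcop : IsCoprime (P.map (Int.castRingHom ℚ)) (P'.map (Int.castRingHom ℚ)))
    (hinf : P.natDegree = D ∨ P'.natDegree = D) {α : ℤ × ℤ} (hα : α ∈ pts1 D P) (hα' : α ∈ pts1 D P') : False := by
  rcases mem_pts1.1 hα with ⟨r, hr, h1⟩ | ⟨h1, h2⟩ <;> rcases mem_pts1.1 hα' with ⟨s, hs, h3⟩ | ⟨h3, h4⟩
  · have hrs : r = s := by
      by_contra hne
      have : dtp (pr r) (pr s) ≠ 0 := by
        unfold dtp pr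
        simp only
        intro h0
        apply hne
        rw [Rat.eq_iff_mul_eq_mul]
        linarith
      apply this
      rw [h1, h3]
      unfold dtp
      ring
    subst hrs
    obtain ⟨a, b, hab⟩ := hcop
    have e1 : (P.map (Int.castRingHom ℚ)).eval r = 0 := (mem_roots'.1 hr).2
    have e2 : (P'.map (Int.castRingHom ℚ)).eval r = 0 := (mem_roots'.1 hs).2
    have e3 := congrArg (Polynomial.eval r) hab
    rw [eval_add, eval_mul, eval_mul, e1, e2, eval_one] at e3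
    simp at e3
  · rw [h4] at h1
    have := congrArg Prod.snd h1
    simp only [pr] at this
    have := r.den_pos
    omega
  · rw [h2] at h3
    have := congrArg Prod.snd h3
    simp only [pr] at this
    have := s.den_pos
    omega
  · omega

end Pool.Agent.W5h9.GC
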