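import Pool.Agent.W5h9.GC.NC2

/-!
# The radical of the tuples on split rational curves at good points
-/

set_option autoImplicit false

namespace Pool.Agent.W5h9.GC

open Polynomial

/-- a primitive tuple proportional to an integral tuple -/
lemma prim_dvd {n : ℕ} {z F : Fin n → ℤ} (hprim : ∀ d : ℤ, (∀ i, d ∣ z i) → IsUnit d) {A B : ℤ} (hA : A ≠ 0) (hB : B ≠ 0)
    (h : ∀ i, B * z i = A * F i) : ∃ v : ℤ, v ≠ 0 ∧ ∀ i, F i = v * z i := by
  have hg : 0 < Int.gcd A B := Nat.pos_of_ne_zero (by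
    rw [Ne, Int.gcd_eq_zero_iff]
    rintro ⟨h1, -⟩
    exact hA h1)
  obtain ⟨A', B', hcop, hA', hB'⟩ := Int.exists_gcd_one hg
  set g : ℤ := (Int.gcd A B : ℤ) with hgdef
  have hg0 : g ≠ 0 := by rw [hgdef]; exact_mod_cast hg.ne'
  have h1 : ∀ i, B' * z i = A' * F i := by
    intro i
    have h2 := h i
    rw [hA', hB'] at h2
    exact mul_left_cancel₀ hg0 (by linarith)
  have hunit : IsUnit A' := by
    apply hprim
    intro i
    have h2 : A' ∣ B' * z i := ⟨F i, h1 i⟩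
    exact (Int.isCoprime_iff_gcd_eq_one.2 hcop).dvd_of_dvd_mul_left h2
  have hB0 : B' ≠ 0 := by
    rintro rfl
    exact hB (by rw [hB', zero_mul])
  rcases Int.isUnit_iff.1 hunit with h2 | h2
  · refine ⟨B', hB0, fun i => ?_⟩
    rw [h1 i, h2, one_mul]
  · refine ⟨-B', neg_ne_zero.2 hB0, fun i => ?_⟩
    have := h1 i
    rw [h2] at this
    linarith

lemma sum_pf_le {n : ℕ} (hn : n ≠ 0) : ∑ p ∈ n.primeFactors, Real.log p ≤ Real.log n := by
  rw [← Real.log_prod (fun p hp => by exact_mod_cast (Nat.prime_of_mem_primeFactors hp).ne_zero)]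
  apply Real.log_le_log
  · exact Finset.prod_pos fun p hp => by exact_mod_cast (Nat.prime_of_mem_primeFactors hp).pos
  · have h1 := Nat.le_of_dvd (Nat.pos_of_ne_zero hn) (Nat.prod_primeFactors_dvd n)
    have h2 : ((∏ p ∈ n.primeFactors, p : ℕ) : ℝ) ≤ (n : ℝ) := by exact_mod_cast h1
    rwa [Nat.cast_prod] at h2

lemma sum_biUnion_le {ι : Type*} [DecidableEq ι] (s : Finset ι) (f : ι → Finset ℕ) {g : ℕ → ℝ} (hg : ∀ n, 0 ≤ g n) :
    ∑ p ∈ s.biUnion f, g p ≤ ∑ i ∈ s, ∑ p ∈ f i, g p := by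
  classical
  induction s using Finset.induction_on with
  | empty => simp
  | insert a s ha ih =>
    rw [Finset.biUnion_insert, Finset.sum_insert ha]
    have h1 := Finset.sum_union_inter (s₁ := f a) (s₂ := s.biUnion f) (f := g)
    have h2 : 0 ≤ ∑ p ∈ f a ∩ s.biUnion f, g p := Finset.sum_nonneg fun p _ => hg p
    linarith

/-- all zeros of the curve -/
noncomputable def ptsA {n : ℕ} (D : ℕ) (P : Fin n → ℤ[X]) : Finset (ℤ × ℤ) := Finset.univ.biUnion fun i => pts1 D (P i)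

/-- the excluded primes -/
noncomputable def Tex {n : ℕ} (D : ℕ) (P : Fin n → ℤ[X]) : Finset ℕ :=
  (Finset.univ.biUnion fun i => (P i).leadingCoeff.natAbs.primeFactors) ∪
    (ptsA D P).biUnion fun α => (ptsA D P).biUnion fun β => (dtp α β).natAbs.primeFactors

variable {n D : ℕ} {P : Fin n → ℤ[X]} {H : ℝ}

lemma Tex_prime {p : ℕ} (hp : p ∈ Tex D P) : p.Prime := by
  unfold Tex at hp
  rw [Finset.mem_union] at hp
  rcases hp with hp | hp
  · obtain ⟨i, -, hp⟩ := Finset.mem_biUnion.1 hp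
    exact Nat.prime_of_mem_primeFactors hp
  · obtain ⟨i, -, hp⟩ := Finset.mem_biUnion.1 hp
    obtain ⟨j, -, hp⟩ := Finset.mem_biUnion.1 hp
    exact Nat.prime_of_mem_primeFactors hp

lemma Tex_sum (hH : 1 ≤ H) (hne : ∀ i, P i ≠ 0) (hsm : ∀ i k, |((P i).coeff k : ℝ)| ≤ H) :
    ∑ p ∈ Tex D P, Real.log (p : ℝ) ≤ n * Real.log H + (ptsA D P).card ^ 2 * (Real.log 2 + 2 * Real.log H) := by
  classical
  have hnn : ∀ p : ℕ, 0 ≤ Real.log (p : ℝ) := fun p => Real.log_natCast_nonneg p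
  have hlH : 0 ≤ Real.log H := Real.log_nonneg hH
  have hl2 : 0 ≤ Real.log 2 := Real.log_nonneg (by norm_num)
  unfold Tex
  set A : Finset ℕ := Finset.univ.biUnion fun i => (P i).leadingCoeff.natAbs.primeFactors with hA
  set B : Finset ℕ := (ptsA D P).biUnion fun α => (ptsA D P).biUnion fun β => (dtp α β).natAbs.primeFactors with hB
  have h0 : ∑ p ∈ A ∪ B, Real.log (p : ℝ) ≤ ∑ p ∈ A, Real.log (p : ℝ) + ∑ p ∈ B, Real.log (p : ℝ) := by
    rw [← Finset.sum_union_inter]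
    have : 0 ≤ ∑ p ∈ A ∩ B, Real.log (p : ℝ) := Finset.sum_nonneg fun p _ => hnn p
    linarith
  have h1 : ∑ p ∈ A, Real.log (p : ℝ) ≤ n * Real.log H := by
    refine (sum_biUnion_le _ _ hnn).trans ?_
    have h2 : ∀ i ∈ (Finset.univ : Finset (Fin n)), ∑ p ∈ (P i).leadingCoeff.natAbs.primeFactors, Real.log (p : ℝ) ≤ Real.log H := by
      intro i _
      have h3 : (P i).leadingCoeff ≠ 0 := leadingCoeff_ne_zero.2 (hne i)
      refine (sum_pf_le (Int.natAbs_ne_zero.2 h3)).trans ?_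
      apply Real.log_le_log
      · exact_mod_cast Int.natAbs_pos.2 h3
      · rw [Nat.cast_natAbs, Int.cast_abs]
        exact hsm i _
    refine (Finset.sum_le_sum h2).trans (le_of_eq ?_)
    rw [Finset.sum_const, Finset.card_univ, Fintype.card_fin, nsmul_eq_mul]
  have h2 : ∑ p ∈ B, Real.log (p : ℝ) ≤ (ptsA D P).card ^ 2 * (Real.log 2 + 2 * Real.log H) := by
    refine (sum_biUnion_le _ _ hnn).trans ?_
    have h3 : ∀ α ∈ ptsA D P, ∑ p ∈ (ptsA D P).biUnion (fun β => (dtp α β).natAbs.primeFactors), Real.log (p : ℝ) ≤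
        (ptsA D P).card * (Real.log 2 + 2 * Real.log H) := by
      intro α hα
      refine (sum_biUnion_le _ _ hnn).trans ?_
      have h4 : ∀ β ∈ ptsA D P, ∑ p ∈ (dtp α β).natAbs.primeFactors, Real.log (p : ℝ) ≤ Real.log 2 + 2 * Real.log H := by
        intro β hβ
        by_cases h5 : dtp α β = 0
        · rw [h5]
          simp only [Int.natAbs_zero, Nat.primeFactors_zero, Finset.sum_empty]
          positivity
        · refine (sum_pf_le (Int.natAbs_ne_zero.2 h5)).trans ?_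
          obtain ⟨i, -, hi⟩ := Finset.mem_biUnion.1 hα
          obtain ⟨j, -, hj⟩ := Finset.mem_biUnion.1 hβ
          have h6 := dtp_le (pts1_le (hne i) hH (hsm i) hi) (pts1_le (hne j) hH (hsm j) hj)
          have h7 := Real.log_le_log (by exact_mod_cast Int.natAbs_pos.2 h5) h6
          rwa [Real.log_mul (by norm_num) (by positivity), Real.log_pow, Nat.cast_ofNat] at h7
      refine (Finset.sum_le_sum h4).trans (le_of_eq ?_)
      rw [Finset.sum_const, nsmul_eq_mul]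
    refine (Finset.sum_le_sum h3).trans (le_of_eq ?_)
    rw [Finset.sum_const, nsmul_eq_mul]
    ring
  linarith

/-- **The radical at good points.** -/
theorem nc_key (hH : 1 ≤ H) (hn : ∀ i : Fin n, ∃ j, i ≠ j) (hne : ∀ i, P i ≠ 0)
    (hsp : ∀ i, ((P i).map (Int.castRingHom ℚ)).Splits)
    (hcop : ∀ i j, i ≠ j → IsCoprime ((P i).map (Int.castRingHom ℚ)) ((P j).map (Int.castRingHom ℚ)))
    (hinf : ∀ i j, i ≠ j → (P i).natDegree = D ∨ (P j).natDegree = D)
    (hdeg : ∀ i, (P i).natDegree ≤ D) (hsm : ∀ i k, |((P i).coeff k : ℝ)| ≤ H)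
    {ε κ : ℝ} {x : ℤ × ℤ} (hx1 : IsCoprime x.1 x.2) (hx2 : 0 < x.2) (hgood : Good ε κ x)
    (h1 : Real.log H ≤ κ * hgt x)
    (h2 : n * Real.log H + (ptsA D P).card ^ 2 * (Real.log 2 + 2 * Real.log H) ≤ κ * hgt x) :
    (∀ i, Fv D (P i) x ≠ 0) ∧ ∀ z : Fin n → ℤ, (∀ i, z i ≠ 0) → ∀ v : ℤ, (∀ i, Fv D (P i) x = v * z i) →
      (∀ d : ℤ, (∀ i, d ∣ z i) → IsUnit d) →
      (1 - ε) * (ptsA D P).card * hgt x ≤ ∑ p ∈ (∏ i, z i).natAbs.primeFactors, Real.log (p : ℝ) := by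
  classical
  set S := ptsA D P with hS
  -- the enumeration of the zeros
  set e : Fin S.card ≃ S := S.equivFin.symm with he
  have hα : ∀ k : Fin S.card, IsCoprime (e k).1.1 (e k).1.2 ∧ hgt (e k).1 ≤ κ * hgt x := by
    intro k
    obtain ⟨i, -, hi⟩ := Finset.mem_biUnion.1 (show (e k).1 ∈ Finset.univ.biUnion fun i => pts1 D (P i) from (e k).2)
    have hc := pts1_coprime hi
    refine ⟨hc, le_trans ?_ h1⟩
    obtain ⟨h3, h4⟩ := pts1_le (hne i) hH (hsm i) hi
    unfold hgt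
    have h5 : 0 < max (e k).1.1.natAbs (e k).1.2.natAbs := by
      by_contra h6
      have h7 : (e k).1.1 = 0 := Int.natAbs_eq_zero.1 (by
        have := le_max_left (e k).1.1.natAbs (e k).1.2.natAbs
        omega)
      have h8 : (e k).1.2 = 0 := Int.natAbs_eq_zero.1 (by
        have := le_max_right (e k).1.1.natAbs (e k).1.2.natAbs
        omega)
      rw [h7, h8] at hc
      exact not_isCoprime_zero_zero hc
    apply Real.log_le_log (by exact_mod_cast h5)
    rcases max_choice (e k).1.1.natAbs (e k).1.2.natAbs with h6 | h6 <;> rw [h6] <;> assumption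
  obtain ⟨g1, g2⟩ := hgood S.card (fun k => (e k).1) (Tex D P) hα (fun p hp => Tex_prime hp) ((Tex_sum hH hne hsm).trans h2)
  have hlin : ∀ α ∈ S, lin α x ≠ 0 := by
    intro α hα
    have := g1 (e.symm ⟨α, hα⟩)
    rw [Equiv.apply_symm_apply] at this
    exact this
  have hFne : ∀ i, Fv D (P i) x ≠ 0 := by
    intro i h0
    have hprod := Fv_prod (hdeg i) (hsp i) hx2.ne'
    rw [h0, mul_zero] at hprod
    have h3 : ((((P i).map (Int.castRingHom ℚ)).roots.map fun r : ℚ => lin (pr r) x).prod) ≠ 0 := by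
      rw [Ne, Multiset.prod_eq_zero_iff, Multiset.mem_map]
      rintro ⟨r, hr, h4⟩
      refine hlin (pr r) ?_ h4
      rw [hS]
      exact Finset.mem_biUnion.2 ⟨i, Finset.mem_univ _, mem_pts1.2 (Or.inl ⟨r, hr, rfl⟩)⟩
    exact mul_ne_zero (mul_ne_zero (leadingCoeff_ne_zero.2 (hne i)) h3) (pow_ne_zero _ hx2.ne') hprod.symm
  refine ⟨hFne, fun z hz v hv hprim => ?_⟩
  -- the primes
  have hkey : ∀ α ∈ S, ∀ p : ℕ, p ∈ (lin α x).natAbs.primeFactors \ Tex D P → p ∈ (∏ i, z i).natAbs.primeFactors := by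
    intro α hα p hp
    rw [Finset.mem_sdiff] at hp
    have hpp := Nat.prime_of_mem_primeFactors hp.1
    have hpI : Prime (p : ℤ) := Nat.prime_iff_prime_int.1 hpp
    have hpl : (p : ℤ) ∣ lin α x := Int.natCast_dvd.2 (Nat.dvd_of_mem_primeFactors hp.1)
    have hlc : ∀ i, ¬ (p : ℤ) ∣ (P i).leadingCoeff := by
      intro i h3
      apply hp.2
      unfold Tex
      refine Finset.mem_union_left _ (Finset.mem_biUnion.2 ⟨i, Finset.mem_univ _, ?_⟩)
      exact Nat.mem_primeFactors.2 ⟨hpp, Int.natCast_dvd.1 h3, Int.natAbs_ne_zero.2 (leadingCoeff_ne_zero.2 (hne i))⟩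
    have hdt : ∀ β ∈ S, β ≠ α → ¬ (p : ℤ) ∣ lin β x := by
      intro β hβ hne' h3
      have h4 := dvd_dtp hx1 hpl h3
      obtain ⟨i, -, hi⟩ := Finset.mem_biUnion.1 (hS ▸ hα)
      obtain ⟨j, -, hj⟩ := Finset.mem_biUnion.1 (hS ▸ hβ)
      have h5 := dtp_ne hi hj (Ne.symm hne')
      apply hp.2
      unfold Tex
      refine Finset.mem_union_right _ (Finset.mem_biUnion.2 ⟨α, hα, Finset.mem_biUnion.2 ⟨β, hβ, ?_⟩⟩)
      exact Nat.mem_primeFactors.2 ⟨hpp, Int.natCast_dvd.1 h4, Int.natAbs_ne_zero.2 h5⟩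
    obtain ⟨i, -, hi⟩ := Finset.mem_biUnion.1 (hS ▸ hα)
    have h3 : (p : ℤ) ∣ Fv D (P i) x := (dvd_Fv_iff (hne i) (hdeg i) (hsp i) hx2.ne' hpI (hlc i)).2 ⟨α, hi, hpl⟩
    have h4 : ¬ (p : ℤ) ∣ v := by
      intro h5
      obtain ⟨j, hij⟩ := hn i
      have h6 : (p : ℤ) ∣ Fv D (P j) x := by
        rw [hv j]
        exact Dvd.dvd.mul_right h5 _
      obtain ⟨β, hβ, h7⟩ := (dvd_Fv_iff (hne j) (hdeg j) (hsp j) hx2.ne' hpI (hlc j)).1 h6
      by_cases h8 : β = α
      · subst h8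
        exact disjoint_pts1 (hcop i j hij) (hinf i j hij) hi hβ
      · refine hdt β ?_ h8 h7
        rw [hS]
        exact Finset.mem_biUnion.2 ⟨j, Finset.mem_univ _, hβ⟩
    rw [hv i] at h3
    have h5 : (p : ℤ) ∣ z i := (hpI.dvd_or_dvd h3).resolve_left h4
    have h6 : (p : ℤ) ∣ ∏ i, z i := h5.trans (Finset.dvd_prod_of_mem _ (Finset.mem_univ i))
    exact Nat.mem_primeFactors.2 ⟨hpp, Int.natCast_dvd.1 h6, Int.natAbs_ne_zero.2 (Finset.prod_ne_zero_iff.2 fun i _ => hz i)⟩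
  have hdisj : (Set.univ : Set (Fin S.card)).PairwiseDisjoint fun k => (lin (e k).1 x).natAbs.primeFactors \ Tex D P := by
    intro k _ l _ hkl
    rw [Function.onFun, Finset.disjoint_left]
    intro p hp hp'
    rw [Finset.mem_sdiff] at hp hp'
    have hpp := Nat.prime_of_mem_primeFactors hp.1
    have h3 := dvd_dtp hx1 (Int.natCast_dvd.2 (Nat.dvd_of_mem_primeFactors hp.1) : (p : ℤ) ∣ _)
      (Int.natCast_dvd.2 (Nat.dvd_of_mem_primeFactors hp'.1) : (p : ℤ) ∣ _)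
    have hne' : (e k).1 ≠ (e l).1 := by
      intro h4
      exact hkl (e.injective (Subtype.ext h4))
    obtain ⟨i, -, hi⟩ := Finset.mem_biUnion.1 (show (e k).1 ∈ Finset.univ.biUnion fun i => pts1 D (P i) from (e k).2)
    obtain ⟨j, -, hj⟩ := Finset.mem_biUnion.1 (show (e l).1 ∈ Finset.univ.biUnion fun i => pts1 D (P i) from (e l).2)
    have h5 := dtp_ne hi hj hne'
    apply hp.2
    unfold Tex
    refine Finset.mem_union_right _ (Finset.mem_biUnion.2 ⟨(e k).1, (e k).2, Finset.mem_biUnion.2 ⟨(e l).1, (e l).2, ?_⟩⟩)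
    exact Nat.mem_primeFactors.2 ⟨hpp, Int.natCast_dvd.1 h3, Int.natAbs_ne_zero.2 h5⟩
  calc (1 - ε) * S.card * hgt x ≤ ∑ k, N1 (e k).1 (Tex D P) x := g2
    _ = ∑ p ∈ Finset.univ.biUnion fun k : Fin S.card => (lin (e k).1 x).natAbs.primeFactors \ Tex D P, Real.log (p : ℝ) := by
        rw [Finset.sum_biUnion]
        · rfl
        · simpa using hdisj
    _ ≤ _ := by
        refine Finset.sum_le_sum_of_subset_of_nonneg ?_ fun p _ _ => Real.log_natCast_nonneg p
        intro p hp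
        obtain ⟨k, -, hp⟩ := Finset.mem_biUnion.1 hp
        exact hkey _ (e k).2 p hp

end Pool.Agent.W5h9.GC
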