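import Pool.Agent.W5h9.GC.NC3

/-!
# The strong n-conjecture on split rational curves at good points
-/

set_option autoImplicit false

namespace Pool.Agent.W5h9.GC

open Polynomial Filter

/-- the inequality at the good points -/
theorem nc_good (n D q : ℕ) {M ε κ : ℝ} (hM : 0 < M) (hκ : 0 < κ) (hs : (D : ℝ) < M * ((1 - ε) * q)) :
    ∃ κ₂ H₀ : ℝ, 0 < κ₂ ∧ κ₂ ≤ κ ∧ ∀ x : ℤ × ℤ, IsCoprime x.1 x.2 → 0 < x.2 → H₀ ≤ hgt x → Good ε κ x →
      ∀ P : Fin n → ℤ[X], (∀ i : Fin n, ∃ j, i ≠ j) → (∀ i, P i ≠ 0) →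
      (∀ i, ((P i).map (Int.castRingHom ℚ)).Splits) →
      (∀ i j, i ≠ j → IsCoprime ((P i).map (Int.castRingHom ℚ)) ((P j).map (Int.castRingHom ℚ))) →
      (∀ i j, i ≠ j → (P i).natDegree = D ∨ (P j).natDegree = D) →
      (∀ i, (P i).natDegree ≤ D) → (∀ i k, |((P i).coeff k : ℝ)| ≤ Real.exp (κ₂ * hgt x)) → (ptsA D P).card = q →
      (∀ i, aeval ((x.1 : ℚ) / x.2) (P i) ≠ 0) ∧ ∀ z : Fin n → ℤ, (∀ d : ℤ, (∀ i, d ∣ z i) → IsUnit d) →
        (∃ r : ℚ, ∀ i, (z i : ℚ) = r * aeval ((x.1 : ℚ) / x.2) (P i)) →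
        ∀ i, |(z i : ℝ)| ≤ ((∏ p ∈ (∏ i, z i).natAbs.primeFactors, p : ℕ) : ℝ) ^ M := by
  set s : ℝ := M * ((1 - ε) * q) - D with hsdef
  have hs0 : 0 < s := by rw [hsdef]; linarith
  set c : ℝ := (n : ℝ) + 2 * (q : ℝ) ^ 2 + 1 with hc
  have hc1 : 1 ≤ c := by
    rw [hc]
    have : (0 : ℝ) ≤ (n : ℝ) + 2 * (q : ℝ) ^ 2 := by positivity
    linarith
  have hl2 : 0 < Real.log 2 := Real.log_pos (by norm_num)
  refine ⟨min (κ / (2 * c)) (s / 2), max 0 (max (2 * ((q : ℝ) ^ 2 * Real.log 2) / κ) (2 * Real.log (D + 1) / s)),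
    lt_min (by positivity) (by positivity), ?_, ?_⟩
  · refine (min_le_left _ _).trans ?_
    rw [div_le_iff₀ (by positivity)]
    nlinarith
  intro x hx1 hx2 hH hgood P hn hne hsp hcop hinf hdeg hsm hcard
  set κ₂ : ℝ := min (κ / (2 * c)) (s / 2) with hκ₂
  have hκ20 : 0 < κ₂ := lt_min (by positivity) (by positivity)
  have hκ2a : κ₂ * c ≤ κ / 2 := by
    have : κ₂ ≤ κ / (2 * c) := min_le_left _ _
    rw [le_div_iff₀ (by positivity)] at this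
    linarith
  have hκ2b : κ₂ ≤ s / 2 := min_le_right _ _
  set h : ℝ := hgt x with hh
  have h0 : 0 ≤ h := (le_max_left _ _).trans hH
  have b1 : (q : ℝ) ^ 2 * Real.log 2 ≤ κ / 2 * h := by
    have := ((le_max_left _ _).trans (le_max_right _ _)).trans hH
    rw [div_le_iff₀ hκ] at this
    linarith
  have b2 : Real.log (D + 1) ≤ s / 2 * h := by
    have := ((le_max_right _ _).trans (le_max_right _ _)).trans hH
    rw [div_le_iff₀ hs0] at this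
    linarith
  have hlogH : Real.log (Real.exp (κ₂ * h)) = κ₂ * h := Real.log_exp _
  have hH1 : 1 ≤ Real.exp (κ₂ * h) := Real.one_le_exp (by positivity)
  have hκ2c : κ₂ ≤ κ := by nlinarith
  have c1 : Real.log (Real.exp (κ₂ * h)) ≤ κ * h := by
    rw [hlogH]
    gcongr
  have c2 : (n : ℝ) * Real.log (Real.exp (κ₂ * h)) + ((ptsA D P).card : ℝ) ^ 2 * (Real.log 2 + 2 * Real.log (Real.exp (κ₂ * h))) ≤ κ * h := by
    rw [hlogH, hcard]
    have h3 : κ₂ * c * h ≤ κ / 2 * h := mul_le_mul_of_nonneg_right hκ2a h0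
    have h4 : 0 ≤ κ₂ * h := by positivity
    rw [hc] at h3
    nlinarith
  obtain ⟨k1, k2⟩ := nc_key hH1 hn hne hsp hcop hinf hdeg hsm hx1 hx2 hgood c1 c2
  have hx2' : (x.2 : ℚ) ≠ 0 := by exact_mod_cast hx2.ne'
  have k3 : ∀ i, aeval ((x.1 : ℚ) / x.2) (P i) ≠ 0 := by
    intro i h5
    apply k1 i
    have h6 := Fv_cast (hdeg i) hx2.ne'
    rw [h5, mul_zero] at h6
    exact_mod_cast h6
  refine ⟨k3, fun z hprim hr => ?_⟩
  obtain ⟨r, hr⟩ := hr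
  intro i
  have hr0 : r ≠ 0 := by
    rintro rfl
    have h5 : IsUnit (2 : ℤ) := by
      apply hprim
      intro j
      have h6 := hr j
      rw [zero_mul] at h6
      have h7 : z j = 0 := by exact_mod_cast h6
      rw [h7]
      exact dvd_zero _
    rw [Int.isUnit_iff] at h5
    omega
  have hz : ∀ j, z j ≠ 0 := by
    intro j h5
    have h6 := hr j
    rw [h5, Int.cast_zero] at h6
    exact mul_ne_zero hr0 (k3 j) h6.symm
  obtain ⟨v, hv0, hv⟩ : ∃ v : ℤ, v ≠ 0 ∧ ∀ j, Fv D (P j) x = v * z j := by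
    refine prim_dvd hprim (A := r.num) (B := r.den * x.2 ^ D) (Rat.num_ne_zero.2 hr0)
      (mul_ne_zero (by exact_mod_cast r.den_nz) (pow_ne_zero _ hx2.ne')) fun j => ?_
    have h5 : (((r.den : ℤ) * x.2 ^ D * z j : ℤ) : ℚ) = ((r.num * Fv D (P j) x : ℤ) : ℚ) := by
      push_cast
      rw [hr j, Fv_cast (hdeg j) hx2.ne']
      have h6 : (r.num : ℚ) = r * r.den := (Rat.mul_den_eq_num r).symm
      rw [h6]
      ring
    exact_mod_cast h5
  have k4 := k2 z hz v hv hprim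
  rw [hcard] at k4
  set R : ℕ := ∏ p ∈ (∏ i, z i).natAbs.primeFactors, p with hR
  have hR0 : (0 : ℝ) < R := by
    rw [hR]
    exact_mod_cast Finset.prod_pos fun p hp => (Nat.prime_of_mem_primeFactors hp).pos
  have hRlog : Real.log (R : ℝ) = ∑ p ∈ (∏ i, z i).natAbs.primeFactors, Real.log (p : ℝ) := by
    rw [hR, Nat.cast_prod, Real.log_prod]
    intro p hp
    exact_mod_cast (Nat.prime_of_mem_primeFactors hp).ne_zero
  rw [← hRlog] at k4
  -- the size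
  have hzF : |(z i : ℝ)| ≤ |(Fv D (P i) x : ℝ)| := by
    rw [hv i, Int.cast_mul, abs_mul]
    have h5 : (1 : ℝ) ≤ |(v : ℝ)| := by exact_mod_cast Int.one_le_abs hv0
    nlinarith [abs_nonneg (z i : ℝ)]
  have hmax0 : 0 < max x.1.natAbs x.2.natAbs := by
    have : 0 < x.2.natAbs := by omega
    exact lt_of_lt_of_le this (le_max_right _ _)
  have hF := Fv_le (D := D) (hsm i) x
  have hz0 : 0 < |(z i : ℝ)| := by
    rw [abs_pos]
    exact_mod_cast hz i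
  have hlog : Real.log |(z i : ℝ)| ≤ Real.log (D + 1) + κ₂ * h + D * h := by
    have h5 := Real.log_le_log hz0 (hzF.trans hF)
    have hmr : (0 : ℝ) < ((max x.1.natAbs x.2.natAbs : ℕ) : ℝ) := by exact_mod_cast hmax0
    rw [Real.log_mul (by positivity) (by positivity), Real.log_mul (by positivity) (by positivity), Real.log_exp, Real.log_pow] at h5
    exact h5
  have hfin : Real.log |(z i : ℝ)| ≤ M * Real.log R := by
    refine hlog.trans ?_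
    calc Real.log (D + 1) + κ₂ * h + D * h ≤ s / 2 * h + s / 2 * h + D * h := by gcongr
      _ = M * ((1 - ε) * q * h) := by rw [hsdef]; ring
      _ ≤ M * Real.log R := by gcongr
  calc |(z i : ℝ)| = Real.exp (Real.log |(z i : ℝ)|) := (Real.exp_log hz0).symm
    _ ≤ Real.exp (M * Real.log R) := Real.exp_le_exp.2 hfin
    _ = (R : ℝ) ^ M := by rw [Real.rpow_def_of_pos hR0, mul_comm]

open MeasureTheory in
/-- the dimension of the exceptional set of a property which holds near all points which are not bad -/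
theorem dim_of_notBad {𝒜 : Set ℕ} {n : ℕ} (hA : ∀ a ∈ 𝒜, 1 ≤ a ∧ a ≤ n) (hδ : 1 / 2 < δ 𝒜) {ε : ℝ}
    (hε0 : 0 < ε) (hε : ε ≤ 1) (Φ : ℝ → Prop)
    (hΦ : ∀ z ∈ EA 𝒜, ∀ κ : ℝ, 0 < κ → κ < ε → κ < 2 → {x | x ∈ Near κ z ∧ ¬ Good (ε - κ) κ x}.Finite → Φ z) :
    dimH {z | z ∈ EA 𝒜 ∧ ¬ Φ z} ≤ ENNReal.ofReal (δ 𝒜 - ε * (δ 𝒜 - 1 / 2)) := by
  have h1 : ∀ κ : ℝ, 0 < κ → κ < ε → κ < 2 → dimH {z | z ∈ EA 𝒜 ∧ ¬ Φ z} ≤
      ENNReal.ofReal ((2 * δ 𝒜 * (1 + 2 * κ) - (ε - κ) * (2 * δ 𝒜 - 1)) / (2 - κ)) := by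
    intro κ hκ hκε hκ2
    refine le_trans (dimH_mono ?_) (dim_Bad hA hδ (ε := ε - κ) (κ := κ) (ρ := κ) (by linarith) (by linarith) hκ.le hκ.le hκ2)
    rintro z ⟨hz, hnv⟩
    refine ⟨hz, ?_⟩
    intro hfin
    exact hnv (hΦ z hz κ hκ hκε hκ2 hfin)
  have h2 : Filter.Tendsto (fun κ : ℝ => ENNReal.ofReal
      ((2 * δ 𝒜 * (1 + 2 * κ) - (ε - κ) * (2 * δ 𝒜 - 1)) / (2 - κ)))
      (nhdsWithin 0 (Set.Ioi 0)) (nhds (ENNReal.ofReal (δ 𝒜 - ε * (δ 𝒜 - 1 / 2)))) := by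
    apply ENNReal.tendsto_ofReal
    have h3 : ContinuousAt (fun κ : ℝ =>
        (2 * δ 𝒜 * (1 + 2 * κ) - (ε - κ) * (2 * δ 𝒜 - 1)) / (2 - κ)) 0 := by
      apply ContinuousAt.div
      · fun_prop
      · fun_prop
      · norm_num
    have h4 := h3.tendsto.mono_left (nhdsWithin_le_nhds (s := Set.Ioi (0 : ℝ)))
    convert h4 using 2
    ring
  refine ge_of_tendsto h2 ?_
  filter_upwards [Ioo_mem_nhdsGT (show (0 : ℝ) < ε by linarith)] with κ hκ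
  exact h1 κ hκ.1 hκ.2 (by linarith [hκ.2])

open MeasureTheory in
/-- the null set form -/
theorem null_of_dim' {𝒜 : Set ℕ} (hδ : 1 / 2 < δ 𝒜) {ε : ℝ} (hε0 : 0 < ε) {S : Set ℝ}
    (h : dimH S ≤ ENNReal.ofReal (δ 𝒜 - ε * (δ 𝒜 - 1 / 2))) :
    Measure.hausdorffMeasure (δ 𝒜) S = 0 := by
  obtain ⟨-, hd1, hd0⟩ := dimH_EA 𝒜
  have h4 : dimH S < ((δ 𝒜).toNNReal : NNReal) := by
    refine lt_of_le_of_lt h ?_
    have h5 : ENNReal.ofReal (δ 𝒜 - ε * (δ 𝒜 - 1 / 2)) < ENNReal.ofReal (δ 𝒜) := by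
      apply (ENNReal.ofReal_lt_ofReal_iff (by linarith)).2
      have : 0 < ε * (δ 𝒜 - 1 / 2) := mul_pos (by positivity) (by linarith)
      linarith
    exact h5
  have h5 := hausdorffMeasure_of_dimH_lt h4
  rwa [Real.coe_toNNReal _ hd0] at h5

/-- from good points to all but finitely many points near `z` -/
theorem fin_of_good {z κ κ' ε H₀ : ℝ} (hκ' : κ' ≤ κ) (hκ2 : κ' < 2) (hfin : {x | x ∈ Near κ z ∧ ¬ Good ε κ x}.Finite)
    {Ψ : ℤ × ℤ → Prop} (h : ∀ x : ℤ × ℤ, IsCoprime x.1 x.2 → 0 < x.2 → H₀ ≤ hgt x → Good ε κ x → Ψ x) :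
    {x | x ∈ Near κ' z ∧ ¬ Ψ x}.Finite := by
  have h2 : {x | x ∈ Near κ' z ∧ x.2 < (⌈Real.exp H₀⌉₊ : ℕ)}.Finite := near_finite hκ2 _
  refine (hfin.union h2).subset ?_
  rintro x ⟨hx, hnot⟩
  have hx' : x ∈ Near κ z := by
    refine ⟨hx.1, hx.2.1, hx.2.2.trans ?_⟩
    apply Real.rpow_le_rpow_of_exponent_le
    · exact_mod_cast hx.2.1
    · linarith
  by_cases hg : Good ε κ x
  · right
    refine ⟨hx, ?_⟩
    by_contra hcon
    push Not at hcon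
    apply hnot
    have h3 : H₀ ≤ hgt x := by
      have h4 : Real.exp H₀ ≤ x.2 := (Nat.le_ceil _).trans (by exact_mod_cast hcon)
      have h5 : (x.2 : ℝ) ≤ ((max x.1.natAbs x.2.natAbs : ℕ) : ℝ) := by
        have h6 : x.2 ≤ ((max x.1.natAbs x.2.natAbs : ℕ) : ℤ) := by
          have h7 : x.2.natAbs ≤ max x.1.natAbs x.2.natAbs := le_max_right _ _
          omega
        have h7 : ((x.2 : ℤ) : ℝ) ≤ (((max x.1.natAbs x.2.natAbs : ℕ) : ℤ) : ℝ) := Int.cast_le.2 h6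
        rwa [Int.cast_natCast] at h7
      have h6 : 0 < Real.exp H₀ := Real.exp_pos _
      exact (Real.le_log_iff_exp_le (by linarith)).2 (h4.trans h5)
    exact h x hx.1 hx.2.1 h3 hg
  · exact Or.inl ⟨hx', hg⟩

end Pool.Agent.W5h9.GC
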