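import Pool.Agent.W5h9.GC.CF

/-!
# The sieve for the words: values of linear forms divisible by a given number
-/

set_option autoImplicit false

namespace Pool.Agent.W5h9.GC

open ENNReal

/-- the words with letters in `𝒜` -/
abbrev W (𝒜 : Set ℕ) : Type := {w : List ℕ // ∀ a ∈ w, a ∈ 𝒜}

/-- the value of the linear form at the point `[0; w]` -/
def lf (l : ℤ × ℤ) (w : List ℕ) : ℤ := l.1 * (K w).1 + l.2 * (K w).2

/-- `q(w) ^ (-σ)` -/
noncomputable def qs (σ : ℝ) (w : List ℕ) : ℝ≥0∞ := ENNReal.ofReal (((K w).1 : ℝ) ^ (-σ))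

/-- the sum of `q(w) ^ (-σ)` -/
noncomputable def Z (𝒜 : Set ℕ) (σ : ℝ) : ℝ≥0∞ := ∑' w : W 𝒜, qs σ w.1

lemma lf_append (l : ℤ × ℤ) (u v : List ℕ) : lf l (u ++ v) =
    lf l u * (K v).1 + (l.1 * (K' u).1 + l.2 * (K' u).2) * (K v).2 := by
  unfold lf
  rw [K_append]
  push_cast
  ring

lemma coprime_row {l : ℤ × ℤ} (hl : IsCoprime l.1 l.2) (u : List ℕ) :
    IsCoprime (lf l u) (l.1 * (K' u).1 + l.2 * (K' u).2) := by
  obtain ⟨a, b, h⟩ := hl
  have hd := det_eq u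
  unfold lf
  rcases neg_one_pow_eq_or ℤ u.length with e | e
  · rw [e] at hd
    refine ⟨(K' u).2 * a - (K' u).1 * b, -((K u).2 : ℤ) * a + (K u).1 * b, ?_⟩
    linear_combination (a * l.1 + b * l.2) * hd + h
  · rw [e] at hd
    refine ⟨-((K' u).2 * a - (K' u).1 * b), -(-((K u).2 : ℤ) * a + (K u).1 * b), ?_⟩
    linear_combination -(a * l.1 + b * l.2) * hd + h

lemma det_dvd {y1 y2 q p q' p' d : ℤ} (hy : IsCoprime y1 y2) (h : d ∣ y1 * q + y2 * p)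
    (h' : d ∣ y1 * q' + y2 * p') : d ∣ q * p' - p * q' := by
  obtain ⟨a, b, hab⟩ := hy
  have e : q * p' - p * q' = (a * p' - b * q') * (y1 * q + y2 * p) +
      (-(a * p) + b * q) * (y1 * q' + y2 * p') := by
    linear_combination (-(q * p') + p * q') * hab
  rw [e]
  exact dvd_add (dvd_mul_of_dvd_right h _) (dvd_mul_of_dvd_right h' _)

lemma K_eq_of_dvd {y1 y2 : ℤ} {d : ℕ} (hy : IsCoprime y1 y2) {v v' : List ℕ} (hv : Pos v) (hv' : Pos v')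
    (h1 : (K v).1 ^ 2 < d) (h1' : (K v').1 ^ 2 < d) (h : (d : ℤ) ∣ y1 * (K v).1 + y2 * (K v).2)
    (h' : (d : ℤ) ∣ y1 * (K v').1 + y2 * (K v').2) : K v = K v' := by
  have h2 := det_dvd hy h h'
  have h3 := K_le hv
  have h3' := K_le hv'
  have h4 : (K v).1 * (K v').1 < d := by
    by_contra hcon
    have : d * d ≤ ((K v).1 * (K v').1) * ((K v).1 * (K v').1) := Nat.mul_le_mul (by omega) (by omega)
    have h5 : (K v).1 ^ 2 * (K v').1 ^ 2 < d * d := Nat.mul_lt_mul'' h1 h1'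
    nlinarith
  have h5 : |((K v).1 : ℤ) * (K v').2 - (K v).2 * (K v').1| < d := by
    rw [abs_lt]
    have a1 : (K v).1 * (K v').2 ≤ (K v).1 * (K v').1 := Nat.mul_le_mul_left _ h3'.1
    have a2 : (K v).2 * (K v').1 ≤ (K v).1 * (K v').1 := Nat.mul_le_mul_right _ h3.1
    have a3 : (K v).1 * (K v').2 < d := by omega
    have a4 : (K v).2 * (K v').1 < d := by omega
    have a3' : ((K v).1 : ℤ) * (K v').2 < d := by exact_mod_cast a3
    have a4' : ((K v).2 : ℤ) * (K v').1 < d := by exact_mod_cast a4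
    have a5 : (0 : ℤ) ≤ ((K v).1 : ℤ) * (K v').2 := by positivity
    have a6 : (0 : ℤ) ≤ ((K v).2 : ℤ) * (K v').1 := by positivity
    constructor <;> linarith
  have h6 : ((K v).1 : ℤ) * (K v').2 - (K v).2 * (K v').1 = 0 := by
    apply Int.eq_zero_of_abs_lt_dvd h2 h5
  have c1 := K_coprime v
  have c2 := K_coprime v'
  have h7 : (K v).1 * (K v').2 = (K v).2 * (K v').1 := by exact_mod_cast (by linarith : ((K v).1 : ℤ) * (K v').2 = (K v).2 * (K v').1)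
  have c1' : Nat.Coprime (K v).1 (K v).2 := Nat.isCoprime_iff_coprime.1 c1
  have c2' : Nat.Coprime (K v').1 (K v').2 := Nat.isCoprime_iff_coprime.1 c2
  have d1 : (K v).1 ∣ (K v').1 := by
    apply c1'.dvd_of_dvd_mul_left
    rw [← h7]
    exact dvd_mul_right _ _
  have d2 : (K v').1 ∣ (K v).1 := by
    apply c2'.dvd_of_dvd_mul_right
    rw [h7]
    exact dvd_mul_left _ _
  have e1 : (K v).1 = (K v').1 := Nat.dvd_antisymm d1 d2
  refine Prod.ext e1 ?_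
  rw [← e1] at h7
  have : (K v).1 * (K v').2 = (K v).1 * (K v).2 := by rw [h7, mul_comm]
  exact (Nat.eq_of_mul_eq_mul_left (by omega) this).symm

/-- the longest suffix with `q(v)² < d` -/
lemma exists_split {A d : ℕ} (hd : 1 < d) : ∀ {w : List ℕ}, Pos w → (∀ a ∈ w, a ≤ A) → d ≤ (K w).1 ^ 2 →
    ∃ u v, w = u ++ v ∧ (K v).1 ^ 2 < d ∧ d ≤ ((A + 1) * (K v).1) ^ 2 := by
  intro w
  induction w with
  | nil =>
    intro _ _ h
    simp [K] at h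
    omega
  | cons a w ih =>
    intro hw hA h
    by_cases h1 : d ≤ (K w).1 ^ 2
    · obtain ⟨u, v, e, h2, h3⟩ := ih hw.tail (fun b hb => hA b (List.mem_cons_of_mem _ hb)) h1
      exact ⟨a :: u, v, by rw [e]; rfl, h2, h3⟩
    · refine ⟨[a], w, rfl, by omega, h.trans ?_⟩
      apply Nat.pow_le_pow_left
      refine (q_cons_le hw.tail).trans ?_
      exact Nat.mul_le_mul_right _ (by have := hA a List.mem_cons_self; omega)

variable {𝒜 : Set ℕ} {A : ℕ}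

theorem sieve (hA : ∀ a ∈ 𝒜, 1 ≤ a ∧ a ≤ A) {σ : ℝ} (hσ : 0 ≤ σ) {d : ℕ} (hd : 1 < d) {l : ℤ × ℤ}
    (hl : IsCoprime l.1 l.2) :
    ∑' w : {w : W 𝒜 // d ≤ (K w.1).1 ^ 2 ∧ (d : ℤ) ∣ lf l w.1}, qs σ w.1.1 ≤
      ENNReal.ofReal (2 * ((A : ℝ) + 1) ^ σ * (d : ℝ) ^ (-(σ / 2))) * Z 𝒜 σ := by
  classical
  have hpos : ∀ w : W 𝒜, Pos w.1 := fun w a ha => (hA a (w.2 a ha)).1
  have hsp : ∀ w : {w : W 𝒜 // d ≤ (K w.1).1 ^ 2 ∧ (d : ℤ) ∣ lf l w.1}, ∃ u v, w.1.1 = u ++ v ∧ (K v).1 ^ 2 < d ∧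
      d ≤ ((A + 1) * (K v).1) ^ 2 := fun w =>
    exists_split hd (hpos w.1) (fun a ha => (hA a (w.1.2 a ha)).2) w.2.1
  choose u v hw hv1 hv2 using hsp
  have hu : ∀ w, ∀ a ∈ u w, a ∈ 𝒜 := fun w a ha => w.1.2 a (by rw [hw w]; exact List.mem_append_left _ ha)
  have hvp : ∀ w, Pos (v w) := fun w => Pos.right (u := u w) (by rw [← hw w]; exact hpos w.1)
  set φ : {w : W 𝒜 // d ≤ (K w.1).1 ^ 2 ∧ (d : ℤ) ∣ lf l w.1} → W 𝒜 × Bool := fun w =>
    (⟨u w, hu w⟩, decide ((v w).getLast? = some 1)) with hφ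
  have hinj : Function.Injective φ := by
    intro w w' h
    simp only [hφ, Prod.mk.injEq, Subtype.mk.injEq, decide_eq_decide] at h
    obtain ⟨h1, h2⟩ := h
    have e1 := w.2.2
    have e2 := w'.2.2
    rw [hw w, lf_append] at e1
    rw [hw w', ← h1, lf_append] at e2
    have h3 : K (v w) = K (v w') := K_eq_of_dvd (coprime_row hl (u w)) (hvp w) (hvp w') (hv1 w) (hv1 w') e1 e2
    have h4 : v w = v w' := K_inj (hvp w) (hvp w') h3 h2
    apply Subtype.ext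
    apply Subtype.ext
    rw [hw w, hw w', h1, h4]
  have hd0 : (0 : ℝ) < d := by exact_mod_cast (by omega : 0 < d)
  have hbound : ∀ w, qs σ w.1.1 ≤ ENNReal.ofReal (((A : ℝ) + 1) ^ σ * (d : ℝ) ^ (-(σ / 2))) * qs σ (φ w).1.1 := by
    intro w
    unfold qs
    rw [← ENNReal.ofReal_mul (by positivity)]
    apply ENNReal.ofReal_le_ofReal
    have h1 : ((K (u w)).1 : ℝ) * (K (v w)).1 ≤ (K w.1.1).1 := by
      rw [hw w]
      exact_mod_cast q_mul_le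
    have h2 : (0 : ℝ) < (K (u w)).1 := by
      exact_mod_cast (K_le (Pos.left (v := v w) (by rw [← hw w]; exact hpos w.1))).2
    have h3 : (0 : ℝ) < (K (v w)).1 := by exact_mod_cast (K_le (hvp w)).2
    have h4 : (d : ℝ) ^ (1 / 2 : ℝ) ≤ ((A : ℝ) + 1) * (K (v w)).1 := by
      rw [← Real.sqrt_eq_rpow]
      apply Real.sqrt_le_iff.2 ⟨by positivity, ?_⟩
      exact_mod_cast hv2 w
    have h5 : (d : ℝ) ^ (1 / 2 : ℝ) / ((A : ℝ) + 1) * (K (u w)).1 ≤ (K w.1.1).1 := by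
      refine le_trans ?_ h1
      rw [mul_comm]
      apply mul_le_mul_of_nonneg_left _ h2.le
      rw [div_le_iff₀ (by positivity)]
      linarith
    have h6 : (0 : ℝ) < (d : ℝ) ^ (1 / 2 : ℝ) / ((A : ℝ) + 1) * (K (u w)).1 := by positivity
    calc ((K w.1.1).1 : ℝ) ^ (-σ) ≤ ((d : ℝ) ^ (1 / 2 : ℝ) / ((A : ℝ) + 1) * (K (u w)).1) ^ (-σ) :=
          Real.rpow_le_rpow_of_nonpos h6 h5 (by linarith)
      _ = ((A : ℝ) + 1) ^ σ * (d : ℝ) ^ (-(σ / 2)) * ((K (u w)).1 : ℝ) ^ (-σ) := by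
          rw [Real.mul_rpow (by positivity) h2.le, Real.div_rpow (by positivity) (by positivity), ← Real.rpow_mul hd0.le,
            Real.rpow_neg (by positivity : (0 : ℝ) ≤ (A : ℝ) + 1), div_inv_eq_mul]
          have : (1 / 2 : ℝ) * -σ = -(σ / 2) := by ring
          rw [this]
          ring
  calc ∑' w : {w : W 𝒜 // d ≤ (K w.1).1 ^ 2 ∧ (d : ℤ) ∣ lf l w.1}, qs σ w.1.1
      ≤ ∑' w : {w : W 𝒜 // d ≤ (K w.1).1 ^ 2 ∧ (d : ℤ) ∣ lf l w.1},
          ENNReal.ofReal (((A : ℝ) + 1) ^ σ * (d : ℝ) ^ (-(σ / 2))) * qs σ (φ w).1.1 := ENNReal.tsum_le_tsum hbound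
    _ ≤ ∑' x : W 𝒜 × Bool, ENNReal.ofReal (((A : ℝ) + 1) ^ σ * (d : ℝ) ^ (-(σ / 2))) * qs σ x.1.1 :=
        ENNReal.tsum_comp_le_tsum_of_injective hinj
          (fun x : W 𝒜 × Bool => ENNReal.ofReal (((A : ℝ) + 1) ^ σ * (d : ℝ) ^ (-(σ / 2))) * qs σ x.1.1)
    _ = ENNReal.ofReal (2 * ((A : ℝ) + 1) ^ σ * (d : ℝ) ^ (-(σ / 2))) * Z 𝒜 σ := by
        rw [ENNReal.tsum_prod']
        simp only [tsum_fintype, Fintype.sum_bool]
        have e : (2 * ((A : ℝ) + 1) ^ σ * (d : ℝ) ^ (-(σ / 2))) =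
            ((A : ℝ) + 1) ^ σ * (d : ℝ) ^ (-(σ / 2)) + ((A : ℝ) + 1) ^ σ * (d : ℝ) ^ (-(σ / 2)) := by ring
        rw [e, ENNReal.ofReal_add (by positivity) (by positivity), add_mul, Z, ← ENNReal.tsum_mul_left,
          ENNReal.tsum_add]

end Pool.Agent.W5h9.GC
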