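import Pool.Agent.Y733.LS.Fin
import Pool.Agent.TH905.VF.Abs

/-!
# Unramified primes and simple poles
-/

set_option autoImplicit false

namespace Pool.Agent.W5h9.GC

open NumberField IsDedekindDomain Height Pool.Agent.H691R3 WithZero
open Pool.Agent.TH905.VF (fv_lt_iff)

variable {K : Type} [Field K] [NumberField K]

lemma not_mem_sq {v : HeightOneSpectrum (𝓞 K)} {p : ℕ} (hp : p.Prime) (hd : ¬ (p : ℤ) ∣ discr K)
    (hv : (p : 𝓞 K) ∈ v.asIdeal) : (p : 𝓞 K) ∉ v.asIdeal ^ 2 := by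
  intro hsq
  have hpZ := Nat.prime_iff_prime_int.1 hp
  have h1 := (not_dvd_discr_iff_forall_mem K (𝓞 K) hpZ).1 hd v.asIdeal v.isPrime (by simpa using hv)
  have h2 : ¬ v.asIdeal ∣ differentIdeal ℤ (𝓞 K) := not_dvd_differentIdeal_iff.2 h1
  have hmax : (Ideal.span {(p : ℤ)}).IsMaximal :=
    PrincipalIdealRing.isMaximal_of_irreducible hpZ.irreducible
  have hbot : Ideal.span {(p : ℤ)} ≠ ⊥ := by
    rw [Ne, Ideal.span_singleton_eq_bot]
    exact hpZ.ne_zero
  have hdvd : v.asIdeal ^ 2 ∣ (Ideal.span {(p : ℤ)}).map (algebraMap ℤ (𝓞 K)) := by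
    rw [Ideal.map_span, Set.image_singleton, Ideal.dvd_iff_le, Ideal.span_singleton_le_iff_mem]
    simpa using hsq
  have h3 := pow_sub_one_dvd_differentIdeal (A := ℤ) v.asIdeal 2 hbot hdvd
  exact h2 (by simpa using h3)

lemma fv_unram {v : HeightOneSpectrum (𝓞 K)} {p : ℕ} (hp : p.Prime) (hd : ¬ (p : ℤ) ∣ discr K)
    (hv : (p : 𝓞 K) ∈ v.asIdeal) : fv v (p : K) = (Nv v)⁻¹ := by
  have hp0 : (p : K) ≠ 0 := by exact_mod_cast hp.ne_zero
  have e : (p : K) = algebraMap (𝓞 K) K (p : 𝓞 K) := by simp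
  have h1 : fv v (p : K) = _ := NumberField.FinitePlace.norm_embedding' (v := v) (x := (p : K))
  have hx' : v.valuation K (p : K) ≠ 0 := (Valuation.ne_zero_iff _).mpr hp0
  have h2 : v.valuation K (p : K) = exp (-1 : ℤ) := by
    have h3 : v.valuation K (p : K) < 1 := by
      rw [e]
      exact (v.valuation_lt_one_iff_mem _).mpr hv
    have h4 : ¬ v.valuation K (p : K) ≤ exp (-(2 : ℕ) : ℤ) := by
      rw [e, HeightOneSpectrum.valuation_of_algebraMap, HeightOneSpectrum.intValuation_le_pow_iff_mem]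
      exact not_mem_sq hp hd hv
    push Not at h4
    obtain ⟨n, hn⟩ : ∃ n : ℤ, v.valuation K (p : K) = exp n :=
      ⟨Multiplicative.toAdd (WithZero.unzero hx'), (WithZero.coe_unzero hx').symm⟩
    rw [hn] at h3 h4 ⊢
    rw [← exp_zero, exp_lt_exp] at h3
    rw [exp_lt_exp] at h4
    congr 1
    push_cast at h4
    omega
  have h5 : WithZero.unzero hx' = Multiplicative.ofAdd (-1 : ℤ) := by
    rw [← WithZero.coe_inj, WithZero.coe_unzero]
    exact h2
  rw [WithZeroMulInt.toNNReal_neg_apply _ hx', h5] at h1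
  rw [h1]
  simp [Nv]

lemma fv_natCast_one {v : HeightOneSpectrum (𝓞 K)} {n : ℕ} (h : (n : 𝓞 K) ∉ v.asIdeal) : fv v (n : K) = 1 := by
  refine le_antisymm ?_ (not_lt.1 fun hlt => h ?_)
  · have : fv v (((n : ℕ) : ℤ) : K) ≤ 1 := Pool.Agent.W125.CV.fv_int v (n : ℤ)
    simpa using this
  · have h1 : v.valuation K ((n : 𝓞 K) : K) < 1 := by
      have h2 : ((n : 𝓞 K) : K) = (n : K) := by simp
      rw [h2, ← map_one (v.valuation K), ← fv_lt_iff, map_one]
      exact hlt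
    exact (v.valuation_lt_one_iff_mem _).mp h1

lemma fv_intCast_one {v : HeightOneSpectrum (𝓞 K)} {n : ℤ} (h : (n : 𝓞 K) ∉ v.asIdeal) : fv v (n : K) = 1 := by
  refine le_antisymm (Pool.Agent.W125.CV.fv_int v n) (not_lt.1 fun hlt => h ?_)
  have h1 : v.valuation K ((n : 𝓞 K) : K) < 1 := by
    have h2 : ((n : 𝓞 K) : K) = (n : K) := by simp
    rw [h2, ← map_one (v.valuation K), ← fv_lt_iff, map_one]
    exact hlt
  exact (v.valuation_lt_one_iff_mem _).mp h1

omit [NumberField K] in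
lemma not_mem_of_coprime {v : HeightOneSpectrum (𝓞 K)} {a b : ℤ} (h : IsCoprime a b) (ha : (a : 𝓞 K) ∈ v.asIdeal) :
    (b : 𝓞 K) ∉ v.asIdeal := by
  intro hb
  obtain ⟨r, s, hrs⟩ := h
  have h2 : ((r * a + s * b : ℤ) : 𝓞 K) ∈ v.asIdeal := by
    push_cast
    exact v.asIdeal.add_mem (v.asIdeal.mul_mem_left _ ha) (v.asIdeal.mul_mem_left _ hb)
  rw [hrs, Int.cast_one] at h2
  exact v.isPrime.ne_top ((Ideal.eq_top_iff_one _).2 h2)

/-- The primes above a set of unramified primes. -/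
lemma sum_above_eq (P : Finset ℕ) (hP : ∀ p ∈ P, p.Prime) (hd : ∀ p ∈ P, ¬ (p : ℤ) ∣ discr K)
    (U : Finset (HeightOneSpectrum (𝓞 K))) (hU : ∀ v, v ∈ U ↔ ∃ p ∈ P, (p : 𝓞 K) ∈ v.asIdeal) :
    ∑ v ∈ U, Real.log (Nv v) = Module.finrank ℚ K * ∑ p ∈ P, Real.log p := by
  set N : ℕ := ∏ p ∈ P, p with hN
  have hN0 : N ≠ 0 := Finset.prod_ne_zero_iff.2 fun p hp => (hP p hp).ne_zero
  have hNK : (N : K) ≠ 0 := by exact_mod_cast hN0
  have hout : ∀ v, v ∉ U → fv v (N : K) = 1 := by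
    intro v hv
    apply fv_natCast_one
    intro hmem
    apply hv
    rw [hU]
    rw [hN, Nat.cast_prod] at hmem
    obtain ⟨p, hp, h⟩ := (Ideal.IsPrime.prod_mem_iff (hp := v.isPrime)).1 hmem
    exact ⟨p, hp, h⟩
  have hin : ∀ v ∈ U, Real.log (fv v (N : K)) = -Real.log (Nv v) := by
    intro v hv
    obtain ⟨p, hp, hpv⟩ := (hU v).1 hv
    have h1 : N = p * ∏ p' ∈ P.erase p, p' := by rw [hN, Finset.mul_prod_erase P (fun p => p) hp]
    have h2 : ((∏ p' ∈ P.erase p, p' : ℕ) : 𝓞 K) ∉ v.asIdeal := by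
      intro h3
      rw [Nat.cast_prod] at h3
      obtain ⟨p', hp', h⟩ := (Ideal.IsPrime.prod_mem_iff (hp := v.isPrime)).1 h3
      rw [Finset.mem_erase] at hp'
      have hc : IsCoprime (p : ℤ) (p' : ℤ) :=
        Nat.isCoprime_iff_coprime.2 ((Nat.coprime_primes (hP p hp) (hP p' hp'.2)).2 (Ne.symm hp'.1))
      exact not_mem_of_coprime hc (by simpa using hpv) (by simpa using h)
    rw [h1, Nat.cast_mul, map_mul, fv_natCast_one h2, mul_one, fv_unram (hP p hp) (hd p hp) hpv, Real.log_inv]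
  have h1 := Pool.Agent.TH905.VF.product_formula hNK U hout
  have h2 : ∑ w : InfinitePlace K, (w.mult : ℝ) * Real.log (w.1 (N : K)) =
      Module.finrank ℚ K * ∑ p ∈ P, Real.log p := by
    have h3 : ∀ w : InfinitePlace K, w.1 (N : K) = N := by
      intro w
      have : w (N : K) = N := by
        rw [← InfinitePlace.norm_embedding_eq w, map_natCast, Complex.norm_natCast]
      exact this
    have h4 : Real.log (N : ℝ) = ∑ p ∈ P, Real.log p := by
      rw [hN, Nat.cast_prod]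
      exact Real.log_prod fun p hp => by exact_mod_cast (hP p hp).ne_zero
    simp only [h3]
    rw [← Finset.sum_mul, h4]
    congr 1
    exact_mod_cast InfinitePlace.sum_mult_eq (K := K)
  rw [h2, Finset.sum_congr rfl hin, Finset.sum_neg_distrib] at h1
  linarith

end Pool.Agent.W5h9.GC
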