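import Pool.Agent.W5h9.GC.Exc
import Pool.Agent.W5h9.GC.Val

/-!
# The dimension of the set of the values with infinitely many exceptional prefixes
-/

set_option autoImplicit false

namespace Pool.Agent.W5h9.GC

open Filter Topology ENNReal MeasureTheory

/-- the prefix as a word over `𝒜` -/
def prW {𝒜 : Set ℕ} {a : ℕ → ℕ} (h : ∀ i, a i ∈ 𝒜) (n : ℕ) : W 𝒜 :=
  ⟨pre a n, by
    intro x hx
    simp only [pre, List.mem_map] at hx
    obtain ⟨i, _, rfl⟩ := hx
    exact h i⟩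

/-- the values whose prefixes are infinitely often in `S` -/
def LS (𝒜 : Set ℕ) (S : Set (W 𝒜)) : Set ℝ :=
  {z | ∃ (a : ℕ → ℕ) (h : ∀ i, a i ∈ 𝒜), val a = z ∧ ∃ᶠ n in atTop, prW h n ∈ S}

theorem dim_LS {𝒜 : Set ℕ} {A : ℕ} (hA : ∀ a ∈ 𝒜, 1 ≤ a ∧ a ≤ A) {S : Set (W 𝒜)} {t : NNReal}
    (hS : ∑' w : S, qs (2 * t) w.1.1 < ⊤) : dimH (LS 𝒜 S) ≤ t := by
  apply dimH_le_of_hausdorffMeasure_ne_top
  have hpos : ∀ w : W 𝒜, Pos w.1 := fun w a ha => (hA a (w.2 a ha)).1
  -- the cylinders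
  set Cy : W 𝒜 → Set ℝ := fun w => {z | ∃ (a : ℕ → ℕ), (∀ i, a i ∈ 𝒜) ∧ val a = z ∧ pre a w.1.length = w.1} with hCy
  have hdiam : ∀ w : W 𝒜, Metric.ediam (Cy w) ≤ ENNReal.ofReal (((K w.1).1 : ℝ) ^ (-(2 : ℝ))) := by
    intro w
    apply Metric.ediam_le
    rintro x ⟨a, ha, rfl, h1⟩ y ⟨b, hb, rfl, h2⟩
    rw [edist_dist, Real.dist_eq]
    apply ENNReal.ofReal_le_ofReal
    have h3 := val_cyl (a := a) (b := b) (fun i => (hA _ (ha i)).1) (fun i => (hA _ (hb i)).1) (h1.trans h2.symm)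
    rw [h1] at h3
    refine h3.trans (le_of_eq ?_)
    rw [Real.rpow_neg (Nat.cast_nonneg _), one_div]
    norm_cast
  have hcount : Countable (W 𝒜) := inferInstance
  -- the covers
  set ι : ℕ → Type := fun N => {w : S // N ≤ w.1.1.length} with hι
  have hιc : ∀ N, Countable (ι N) := fun N => inferInstanceAs (Countable {w : S // N ≤ w.1.1.length})
  have hr : Tendsto (fun N : ℕ => ENNReal.ofReal (((2 : ℝ) ^ (N / 2)) ^ (-(2 : ℝ)))) atTop (𝓝 0) := by
    have h1 : Tendsto (fun N : ℕ => ((2 : ℝ) ^ (N / 2)) ^ (-(2 : ℝ))) atTop (𝓝 0) := by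
      apply (tendsto_rpow_neg_atTop (by norm_num : (0 : ℝ) < 2)).comp
      apply (tendsto_pow_atTop_atTop_of_one_lt (by norm_num : (1 : ℝ) < 2)).comp
      exact Nat.tendsto_div_const_atTop (by norm_num)
    have := ENNReal.tendsto_ofReal h1
    rwa [ENNReal.ofReal_zero] at this
  have key := Measure.hausdorffMeasure_le_liminf_tsum (X := ℝ) (ι := ι) (t : ℝ) (LS 𝒜 S) (l := atTop)
    (fun N : ℕ => ENNReal.ofReal (((2 : ℝ) ^ (N / 2)) ^ (-(2 : ℝ)))) hr (fun N w => Cy w.1.1)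
    (Eventually.of_forall fun N w => by
      refine (hdiam _).trans (ENNReal.ofReal_le_ofReal ?_)
      apply Real.rpow_le_rpow_of_nonpos (by positivity) _ (by norm_num)
      have h1 := growth (hpos w.1.1)
      have h2 : 2 ^ (N / 2) ≤ 2 ^ (w.1.1.1.length / 2) :=
        Nat.pow_le_pow_right (by norm_num) (Nat.div_le_div_right w.2)
      exact_mod_cast h2.trans h1)
    (Eventually.of_forall fun N => by
      rintro z ⟨a, ha, rfl, hfr⟩
      obtain ⟨n, hn, hn2⟩ := frequently_atTop.1 hfr N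
      rw [Set.mem_iUnion]
      refine ⟨⟨⟨prW ha n, hn2⟩, ?_⟩, a, ha, rfl, ?_⟩
      · show N ≤ (pre a n).length
        rw [pre_length]
        exact hn
      · show pre a (pre a n).length = pre a n
        rw [pre_length])
  have hsum : ∀ N, ∑' w : ι N, Metric.ediam (Cy w.1.1) ^ (t : ℝ) ≤ ∑' w : S, qs (2 * t) w.1.1 := by
    intro N
    calc ∑' w : ι N, Metric.ediam (Cy w.1.1) ^ (t : ℝ) ≤ ∑' w : ι N, qs (2 * t) w.1.1.1 := by
          refine ENNReal.tsum_le_tsum fun w => ?_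
          refine (ENNReal.rpow_le_rpow (hdiam w.1.1) t.coe_nonneg).trans (le_of_eq ?_)
          rw [ENNReal.ofReal_rpow_of_nonneg (by positivity) t.coe_nonneg]
          unfold qs
          rw [← Real.rpow_mul (Nat.cast_nonneg _)]
          congr 2
          ring
      _ ≤ ∑' w : S, qs (2 * t) w.1.1 :=
          ENNReal.tsum_comp_le_tsum_of_injective (Subtype.val_injective (p := fun w : S => N ≤ w.1.1.length))
            (fun w : S => qs (2 * t) w.1.1)
  refine (lt_of_le_of_lt key ?_).ne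
  refine lt_of_le_of_lt ?_ hS
  calc liminf (fun N => ∑' w : ι N, Metric.ediam (Cy w.1.1) ^ (t : ℝ)) atTop
      ≤ liminf (fun _ : ℕ => ∑' w : S, qs (2 * t) w.1.1) atTop := liminf_le_liminf (Eventually.of_forall hsum)
    _ = ∑' w : S, qs (2 * t) w.1.1 := liminf_const _

end Pool.Agent.W5h9.GC
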